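import Pool.Agent.Work.MP_77a596_an.MSL

set_option autoImplicit false
set_option linter.unusedVariables false
set_option linter.unusedSectionVars false

open Set Metric Filter Topology MeasureTheory Complex

namespace Pool.Agent.Work.MP_77a596_an

variable {P : Type*} [NormedAddCommGroup P] [NormedSpace ℂ P]
variable {E : Type*} [NormedAddCommGroup E] [NormedSpace ℂ E] [CompleteSpace E]
variable {M' : Type*} [NormedRing M'] [NormedAlgebra ℂ M'] [CompleteSpace M'] [NormOneClass M']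
variable {M'' : Type*} [NormedAddCommGroup M''] [NormedSpace ℂ M''] [CompleteSpace M'']

def ann (a b : ℝ) : Set ℂ := {w | a < ‖w‖ ∧ ‖w‖ < b}
def outer (a : ℝ) : Set ℂ := {w | a < ‖w‖}

theorem isOpen_outer (a : ℝ) : IsOpen (outer a) := isOpen_lt continuous_const continuous_norm
theorem isOpen_ann (a b : ℝ) : IsOpen (ann a b) :=
  (isOpen_lt continuous_const continuous_norm).inter (isOpen_lt continuous_norm continuous_const)

theorem ann_eq (a b : ℝ) : ann a b = outer a ∩ ball 0 b := by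
  ext w; simp [ann, outer]

theorem sphere_subset_ann {a b r : ℝ} (h1 : a < r) (h2 : r < b) : sphere (0 : ℂ) r ⊆ ann a b := by
  intro w hw
  rw [mem_sphere_zero_iff_norm] at hw
  exact ⟨by rwa [hw], by rwa [hw]⟩

theorem ann_mono {a b a' b' : ℝ} (h1 : a' ≤ a) (h2 : b ≤ b') : ann a b ⊆ ann a' b' :=
  fun w hw => ⟨h1.trans_lt hw.1, hw.2.trans_le h2⟩

theorem ci_annulus {a b r r' : ℝ} (hr : 0 < r) (har : a < r) (hrr : r ≤ r') (hrb : r' < b)
    {f : ℂ → E} (hf : DifferentiableOn ℂ f (ann a b)) :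
    (∮ z in C(0, r'), f z) = ∮ z in C(0, r), f z := by
  refine Complex.circleIntegral_eq_of_differentiable_on_annulus_off_countable hr hrr
    countable_empty ?_ ?_
  · refine hf.continuousOn.mono ?_
    rintro w ⟨h1, h2⟩
    rw [mem_closedBall_zero_iff] at h1
    rw [mem_ball_zero_iff, not_lt] at h2
    exact ⟨har.trans_le h2, h1.trans_lt hrb⟩
  · rintro w ⟨⟨h1, h2⟩, -⟩
    rw [mem_ball_zero_iff] at h1
    rw [mem_closedBall_zero_iff, not_le] at h2
    exact hf.differentiableAt ((isOpen_ann a b).mem_nhds ⟨har.trans h2, h1.trans hrb⟩)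

theorem ci_zero {b r : ℝ} (hr : 0 ≤ r) (hrb : r < b) {f : ℂ → E}
    (hf : DifferentiableOn ℂ f (ball 0 b)) : (∮ z in C(0, r), f z) = 0 := by
  refine Complex.circleIntegral_eq_zero_of_differentiable_on_off_countable hr countable_empty ?_ ?_
  · exact hf.continuousOn.mono (closedBall_subset_ball hrb)
  · rintro w ⟨h1, -⟩
    exact hf.differentiableAt (isOpen_ball.mem_nhds (ball_subset_ball hrb.le h1))

theorem kernel_out {r : ℝ} {w : ℂ} (hr : 0 ≤ r) (hw : r < ‖w‖) :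
    (∮ ζ in C(0, r), (ζ - w)⁻¹) = 0 := by
  refine ci_zero hr hw ?_
  refine DifferentiableOn.inv (by fun_prop) (fun ζ hζ h => ?_)
  rw [sub_eq_zero] at h
  rw [mem_ball_zero_iff, h] at hζ
  exact lt_irrefl _ hζ

/-- Cauchy formula in an annulus -/
theorem cauchy_ann {a b r r' : ℝ} (hr : 0 < r) (har : a < r) (hrb : r' < b) {w : ℂ}
    (h1 : r < ‖w‖) (h2 : ‖w‖ < r') {f : ℂ → E} (hf : DifferentiableOn ℂ f (ann a b)) :
    (∮ ζ in C(0, r'), (ζ - w)⁻¹ • f ζ) - (∮ ζ in C(0, r), (ζ - w)⁻¹ • f ζ) =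
      (2 * Real.pi * I : ℂ) • f w := by
  have hw : w ∈ ann a b := ⟨har.trans h1, h2.trans hrb⟩
  have hd : DifferentiableOn ℂ (dslope f w) (ann a b) := by
    rw [Complex.differentiableOn_dslope ((isOpen_ann a b).mem_nhds hw)]
    exact hf
  have h3 := ci_annulus hr har (h1.trans h2).le hrb hd
  have hr' : 0 < r' := hr.trans (h1.trans h2)
  have key : ∀ s, 0 < s → a < s → s < b → s ≠ ‖w‖ → (∮ z in C(0, s), dslope f w z) =
      (∮ ζ in C(0, s), (ζ - w)⁻¹ • f ζ) - (∮ ζ in C(0, s), (ζ - w)⁻¹) • f w := by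
    intro s hs has hsb hne
    have hcont : ContinuousOn (fun ζ : ℂ => (ζ - w)⁻¹) (sphere 0 s) := by
      refine ContinuousOn.inv₀ (by fun_prop) (fun ζ hζ h => hne ?_)
      rw [sub_eq_zero] at h
      rw [mem_sphere_zero_iff_norm, h] at hζ
      exact hζ.symm
    have hfc : ContinuousOn f (sphere 0 s) := hf.continuousOn.mono (sphere_subset_ann has hsb)
    have e1 : (∮ ζ in C(0, s), ((ζ - w)⁻¹ • f ζ - (ζ - w)⁻¹ • f w)) =
        (∮ ζ in C(0, s), (ζ - w)⁻¹ • f ζ) - ∮ ζ in C(0, s), (ζ - w)⁻¹ • f w :=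
      circleIntegral.integral_sub (f := fun ζ => (ζ - w)⁻¹ • f ζ) (g := fun ζ => (ζ - w)⁻¹ • f w)
        ((hcont.smul hfc).circleIntegrable hs.le)
        ((hcont.smul continuousOn_const).circleIntegrable hs.le)
    rw [← circleIntegral.integral_smul_const, ← e1]
    refine circleIntegral.integral_congr hs.le (fun ζ hζ => ?_)
    have hζw : ζ ≠ w := by
      rintro rfl
      rw [mem_sphere_zero_iff_norm] at hζ
      exact hne hζ.symm
    rw [dslope_of_ne _ hζw, slope_def_module, smul_sub]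
  rw [key r' hr' (har.trans (h1.trans h2)) hrb h2.ne', key r hr har ((h1.trans h2).trans hrb) h1.ne,
    kernel_out hr.le h1, circleIntegral.integral_sub_inv_of_mem_ball (by simpa using h2),
    zero_smul, sub_zero] at h3
  rw [← h3]; abel

theorem tail_zero {X : E} {q C : ℝ} (hq0 : 0 ≤ q) (hq : q < 1) (h : ∀ n : ℕ, ‖X‖ ≤ C * q ^ n) : X = 0 := by
  have h1 : Tendsto (fun n : ℕ => C * q ^ n) atTop (𝓝 (C * 0)) :=
    (tendsto_pow_atTop_nhds_zero_of_lt_one hq0 hq).const_mul C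
  rw [mul_zero] at h1
  have h2 := ge_of_tendsto' h1 h
  exact norm_le_zero_iff.1 h2

theorem cauchy_out_zero {r : ℝ} (hr : 0 < r) {f : ℂ → E} (hf : ContinuousOn f (sphere 0 r))
    (hm : ∀ n : ℕ, (∮ ζ in C(0, r), ζ ^ n • f ζ) = 0) {w : ℂ} (hw : r < ‖w‖) :
    (∮ ζ in C(0, r), (ζ - w)⁻¹ • f ζ) = 0 := by
  have hw0 : w ≠ 0 := by rintro rfl; simp at hw; linarith
  have hne : ∀ ζ ∈ sphere (0 : ℂ) r, ζ - w ≠ 0 := by
    intro ζ hζ h
    rw [sub_eq_zero] at h
    rw [mem_sphere_zero_iff_norm, h] at hζ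
    linarith
  have hcont : ContinuousOn (fun ζ : ℂ => (ζ - w)⁻¹) (sphere 0 r) :=
    ContinuousOn.inv₀ (by fun_prop) hne
  have hstep : ∀ n : ℕ, (∮ ζ in C(0, r), (ζ - w)⁻¹ • f ζ) =
      ∮ ζ in C(0, r), ((ζ / w) ^ n * (ζ - w)⁻¹) • f ζ := by
    intro n
    induction n with
    | zero => simp
    | succ n ih =>
      rw [ih]
      have h1 : (∮ ζ in C(0, r), ((ζ / w) ^ n * (ζ - w)⁻¹) • f ζ) -
          (∮ ζ in C(0, r), ((ζ / w) ^ (n + 1) * (ζ - w)⁻¹) • f ζ) = 0 := by
        rw [← circleIntegral.integral_sub]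
        · have : (∮ ζ in C(0, r), (-(w ^ (n + 1))⁻¹ : ℂ) • (ζ ^ n • f ζ)) = 0 := by
            rw [circleIntegral.integral_smul, hm n, smul_zero]
          rw [← this]
          refine circleIntegral.integral_congr hr.le (fun ζ hζ => ?_)
          rw [← sub_smul, smul_smul]
          congr 1
          have := hne ζ hζ
          rw [div_pow, div_pow, pow_succ, pow_succ]
          field_simp
          ring
        · exact (((by fun_prop : Continuous fun ζ : ℂ => (ζ / w) ^ n).continuousOn.mul hcont).smul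
            hf).circleIntegrable hr.le
        · exact (((by fun_prop : Continuous fun ζ : ℂ => (ζ / w) ^ (n + 1)).continuousOn.mul
            hcont).smul hf).circleIntegrable hr.le
      exact sub_eq_zero.1 h1
  obtain ⟨B, hB⟩ := (isCompact_sphere (0 : ℂ) r).exists_bound_of_continuousOn hf
  refine tail_zero (q := r / ‖w‖) (C := 2 * Real.pi * r * ((‖w‖ - r)⁻¹ * max B 0)) (by positivity)
    (by rw [div_lt_one (hr.trans hw)]; exact hw) (fun n => ?_)
  rw [hstep n]
  refine (circleIntegral.norm_integral_le_of_norm_le_const hr.le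
    (C := (r / ‖w‖) ^ n * ((‖w‖ - r)⁻¹ * max B 0)) (fun ζ hζ => ?_)).trans (le_of_eq (by ring))
  rw [norm_smul, norm_mul, norm_pow, norm_div, norm_inv, mul_assoc]
  rw [mem_sphere_zero_iff_norm] at hζ
  rw [hζ]
  gcongr
  · have := norm_sub_norm_le w ζ
    rw [hζ, norm_sub_rev] at this
    exact this
  · exact (hB ζ (by simpa using hζ)).trans (le_max_left _ _)

theorem cauchy_in_zero {r : ℝ} (hr : 0 < r) {f : ℂ → E} (hf : ContinuousOn f (sphere 0 r))
    (hm : ∀ n : ℕ, (∮ ζ in C(0, r), (ζ ^ (n + 1))⁻¹ • f ζ) = 0) {w : ℂ} (hw : ‖w‖ < r) :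
    (∮ ζ in C(0, r), (ζ - w)⁻¹ • f ζ) = 0 := by
  have hne : ∀ ζ ∈ sphere (0 : ℂ) r, ζ - w ≠ 0 := by
    intro ζ hζ h
    rw [sub_eq_zero] at h
    rw [mem_sphere_zero_iff_norm, h] at hζ
    linarith
  have hne0 : ∀ ζ ∈ sphere (0 : ℂ) r, ζ ≠ 0 := by
    rintro ζ hζ rfl
    simp at hζ; linarith
  have hcont : ContinuousOn (fun ζ : ℂ => (ζ - w)⁻¹) (sphere 0 r) :=
    ContinuousOn.inv₀ (by fun_prop) hne
  have hcw : ∀ n : ℕ, ContinuousOn (fun ζ : ℂ => (w / ζ) ^ n) (sphere 0 r) := fun n =>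
    (continuousOn_const.div continuousOn_id hne0).pow n
  have hstep : ∀ n : ℕ, (∮ ζ in C(0, r), (ζ - w)⁻¹ • f ζ) =
      ∮ ζ in C(0, r), ((w / ζ) ^ n * (ζ - w)⁻¹) • f ζ := by
    intro n
    induction n with
    | zero => simp
    | succ n ih =>
      rw [ih]
      have h1 : (∮ ζ in C(0, r), ((w / ζ) ^ n * (ζ - w)⁻¹) • f ζ) -
          (∮ ζ in C(0, r), ((w / ζ) ^ (n + 1) * (ζ - w)⁻¹) • f ζ) = 0 := by
        rw [← circleIntegral.integral_sub]
        · have : (∮ ζ in C(0, r), (w ^ n : ℂ) • ((ζ ^ (n + 1))⁻¹ • f ζ)) = 0 := by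
            rw [circleIntegral.integral_smul, hm n, smul_zero]
          rw [← this]
          refine circleIntegral.integral_congr hr.le (fun ζ hζ => ?_)
          rw [← sub_smul, smul_smul]
          congr 1
          have := hne ζ hζ
          have := hne0 ζ hζ
          rw [div_pow, div_pow, pow_succ, pow_succ]
          field_simp
        · exact (((hcw n).mul hcont).smul hf).circleIntegrable hr.le
        · exact (((hcw (n + 1)).mul hcont).smul hf).circleIntegrable hr.le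
      exact sub_eq_zero.1 h1
  obtain ⟨B, hB⟩ := (isCompact_sphere (0 : ℂ) r).exists_bound_of_continuousOn hf
  refine tail_zero (q := ‖w‖ / r) (C := 2 * Real.pi * r * ((r - ‖w‖)⁻¹ * max B 0)) (by positivity)
    (by rw [div_lt_one hr]; exact hw) (fun n => ?_)
  rw [hstep n]
  refine (circleIntegral.norm_integral_le_of_norm_le_const hr.le
    (C := (‖w‖ / r) ^ n * ((r - ‖w‖)⁻¹ * max B 0)) (fun ζ hζ => ?_)).trans (le_of_eq (by ring))
  rw [norm_smul, norm_mul, norm_pow, norm_div, norm_inv, mul_assoc]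
  rw [mem_sphere_zero_iff_norm] at hζ
  rw [hζ]
  gcongr
  · have := norm_sub_norm_le ζ w
    rw [hζ] at this
    exact this
  · exact (hB ζ (by simpa using hζ)).trans (le_max_left _ _)

theorem NC.cauchy {P0 : Set P} {T : Set ℂ} {r : ℝ} (hr : 0 ≤ r) {f : P × ℂ → E}
    (hf : NC f (P0 ×ˢ T)) (hrT : sphere (0 : ℂ) r ⊆ T) {T' : Set ℂ} (hT' : ∀ w ∈ T', ‖w‖ ≠ r) :
    NC (fun x : P × ℂ => ∮ ζ in C(0, r), (ζ - x.2)⁻¹ • f (x.1, ζ)) (P0 ×ˢ T') := by
  have hne : ∀ ζ ∈ sphere (0 : ℂ) r, ∀ w ∈ T', ζ - w ≠ 0 := by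
    intro ζ hζ w hw h
    rw [sub_eq_zero] at h
    rw [mem_sphere_zero_iff_norm, h] at hζ
    exact hT' w hw hζ
  refine NC.circleIntegral hr ?_ ?_
  · refine ContinuousOn.smul (ContinuousOn.inv₀ (by fun_prop) ?_) ?_
    · rintro ⟨⟨y, w⟩, ζ⟩ ⟨⟨_, hw⟩, hζ⟩
      exact hne ζ hζ w hw
    · refine hf.1.comp (f := fun p : (P × ℂ) × ℂ => (p.1.1, p.2)) (by fun_prop) ?_
      rintro ⟨⟨y, w⟩, ζ⟩ ⟨⟨hy, _⟩, hζ⟩
      exact ⟨hy, hrT hζ⟩
  · intro ζ hζ
    refine NC.smul (NC.inv (NC.of_differentiableOn (by fun_prop)) ?_) ?_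
    · rintro ⟨y, w⟩ ⟨_, hw⟩
      exact hne ζ hζ w hw
    · refine hf.comp (h := fun x : P × ℂ => (x.1, ζ)) (NC.of_differentiableOn (by fun_prop)) ?_
      rintro ⟨y, w⟩ ⟨hy, _⟩
      exact ⟨hy, hrT hζ⟩

theorem diff_cauchy {r : ℝ} (hr : 0 ≤ r) {f : ℂ → E} {T : Set ℂ} (hT : IsOpen T)
    (hf : DifferentiableOn ℂ f T)
    (hrT : sphere (0 : ℂ) r ⊆ T) {T' : Set ℂ} (hT'o : IsOpen T') (hT' : ∀ w ∈ T', ‖w‖ ≠ r) :
    DifferentiableOn ℂ (fun w : ℂ => ∮ ζ in C(0, r), (ζ - w)⁻¹ • f ζ) T' := by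
  have h := NC.cauchy (P := ℂ) (P0 := {0}) (f := fun x : ℂ × ℂ => f x.2) hr
    (NC.of_differentiableOn (hf.comp (by fun_prop) (fun x hx => hx.2))) hrT hT'
  exact h.2 (fun w => ((0 : ℂ), w)) T' hT'o (by fun_prop) (fun w hw => ⟨rfl, hw⟩)

/-- if the nonnegative moments vanish the function extends inside -/
theorem extend_in {a b R : ℝ} (ha : 0 ≤ a) (haR : a < R) (hRb : R < b) {f : ℂ → E}
    (hf : DifferentiableOn ℂ f (ann a b)) (hm : ∀ n : ℕ, (∮ ζ in C(0, R), ζ ^ n • f ζ) = 0) :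
    ∃ F : ℂ → E, DifferentiableOn ℂ F (ball 0 b) ∧ ∀ w ∈ ann a b, F w = f w := by
  classical
  set k : ℂ := (2 * Real.pi * I : ℂ)⁻¹ with hk
  have hk2 : k * (2 * Real.pi * I : ℂ) = 1 := by
    rw [hk, inv_mul_cancel₀]; simp [Real.pi_ne_zero]
  set J : ℂ → E := fun w => k • ∮ ζ in C(0, R), (ζ - w)⁻¹ • f ζ with hJ
  have hR0 : 0 < R := ha.trans_lt haR
  have hmom : ∀ r, a < r → r ≤ R → ∀ n : ℕ, (∮ ζ in C(0, r), ζ ^ n • f ζ) = 0 := by
    intro r har hrR n
    rw [← ci_annulus (ha.trans_lt har) har hrR hRb, hm n]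
    exact ((by fun_prop : Differentiable ℂ fun ζ : ℂ => ζ ^ n).differentiableOn).smul hf
  have hJf : ∀ w, a < ‖w‖ → ‖w‖ < R → J w = f w := by
    intro w h1 h2
    obtain ⟨r, hr1, hr2⟩ := exists_between h1
    have h3 := cauchy_ann (ha.trans_lt hr1) hr1 hRb hr2 h2 hf
    rw [cauchy_out_zero (ha.trans_lt hr1)
      (hf.continuousOn.mono (sphere_subset_ann hr1 (hr2.trans (h2.trans hRb))))
      (hmom r hr1 (hr2.trans h2).le) hr2, sub_zero] at h3
    rw [hJ]
    simp only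
    rw [h3, smul_smul, hk2, one_smul]
  have hJd : DifferentiableOn ℂ J (ball 0 R) := by
    refine DifferentiableOn.const_smul (diff_cauchy hR0.le (isOpen_ann a b) hf
      (sphere_subset_ann haR hRb) isOpen_ball ?_) k
    intro w hw
    rw [mem_ball_zero_iff] at hw
    exact hw.ne
  refine ⟨fun w => if ‖w‖ < R then J w else f w, ?_, ?_⟩
  · intro w hw
    rw [mem_ball_zero_iff] at hw
    by_cases h : ‖w‖ < R
    · have h1 := hJd.differentiableAt (isOpen_ball.mem_nhds (by simpa using h : w ∈ ball (0 : ℂ) R))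
      refine (h1.congr_of_eventuallyEq ?_).differentiableWithinAt
      filter_upwards [isOpen_ball.mem_nhds (by simpa using h : w ∈ ball (0 : ℂ) R)] with z hz
      rw [mem_ball_zero_iff] at hz
      rw [if_pos hz]
    · have hw' : w ∈ ann a b := ⟨haR.trans_le (not_lt.1 h), hw⟩
      have h1 := hf.differentiableAt ((isOpen_ann a b).mem_nhds hw')
      refine (h1.congr_of_eventuallyEq ?_).differentiableWithinAt
      filter_upwards [(isOpen_ann a b).mem_nhds hw'] with z hz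
      by_cases h : ‖z‖ < R
      · rw [if_pos h, hJf z hz.1 h]
      · rw [if_neg h]
  · intro w hw
    simp only
    by_cases h : ‖w‖ < R
    · rw [if_pos h, hJf w hw.1 h]
    · rw [if_neg h]

theorem moments_of_ext {a b R : ℝ} (hR : 0 < R) (haR : a < R) (hRb : R < b) {f F : ℂ → E}
    (hF : DifferentiableOn ℂ F (ball 0 b)) (h : ∀ w ∈ ann a b, F w = f w) (n : ℕ) :
    (∮ ζ in C(0, R), ζ ^ n • f ζ) = 0 := by
  have h1 : (∮ ζ in C(0, R), ζ ^ n • F ζ) = 0 := ci_zero hR.le hRb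
    (((by fun_prop : Differentiable ℂ fun ζ : ℂ => ζ ^ n).differentiableOn).smul hF)
  rw [← h1]
  refine circleIntegral.integral_congr hR.le (fun ζ hζ => ?_)
  rw [h ζ (sphere_subset_ann haR hRb hζ)]

/-- if the negative moments vanish the function extends outside, and is bounded there -/
theorem extend_out {a b R : ℝ} (ha : 0 ≤ a) (haR : a < R) (hRb : R < b) {f : ℂ → E}
    (hf : DifferentiableOn ℂ f (ann a b))
    (hm : ∀ n : ℕ, (∮ ζ in C(0, R), (ζ ^ (n + 1))⁻¹ • f ζ) = 0) :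
    ∃ F : ℂ → E, DifferentiableOn ℂ F (outer a) ∧ (∀ w ∈ ann a b, F w = f w) ∧
      ∃ C, ∀ w, 2 * R ≤ ‖w‖ → ‖F w‖ ≤ C := by
  classical
  set k : ℂ := (2 * Real.pi * I : ℂ)⁻¹ with hk
  have hk2 : k * (2 * Real.pi * I : ℂ) = 1 := by
    rw [hk, inv_mul_cancel₀]; simp [Real.pi_ne_zero]
  set J : ℂ → E := fun w => -(k • ∮ ζ in C(0, R), (ζ - w)⁻¹ • f ζ) with hJ
  have hR0 : 0 < R := ha.trans_lt haR
  have hmom : ∀ r, R ≤ r → r < b → ∀ n : ℕ, (∮ ζ in C(0, r), (ζ ^ (n + 1))⁻¹ • f ζ) = 0 := by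
    intro r hRr hrb n
    rw [ci_annulus hR0 haR hRr hrb, hm n]
    refine DifferentiableOn.smul (DifferentiableOn.inv (by fun_prop) ?_) hf
    intro ζ hζ h
    have : ζ = 0 := pow_eq_zero_iff (by omega) |>.1 h
    rw [this] at hζ
    have := hζ.1
    simp at this
    linarith
  have hJf : ∀ w, R < ‖w‖ → ‖w‖ < b → J w = f w := by
    intro w h1 h2
    obtain ⟨r, hr1, hr2⟩ := exists_between h2
    have h3 := cauchy_ann hR0 haR hr2 h1 hr1 hf
    rw [cauchy_in_zero (hR0.trans (h1.trans hr1))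
      (hf.continuousOn.mono (sphere_subset_ann (haR.trans (h1.trans hr1)) hr2))
      (hmom r (h1.trans hr1).le hr2) hr1, zero_sub] at h3
    rw [hJ]
    simp only
    rw [← smul_neg, h3, smul_smul, hk2, one_smul]
  have hJd : DifferentiableOn ℂ J (outer R) := by
    refine DifferentiableOn.neg (DifferentiableOn.const_smul (diff_cauchy hR0.le (isOpen_ann a b) hf
      (sphere_subset_ann haR hRb) (isOpen_outer R) ?_) k)
    intro w hw
    exact (show R < ‖w‖ from hw).ne'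
  refine ⟨fun w => if R < ‖w‖ then J w else f w, ?_, ?_, ?_⟩
  · intro w hw
    by_cases h : R < ‖w‖
    · have h1 := hJd.differentiableAt ((isOpen_outer R).mem_nhds h)
      refine (h1.congr_of_eventuallyEq ?_).differentiableWithinAt
      filter_upwards [(isOpen_outer R).mem_nhds h] with z hz
      rw [if_pos (show R < ‖z‖ from hz)]
    · have hw' : w ∈ ann a b := ⟨hw, (not_lt.1 h).trans_lt hRb⟩
      have h1 := hf.differentiableAt ((isOpen_ann a b).mem_nhds hw')
      refine (h1.congr_of_eventuallyEq ?_).differentiableWithinAt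
      filter_upwards [(isOpen_ann a b).mem_nhds hw'] with z hz
      by_cases h : R < ‖z‖
      · rw [if_pos h, hJf z h hz.2]
      · rw [if_neg h]
  · intro w hw
    simp only
    by_cases h : R < ‖w‖
    · rw [if_pos h, hJf w h hw.2]
    · rw [if_neg h]
  · obtain ⟨B, hB⟩ := (isCompact_sphere (0 : ℂ) R).exists_bound_of_continuousOn
      (hf.continuousOn.mono (sphere_subset_ann haR hRb))
    refine ⟨max B 0, fun w hw => ?_⟩
    have hw' : R < ‖w‖ := by linarith
    simp only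
    rw [if_pos hw', hJ]
    simp only
    rw [norm_neg]
    refine (circleIntegral.norm_two_pi_i_inv_smul_integral_le_of_norm_le_const hR0.le
      (C := R⁻¹ * max B 0) (fun ζ hζ => ?_)).trans (le_of_eq (by field_simp))
    rw [norm_smul, norm_inv]
    rw [mem_sphere_zero_iff_norm] at hζ
    gcongr
    · have := norm_sub_norm_le w ζ
      rw [hζ, norm_sub_rev] at this
      linarith
    · exact (hB ζ (by simpa using hζ)).trans (le_max_left _ _)

theorem moment_out_bounded {a R : ℝ} (hR : 0 < R) (haR : a < R) {f : ℂ → E}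
    (hf : DifferentiableOn ℂ f (outer a)) {C : ℝ} (hC : ∀ w ∈ outer a, ‖f w‖ ≤ C) (n : ℕ) :
    (∮ ζ in C(0, R), (ζ ^ (n + 2))⁻¹ • f ζ) = 0 := by
  refine tail_zero (q := 1 / 2) (C := 2 * Real.pi * R * max C 0 / R ^ (n + 2)) (by norm_num)
    (by norm_num) (fun j => ?_)
  have hr : R ≤ R * 2 ^ j := le_mul_of_one_le_right hR.le (one_le_pow₀ (by norm_num))
  have hr0 : 0 < R * 2 ^ j := by positivity
  have h1 : (∮ ζ in C(0, R), (ζ ^ (n + 2))⁻¹ • f ζ) = ∮ ζ in C(0, R * 2 ^ j), (ζ ^ (n + 2))⁻¹ • f ζ := by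
    refine (ci_annulus (a := max a 0) (b := R * 2 ^ j + 1) hR (by simp [haR, hR]) hr (by linarith) ?_).symm
    refine DifferentiableOn.smul (DifferentiableOn.inv (by fun_prop) ?_) (hf.mono ?_)
    · intro ζ hζ h
      have : ζ = 0 := pow_eq_zero_iff (by omega) |>.1 h
      rw [this] at hζ
      have := (le_max_right a 0).trans_lt hζ.1
      simp at this
    · intro w hw
      exact (le_max_left a 0).trans_lt hw.1
  rw [h1]
  refine (circleIntegral.norm_integral_le_of_norm_le_const hr0.le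
    (C := ((R * 2 ^ j) ^ (n + 2))⁻¹ * max C 0) (fun ζ hζ => ?_)).trans ?_
  · rw [mem_sphere_zero_iff_norm] at hζ
    rw [norm_smul, norm_inv, norm_pow, hζ]
    gcongr
    exact (hC ζ (by show a < ‖ζ‖; rw [hζ]; linarith)).trans (le_max_left _ _)
  · have h2 : (R * 2 ^ j) ^ (n + 2) = R ^ (n + 2) * (2 ^ j) ^ (n + 2) := mul_pow _ _ _
    have h3 : (2 : ℝ) ^ j * 2 ^ j ≤ (2 ^ j) ^ (n + 2) := by
      rw [pow_add, pow_two]
      exact le_mul_of_one_le_left (by positivity) (one_le_pow₀ (one_le_pow₀ (by norm_num)))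
    rw [h2]
    calc 2 * Real.pi * (R * 2 ^ j) * ((R ^ (n + 2) * (2 ^ j) ^ (n + 2))⁻¹ * max C 0)
        ≤ 2 * Real.pi * (R * 2 ^ j) * ((R ^ (n + 2) * ((2 : ℝ) ^ j * 2 ^ j))⁻¹ * max C 0) := by
          gcongr
      _ = 2 * Real.pi * R * max C 0 / R ^ (n + 2) * (1 / 2) ^ j := by
          rw [one_div, inv_pow]
          field_simp

theorem poly_of_growth {M : ℕ} {v : ℂ → E} (hv : Differentiable ℂ v) {C R1 : ℝ}
    (h : ∀ w, R1 ≤ ‖w‖ → ‖v w‖ ≤ C * ‖w‖ ^ M) :
    ∃ q : Fin (M + 1) → E, ∀ w, v w = ∑ j : Fin (M + 1), w ^ (j : ℕ) • q j := by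
  induction M generalizing v C R1 with
  | zero =>
    have hb : Bornology.IsBounded (range v) := by
      obtain ⟨B, hB0, hB⟩ : ∃ B, 0 < B ∧ ∀ w ∈ closedBall (0 : ℂ) R1, ‖v w‖ ≤ B := by
        obtain ⟨B, hB⟩ := (isCompact_closedBall (0 : ℂ) R1).exists_bound_of_continuousOn
          hv.continuous.continuousOn
        exact ⟨max B 1, by positivity, fun w hw => (hB w hw).trans (le_max_left _ _)⟩
      rw [isBounded_iff_forall_norm_le]
      refine ⟨max B C, ?_⟩
      rintro _ ⟨w, rfl⟩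
      rcases le_total ‖w‖ R1 with h1 | h1
      · exact (hB w (by simpa using h1)).trans (le_max_left _ _)
      · exact (by simpa using h w h1 : ‖v w‖ ≤ C).trans (le_max_right _ _)
    refine ⟨fun _ => v 0, fun w => ?_⟩
    simpa using hv.apply_eq_apply_of_bounded hb w 0
  | succ M ih =>
    have hd : Differentiable ℂ (dslope v 0) := by
      have := (Complex.differentiableOn_dslope (f := v) (s := univ) (c := 0) univ_mem).2
        hv.differentiableOn
      exact differentiableOn_univ.1 this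
    obtain ⟨q, hq⟩ := ih hd (C := |C| + ‖v 0‖) (R1 := max R1 1) (by
      intro w hw
      have hw1 : R1 ≤ ‖w‖ := (le_max_left _ _).trans hw
      have hw2 : 1 ≤ ‖w‖ := (le_max_right _ _).trans hw
      have hw0 : w ≠ 0 := by rintro rfl; simp at hw2; linarith
      rw [dslope_of_ne _ hw0, slope_def_module, sub_zero, norm_smul, norm_inv]
      have h1 : ‖v w - v 0‖ ≤ (|C| + ‖v 0‖) * ‖w‖ ^ (M + 1) := by
        calc ‖v w - v 0‖ ≤ ‖v w‖ + ‖v 0‖ := norm_sub_le _ _
          _ ≤ |C| * ‖w‖ ^ (M + 1) + ‖v 0‖ * ‖w‖ ^ (M + 1) := by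
              gcongr
              · exact (h w hw1).trans (by gcongr; exact le_abs_self C)
              · exact le_mul_of_one_le_right (norm_nonneg _) (one_le_pow₀ hw2)
          _ = _ := by ring
      calc ‖w‖⁻¹ * ‖v w - v 0‖ ≤ ‖w‖⁻¹ * ((|C| + ‖v 0‖) * ‖w‖ ^ (M + 1)) := by gcongr
        _ = (|C| + ‖v 0‖) * ‖w‖ ^ M := by
            rw [pow_succ]
            have : ‖w‖ ≠ 0 := by positivity
            field_simp)
    refine ⟨Fin.cons (v 0) q, fun w => ?_⟩
    rw [Fin.sum_univ_succ]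
    simp only [Fin.val_zero, pow_zero, Fin.cons_zero, one_smul, Fin.val_succ, Fin.cons_succ]
    have h1 : v w = v 0 + (w - 0) • dslope v 0 w := by
      rw [sub_smul_dslope]; abel
    rw [h1, hq w, sub_zero, Finset.smul_sum]
    congr 1
    refine Finset.sum_congr rfl (fun j _ => ?_)
    rw [smul_smul, pow_succ']

theorem map_ci (ρ : E →L[ℂ] M'') {r : ℝ} (hr : 0 ≤ r) {f : ℂ → E} (hf : ContinuousOn f (sphere 0 r)) :
    ρ (∮ ζ in C(0, r), f ζ) = ∮ ζ in C(0, r), ρ (f ζ) := by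
  unfold circleIntegral
  rw [← ContinuousLinearMap.intervalIntegral_comp_comm]
  · simp only [map_smul]
  · exact (hf.circleIntegrable hr).out

theorem asl_annulus (ρ : M' →L[ℂ] M'') {R s0 s1 : ℝ} (hs0 : 0 < s0) (hs : s0 < s1) (hR : s1 < R) :
    ∃ C > 0, ∀ P0 : Set P,
      ASL (LinearMap.ker (ρ : M' →ₗ[ℂ] M'')) C P0 (fun t => outer (R - (s0 + (s1 - s0) * t)))
        (fun t => ball 0 (R + (s0 + (s1 - s0) * t))) := by
  refine ⟨2 * (R + s1) / (s1 - s0), by
    have : 0 < s1 - s0 := by linarith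
    have : 0 < R + s1 := by linarith
    positivity, ?_⟩
  intro P0 r t hr hrt ht1 f M hM0 hf hM hN
  set sr := s0 + (s1 - s0) * r with hsr
  set st := s0 + (s1 - s0) * t with hst
  set s := (sr + st) / 2 with hsdef
  have hsrt : sr < st := by rw [hsr, hst]; nlinarith
  have hst1 : st ≤ s1 := by rw [hst]; nlinarith
  have hsr0 : s0 ≤ sr := by rw [hsr]; nlinarith
  have h1 : sr < s := by rw [hsdef]; linarith
  have h2 : s < st := by rw [hsdef]; linarith
  have hσ : s - sr = (s1 - s0) * (t - r) / 2 := by rw [hsdef, hsr, hst]; ring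
  have hσpos : 0 < s - sr := by linarith
  rw [← ann_eq] at hf hM hN
  have hin : sphere (0 : ℂ) (R - s) ⊆ ann (R - st) (R + st) := sphere_subset_ann (by linarith) (by linarith)
  have hout : sphere (0 : ℂ) (R + s) ⊆ ann (R - st) (R + st) := sphere_subset_ann (by linarith) (by linarith)
  set k : ℂ := (2 * Real.pi * I : ℂ)⁻¹ with hk
  have hk2 : k * (2 * Real.pi * I : ℂ) = 1 := by
    rw [hk, inv_mul_cancel₀]; simp [Real.pi_ne_zero]
  have hC : 2 * (R + s1) / (s1 - s0) * M / (t - r) = (R + s1) * ((s - sr)⁻¹ * M) := by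
    rw [hσ]
    have : s1 - s0 ≠ 0 := by linarith
    have : t - r ≠ 0 := by linarith
    field_simp
  have hker : ∀ (ρr : ℝ), 0 ≤ ρr → sphere (0 : ℂ) ρr ⊆ ann (R - st) (R + st) → ∀ x : P × ℂ,
      x.1 ∈ P0 → ‖x.2‖ ≠ ρr → k • (∮ ζ in C(0, ρr), (ζ - x.2)⁻¹ • f (x.1, ζ)) ∈
        LinearMap.ker (ρ : M' →ₗ[ℂ] M'') := by
    intro ρr hρr hsub x hx hne
    rw [LinearMap.mem_ker]
    show ρ _ = 0
    rw [map_smul, map_ci ρ hρr]
    · have : (∮ ζ in C(0, ρr), ρ ((ζ - x.2)⁻¹ • f (x.1, ζ))) = ∮ ζ in C(0, ρr), (0 : M'') := by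
        refine circleIntegral.integral_congr hρr (fun ζ hζ => ?_)
        have h3 := hN (x.1, ζ) ⟨hx, hsub hζ⟩
        rw [LinearMap.mem_ker] at h3
        have h4 : ρ (f (x.1, ζ)) = 0 := h3
        simp only [map_smul, h4, smul_zero]
      rw [this]
      simp [circleIntegral]
    · refine ContinuousOn.smul (ContinuousOn.inv₀ (by fun_prop) ?_) ?_
      · intro ζ hζ h
        rw [sub_eq_zero] at h
        rw [mem_sphere_zero_iff_norm, h] at hζ
        exact hne hζ
      · exact hf.1.comp (f := fun ζ => (x.1, ζ)) (by fun_prop) (fun ζ hζ => ⟨hx, hsub hζ⟩)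
  refine ⟨fun x => k • ∮ ζ in C(0, R - s), (ζ - x.2)⁻¹ • f (x.1, ζ),
    fun x => k • ∮ ζ in C(0, R + s), (ζ - x.2)⁻¹ • f (x.1, ζ), ?_, ?_, ?_, ?_, ?_⟩
  · refine NC.const_smul _ (NC.cauchy (by linarith) hf hin ?_)
    intro w hw
    have : R - sr < ‖w‖ := hw
    linarith
  · refine NC.const_smul _ (NC.cauchy (by linarith) hf hout ?_)
    intro w hw
    rw [mem_ball_zero_iff] at hw
    linarith
  · rintro ⟨y, w⟩ ⟨hy, hw⟩
    have hw' : R - sr < ‖w‖ := hw
    refine ⟨?_, hker (R - s) (by linarith) hin (y, w) hy (by simp only; linarith)⟩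
    rw [hC]
    refine (circleIntegral.norm_two_pi_i_inv_smul_integral_le_of_norm_le_const (by linarith)
      (C := (s - sr)⁻¹ * M) (fun ζ hζ => ?_)).trans ?_
    · rw [norm_smul, norm_inv]
      have h3 := hM (y, ζ) ⟨hy, hin hζ⟩
      rw [mem_sphere_zero_iff_norm] at hζ
      gcongr
      have := norm_sub_norm_le w ζ
      rw [hζ, norm_sub_rev] at this
      linarith
    · gcongr
      linarith
  · rintro ⟨y, w⟩ ⟨hy, hw⟩
    have hw' : ‖w‖ < R + sr := by simpa using hw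
    refine ⟨?_, hker (R + s) (by linarith) hout (y, w) hy (by simp only; linarith)⟩
    rw [hC]
    refine (circleIntegral.norm_two_pi_i_inv_smul_integral_le_of_norm_le_const (by linarith)
      (C := (s - sr)⁻¹ * M) (fun ζ hζ => ?_)).trans ?_
    · rw [norm_smul, norm_inv]
      have h3 := hM (y, ζ) ⟨hy, hout hζ⟩
      rw [mem_sphere_zero_iff_norm] at hζ
      gcongr
      have := norm_sub_norm_le ζ w
      rw [hζ] at this
      linarith
    · gcongr
      linarith
  · rintro ⟨y, w⟩ ⟨hy, hw1, hw2⟩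
    have hw1' : R - sr < ‖w‖ := hw1
    have hw2' : ‖w‖ < R + sr := by simpa using hw2
    have hslice : DifferentiableOn ℂ (fun ζ => f (y, ζ)) (ann (R - st) (R + st)) :=
      hf.2 (fun ζ => (y, ζ)) _ (isOpen_ann _ _) (by fun_prop) (fun ζ hζ => ⟨hy, hζ⟩)
    have h3 := cauchy_ann (r := R - s) (r' := R + s) (by linarith) (by linarith) (by linarith)
      (w := w) (by linarith) (by linarith) hslice
    simp only
    rw [← smul_sub, h3, smul_smul, hk2, one_smul]

end Pool.Agent.Work.MP_77a596_an
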