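import Pool.Agent.Work.MP_77a596_an.Asl

set_option autoImplicit false
set_option linter.unusedVariables false
set_option linter.unusedSectionVars false

open Set Metric Filter Topology MeasureTheory Complex

namespace Pool.Agent.Work.MP_77a596_an

variable {M' : Type*} [NormedRing M'] [NormedAlgebra ℂ M'] [CompleteSpace M'] [NormOneClass M']

theorem mul_exp_of_mul_eq_zero {e x : M'} (h : e * x = 0) : e * NormedSpace.exp x = e := by
  have h1 := (NormedSpace.exp_series_hasSum_exp' (𝕂 := ℂ) x).mul_left e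
  have h2 : HasSum (fun n : ℕ => e * (((n.factorial : ℂ)⁻¹) • x ^ n)) e := by
    have := hasSum_single (f := fun n : ℕ => e * (((n.factorial : ℂ)⁻¹) • x ^ n)) 0 (by
      intro n hn
      obtain ⟨m, rfl⟩ := Nat.exists_eq_succ_of_ne_zero hn
      rw [mul_smul_comm, pow_succ', ← mul_assoc, h, zero_mul, smul_zero])
    simpa using this
  exact h1.unique h2

theorem isUnit_exp' (x : M') : IsUnit (NormedSpace.exp x) := by
  let _ := NormedAlgebra.restrictScalars ℚ ℂ M'
  exact NormedSpace.isUnit_exp x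

theorem exp_mul_exp_neg (x : M') : NormedSpace.exp x * NormedSpace.exp (-x) = 1 := by
  let _ := NormedAlgebra.restrictScalars ℚ ℂ M'
  rw [← NormedSpace.exp_add_of_commute (Commute.refl x).neg_right, add_neg_cancel,
    NormedSpace.exp_zero]

theorem continuous_exp' : Continuous (NormedSpace.exp : M' → M') := by
  let _ := NormedAlgebra.restrictScalars ℚ ℂ M'
  exact NormedSpace.exp_continuous

theorem differentiable_exp' : Differentiable ℂ (NormedSpace.exp : M' → M') := fun x =>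
  (NormedSpace.exp_analytic (𝕂 := ℂ) x).differentiableAt

/-- contraction step -/
theorem exp_step : ∃ δ > 0, δ ≤ 1 / 2 ∧ ∀ x : M', ‖x‖ ≤ δ →
    ‖NormedSpace.exp (-x) * (1 + x) - 1‖ ≤ 1 / 2 * ‖x‖ := by
  have h := (hasFDerivAt_exp_zero (𝕂 := ℂ) (𝔸 := M'))
  have h5 := h.isLittleO.def (c := 1 / 8) (by norm_num)
  obtain ⟨δ, hδ, h6⟩ := Metric.eventually_nhds_iff.1 h5
  refine ⟨min (δ / 2) (1 / 8), by positivity, (min_le_right _ _).trans (by norm_num),
    fun x hx => ?_⟩
  have hx1 := hx.trans (min_le_left _ _)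
  have hx2 := hx.trans (min_le_right _ _)
  have h7 := @h6 (-x) (by rw [dist_zero_right, norm_neg]; linarith)
  have h8 : ‖NormedSpace.exp (-x) - 1 + x‖ ≤ 1 / 8 * ‖x‖ := by
    simpa [NormedSpace.exp_zero, norm_neg] using h7
  have h9 : NormedSpace.exp (-x) * (1 + x) - 1 = (NormedSpace.exp (-x) - 1 + x) * (1 + x) - x * x := by
    noncomm_ring
  rw [h9]
  have h10 : ‖1 + x‖ ≤ 9 / 8 := by
    calc ‖1 + x‖ ≤ ‖(1 : M')‖ + ‖x‖ := norm_add_le _ _
      _ ≤ 9 / 8 := by rw [norm_one]; linarith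
  calc ‖(NormedSpace.exp (-x) - 1 + x) * (1 + x) - x * x‖
      ≤ ‖(NormedSpace.exp (-x) - 1 + x) * (1 + x)‖ + ‖x * x‖ := norm_sub_le _ _
    _ ≤ (1 / 8 * ‖x‖) * (9 / 8) + 1 / 8 * ‖x‖ := by
        gcongr
        · exact (norm_mul_le _ _).trans (mul_le_mul h8 h10 (norm_nonneg _) (by positivity))
        · exact (norm_mul_le _ _).trans (by gcongr)
    _ ≤ 1 / 2 * ‖x‖ := by nlinarith [norm_nonneg x]

/-- approximability by entire unit valued functions -/
def App (e : M') (K : Set ℂ) (G : ℂ → M') : Prop := ∀ ε > 0, ∃ H : ℂ → M', Differentiable ℂ H ∧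
  (∀ w, IsUnit (H w) ∧ e * H w = e) ∧ ∀ w ∈ K, ‖H w - G w‖ ≤ ε

/-- `K` is a Runge set for `V`. -/
def RK (V K : Set ℂ) (E : Type*) [NormedAddCommGroup E] [NormedSpace ℂ E] : Prop :=
  ∀ h : ℂ → E, DifferentiableOn ℂ h V → ∀ ε > 0, ∃ p : ℂ → E, Differentiable ℂ p ∧
    ∀ w ∈ K, ‖p w - h w‖ ≤ ε

theorem bound_on_bounded {E : Type*} [NormedAddCommGroup E] [NormedSpace ℂ E] {K : Set ℂ}
    (hK : Bornology.IsBounded K) {f : ℂ → E} (hf : Differentiable ℂ f) :
    ∃ B, 0 < B ∧ ∀ w ∈ K, ‖f w‖ ≤ B := by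
  obtain ⟨B, hB⟩ := hK.isCompact_closure.exists_bound_of_continuousOn hf.continuous.continuousOn
  exact ⟨max B 1, by positivity, fun w hw => (hB w (subset_closure hw)).trans (le_max_left _ _)⟩

variable {e : M'} {K V : Set ℂ}

theorem App.congr {G G' : ℂ → M'} (h : App e K G) (hG : ∀ w ∈ K, G' w = G w) : App e K G' := by
  intro ε hε
  obtain ⟨H, h1, h2, h3⟩ := h ε hε
  exact ⟨H, h1, h2, fun w hw => by rw [hG w hw]; exact h3 w hw⟩

theorem App.const {c : M'} (hc : IsUnit c) (hc' : e * c = e) : App e K (fun _ => c) :=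
  fun ε hε => ⟨fun _ => c, differentiable_const _, fun _ => ⟨hc, hc'⟩, fun w _ => by simp [hε.le]⟩

theorem App.mul (hK : Bornology.IsBounded K) {G1 G2 : ℂ → M'} (h1 : App e K G1) (h2 : App e K G2)
    {B : ℝ} (hB : ∀ w ∈ K, ‖G1 w‖ ≤ B) : App e K (fun w => G1 w * G2 w) := by
  intro ε hε
  have hB0 : 0 < |B| + 1 := by positivity
  obtain ⟨H2, h21, h22, h23⟩ := h2 (ε / (2 * (|B| + 1))) (by positivity)
  obtain ⟨B2, hB20, hB2⟩ := bound_on_bounded hK h21
  obtain ⟨H1, h11, h12, h13⟩ := h1 (ε / (2 * B2)) (by positivity)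
  refine ⟨fun w => H1 w * H2 w, h11.mul h21, fun w => ⟨(h12 w).1.mul (h22 w).1, ?_⟩,
    fun w hw => ?_⟩
  · rw [← mul_assoc, (h12 w).2, (h22 w).2]
  · have : H1 w * H2 w - G1 w * G2 w = (H1 w - G1 w) * H2 w + G1 w * (H2 w - G2 w) := by
      noncomm_ring
    rw [this]
    calc ‖(H1 w - G1 w) * H2 w + G1 w * (H2 w - G2 w)‖
        ≤ ‖(H1 w - G1 w) * H2 w‖ + ‖G1 w * (H2 w - G2 w)‖ := norm_add_le _ _
      _ ≤ ε / (2 * B2) * B2 + (|B| + 1) * (ε / (2 * (|B| + 1))) := by
          gcongr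
          · exact (norm_mul_le _ _).trans (mul_le_mul (h13 w hw) (hB2 w hw) (norm_nonneg _)
              (by positivity))
          · refine (norm_mul_le _ _).trans (mul_le_mul ?_ (h23 w hw) (norm_nonneg _) hB0.le)
            have := hB w hw
            have := le_abs_self B
            linarith
      _ = ε := by field_simp; norm_num

theorem App.exp [ProperSpace M'] (hee : e * e = e) (hRK : RK V K M') {h : ℂ → M'}
    (hh : DifferentiableOn ℂ h V) (he : ∀ w ∈ K, e * h w = 0) {B : ℝ} (hB : ∀ w ∈ K, ‖h w‖ ≤ B) :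
    App e K (fun w => NormedSpace.exp (h w)) := by
  intro ε hε
  have hc := ((isCompact_closedBall (0 : M') (|B| + 1)).uniformContinuousOn_of_continuous
    (continuous_exp' (M' := M')).continuousOn)
  rw [Metric.uniformContinuousOn_iff_le] at hc
  obtain ⟨δ, hδ, hc⟩ := hc ε hε
  obtain ⟨p, hp, hp2⟩ := hRK h hh (min δ 1 / (1 + ‖e‖)) (by positivity)
  set q : ℂ → M' := fun w => p w - e * p w with hq
  have hqh : ∀ w ∈ K, ‖q w - h w‖ ≤ min δ 1 := by
    intro w hw
    have : q w - h w = (p w - h w) - e * (p w - h w) := by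
      rw [hq, mul_sub, he w hw]; simp; abel
    rw [this]
    calc ‖(p w - h w) - e * (p w - h w)‖ ≤ ‖p w - h w‖ + ‖e * (p w - h w)‖ := norm_sub_le _ _
      _ ≤ ‖p w - h w‖ + ‖e‖ * ‖p w - h w‖ := by gcongr; exact norm_mul_le _ _
      _ = (1 + ‖e‖) * ‖p w - h w‖ := by ring
      _ ≤ (1 + ‖e‖) * (min δ 1 / (1 + ‖e‖)) := by gcongr; exact hp2 w hw
      _ = min δ 1 := by field_simp
  refine ⟨fun w => NormedSpace.exp (q w), ?_, fun w => ⟨isUnit_exp' _, ?_⟩, fun w hw => ?_⟩
  · exact differentiable_exp'.comp (hp.sub ((differentiable_const e).mul hp))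
  · apply mul_exp_of_mul_eq_zero
    rw [hq, mul_sub, ← mul_assoc, hee, sub_self]
  · have h1 := hqh w hw
    have hB' := hB w hw
    have hBa := le_abs_self B
    rw [← dist_eq_norm]
    apply hc
    · rw [mem_closedBall_zero_iff]
      calc ‖q w‖ = ‖(q w - h w) + h w‖ := by simp
        _ ≤ ‖q w - h w‖ + ‖h w‖ := norm_add_le _ _
        _ ≤ |B| + 1 := by linarith [min_le_right δ 1]
    · rw [mem_closedBall_zero_iff]; linarith
    · rw [dist_eq_norm]; exact h1.trans (min_le_left _ _)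

theorem app_near_one [ProperSpace M'] (hee : e * e = e) (hK : Bornology.IsBounded K) (hKV : K ⊆ V)
    (hRK : RK V K M') : ∃ δ > 0, ∀ G : ℂ → M', DifferentiableOn ℂ G V →
    (∀ w ∈ V, ‖G w - 1‖ ≤ δ ∧ e * G w = e) → App e K G := by
  obtain ⟨δ, hδ, hδ2, hstep⟩ := exp_step (M' := M')
  refine ⟨δ, hδ, fun G hG hG1 => ?_⟩
  have claim : ∀ n : ℕ, ∃ Pn R : ℂ → M', DifferentiableOn ℂ R V ∧
      (∀ w ∈ V, ‖R w - 1‖ ≤ δ * (1 / 2) ^ n ∧ e * R w = e) ∧ (∀ w ∈ V, G w = Pn w * R w) ∧
      App e K Pn := by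
    intro n
    induction n with
    | zero =>
      exact ⟨fun _ => 1, G, hG, fun w hw => by simpa using hG1 w hw, fun w hw => by simp,
        App.const isUnit_one (mul_one _)⟩
    | succ n ih =>
      obtain ⟨Pn, R, hR, hR1, hPR, hApp⟩ := ih
      have hRδ : ∀ w ∈ V, ‖R w - 1‖ ≤ δ := fun w hw => (hR1 w hw).1.trans
        (mul_le_of_le_one_right hδ.le (pow_le_one₀ (by norm_num) (by norm_num)))
      have hR1' : DifferentiableOn ℂ (fun w => R w - 1) V := hR.sub_const 1
      refine ⟨fun w => Pn w * NormedSpace.exp (R w - 1),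
        fun w => NormedSpace.exp (-(R w - 1)) * R w, ?_, ?_, ?_, ?_⟩
      · refine DifferentiableOn.mul ?_ hR
        exact differentiable_exp'.comp_differentiableOn hR1'.fun_neg
      · intro w hw
        constructor
        · have h1 := hstep (R w - 1) (hRδ w hw)
          rw [add_sub_cancel] at h1
          refine h1.trans ?_
          rw [pow_succ]
          have := (hR1 w hw).1
          linarith
        · rw [← mul_assoc, mul_exp_of_mul_eq_zero, (hR1 w hw).2]
          rw [mul_neg, mul_sub, mul_one, (hR1 w hw).2, sub_self, neg_zero]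
      · intro w hw
        rw [hPR w hw, mul_assoc, ← mul_assoc (NormedSpace.exp _), exp_mul_exp_neg, one_mul]
      · refine App.mul hK hApp (App.exp hee hRK hR1' ?_ (B := δ) (fun w hw => hRδ w (hKV hw)))
          (B := 4) ?_
        · intro w hw
          rw [mul_sub, mul_one, (hR1 w (hKV hw)).2, sub_self]
        · intro w hw
          have hw' := hKV hw
          have hRw : ‖R w - 1‖ ≤ 1 / 2 := (hRδ w hw').trans hδ2
          have hu := isUnit_of_near_one hRw
          have h1 : Pn w = G w * Ring.inverse (R w) := by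
            rw [hPR w hw', mul_assoc, Ring.mul_inverse_cancel _ hu, mul_one]
          have h2 : ‖G w‖ ≤ 2 := by
            calc ‖G w‖ = ‖(G w - 1) + 1‖ := by simp
              _ ≤ ‖G w - 1‖ + ‖(1 : M')‖ := norm_add_le _ _
              _ ≤ 2 := by rw [norm_one]; linarith [(hG1 w hw').1]
          rw [h1]
          calc ‖G w * Ring.inverse (R w)‖ ≤ ‖G w‖ * ‖Ring.inverse (R w)‖ := norm_mul_le _ _
            _ ≤ 2 * 2 := by gcongr; exact norm_inverse_le hRw
            _ = 4 := by norm_num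
  intro ε hε
  obtain ⟨n, hn⟩ := exists_pow_lt_of_lt_one (show (0 : ℝ) < ε / 8 by positivity)
    (show (1 / 2 : ℝ) < 1 by norm_num)
  obtain ⟨Pn, R, hR, hR1, hPR, hApp⟩ := claim n
  obtain ⟨H, hH1, hH2, hH3⟩ := hApp (ε / 2) (by positivity)
  refine ⟨H, hH1, hH2, fun w hw => ?_⟩
  have hw' := hKV hw
  have hp : (0 : ℝ) < (1 / 2) ^ n := by positivity
  have hp1 : (1 / 2 : ℝ) ^ n ≤ 1 := pow_le_one₀ (by norm_num) (by norm_num)
  have hRw : ‖R w - 1‖ ≤ 1 / 2 := (hR1 w hw').1.trans (by nlinarith)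
  have hu := isUnit_of_near_one hRw
  have h1 : Pn w = G w * Ring.inverse (R w) := by
    rw [hPR w hw', mul_assoc, Ring.mul_inverse_cancel _ hu, mul_one]
  have h2 : ‖G w‖ ≤ 2 := by
    calc ‖G w‖ = ‖(G w - 1) + 1‖ := by simp
      _ ≤ ‖G w - 1‖ + ‖(1 : M')‖ := norm_add_le _ _
      _ ≤ 2 := by rw [norm_one]; linarith [(hG1 w hw').1]
  have h3 : ‖Pn w‖ ≤ 4 := by
    rw [h1]
    calc ‖G w * Ring.inverse (R w)‖ ≤ ‖G w‖ * ‖Ring.inverse (R w)‖ := norm_mul_le _ _
      _ ≤ 2 * 2 := by gcongr; exact norm_inverse_le hRw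
      _ = 4 := by norm_num
  have h4 : H w - G w = (H w - Pn w) - Pn w * (R w - 1) := by
    rw [hPR w hw']; noncomm_ring
  rw [h4]
  calc ‖(H w - Pn w) - Pn w * (R w - 1)‖ ≤ ‖H w - Pn w‖ + ‖Pn w * (R w - 1)‖ := norm_sub_le _ _
    _ ≤ ε / 2 + 4 * (δ * (1 / 2) ^ n) := by
        gcongr
        · exact hH3 w hw
        · exact (norm_mul_le _ _).trans (mul_le_mul h3 (hR1 w hw').1 (norm_nonneg _) (by norm_num))
    _ ≤ ε := by nlinarith

theorem app_homotopy [ProperSpace M'] (hee : e * e = e) {K' : Set ℂ} (hK' : IsCompact K')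
    (hKV : K ⊆ V) (hVK' : V ⊆ K') (hRK : RK V K M') {Γ : ℝ → ℂ → M'}
    (hc : ContinuousOn (Function.uncurry Γ) (Icc 0 1 ×ˢ K'))
    (hu : ∀ t ∈ Icc (0 : ℝ) 1, ∀ w ∈ K', IsUnit (Γ t w) ∧ e * Γ t w = e)
    (hd : ∀ t ∈ Icc (0 : ℝ) 1, DifferentiableOn ℂ (Γ t) V) (h0 : App e K (Γ 0)) :
    App e K (Γ 1) := by
  have hKb : Bornology.IsBounded K := hK'.isBounded.subset (hKV.trans hVK')
  obtain ⟨δ, hδ, hnear⟩ := app_near_one hee hKb hKV hRK
  obtain ⟨B, hB⟩ := (isCompact_Icc.prod hK').exists_bound_of_continuousOn hc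
  set Φ : ℝ × ℝ × ℂ → M' := fun p => Ring.inverse (Γ p.1 p.2.2) * Γ p.2.1 p.2.2 with hΦ
  have hS : IsCompact ((Icc (0 : ℝ) 1) ×ˢ (Icc (0 : ℝ) 1) ×ˢ K') :=
    isCompact_Icc.prod (isCompact_Icc.prod hK')
  have hΦc : ContinuousOn Φ ((Icc (0 : ℝ) 1) ×ˢ (Icc (0 : ℝ) 1) ×ˢ K') := by
    refine ContinuousOn.mul ?_ ?_
    · have h1 : ContinuousOn (fun p : ℝ × ℝ × ℂ => Γ p.1 p.2.2)
          ((Icc (0 : ℝ) 1) ×ˢ (Icc (0 : ℝ) 1) ×ˢ K') :=
        hc.comp (f := fun p : ℝ × ℝ × ℂ => (p.1, p.2.2)) (by fun_prop)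
          (fun p hp => ⟨hp.1, hp.2.2⟩)
      intro p hp
      have hup := (hu p.1 hp.1 p.2.2 hp.2.2).1
      obtain ⟨u, hu'⟩ := hup
      have h2 : ContinuousAt Ring.inverse (Γ p.1 p.2.2) := by
        rw [← hu']; exact NormedRing.inverse_continuousAt u
      exact ContinuousAt.comp_continuousWithinAt (f := fun p : ℝ × ℝ × ℂ => Γ p.1 p.2.2) h2 (h1 p hp)
    · exact hc.comp (f := fun p : ℝ × ℝ × ℂ => (p.2.1, p.2.2)) (by fun_prop)
          (fun p hp => ⟨hp.2.1, hp.2.2⟩)
  have huc := hS.uniformContinuousOn_of_continuous hΦc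
  rw [Metric.uniformContinuousOn_iff_le] at huc
  obtain ⟨η, hη, huc⟩ := huc δ hδ
  obtain ⟨n, hn⟩ := exists_nat_one_div_lt hη
  have key : ∀ i : ℕ, i ≤ n + 1 → App e K (Γ ((i : ℝ) / (n + 1))) := by
    intro i
    induction i with
    | zero => intro _; simpa using h0
    | succ i ih =>
      intro hi
      have hi' := ih (by omega)
      set s : ℝ := (i : ℝ) / (n + 1) with hs
      set t : ℝ := ((i + 1 : ℕ) : ℝ) / (n + 1) with ht
      have hs01 : s ∈ Icc (0 : ℝ) 1 := by
        refine ⟨by positivity, ?_⟩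
        rw [hs, div_le_one (by positivity)]
        have : ((i : ℕ) : ℝ) ≤ ((n + 1 : ℕ) : ℝ) := by exact_mod_cast (by omega : i ≤ n + 1)
        push_cast at this; exact this
      have ht01 : t ∈ Icc (0 : ℝ) 1 := by
        refine ⟨by positivity, ?_⟩
        rw [ht, div_le_one (by positivity)]
        have : ((i + 1 : ℕ) : ℝ) ≤ ((n + 1 : ℕ) : ℝ) := by exact_mod_cast hi
        push_cast at this ⊢; exact this
      have hst : dist t s ≤ η := by
        rw [Real.dist_eq, ht, hs, ← sub_div]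
        push_cast
        rw [add_sub_cancel_left, abs_of_pos (by positivity)]
        exact hn.le
      have hE : App e K (fun w => Ring.inverse (Γ s w) * Γ t w) := by
        refine hnear _ ?_ ?_
        · refine DifferentiableOn.mul ?_ (hd t ht01)
          intro w hw
          obtain ⟨u, hu'⟩ := (hu s hs01 w (hVK' hw)).1
          have h2 : DifferentiableAt ℂ Ring.inverse (Γ s w) := by
            rw [← hu']; exact differentiableAt_inverse (𝕜 := ℂ) u.isUnit
          exact h2.comp_differentiableWithinAt w (hd s hs01 w hw)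
        · intro w hw
          have hw' := hVK' hw
          constructor
          · have h1 := huc (s, t, w) ⟨hs01, ht01, hw'⟩ (s, s, w) ⟨hs01, hs01, hw'⟩ (by
              rw [Prod.dist_eq, Prod.dist_eq]
              simp only [dist_self]
              rw [max_eq_left (dist_nonneg), max_eq_right dist_nonneg]
              exact hst)
            simp only [hΦ] at h1
            rw [Ring.inverse_mul_cancel _ (hu s hs01 w hw').1, dist_eq_norm] at h1
            exact h1
          · have h1 : e * Ring.inverse (Γ s w) = e := by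
              have h2 := (hu s hs01 w hw').2
              calc e * Ring.inverse (Γ s w) = (e * Γ s w) * Ring.inverse (Γ s w) := by rw [h2]
                _ = e := by rw [mul_assoc, Ring.mul_inverse_cancel _ (hu s hs01 w hw').1, mul_one]
            rw [← mul_assoc, h1, (hu t ht01 w hw').2]
      refine (App.mul hKb hi' hE (B := B) (fun w hw => hB (s, w) ⟨hs01, hVK' (hKV hw)⟩)).congr
        (fun w hw => ?_)
      rw [← mul_assoc, Ring.mul_inverse_cancel _ (hu s hs01 w (hVK' (hKV hw))).1, one_mul]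
  have := key (n + 1) le_rfl
  have h1 : (((n + 1 : ℕ) : ℝ) / (n + 1)) = 1 := by
    push_cast; exact div_self (by positivity)
  rwa [h1] at this

/-- units of the form `e * c = e` are path connected. -/
theorem exists_path (hee : e * e = e) (hspec : ∀ x : M', (spectrum ℂ x).Finite) {c : M'}
    (hc : IsUnit c) (hec : e * c = e) : ∃ γ : ℝ → M', Continuous γ ∧ γ 0 = 1 ∧ γ 1 = c ∧
      ∀ t, IsUnit (γ t) ∧ e * γ t = e := by
  set B : Set ℂ := {z | ¬ IsUnit (1 + z • (c - 1))} with hB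
  have hBf : B.Finite := by
    have h1 : B ⊆ (fun z : ℂ => (-z)⁻¹) ⁻¹' (spectrum ℂ (c - 1)) := by
      intro z hz
      rw [hB, mem_ofPred_eq] at hz
      have hz0 : z ≠ 0 := by
        rintro rfl
        simp at hz
      rw [mem_preimage, spectrum.mem_iff]
      intro hu
      apply hz
      have : 1 + z • (c - 1) = (-z) • (algebraMap ℂ M' ((-z)⁻¹) - (c - 1)) := by
        rw [smul_sub (-z), Algebra.algebraMap_eq_smul_one, smul_smul,
          mul_inv_cancel₀ (neg_ne_zero.2 hz0), one_smul, neg_smul, sub_neg_eq_add]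
      rw [this]
      obtain ⟨u, hu⟩ := hu
      rw [← hu]
      exact ⟨(Units.mk0 (-z) (neg_ne_zero.2 hz0)) • u, rfl⟩
    refine ((hspec (c - 1)).preimage ?_).subset h1
    intro x _ y _ h
    simpa using h
  have hpc : IsPathConnected Bᶜ := hBf.countable.isPathConnected_compl_of_one_lt_rank (by
    rw [← Complex.rank_real_complex.symm]; norm_num)
  have h0 : (0 : ℂ) ∈ Bᶜ := by
    simp only [hB, mem_compl_iff, mem_ofPred_eq, not_not]
    simp
  have h1 : (1 : ℂ) ∈ Bᶜ := by
    simp only [hB, mem_compl_iff, mem_ofPred_eq, not_not]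
    simpa using hc
  obtain ⟨p, hp⟩ := hpc.joinedIn 0 h0 1 h1
  refine ⟨fun t => 1 + (p.extend t) • (c - 1), ?_, by simp, by simp, fun t => ⟨?_, ?_⟩⟩
  · exact continuous_const.add (p.continuous_extend.smul continuous_const)
  · have : p.extend t ∈ Bᶜ := by
      obtain ⟨s, hs⟩ : p.extend t ∈ range p := by
        rw [← p.extend_range]; exact mem_range_self t
      rw [← hs]; exact hp s
    simpa only [hB, mem_compl_iff, mem_ofPred_eq, not_not] using this
  · rw [mul_add, mul_smul_comm, mul_sub, hec, mul_one, sub_self, smul_zero, add_zero]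

end Pool.Agent.Work.MP_77a596_an
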