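import Pool.Agent.Work.MP_77a596_an.Rect

set_option autoImplicit false
set_option linter.unusedVariables false
set_option linter.unusedSectionVars false

open Set Metric Filter Topology MeasureTheory Complex

namespace Pool.Agent.Work.MP_77a596_an

variable {P : Type*} [NormedAddCommGroup P] [NormedSpace ℂ P]
variable {E : Type*} [NormedAddCommGroup E] [NormedSpace ℂ E] [CompleteSpace E]
variable {M' : Type*} [NormedRing M'] [NormedAlgebra ℂ M'] [CompleteSpace M'] [NormOneClass M']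
variable {M'' : Type*} [NormedAddCommGroup M''] [NormedSpace ℂ M''] [CompleteSpace M'']

def thick (Q : Set ℂ) (θ : ℝ) : Set ℂ := {w | ∃ q ∈ Q, |w.re - q.re| < θ ∧ |w.im - q.im| < θ}

theorem isOpen_thick (Q : Set ℂ) (θ : ℝ) : IsOpen (thick Q θ) := by
  have : thick Q θ = ⋃ q ∈ Q, ({w : ℂ | |w.re - q.re| < θ} ∩ {w : ℂ | |w.im - q.im| < θ}) := by
    ext w; simp only [thick, mem_setOf_eq, mem_iUnion, mem_inter_iff, exists_prop]
  rw [this]
  refine isOpen_biUnion (fun q _ => ?_)
  refine IsOpen.inter (isOpen_lt ?_ continuous_const) (isOpen_lt ?_ continuous_const)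
  · exact (Complex.continuous_re.sub continuous_const).abs
  · exact (Complex.continuous_im.sub continuous_const).abs

theorem thick_mono {Q Q' : Set ℂ} {θ θ' : ℝ} (h : Q ⊆ Q') (h' : θ ≤ θ') :
    thick Q θ ⊆ thick Q' θ' := by
  rintro w ⟨q, hq, h1, h2⟩
  exact ⟨q, h hq, h1.trans_le h', h2.trans_le h'⟩

theorem thick_union (Q Q' : Set ℂ) (θ : ℝ) : thick (Q ∪ Q') θ = thick Q θ ∪ thick Q' θ := by
  ext w
  constructor
  · rintro ⟨q, hq | hq, h⟩
    · exact Or.inl ⟨q, hq, h⟩
    · exact Or.inr ⟨q, hq, h⟩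
  · rintro (⟨q, hq, h⟩ | ⟨q, hq, h⟩)
    · exact ⟨q, Or.inl hq, h⟩
    · exact ⟨q, Or.inr hq, h⟩

theorem subset_thick {Q : Set ℂ} {θ : ℝ} (h : 0 < θ) : Q ⊆ thick Q θ := fun w hw =>
  ⟨w, hw, by simpa using h, by simpa using h⟩

noncomputable def edgePt (a b c d : ℝ) : Fin 4 → ℝ → ℂ :=
  ![fun t => t + c * I, fun t => t + d * I, fun t => b + t * I, fun t => a + t * I]

noncomputable def elo (a b c d : ℝ) : Fin 4 → ℝ := ![a, a, c, c]
noncomputable def ehi (a b c d : ℝ) : Fin 4 → ℝ := ![b, b, d, d]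
noncomputable def ewt : Fin 4 → ℂ := ![1, -1, I, -I]

theorem rInt_eq_sum (a b c d : ℝ) (f : ℂ → E) :
    rInt a b c d f = ∑ j, ewt j • ∫ t in elo a b c d j..ehi a b c d j, f (edgePt a b c d j t) := by
  simp [rInt, Fin.sum_univ_four, ewt, elo, ehi, edgePt, sub_eq_add_neg]

theorem norm_ewt (j : Fin 4) : ‖ewt j‖ = 1 := by
  fin_cases j <;> simp [ewt]

theorem elo_le_ehi {a b c d : ℝ} (hab : a ≤ b) (hcd : c ≤ d) (j : Fin 4) :
    elo a b c d j ≤ ehi a b c d j := by
  fin_cases j <;> simp [elo, ehi, hab, hcd]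

theorem continuous_edgePt (a b c d : ℝ) (j : Fin 4) : Continuous (edgePt a b c d j) := by
  fin_cases j
  · show Continuous (fun t : ℝ => (t : ℂ) + c * I); fun_prop
  · show Continuous (fun t : ℝ => (t : ℂ) + d * I); fun_prop
  · show Continuous (fun t : ℝ => (b : ℂ) + t * I); fun_prop
  · show Continuous (fun t : ℝ => (a : ℂ) + t * I); fun_prop

theorem edgePt_mem {a b c d : ℝ} (hab : a ≤ b) (hcd : c ≤ d) {j : Fin 4} {t : ℝ}
    (ht : t ∈ Icc (elo a b c d j) (ehi a b c d j)) :
    edgePt a b c d j t ∈ Icc a b ×ℂ Icc c d := by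
  rw [mem_reProdIm]
  fin_cases j
  all_goals
    simp [elo, ehi] at ht
    simp [edgePt, hab, hcd, ht.1, ht.2]

theorem len_le {a b c d : ℝ} (hab : a ≤ b) (hcd : c ≤ d) (j : Fin 4) :
    ehi a b c d j - elo a b c d j ≤ (b - a) + (d - c) := by
  fin_cases j <;> simp [elo, ehi] <;> linarith

/-- The open rectangle thickened by `θ`. -/
def oRect (a b c d θ : ℝ) : Set ℂ :=
  {w | a - θ < w.re ∧ w.re < b + θ ∧ c - θ < w.im ∧ w.im < d + θ}

structure Geo (QA QB : Set ℂ) {L : Type} [Fintype L] (a b c d : L → ℝ) (θ0 : ℝ) : Prop where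
  pos : 0 < θ0
  hab : ∀ l, a l ≤ b l
  hcd : ∀ l, c l ≤ d l
  inter : ∀ θ, 0 < θ → θ ≤ θ0 → thick QA θ ∩ thick QB θ = ⋃ l, oRect (a l) (b l) (c l) (d l) θ
  side : ∀ l (j : Fin 4),
    (∀ θ, 0 < θ → θ ≤ θ0 → ∀ z : ℂ, z ∈ edgePt (a l - θ) (b l + θ) (c l - θ) (d l + θ) j ''
      Icc (elo (a l - θ) (b l + θ) (c l - θ) (d l + θ) j)
        (ehi (a l - θ) (b l + θ) (c l - θ) (d l + θ) j) →
      ∀ q ∈ QA, θ ≤ |z.re - q.re| ∨ θ ≤ |z.im - q.im|) ∨
    (∀ θ, 0 < θ → θ ≤ θ0 → ∀ z : ℂ, z ∈ edgePt (a l - θ) (b l + θ) (c l - θ) (d l + θ) j ''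
      Icc (elo (a l - θ) (b l + θ) (c l - θ) (d l + θ) j)
        (ehi (a l - θ) (b l + θ) (c l - θ) (d l + θ) j) →
      ∀ q ∈ QB, θ ≤ |z.re - q.re| ∨ θ ≤ |z.im - q.im|)
  disj : ∀ l l', l ≠ l' → ∀ w : ℂ,
    w ∈ Icc (a l - θ0) (b l + θ0) ×ℂ Icc (c l - θ0) (d l + θ0) →
    w ∉ Icc (a l' - θ0) (b l' + θ0) ×ℂ Icc (c l' - θ0) (d l' + θ0)

/-- one edge integral -/
theorem edge_integral {a b c d : ℝ} (hab : a ≤ b) (hcd : c ≤ d) (j : Fin 4)
    {P0 : Set P} {T U : Set ℂ} {σ : ℝ} (hσ : 0 < σ) {f : P × ℂ → E} (hf : NC f (P0 ×ˢ U))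
    (hU : Icc a b ×ℂ Icc c d ⊆ U) {M : ℝ} (hM0 : 0 ≤ M) (hM : ∀ x ∈ P0 ×ˢ U, ‖f x‖ ≤ M)
    (hT : ∀ t ∈ Icc (elo a b c d j) (ehi a b c d j), ∀ w ∈ T, σ ≤ ‖edgePt a b c d j t - w‖) :
    NC (fun x : P × ℂ => ewt j • ∫ t in elo a b c d j..ehi a b c d j,
      (edgePt a b c d j t - x.2)⁻¹ • f (x.1, edgePt a b c d j t)) (P0 ×ˢ T) ∧
    ∀ x ∈ P0 ×ˢ T, ‖ewt j • ∫ t in elo a b c d j..ehi a b c d j,
      (edgePt a b c d j t - x.2)⁻¹ • f (x.1, edgePt a b c d j t)‖ ≤
        ((b - a) + (d - c)) * (M / σ) := by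
  have hle := elo_le_ehi hab hcd j
  have hne : ∀ t ∈ Icc (elo a b c d j) (ehi a b c d j), ∀ w ∈ T, edgePt a b c d j t - w ≠ 0 := by
    intro t ht w hw h
    have := hT t ht w hw
    rw [h, norm_zero] at this
    linarith
  constructor
  · refine NC.const_smul _ (NC.intervalIntegral hle ?_ ?_)
    · have h1 : ContinuousOn (fun p : (P × ℂ) × ℝ => (edgePt a b c d j p.2 - p.1.2)⁻¹)
          ((P0 ×ˢ T) ×ˢ Icc (elo a b c d j) (ehi a b c d j)) := by
        refine ContinuousOn.inv₀ ?_ ?_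
        · exact (((continuous_edgePt a b c d j).comp continuous_snd).sub
            (continuous_snd.comp continuous_fst)).continuousOn
        · rintro ⟨⟨y, w⟩, t⟩ ⟨⟨_, hw⟩, ht⟩
          exact hne t ht w hw
      have h2 : ContinuousOn (fun p : (P × ℂ) × ℝ => f (p.1.1, edgePt a b c d j p.2))
          ((P0 ×ˢ T) ×ˢ Icc (elo a b c d j) (ehi a b c d j)) := by
        refine hf.1.comp (f := fun p : (P × ℂ) × ℝ => (p.1.1, edgePt a b c d j p.2)) ?_ ?_
        · exact ((continuous_fst.comp continuous_fst).prodMk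
            ((continuous_edgePt a b c d j).comp continuous_snd)).continuousOn
        · rintro ⟨⟨y, w⟩, t⟩ ⟨⟨hy, _⟩, ht⟩
          exact ⟨hy, hU (edgePt_mem hab hcd ht)⟩
      exact h1.smul h2
    · intro t ht
      refine NC.smul (NC.inv (NC.of_differentiableOn (by fun_prop)) ?_) ?_
      · rintro ⟨y, w⟩ ⟨_, hw⟩
        exact hne t ht w hw
      · refine hf.comp (h := fun x : P × ℂ => (x.1, edgePt a b c d j t))
          (NC.of_differentiableOn (by fun_prop)) ?_
        rintro ⟨y, w⟩ ⟨hy, _⟩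
        exact ⟨hy, hU (edgePt_mem hab hcd ht)⟩
  · rintro ⟨y, w⟩ ⟨hy, hw⟩
    rw [norm_smul, norm_ewt, one_mul]
    have h1 : ‖∫ t in elo a b c d j..ehi a b c d j,
        (edgePt a b c d j t - w)⁻¹ • f (y, edgePt a b c d j t)‖ ≤
        (M / σ) * |ehi a b c d j - elo a b c d j| := by
      apply intervalIntegral.norm_integral_le_of_norm_le_const
      intro t ht
      rw [uIoc_of_le hle] at ht
      have ht' := Ioc_subset_Icc_self ht
      rw [norm_smul, norm_inv, div_eq_inv_mul]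
      gcongr
      · exact hT t ht' w hw
      · exact hM _ ⟨hy, hU (edgePt_mem hab hcd ht')⟩
    refine h1.trans ?_
    rw [abs_of_nonneg (by linarith), mul_comm]
    gcongr
    exact len_le hab hcd j

theorem asl_of_geo {QA QB : Set ℂ} {L : Type} [Fintype L] {a b c d : L → ℝ} {θ0 : ℝ}
    (geo : Geo QA QB a b c d θ0) (ρ : M' →L[ℂ] M'') {θ1 θ2 : ℝ} (h1 : 0 < θ1) (h12 : θ1 < θ2)
    (h2 : θ2 ≤ θ0) : ∃ C > 0, ∀ P0 : Set P,
      ASL (LinearMap.ker (ρ : M' →ₗ[ℂ] M'')) C P0 (fun t => thick QA (θ1 + (θ2 - θ1) * t))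
        (fun t => thick QB (θ1 + (θ2 - θ1) * t)) := by
  classical
  set K : ℝ := ∑ l : L, 4 * ((b l - a l) + (d l - c l) + 4 * θ0) with hK
  have hK0 : 0 ≤ K := Finset.sum_nonneg (fun l _ => by
    have := geo.hab l; have := geo.hcd l; have := geo.pos; linarith)
  refine ⟨2 * K / (θ2 - θ1) + 1, by
    have : 0 < θ2 - θ1 := by linarith
    positivity, ?_⟩
  intro P0 r t hr hrt ht1 f M hM0 hf hM hN
  set θr := θ1 + (θ2 - θ1) * r with hθr
  set θt := θ1 + (θ2 - θ1) * t with hθt
  set θ := (θr + θt) / 2 with hθ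
  have hθrt : θr < θt := by rw [hθr, hθt]; nlinarith
  have hθr0 : 0 < θr := by rw [hθr]; nlinarith
  have hθt0 : θt ≤ θ0 := by rw [hθt]; nlinarith
  have hθpos : 0 < θ := by rw [hθ]; linarith
  have hθ0 : θ ≤ θ0 := by rw [hθ]; linarith
  set σ := θ - θr with hσ
  have hσpos : 0 < σ := by rw [hσ, hθ]; linarith
  have hσeq : σ = (θ2 - θ1) * (t - r) / 2 := by rw [hσ, hθ, hθr, hθt]; ring
  let sA : L → Fin 4 → Prop := fun l j =>
    ∀ θ, 0 < θ → θ ≤ θ0 → ∀ z : ℂ, z ∈ edgePt (a l - θ) (b l + θ) (c l - θ) (d l + θ) j ''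
      Icc (elo (a l - θ) (b l + θ) (c l - θ) (d l + θ) j)
        (ehi (a l - θ) (b l + θ) (c l - θ) (d l + θ) j) →
      ∀ q ∈ QA, θ ≤ |z.re - q.re| ∨ θ ≤ |z.im - q.im|
  set ep : L → Fin 4 → ℝ → ℂ := fun l j => edgePt (a l - θ) (b l + θ) (c l - θ) (d l + θ) j with hep
  set lo : L → Fin 4 → ℝ := fun l j => elo (a l - θ) (b l + θ) (c l - θ) (d l + θ) j with hlo
  set hi : L → Fin 4 → ℝ := fun l j => ehi (a l - θ) (b l + θ) (c l - θ) (d l + θ) j with hhi
  let J : L → Fin 4 → P × ℂ → M' := fun l j x =>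
    ewt j • ∫ t in lo l j..hi l j, (ep l j t - x.2)⁻¹ • f (x.1, ep l j t)
  have hab : ∀ l, a l - θ ≤ b l + θ := fun l => by linarith [geo.hab l]
  have hcd : ∀ l, c l - θ ≤ d l + θ := fun l => by linarith [geo.hcd l]
  set U := thick QA θt ∩ thick QB θt with hU
  have hUo : IsOpen U := (isOpen_thick _ _).inter (isOpen_thick _ _)
  have hUeq : U = ⋃ l, oRect (a l) (b l) (c l) (d l) θt := geo.inter θt (by linarith) hθt0
  have hRU : ∀ l, Icc (a l - θ) (b l + θ) ×ℂ Icc (c l - θ) (d l + θ) ⊆ U := by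
    intro l w hw
    rw [hUeq, mem_iUnion]
    rw [mem_reProdIm, mem_Icc, mem_Icc] at hw
    refine ⟨l, ?_, ?_, ?_, ?_⟩ <;> linarith [hw.1.1, hw.1.2, hw.2.1, hw.2.2]
  have hsep : ∀ {Q : Set ℂ} {l : L} {j : Fin 4},
      (∀ θ, 0 < θ → θ ≤ θ0 → ∀ z : ℂ, z ∈ edgePt (a l - θ) (b l + θ) (c l - θ) (d l + θ) j ''
      Icc (elo (a l - θ) (b l + θ) (c l - θ) (d l + θ) j)
        (ehi (a l - θ) (b l + θ) (c l - θ) (d l + θ) j) →
      ∀ q ∈ Q, θ ≤ |z.re - q.re| ∨ θ ≤ |z.im - q.im|) →
      ∀ t ∈ Icc (lo l j) (hi l j), ∀ w ∈ thick Q θr, σ ≤ ‖ep l j t - w‖ := by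
    intro Q l j h t ht w hw
    obtain ⟨q, hq, hq1, hq2⟩ := hw
    rcases h θ hθpos hθ0 (ep l j t) ⟨t, ht, rfl⟩ q hq with h' | h'
    · have e1 : |(ep l j t).re - q.re| ≤ |(ep l j t - w).re| + |w.re - q.re| := by
        have : (ep l j t).re - q.re = (ep l j t - w).re + (w.re - q.re) := by simp
        rw [this]; exact abs_add_le _ _
      have e2 := Complex.abs_re_le_norm (ep l j t - w)
      linarith
    · have e1 : |(ep l j t).im - q.im| ≤ |(ep l j t - w).im| + |w.im - q.im| := by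
        have : (ep l j t).im - q.im = (ep l j t - w).im + (w.im - q.im) := by simp
        rw [this]; exact abs_add_le _ _
      have e2 := Complex.abs_im_le_norm (ep l j t - w)
      linarith
  have hJA : ∀ l j, sA l j → NC (J l j) (P0 ×ˢ thick QA θr) ∧ ∀ x ∈ P0 ×ˢ thick QA θr,
      ‖J l j x‖ ≤ ((b l + θ - (a l - θ)) + (d l + θ - (c l - θ))) * (M / σ) := fun l j hs =>
    edge_integral (hab l) (hcd l) j hσpos hf (hRU l) hM0 hM (hsep hs)
  have hJB : ∀ l j, ¬ sA l j → NC (J l j) (P0 ×ˢ thick QB θr) ∧ ∀ x ∈ P0 ×ˢ thick QB θr,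
      ‖J l j x‖ ≤ ((b l + θ - (a l - θ)) + (d l + θ - (c l - θ))) * (M / σ) := fun l j hs =>
    edge_integral (hab l) (hcd l) j hσpos hf (hRU l) hM0 hM
      (hsep ((geo.side l j).resolve_left hs))
  have hρJ : ∀ l j (x : P × ℂ), x.1 ∈ P0 → (∀ t ∈ Icc (lo l j) (hi l j), ep l j t - x.2 ≠ 0) →
      ρ (J l j x) = 0 := by
    intro l j x hx hne
    simp only [J]
    have hcont : ContinuousOn (fun t => (ep l j t - x.2)⁻¹ • f (x.1, ep l j t))
        (Icc (lo l j) (hi l j)) := by
      refine ContinuousOn.smul (ContinuousOn.inv₀ ?_ hne) ?_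
      · exact ((continuous_edgePt _ _ _ _ j).sub continuous_const).continuousOn
      · refine hf.1.comp (f := fun t => (x.1, ep l j t)) ?_ ?_
        · exact (continuous_const.prodMk (continuous_edgePt _ _ _ _ j)).continuousOn
        · intro t ht
          exact ⟨hx, hRU l (edgePt_mem (hab l) (hcd l) ht)⟩
    have hle : lo l j ≤ hi l j := elo_le_ehi (hab l) (hcd l) j
    rw [map_smul, ← ContinuousLinearMap.intervalIntegral_comp_comm]
    · have : ∫ t in lo l j..hi l j, ρ ((ep l j t - x.2)⁻¹ • f (x.1, ep l j t)) = 0 := by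
        rw [← intervalIntegral.integral_zero (a := lo l j) (b := hi l j) (μ := volume)]
        apply intervalIntegral.integral_congr
        intro t ht
        rw [uIcc_of_le hle] at ht
        have := hN (x.1, ep l j t) ⟨hx, hRU l (edgePt_mem (hab l) (hcd l) ht)⟩
        rw [LinearMap.mem_ker] at this
        simp only [map_smul]
        have h' : ρ (f (x.1, ep l j t)) = 0 := this
        rw [h', smul_zero]
      rw [this, smul_zero]
    · apply ContinuousOn.intervalIntegrable
      rwa [uIcc_of_le hle]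
  set k : ℂ := (2 * Real.pi * I : ℂ)⁻¹ with hk
  have hknorm : ‖k‖ ≤ 1 := by
    rw [hk, norm_inv]
    apply inv_le_one_of_one_le₀
    simp only [norm_mul, norm_real, norm_I, mul_one, Complex.norm_ofNat, Real.norm_eq_abs,
      abs_of_pos Real.pi_pos]
    linarith [Real.pi_gt_three]
  refine ⟨fun x => -(k • ∑ l, ∑ j, if sA l j then J l j x else 0),
    fun x => k • ∑ l, ∑ j, if sA l j then 0 else J l j x, ?_, ?_, ?_, ?_, ?_⟩
  · refine NC.neg (NC.const_smul _ (NC.sum _ (fun l _ => NC.sum _ (fun j _ => ?_))))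
    by_cases hs : sA l j
    · simp only [if_pos hs]; exact (hJA l j hs).1
    · simp only [if_neg hs]; exact NC.const 0
  · refine NC.const_smul _ (NC.sum _ (fun l _ => NC.sum _ (fun j _ => ?_)))
    by_cases hs : sA l j
    · simp only [if_pos hs]; exact NC.const 0
    · simp only [if_neg hs]; exact (hJB l j hs).1
  · intro x hx
    constructor
    · rw [norm_neg, norm_smul]
      have hb : ‖∑ l, ∑ j, (if sA l j then J l j x else 0)‖ ≤ K * (M / σ) := by
        rw [hK, Finset.sum_mul]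
        refine norm_sum_le_of_le _ (fun l _ => ?_)
        calc ‖∑ j, (if sA l j then J l j x else 0)‖
            ≤ ∑ j : Fin 4, ((b l - a l) + (d l - c l) + 4 * θ0) * (M / σ) := by
              refine norm_sum_le_of_le _ (fun j _ => ?_)
              by_cases hs : sA l j
              · simp only [if_pos hs]
                refine ((hJA l j hs).2 x hx).trans ?_
                exact mul_le_mul_of_nonneg_right (by linarith) (by positivity)
              · simp only [if_neg hs, norm_zero]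
                have := geo.hab l; have := geo.hcd l; have := geo.pos
                have : 0 ≤ (b l - a l) + (d l - c l) + 4 * θ0 := by linarith
                positivity
          _ = 4 * ((b l - a l) + (d l - c l) + 4 * θ0) * (M / σ) := by simp; ring
      calc ‖k‖ * ‖∑ l, ∑ j, (if sA l j then J l j x else 0)‖ ≤ 1 * (K * (M / σ)) := by gcongr
        _ = (2 * K / (θ2 - θ1)) * M / (t - r) := by
            rw [hσeq]
            have : θ2 - θ1 ≠ 0 := by linarith
            have : t - r ≠ 0 := by linarith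
            field_simp
        _ ≤ (2 * K / (θ2 - θ1) + 1) * M / (t - r) := by
            have : 0 < t - r := by linarith
            gcongr
            linarith
    · rw [LinearMap.mem_ker]
      show ρ _ = 0
      rw [map_neg, map_smul, map_sum]
      have : ∀ l, ρ (∑ j, (if sA l j then J l j x else 0)) = 0 := by
        intro l
        rw [map_sum]
        refine Finset.sum_eq_zero (fun j _ => ?_)
        by_cases hs : sA l j
        · simp only [if_pos hs]
          refine hρJ l j x hx.1 (fun t ht h => ?_)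
          have := hsep hs t ht x.2 hx.2
          rw [h, norm_zero] at this
          linarith
        · simp only [if_neg hs, map_zero]
      simp [this]
  · intro x hx
    constructor
    · rw [norm_smul]
      have hb : ‖∑ l, ∑ j, (if sA l j then 0 else J l j x)‖ ≤ K * (M / σ) := by
        rw [hK, Finset.sum_mul]
        refine norm_sum_le_of_le _ (fun l _ => ?_)
        calc ‖∑ j, (if sA l j then 0 else J l j x)‖
            ≤ ∑ j : Fin 4, ((b l - a l) + (d l - c l) + 4 * θ0) * (M / σ) := by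
              refine norm_sum_le_of_le _ (fun j _ => ?_)
              by_cases hs : sA l j
              · simp only [if_pos hs, norm_zero]
                have := geo.hab l; have := geo.hcd l; have := geo.pos
                have : 0 ≤ (b l - a l) + (d l - c l) + 4 * θ0 := by linarith
                positivity
              · simp only [if_neg hs]
                refine ((hJB l j hs).2 x hx).trans ?_
                exact mul_le_mul_of_nonneg_right (by linarith) (by positivity)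
          _ = 4 * ((b l - a l) + (d l - c l) + 4 * θ0) * (M / σ) := by simp; ring
      calc ‖k‖ * ‖∑ l, ∑ j, (if sA l j then 0 else J l j x)‖ ≤ 1 * (K * (M / σ)) := by gcongr
        _ = (2 * K / (θ2 - θ1)) * M / (t - r) := by
            rw [hσeq]
            have : θ2 - θ1 ≠ 0 := by linarith
            have : t - r ≠ 0 := by linarith
            field_simp
        _ ≤ (2 * K / (θ2 - θ1) + 1) * M / (t - r) := by
            have : 0 < t - r := by linarith
            gcongr
            linarith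
    · rw [LinearMap.mem_ker]
      show ρ _ = 0
      rw [map_smul, map_sum]
      have : ∀ l, ρ (∑ j, (if sA l j then 0 else J l j x)) = 0 := by
        intro l
        rw [map_sum]
        refine Finset.sum_eq_zero (fun j _ => ?_)
        by_cases hs : sA l j
        · simp only [if_pos hs, map_zero]
        · simp only [if_neg hs]
          refine hρJ l j x hx.1 (fun t ht h => ?_)
          have := hsep ((geo.side l j).resolve_left hs) t ht x.2 hx.2
          rw [h, norm_zero] at this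
          linarith
      simp [this]
  · rintro ⟨y, w⟩ ⟨hy, hw⟩
    have hy' : y ∈ P0 := hy
    have hw' : w ∈ thick QA θr ∩ thick QB θr := hw
    rw [geo.inter θr hθr0 (by linarith), mem_iUnion] at hw'
    obtain ⟨l0, hl1, hl2, hl3, hl4⟩ := hw'
    have hslice : DifferentiableOn ℂ (fun ζ => f (y, ζ)) U := by
      refine hf.2 (fun ζ => (y, ζ)) U hUo (by fun_prop) (fun ζ hζ => ⟨hy', hζ⟩)
    have hsum : ∀ l, ∑ j, J l j (y, w) = if l = l0 then (2 * Real.pi * I : ℂ) • f (y, w) else 0 := by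
      intro l
      have he : ∑ j, J l j (y, w) = rInt (a l - θ) (b l + θ) (c l - θ) (d l + θ)
          (fun ζ => (ζ - w)⁻¹ • f (y, ζ)) := by
        rw [rInt_eq_sum]
      rw [he]
      by_cases hl : l = l0
      · rw [if_pos hl, hl]
        exact rInt_cauchy (by linarith) (by linarith) (by linarith) (by linarith) hUo hslice
          (hRU l0)
      · rw [if_neg hl]
        refine rInt_cauchy_outside (hab l) (hcd l) ?_ hslice (hRU l)
        intro hmem
        refine geo.disj l l0 hl w ?_ ?_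
        · rw [mem_reProdIm, mem_Icc, mem_Icc] at hmem ⊢
          refine ⟨⟨?_, ?_⟩, ?_, ?_⟩ <;> linarith [hmem.1.1, hmem.1.2, hmem.2.1, hmem.2.2]
        · rw [mem_reProdIm, mem_Icc, mem_Icc]
          refine ⟨⟨?_, ?_⟩, ?_, ?_⟩ <;> linarith
    have htot : ∑ l, ∑ j, J l j (y, w) = (2 * Real.pi * I : ℂ) • f (y, w) := by
      simp only [hsum, Finset.sum_ite_eq', Finset.mem_univ, if_true]
    have hsplit : (∑ l, ∑ j, (if sA l j then 0 else J l j (y, w))) +
        (∑ l, ∑ j, (if sA l j then J l j (y, w) else 0)) = ∑ l, ∑ j, J l j (y, w) := by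
      rw [← Finset.sum_add_distrib]
      refine Finset.sum_congr rfl (fun l _ => ?_)
      rw [← Finset.sum_add_distrib]
      refine Finset.sum_congr rfl (fun j _ => ?_)
      split_ifs <;> simp
    show f (y, w) = _
    rw [sub_neg_eq_add, ← smul_add, hsplit, htot, hk, smul_smul, inv_mul_cancel₀, one_smul]
    simp [Real.pi_ne_zero]

end Pool.Agent.Work.MP_77a596_an
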