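import Pool.Agent.Work.MP_77a596_an.Runge

set_option autoImplicit false
set_option linter.unusedVariables false
set_option linter.unusedSectionVars false

open Set Metric Filter Topology MeasureTheory Complex

namespace Pool.Agent.Work.MP_77a596_an

universe u v

/-- cocycle data on open subsets of `P × ℂ`. -/
structure Coc (P : Type v) [NormedAddCommGroup P] [NormedSpace ℂ P] (M' : Type v) [NormedRing M']
    [NormedAlgebra ℂ M'] (e : M') where
  ι : Type u
  U : ι → Set (P × ℂ)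
  hU : ∀ i, IsOpen (U i)
  g : ι → ι → P × ℂ → M'
  hg : ∀ i j, NC (g i j) (U i ∩ U j)
  haff : ∀ i j x, x ∈ U i ∩ U j → e * g i j x = e
  hself : ∀ i, ∀ x ∈ U i, g i i x = 1
  hcoc : ∀ i j k x, x ∈ U i → x ∈ U j → x ∈ U k → g i j x * g j k x = g i k x

variable {P : Type v} [NormedAddCommGroup P] [NormedSpace ℂ P]
variable {M' : Type v} [NormedRing M'] [NormedAlgebra ℂ M'] {e : M'}

structure Coc.Frame (D : Coc.{u, v} P M' e) (W : Set (P × ℂ)) (m : D.ι → P × ℂ → M') : Prop where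
  cover : ∀ x ∈ W, ∃ i, x ∈ D.U i
  nc : ∀ i, NC (m i) (W ∩ D.U i)
  unit : ∀ i, ∀ x ∈ W ∩ D.U i, IsUnit (m i x) ∧ e * m i x = e
  comp : ∀ i j x, x ∈ W → x ∈ D.U i → x ∈ D.U j → m i x = D.g i j x * m j x

theorem isUnit_of_mul_eq_one' {a b : M'} (h1 : a * b = 1) (h2 : b * a = 1) : IsUnit a :=
  ⟨⟨a, b, h1, h2⟩, rfl⟩

theorem Coc.unit_g (D : Coc.{u, v} P M' e) {i j : D.ι} {x : P × ℂ} (hi : x ∈ D.U i)
    (hj : x ∈ D.U j) : IsUnit (D.g i j x) :=
  isUnit_of_mul_eq_one' (by rw [D.hcoc i j i x hi hj hi, D.hself i x hi])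
    (by rw [D.hcoc j i j x hj hi hj, D.hself j x hj])

theorem aff_inverse {x : M'} (hx : IsUnit x) (h : e * x = e) : e * Ring.inverse x = e := by
  calc e * Ring.inverse x = (e * x) * Ring.inverse x := by rw [h]
    _ = e := by rw [mul_assoc, Ring.mul_inverse_cancel _ hx, mul_one]

variable {D : Coc.{u, v} P M' e} {W W' : Set (P × ℂ)} {m m' : D.ι → P × ℂ → M'}

theorem Coc.Frame.mono (h : D.Frame W m) (hW : W' ⊆ W) : D.Frame W' m where
  cover x hx := h.cover x (hW hx)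
  nc i := (h.nc i).mono (inter_subset_inter_left _ hW)
  unit i x hx := h.unit i x ⟨hW hx.1, hx.2⟩
  comp i j x hx := h.comp i j x (hW hx)

theorem Coc.Frame.mul (h : D.Frame W m) {a : P × ℂ → M'} (ha : NC a W)
    (hu : ∀ x ∈ W, IsUnit (a x) ∧ e * a x = e) : D.Frame W (fun i x => m i x * a x) where
  cover := h.cover
  nc i := (h.nc i).mul (ha.mono inter_subset_left)
  unit i x hx := ⟨(h.unit i x hx).1.mul (hu x hx.1).1, by
    rw [← mul_assoc, (h.unit i x hx).2, (hu x hx.1).2]⟩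
  comp i j x hx hi hj := by rw [h.comp i j x hx hi hj, mul_assoc]

theorem Coc.frame_self (D : Coc.{u, v} P M' e) (j : D.ι) : D.Frame (D.U j) (fun i => D.g i j) where
  cover x hx := ⟨j, hx⟩
  nc i := (D.hg i j).mono (by rw [inter_comm])
  unit i x hx := ⟨D.unit_g hx.2 hx.1, D.haff i j x ⟨hx.2, hx.1⟩⟩
  comp i k x hx hi hk := (D.hcoc i k j x hi hk hx).symm

open Classical in
theorem Coc.Frame.glue (h : D.Frame W m) (h' : D.Frame W' m') (hW : IsOpen W) (hW' : IsOpen W')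
    (hag : ∀ i x, x ∈ W → x ∈ W' → x ∈ D.U i → m i x = m' i x) :
    D.Frame (W ∪ W') (fun i x => if x ∈ W then m i x else m' i x) := by
  have e1 : ∀ i x, x ∈ W → (if x ∈ W then m i x else m' i x) = m i x := fun i x hx => if_pos hx
  have e2 : ∀ i x, x ∈ W' → x ∈ D.U i → (if x ∈ W then m i x else m' i x) = m' i x := by
    intro i x hx hi
    by_cases hxW : x ∈ W
    · rw [if_pos hxW]; exact hag i x hxW hx hi
    · rw [if_neg hxW]
  constructor
  · rintro x (hx | hx)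
    · exact h.cover x hx
    · exact h'.cover x hx
  · intro i
    rw [union_inter_distrib_right]
    refine NC.union (hW.inter (D.hU i)) (hW'.inter (D.hU i)) ?_ ?_
    · exact (h.nc i).congr (fun x hx => e1 i x hx.1)
    · exact (h'.nc i).congr (fun x hx => e2 i x hx.1 hx.2)
  · rintro i x ⟨hx | hx, hi⟩
    · rw [e1 i x hx]; exact h.unit i x ⟨hx, hi⟩
    · rw [e2 i x hx hi]; exact h'.unit i x ⟨hx, hi⟩
  · rintro i j x (hx | hx) hi hj
    · simp only [e1 i x hx, e1 j x hx]; exact h.comp i j x hx hi hj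
    · simp only [e2 i x hx hi, e2 j x hx hj]; exact h'.comp i j x hx hi hj

variable [CompleteSpace M'] [NormOneClass M']

theorem Coc.Frame.trans (h : D.Frame W m) (h' : D.Frame W' m') :
    ∃ T : P × ℂ → M', NC T (W ∩ W') ∧ (∀ x ∈ W ∩ W', IsUnit (T x) ∧ e * T x = e) ∧
      ∀ i x, x ∈ W → x ∈ W' → x ∈ D.U i → m i x = m' i x * T x := by
  classical
  have hindep : ∀ i j x, x ∈ W → x ∈ W' → x ∈ D.U i → x ∈ D.U j →
      Ring.inverse (m' i x) * m i x = Ring.inverse (m' j x) * m j x := by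
    intro i j x hx hx' hi hj
    have hg := D.unit_g hi hj
    have hu := (h'.unit i x ⟨hx', hi⟩).1
    have hu' := (h'.unit j x ⟨hx', hj⟩).1
    rw [h.comp i j x hx hi hj]
    have h1 : Ring.inverse (m' i x) * D.g i j x = Ring.inverse (m' j x) := by
      have h2 : D.g i j x = m' i x * Ring.inverse (m' j x) := by
        rw [h'.comp i j x hx' hi hj, mul_assoc, Ring.mul_inverse_cancel _ hu', mul_one]
      rw [h2, ← mul_assoc, Ring.inverse_mul_cancel _ hu, one_mul]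
    rw [← mul_assoc, h1]
  let idx : P × ℂ → Option D.ι := fun x => if hx : ∃ i, x ∈ D.U i then some hx.choose else none
  let T : P × ℂ → M' := fun x => match idx x with
    | some i => Ring.inverse (m' i x) * m i x
    | none => 1
  have hT : ∀ i x, x ∈ W → x ∈ W' → x ∈ D.U i → T x = Ring.inverse (m' i x) * m i x := by
    intro i x hx hx' hi
    have hex : ∃ i, x ∈ D.U i := ⟨i, hi⟩
    have h1 : idx x = some hex.choose := dif_pos hex
    simp only [T, h1]
    exact hindep _ i x hx hx' hex.choose_spec hi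
  refine ⟨T, ?_, ?_, ?_⟩
  · refine NC.of_local (fun x hx => ?_)
    obtain ⟨i, hi⟩ := h.cover x hx.1
    refine ⟨D.U i, D.hU i, hi, ?_⟩
    have h1 : NC (fun x => Ring.inverse (m' i x) * m i x) ((W ∩ W') ∩ D.U i) := by
      refine NC.mul (NC.ringInverse ((h'.nc i).mono (fun y hy => ⟨hy.1.2, hy.2⟩)) ?_)
        ((h.nc i).mono (fun y hy => ⟨hy.1.1, hy.2⟩))
      intro y hy
      exact (h'.unit i y ⟨hy.1.2, hy.2⟩).1
    exact h1.congr (fun y hy => hT i y hy.1.1 hy.1.2 hy.2)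
  · intro x hx
    obtain ⟨i, hi⟩ := h.cover x hx.1
    rw [hT i x hx.1 hx.2 hi]
    have hu := h.unit i x ⟨hx.1, hi⟩
    have hu' := h'.unit i x ⟨hx.2, hi⟩
    refine ⟨hu'.1.ringInverse.mul hu.1, ?_⟩
    rw [← mul_assoc, aff_inverse hu'.1 hu'.2, hu.2]
  · intro i x hx hx' hi
    rw [hT i x hx hx' hi, ← mul_assoc, Ring.mul_inverse_cancel _ (h'.unit i x ⟨hx', hi⟩).1, one_mul]

def Coc.Good (D : Coc.{u, v} P M' e) (y : P) (Q : Set ℂ) : Prop :=
  ∃ r > 0, ∃ θ > 0, ∃ m, D.Frame (ball y r ×ˢ thick Q θ) m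

theorem Coc.Good.mono {y : P} {Q Q' : Set ℂ} (h : D.Good y Q) (hQ : Q' ⊆ Q) : D.Good y Q' := by
  obtain ⟨r, hr, θ, hθ, m, hm⟩ := h
  exact ⟨r, hr, θ, hθ, m, hm.mono (prod_mono le_rfl (thick_mono hQ le_rfl))⟩

/-- gluing lemma -/
theorem Coc.Good.union (hee : e * e = e) {y : P} {QA QB : Set ℂ} {L : Type} [Fintype L]
    {a b c d : L → ℝ} {θ0 : ℝ} (geo : Geo QA QB a b c d θ0)
    (happ : ∀ θ1 θ2, 0 < θ1 → θ1 < θ2 → θ2 ≤ θ0 → ∀ G : ℂ → M',
      DifferentiableOn ℂ G (⋃ l, oRect (a l) (b l) (c l) (d l) θ2) →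
      (∀ w ∈ ⋃ l, oRect (a l) (b l) (c l) (d l) θ2, IsUnit (G w) ∧ e * G w = e) →
      App e (⋃ l, oRect (a l) (b l) (c l) (d l) θ1) G)
    (hA : D.Good y QA) (hB : D.Good y QB) : D.Good y (QA ∪ QB) := by
  obtain ⟨rA, hrA, θA, hθA, mA, hmA⟩ := hA
  obtain ⟨rB, hrB, θB, hθB, mB, hmB⟩ := hB
  set θ := min θ0 (min θA θB) with hθ
  have hθpos : 0 < θ := by have := geo.pos; positivity
  have hθ0 : θ ≤ θ0 := min_le_left _ _
  have hθA' : θ ≤ θA := (min_le_right _ _).trans (min_le_left _ _)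
  have hθB' : θ ≤ θB := (min_le_right _ _).trans (min_le_right _ _)
  set r := min rA rB with hr
  have hrpos : 0 < r := by positivity
  obtain ⟨T, hT1, hT2, hT3⟩ := hmA.trans hmB
  set I : ℝ → Set ℂ := fun θ => ⋃ l, oRect (a l) (b l) (c l) (d l) θ with hI
  have hIopen : ∀ θ, IsOpen (I θ) := fun θ => isOpen_iUnion (fun l => isOpen_oRect _ _ _ _ _)
  have hIm : ∀ {θ θ'}, θ ≤ θ' → I θ ⊆ I θ' := fun h => iUnion_mono (fun l => oRect_mono h)
  have hsub : ball y r ×ˢ I θ ⊆ (ball y rA ×ˢ thick QA θA) ∩ (ball y rB ×ˢ thick QB θB) := by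
    rintro ⟨y', w⟩ ⟨h1, h2⟩
    simp only at h1 h2
    rw [hI] at h2
    simp only at h2
    rw [← geo.inter θ hθpos hθ0] at h2
    exact ⟨⟨ball_subset_ball (min_le_left _ _) h1, thick_mono le_rfl hθA' h2.1⟩,
      ⟨ball_subset_ball (min_le_right _ _) h1, thick_mono le_rfl hθB' h2.2⟩⟩
  set G : ℂ → M' := fun w => T (y, w) with hG
  have hGd : DifferentiableOn ℂ G (I θ) := (hT1.mono hsub).2 (fun w => (y, w)) (I θ) (hIopen θ)
    (by fun_prop) (fun w hw => ⟨mem_ball_self hrpos, hw⟩)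
  have hGu : ∀ w ∈ I θ, IsUnit (G w) ∧ e * G w = e := fun w hw =>
    hT2 (y, w) (hsub ⟨mem_ball_self hrpos, hw⟩)
  set θ3 := 3 * θ / 4 with hθ3
  set θ2 := θ / 2 with hθ2
  set θ1 := θ / 4 with hθ1
  have happG := happ θ3 θ (by linarith) (by linarith) hθ0 G hGd hGu
  obtain ⟨C, hC, hasl⟩ := asl_of_geo (P := P) geo (ContinuousLinearMap.mul ℂ M' e)
    (θ1 := θ1) (θ2 := θ2) (by linarith) (by linarith) (by linarith)
  obtain ⟨κ, hκ, hκ2, hmsl⟩ := msl (P := P) (M' := M') hC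
  set K' : Set ℂ := ⋃ l, cRect (a l) (b l) (c l) (d l) θ2 with hK'
  have hK'c : IsCompact K' := isCompact_iUnion (fun l => isCompact_cRect _ _ _ _ _)
  have hK'3 : K' ⊆ I θ3 := iUnion_mono (fun l => cRect_subset_oRect (by linarith))
  have hI2K' : I θ2 ⊆ K' := iUnion_mono (fun l => oRect_subset_cRect _ _ _ _ _)
  have hK'θ : K' ⊆ I θ := hK'3.trans (hIm (by linarith))
  have hinvc : ContinuousOn (fun w => Ring.inverse (G w)) K' := by
    intro w hw
    obtain ⟨u, hu⟩ := (hGu w (hK'θ hw)).1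
    have h2 : ContinuousAt Ring.inverse (G w) := by
      rw [← hu]; exact NormedRing.inverse_continuousAt u
    exact h2.comp_continuousWithinAt (hGd.continuousOn.mono hK'θ w hw)
  obtain ⟨B0, hB0⟩ := hK'c.exists_bound_of_continuousOn hinvc
  set B := max B0 0 + 1 with hB
  have hBpos : 0 < B := by positivity
  obtain ⟨H, hH1, hH2, hH3⟩ := happG (κ / (4 * B)) (by positivity)
  have hHG : ∀ w ∈ K', ‖Ring.inverse (H w) * G w - 1‖ < κ := by
    intro w hw
    have hu := (hGu w (hK'θ hw)).1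
    have h1 : ‖Ring.inverse (G w) * H w - 1‖ ≤ κ / 4 := by
      have : Ring.inverse (G w) * H w - 1 = Ring.inverse (G w) * (H w - G w) := by
        rw [mul_sub, Ring.inverse_mul_cancel _ hu]
      rw [this]
      calc ‖Ring.inverse (G w) * (H w - G w)‖ ≤ ‖Ring.inverse (G w)‖ * ‖H w - G w‖ := norm_mul_le _ _
        _ ≤ B * (κ / (4 * B)) := by
            gcongr
            · exact (hB0 w hw).trans (by rw [hB]; linarith [le_max_left B0 0])
            · exact hH3 w (hK'3 hw)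
        _ = κ / 4 := by field_simp
    have h2 := norm_inverse_sub_le (x := Ring.inverse (G w) * H w) (by linarith)
    have h3 : Ring.inverse (Ring.inverse (G w) * H w) = Ring.inverse (H w) * G w := by
      obtain ⟨u, hu⟩ := hu
      obtain ⟨v, hv⟩ := (hH2 w).1
      rw [← hu, ← hv, Ring.inverse_unit, ← Units.val_mul, Ring.inverse_unit, Ring.inverse_unit,
        ← Units.val_mul, mul_inv_rev, inv_inv]
    rw [h3] at h2
    linarith
  set Φ : P × ℂ → M' := fun x => Ring.inverse (H x.2) * T x with hΦ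
  have hHinv : Differentiable ℂ (fun w => Ring.inverse (H w)) := by
    intro w
    obtain ⟨u, hu⟩ := (hH2 w).1
    have h2 : DifferentiableAt ℂ Ring.inverse (H w) := by
      rw [← hu]; exact differentiableAt_inverse (𝕜 := ℂ) u.isUnit
    exact h2.comp w (hH1 w)
  have hΦnc : NC Φ (ball y r ×ˢ I θ) :=
    NC.mul (NC.of_differentiableOn (hHinv.comp differentiable_snd).differentiableOn) (hT1.mono hsub)
  have hOopen : IsOpen ((ball y r ×ˢ I θ) ∩ Φ ⁻¹' (ball 1 κ)) :=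
    hΦnc.1.isOpen_inter_preimage (isOpen_ball.prod (hIopen θ)) isOpen_ball
  obtain ⟨O1, O2, hO1, hO2, hyO1, hKO2, hO12⟩ := generalized_tube_lemma (isCompact_singleton (x := y))
    hK'c hOopen (by
      rintro ⟨y', w⟩ ⟨hy', hw⟩
      rw [mem_singleton_iff] at hy'
      simp only at hy' hw
      subst hy'
      refine ⟨⟨mem_ball_self hrpos, hK'θ hw⟩, ?_⟩
      rw [mem_preimage, mem_ball, dist_eq_norm]
      exact hHG w hw)
  obtain ⟨r', hr', hr'O⟩ := Metric.isOpen_iff.1 hO1 y (hyO1 rfl)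
  set r'' := min r r' with hr''
  have hr''pos : 0 < r'' := by positivity
  have hsub2 : ball y r'' ×ˢ I θ2 ⊆ (ball y r ×ˢ I θ) ∩ Φ ⁻¹' (ball 1 κ) := by
    rintro ⟨y', w⟩ ⟨hy', hw⟩
    exact hO12 ⟨hr'O (ball_subset_ball (min_le_right _ _) hy'), hKO2 (hI2K' hw)⟩
  have hθ10 : θ1 + (θ2 - θ1) * 0 = θ1 := by ring
  have hθ11 : θ1 + (θ2 - θ1) * 1 = θ2 := by ring
  have hinter2 : thick QA θ2 ∩ thick QB θ2 = I θ2 := geo.inter θ2 (by linarith) (by linarith)
  obtain ⟨α, β, hα1, hβ1, hα2, hβ2, hαβ⟩ := hmsl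
    (LinearMap.ker ((ContinuousLinearMap.mul ℂ M' e : M' →L[ℂ] M') : M' →ₗ[ℂ] M'))
    (ContinuousLinearMap.isClosed_ker _) (by
      intro x hx z
      rw [LinearMap.mem_ker] at hx ⊢
      have hx' : e * x = 0 := hx
      show e * (x * z) = 0
      rw [← mul_assoc, hx', zero_mul]) (ball y r'')
    (fun t => thick QA (θ1 + (θ2 - θ1) * t)) (fun t => thick QB (θ1 + (θ2 - θ1) * t))
    (fun s t hs hst ht => thick_mono le_rfl (by nlinarith))
    (fun s t hs hst ht => thick_mono le_rfl (by nlinarith)) (hasl _) Φ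
    (by
      simp only [hθ11, hinter2]
      exact hΦnc.mono (fun x hx => (hsub2 hx).1))
    (by
      simp only [hθ11, hinter2]
      intro x hx
      have hx2 := hsub2 hx
      have h1 : dist (Φ x) 1 < κ := hx2.2
      rw [dist_eq_norm] at h1
      refine ⟨h1.le, ?_⟩
      rw [LinearMap.mem_ker]
      show e * (Φ x - 1) = 0
      have h2 : e * Φ x = e := by
        simp only [hΦ]
        rw [← mul_assoc, aff_inverse (hH2 x.2).1 (hH2 x.2).2, (hT2 x (hsub hx2.1)).2]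
      rw [mul_sub, h2, mul_one, sub_self])
  simp only [hθ10] at hα1 hβ1 hα2 hβ2 hαβ
  have hmem : ∀ {z : M'}, z - 1 ∈ LinearMap.ker ((ContinuousLinearMap.mul ℂ M' e : M' →L[ℂ] M') :
      M' →ₗ[ℂ] M') → e * z = e := by
    intro z hz
    rw [LinearMap.mem_ker] at hz
    have hz' : e * (z - 1) = 0 := hz
    rw [mul_sub, mul_one, sub_eq_zero] at hz'
    exact hz'
  have hα3 : ∀ x ∈ ball y r'' ×ˢ thick QA θ1, IsUnit (α x) ∧ e * α x = e := fun x hx =>
    ⟨isUnit_of_near_one (hα2 x hx).1, hmem (hα2 x hx).2⟩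
  have hβ3 : ∀ x ∈ ball y r'' ×ˢ thick QB θ1, IsUnit (H x.2 * β x) ∧ e * (H x.2 * β x) = e :=
    fun x hx => ⟨(hH2 x.2).1.mul (isUnit_of_near_one (hβ2 x hx).1), by
      rw [← mul_assoc, (hH2 x.2).2, hmem (hβ2 x hx).2]⟩
  have hrA' : r'' ≤ rA := (min_le_left _ _).trans (min_le_left _ _)
  have hrB' : r'' ≤ rB := (min_le_left _ _).trans (min_le_right _ _)
  have hfA : D.Frame (ball y r'' ×ˢ thick QA θ1) (fun i x => mA i x * α x) :=
    (hmA.mono (prod_mono (ball_subset_ball hrA') (thick_mono le_rfl (by linarith)))).mul hα1 hα3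
  have hfB : D.Frame (ball y r'' ×ˢ thick QB θ1) (fun i x => mB i x * (H x.2 * β x)) :=
    (hmB.mono (prod_mono (ball_subset_ball hrB') (thick_mono le_rfl (by linarith)))).mul
      ((NC.of_differentiableOn (hH1.comp differentiable_snd).differentiableOn).mul hβ1) hβ3
  suffices hag : ∀ i x, x ∈ ball y r'' ×ˢ thick QA θ1 → x ∈ ball y r'' ×ˢ thick QB θ1 →
      x ∈ D.U i → mA i x * α x = mB i x * (H x.2 * β x) by
    have hfin := hfA.glue hfB (isOpen_ball.prod (isOpen_thick _ _))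
      (isOpen_ball.prod (isOpen_thick _ _)) hag
    rw [← prod_union, ← thick_union] at hfin
    exact ⟨r'', hr''pos, θ1, by linarith, _, hfin⟩
  rintro i ⟨y', w⟩ ⟨hy1, hw1⟩ ⟨hy2, hw2⟩ hi
  have hxI : ((y', w) : P × ℂ) ∈ ball y r'' ×ˢ I θ2 := by
    refine ⟨hy1, ?_⟩
    rw [← hinter2]
    exact ⟨thick_mono le_rfl (by linarith) hw1, thick_mono le_rfl (by linarith) hw2⟩
  have h1 := hsub (hsub2 hxI).1
  have h2 := hT3 i (y', w) h1.1 h1.2 hi
  have h3 := hαβ (y', w) ⟨hy1, hw1, hw2⟩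
  simp only [hΦ] at h3
  simp only
  rw [h2, ← h3, mul_assoc (mB i (y', w)), ← mul_assoc (H w), ← mul_assoc (H w),
    Ring.mul_inverse_cancel _ (hH2 w).1, one_mul]

end Pool.Agent.Work.MP_77a596_an
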