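import Pool.Agent.Work.MP_77a596_an.Sect

set_option autoImplicit false
set_option linter.unusedVariables false
set_option linter.unusedSectionVars false

open Set Metric Filter Topology MeasureTheory Complex
open scoped Manifold ContDiff
open Bundle

namespace Pool.Agent.Work.MP_77a596_an

abbrev EV (m : ℕ) := EuclideanSpace ℂ (Fin (m + 3))

def extO (n : ℕ) : TopologicalSpace.Opens (EuclideanSpace ℂ (Fin n)) :=
  ⟨{x | 1 < ‖x‖}, isOpen_lt continuous_const continuous_norm⟩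

noncomputable def sl (m : ℕ) (x : (ℂ × ℂ) × ℂ) : EV m :=
  WithLp.toLp 2 (Fin.cons x.1.1 (Fin.cons x.1.2 (Fin.cons x.2 (fun _ => 0))) : Fin (m + 3) → ℂ)

theorem norm_sl (m : ℕ) (x : (ℂ × ℂ) × ℂ) :
    ‖sl m x‖ ^ 2 = ‖x.1.1‖ ^ 2 + ‖x.1.2‖ ^ 2 + ‖x.2‖ ^ 2 := by
  rw [EuclideanSpace.norm_sq_eq, Fin.sum_univ_succ, Fin.sum_univ_succ, Fin.sum_univ_succ]
  simp only [sl, Fin.cons_zero, Fin.cons_succ, norm_zero, ne_eq, OfNat.ofNat_ne_zero,
    not_false_eq_true, zero_pow, Finset.sum_const_zero, add_zero]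
  ring

theorem differentiable_sl (m : ℕ) : Differentiable ℂ (sl m) := by
  rw [differentiable_euclidean]
  intro i
  refine Fin.cases ?_ (fun i => Fin.cases ?_ (fun i => Fin.cases ?_ (fun i => ?_) i) i) i
  · simp only [sl, Fin.cons_zero]; fun_prop
  · simp only [sl, Fin.cons_zero, Fin.cons_succ]; fun_prop
  · simp only [sl, Fin.cons_zero, Fin.cons_succ]; fun_prop
  · simp only [sl, Fin.cons_succ]; fun_prop

theorem mem_ext_iff {m : ℕ} {x : (ℂ × ℂ) × ℂ} :
    sl m x ∈ extO (m + 3) ↔ 1 < ‖x.1.1‖ ^ 2 + ‖x.1.2‖ ^ 2 + ‖x.2‖ ^ 2 := by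
  show 1 < ‖sl m x‖ ↔ _
  rw [← norm_sl m x]
  constructor
  · intro h; nlinarith
  · intro h
    by_contra hcon
    push Not at hcon
    nlinarith [norm_nonneg (sl m x)]

theorem x0_mem (m : ℕ) : sl m ((2, 0), 0) ∈ extO (m + 3) := by
  rw [mem_ext_iff]; norm_num

noncomputable def x0 (m : ℕ) : extO (m + 3) := ⟨sl m ((2, 0), 0), x0_mem m⟩

noncomputable def psi (m : ℕ) : EV m → extO (m + 3) := (chartAt (EV m) (x0 m)).symm

theorem chart_apply (m : ℕ) (z : extO (m + 3)) : chartAt (EV m) (x0 m) z = z.1 := rfl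

theorem mem_source_chart (m : ℕ) (z : extO (m + 3)) : z ∈ (chartAt (EV m) (x0 m)).source := by
  rw [TopologicalSpace.Opens.chartAt_eq, OpenPartialHomeomorph.subtypeRestr_source]
  simp

theorem psi_val (m : ℕ) (z : extO (m + 3)) : psi m z.1 = z := by
  rw [← chart_apply m z]
  exact (chartAt (EV m) (x0 m)).left_inv (mem_source_chart m z)

theorem psi_coe {m : ℕ} {z : EV m} (hz : z ∈ extO (m + 3)) : ((psi m z : extO (m + 3)) : EV m) = z := by
  rw [psi_val m ⟨z, hz⟩]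

theorem psi_mdiff (m : ℕ) : MDifferentiableOn 𝓘(ℂ, EV m) 𝓘(ℂ, EV m) (psi m) (extO (m + 3)) := by
  have h := mdifferentiableOn_atlas_symm (I := 𝓘(ℂ, EV m)) (chart_mem_atlas (EV m) (x0 m))
  refine h.mono (fun z hz => ?_)
  have := (chartAt (EV m) (x0 m)).map_source (mem_source_chart m ⟨z, hz⟩)
  rwa [chart_apply] at this

def Om (m : ℕ) : Set ((ℂ × ℂ) × ℂ) := {x | sl m x ∈ extO (m + 3)}

theorem isOpen_Om (m : ℕ) : IsOpen (Om m) :=
  (extO (m + 3)).isOpen.preimage (differentiable_sl m).continuous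

noncomputable def iX (m : ℕ) (x : (ℂ × ℂ) × ℂ) : extO (m + 3) := psi m (sl m x)

theorem iX_coe {m : ℕ} {x : (ℂ × ℂ) × ℂ} (hx : x ∈ Om m) : ((iX m x : extO (m + 3)) : EV m) = sl m x :=
  psi_coe hx

theorem iX_mdiff (m : ℕ) : MDifferentiableOn 𝓘(ℂ, (ℂ × ℂ) × ℂ) 𝓘(ℂ, EV m) (iX m) (Om m) :=
  (psi_mdiff m).comp (differentiable_sl m).mdifferentiable.mdifferentiableOn (fun x hx => hx)

section lin

variable {k : ℕ}

/-- the matrix of an affine map -/
noncomputable def affM (τ : (Fin k → ℂ) → (Fin k → ℂ)) : MM k :=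
  (∑ l, ((ContinuousLinearMap.proj (R := ℂ) (φ := fun _ : Fin k => ℂ) l).comp
    (ContinuousLinearMap.fst ℂ (Fin k → ℂ) ℂ)).smulRight
      ((τ (Pi.single l 1) - τ 0, 0) : VV k)) +
    (ContinuousLinearMap.snd ℂ (Fin k → ℂ) ℂ).smulRight ((τ 0, 1) : VV k)

theorem affM_apply (τ : (Fin k → ℂ) → (Fin k → ℂ)) (v : Fin k → ℂ) (t : ℂ) :
    affM τ (v, t) = (∑ l, v l • (τ (Pi.single l 1) - τ 0) + t • τ 0, t) := by
  simp only [affM, add_apply, sum_apply, ContinuousLinearMap.smulRight_apply,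
    ContinuousLinearMap.comp_apply, ContinuousLinearMap.coe_fst', ContinuousLinearMap.coe_snd',
    ContinuousLinearMap.proj_apply]
  apply Prod.ext
  · rw [Prod.fst_add, Prod.fst_sum]
    rfl
  · rw [Prod.snd_add, Prod.snd_sum]
    simp

theorem affM_one {τ : (Fin k → ℂ) → (Fin k → ℂ)} (φ : (Fin k → ℂ) →ᵃ[ℂ] (Fin k → ℂ))
    (h : ∀ v, τ v = φ v) (v : Fin k → ℂ) : affM τ (v, 1) = (τ v, 1) := by
  rw [affM_apply]
  apply Prod.ext
  · simp only [one_smul, h]
    have h1 : ∀ l, φ (Pi.single l 1) - φ 0 = φ.linear (Pi.single l 1) := by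
      intro l
      have := φ.linearMap_vsub (Pi.single l 1) 0
      simpa using this.symm
    simp only [h1]
    have h2 : φ v - φ 0 = φ.linear v := by
      have := φ.linearMap_vsub v 0
      simpa using this.symm
    have h3 : φ.linear v = ∑ l, v l • φ.linear (Pi.single l 1) := by
      conv_lhs => rw [pi_eq_sum_univ' v]
      rw [map_sum]
      refine Finset.sum_congr rfl (fun l _ => ?_)
      rw [map_smul]
    rw [← h3, ← h2, sub_add_cancel]
  · rfl

theorem ext_one {T T' : MM k} (h : ∀ v : Fin k → ℂ, T (v, 1) = T' (v, 1)) : T = T' := by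
  apply ContinuousLinearMap.ext
  rintro ⟨v, t⟩
  have : ((v, t) : VV k) = (v, 1) - (0, 1) + t • (0, 1) := by simp
  rw [this, map_add, map_add, map_sub, map_sub, map_smul, map_smul, h, h]

theorem affM_nc {W : Type*} [NormedAddCommGroup W] [NormedSpace ℂ W] {S : Set W}
    {τ : W → (Fin k → ℂ) → (Fin k → ℂ)} (h : ∀ v, DifferentiableOn ℂ (fun x => τ x v) S) :
    DifferentiableOn ℂ (fun x => affM (τ x)) S := by
  unfold affM
  refine DifferentiableOn.add (DifferentiableOn.fun_sum (fun l _ => ?_)) ?_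
  · exact (ContinuousLinearMap.smulRightL ℂ (VV k) (VV k)
      ((ContinuousLinearMap.proj (R := ℂ) (φ := fun _ : Fin k => ℂ) l).comp
      (ContinuousLinearMap.fst ℂ (Fin k → ℂ) ℂ))).differentiable.comp_differentiableOn
      (((h _).sub (h _)).prodMk (differentiableOn_const 0))
  · exact (ContinuousLinearMap.smulRightL ℂ (VV k) (VV k)
      (ContinuousLinearMap.snd ℂ (Fin k → ℂ) ℂ)).differentiable.comp_differentiableOn
      ((h _).prodMk (differentiableOn_const 1))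

end lin

universe u1 u2

variable {m k : ℕ} {VE : Type u1} {E : Type u2} [NormedAddCommGroup VE] [NormedSpace ℂ VE]
  [TopologicalSpace E] [ChartedSpace VE E]

theorem triv_point {proj : E → extO (m + 3)} (e e' : Trivialization (Fin k → ℂ) proj)
    {z : extO (m + 3)} (hz : z ∈ e.baseSet) (hz' : z ∈ e'.baseSet) (v : Fin k → ℂ) :
    e.toOpenPartialHomeomorph.symm (z, (e (e'.toOpenPartialHomeomorph.symm (z, v))).2) =
      e'.toOpenPartialHomeomorph.symm (z, v) := by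
  set p := e'.toOpenPartialHomeomorph.symm (z, v) with hp
  have hproj : proj p = z := e'.proj_symm_apply' hz'
  have hps : p ∈ e.source := by rw [e.mem_source, hproj]; exact hz
  have h1 : e p = (z, (e p).2) := Prod.ext (by rw [e.coe_fst hps, hproj]) rfl
  rw [← h1]
  exact e.toOpenPartialHomeomorph.left_inv hps

theorem no_hull {proj : E → extO (m + 3)} (hcont : Continuous proj)
    (atl : Set (Trivialization (Fin k → ℂ) proj)) (hcover : ∀ z, ∃ e ∈ atl, z ∈ e.baseSet)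
    (hsm : ∀ e ∈ atl, MDifferentiableOn 𝓘(ℂ, VE) (𝓘(ℂ, EV m).prod 𝓘(ℂ, Fin k → ℂ)) e e.source)
    (hsm' : ∀ e ∈ atl, MDifferentiableOn (𝓘(ℂ, EV m).prod 𝓘(ℂ, Fin k → ℂ)) 𝓘(ℂ, VE)
      e.toOpenPartialHomeomorph.symm e.target)
    (haff : ∀ e ∈ atl, ∀ e' ∈ atl, ∀ z ∈ e.baseSet ∩ e'.baseSet,
      ∃ φ : (Fin k → ℂ) →ᵃ[ℂ] (Fin k → ℂ), ∀ v,
        (e (e'.toOpenPartialHomeomorph.symm (z, v))).2 = φ v)
    (hconv : ∀ K : Set E, IsCompact K → IsCompact {x : E | ∀ f : E → ℂ,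
      MDifferentiable 𝓘(ℂ, VE) 𝓘(ℂ, ℂ) f → ∀ C : ℝ, (∀ y ∈ K, ‖f y‖ ≤ C) → ‖f x‖ ≤ C}) : False := by
  classical
  -- the cocycle
  let UU : atl → Set ((ℂ × ℂ) × ℂ) := fun e => {x | x ∈ Om m ∧ iX m x ∈ e.1.baseSet}
  let τ : atl → atl → (ℂ × ℂ) × ℂ → (Fin k → ℂ) → (Fin k → ℂ) := fun e e' x v =>
    (e.1 (e'.1.toOpenPartialHomeomorph.symm (iX m x, v))).2
  have hUUo : ∀ e, IsOpen (UU e) := by
    intro e
    exact (iX_mdiff m).continuousOn.isOpen_inter_preimage (isOpen_Om m) e.1.open_baseSet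
  -- holomorphy of points
  have hpt : ∀ (e : atl) {W : Type} [NormedAddCommGroup W] [NormedSpace ℂ W] (γ : W → (ℂ × ℂ) × ℂ)
      (v : W → Fin k → ℂ) (S : Set W), DifferentiableOn ℂ γ S → DifferentiableOn ℂ v S →
      MapsTo γ S (UU e) → MDifferentiableOn 𝓘(ℂ, W) 𝓘(ℂ, VE)
        (fun w => e.1.toOpenPartialHomeomorph.symm (iX m (γ w), v w)) S := by
    intro e W _ _ γ v S hγ hv hm
    have h1 : MDifferentiableOn 𝓘(ℂ, W) 𝓘(ℂ, EV m) (fun w => iX m (γ w)) S :=
      (iX_mdiff m).comp hγ.mdifferentiableOn (fun w hw => (hm hw).1)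
    have h2 : MDifferentiableOn 𝓘(ℂ, W) (𝓘(ℂ, EV m).prod 𝓘(ℂ, Fin k → ℂ))
        (fun w => (iX m (γ w), v w)) S := h1.prodMk hv.mdifferentiableOn
    exact (hsm' e.1 e.2).comp h2 (fun w hw => e.1.mem_target.2 (hm hw).2)
  have hτd : ∀ (e e' : atl) v, DifferentiableOn ℂ (fun x => τ e e' x v) (UU e ∩ UU e') := by
    intro e e' v
    have h1 := hpt e' (W := (ℂ × ℂ) × ℂ) (fun x => x) (fun _ => v) (UU e ∩ UU e')
      differentiableOn_id (differentiableOn_const v) (fun x hx => hx.2)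
    have h2 : MDifferentiableOn 𝓘(ℂ, (ℂ × ℂ) × ℂ) (𝓘(ℂ, EV m).prod 𝓘(ℂ, Fin k → ℂ))
        (fun x => e.1 (e'.1.toOpenPartialHomeomorph.symm (iX m x, v))) (UU e ∩ UU e') := by
      refine (hsm e.1 e.2).comp h1 (fun x hx => ?_)
      rw [mem_preimage, e.1.mem_source, e'.1.proj_symm_apply' hx.2.2]
      exact hx.1.2
    have h3 : MDifferentiableOn 𝓘(ℂ, (ℂ × ℂ) × ℂ) 𝓘(ℂ, Fin k → ℂ) (fun x => τ e e' x v)
        (UU e ∩ UU e') := (mdifferentiable_snd.mdifferentiableOn (s := univ)).comp h2 (fun x _ => mem_univ _)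
    exact mdifferentiableOn_iff_differentiableOn.1 h3
  have hone : ∀ (e e' : atl) x, x ∈ UU e → x ∈ UU e' → ∀ v, affM (τ e e' x) (v, 1) = (τ e e' x v, 1) := by
    intro e e' x hx hx' v
    obtain ⟨φ, hφ⟩ := haff e.1 e.2 e'.1 e'.2 (iX m x) ⟨hx.2, hx'.2⟩
    exact affM_one φ hφ v
  have hττ : ∀ (e e' e'' : atl) x, x ∈ UU e → x ∈ UU e' → x ∈ UU e'' → ∀ v,
      τ e e' x (τ e' e'' x v) = τ e e'' x v := by
    intro e e' e'' x hx hx' hx'' v
    simp only [τ]
    rw [triv_point e'.1 e''.1 hx'.2 hx''.2 v]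
  have hτself : ∀ (e : atl) x, x ∈ UU e → ∀ v, τ e e x v = v := by
    intro e x hx v
    simp only [τ]
    have := e.1.toOpenPartialHomeomorph.right_inv (x := (iX m x, v)) (e.1.mem_target.2 hx.2)
    have h2 : e.1 (e.1.toOpenPartialHomeomorph.symm (iX m x, v)) = (iX m x, v) := this
    rw [h2]
  let D : Coc.{u2, 0} (ℂ × ℂ) (MM k) (eE k) :=
    { ι := atl
      U := UU
      hU := hUUo
      g := fun e e' x => affM (τ e e' x)
      hg := fun e e' => NC.of_differentiableOn (affM_nc (hτd e e'))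
      haff := fun e e' x hx => eE_mul_iff.2 (fun v => by rw [← Prod.mk.eta (p := v), affM_apply])
      hself := fun e x hx => ext_one (fun v => by rw [hone e e x hx hx, hτself e x hx]; rfl)
      hcoc := fun e e' e'' x h1 h2 h3 => ext_one (fun v => by
        show affM (τ e e' x) (affM (τ e' e'' x) (v, 1)) = _
        rw [hone e' e'' x h2 h3, hone e e' x h1 h2, hone e e'' x h1 h3, hττ e e' e'' x h1 h2 h3]) }
  have hcov : ∀ x : (ℂ × ℂ) × ℂ, 1 < ‖x.1.1‖ ^ 2 + ‖x.1.2‖ ^ 2 + ‖x.2‖ ^ 2 → ∃ i, x ∈ D.U i := by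
    intro x hx
    obtain ⟨e, he, hz⟩ := hcover (iX m x)
    exact ⟨⟨e, he⟩, mem_ext_iff.2 hx, hz⟩
  obtain ⟨q, hq, r, hr, F, hF1, hF2, hF3, hF4, hF5⟩ := main_section D hcov
  have hFone : ∀ (i : atl) x, x ∈ ball q r ×ˢ AA → x ∈ UU i → F i x = ((F i x).1, 1) :=
    fun i x hx hi => Prod.ext rfl (hF3 i x hx hi)
  -- boundary points
  let pt : atl → (ℂ × ℂ) × ℂ → (Fin k → ℂ) → E := fun i x v =>
    i.1.toOpenPartialHomeomorph.symm (iX m x, v)
  have hpt_eq : ∀ (i j : atl) x v, x ∈ UU i → x ∈ UU j → pt i x (τ i j x v) = pt j x v :=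
    fun i j x v hi hj => triv_point i.1 j.1 hi.2 hj.2 v
  have hBcompat : ∀ (i j : atl) x, x ∈ ball q r ×ˢ AA → x ∈ UU i → x ∈ UU j →
      pt i x (F i x).1 = pt j x (F j x).1 := by
    intro i j x hx hi hj
    have h1 := hF2 i j x hx hi hj
    have h2 : F i x = (τ i j x (F j x).1, 1) := by
      rw [h1, hFone j x hx hj]
      exact hone i j x hi hj _
    rw [h2]
    exact hpt_eq i j x _ hi hj
  let B : (ℂ × ℂ) × ℂ → E := fun x =>
    if h : ∃ i : atl, x ∈ UU i then pt h.choose x (F h.choose x).1 else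
      pt ⟨(hcover (x0 m)).choose, (hcover (x0 m)).choose_spec.1⟩ x 0
  have hB : ∀ (i : atl) x, x ∈ ball q r ×ˢ AA → x ∈ UU i → B x = pt i x (F i x).1 := by
    intro i x hx hi
    have h : ∃ i : atl, x ∈ UU i := ⟨i, hi⟩
    simp only [B, dif_pos h]
    exact hBcompat _ i x hx h.choose_spec hi
  have hBc : ContinuousOn B (ball q r ×ˢ AA) := by
    intro x hx
    obtain ⟨i, hi⟩ := hF4 x hx
    have hi' : x ∈ UU i := hi
    have h1 : ContinuousOn (fun x => pt i x (F i x).1) ((ball q r ×ˢ AA) ∩ UU i) := by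
      have h2 : ContinuousOn (fun x => (iX m x, (F i x).1)) ((ball q r ×ˢ AA) ∩ UU i) :=
        ((iX_mdiff m).continuousOn.mono (fun x hx => hx.2.1)).prodMk
          (continuous_fst.comp_continuousOn (hF1 i))
      exact i.1.toOpenPartialHomeomorph.symm.continuousOn.comp h2
        (fun x hx => i.1.mem_target.2 hx.2.2)
    have h2 : ContinuousOn B ((ball q r ×ˢ AA) ∩ UU i) := h1.congr (fun x hx => hB i x hx.1 hx.2)
    exact (h2 x ⟨hx, hi'⟩).mono_of_mem_nhdsWithin (inter_mem_nhdsWithin _ ((hUUo i).mem_nhds hi'))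
  have hsubK : closedBall q (r / 2) ×ˢ sphere (0 : ℂ) (7 / 4) ⊆ ball q r ×ˢ AA :=
    prod_mono (closedBall_subset_ball (by linarith)) sphere_AA
  set K : Set E := B '' (closedBall q (r / 2) ×ˢ sphere (0 : ℂ) (7 / 4)) with hK
  have hKc : IsCompact K :=
    ((isCompact_closedBall q (r / 2)).prod (isCompact_sphere _ _)).image_of_continuousOn (hBc.mono hsubK)
  have hHc := hconv K hKc
  set H : Set E := {x : E | ∀ f : E → ℂ, MDifferentiable 𝓘(ℂ, VE) 𝓘(ℂ, ℂ) f → ∀ C : ℝ,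
    (∀ y ∈ K, ‖f y‖ ≤ C) → ‖f x‖ ≤ C} with hH
  -- centres of discs
  have hcentre : ∀ y ∈ closedBall q (r / 2), 1 < ‖y.1‖ ^ 2 + ‖y.2‖ ^ 2 →
      ∃ p ∈ H, ((proj p : extO (m + 3)) : EV m) = sl m (y, 0) := by
    intro y hy hy1
    have hyr : y ∈ ball q r := closedBall_subset_ball (by linarith) hy
    obtain ⟨s, hs1, hs2, hs3, hs4⟩ := hF5 y hyr hy1
    have hOm : ∀ w : ℂ, (y, w) ∈ Om m := fun w => mem_ext_iff.2 (by
      simp only; nlinarith [sq_nonneg ‖w‖])
    have hex : ∀ w : ℂ, ∃ i : atl, (y, w) ∈ UU i := by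
      intro w
      obtain ⟨e, he, hz⟩ := hcover (iX m (y, w))
      exact ⟨⟨e, he⟩, hOm w, hz⟩
    choose ii hii using hex
    let S : ℂ → E := fun w => pt (ii w) (y, w) (s (ii w) w).1
    have hSeq : ∀ (i : atl) w, w ∈ ball (0 : ℂ) (37 / 20) → (y, w) ∈ UU i →
        S w = pt i (y, w) (s i w).1 := by
      intro i w hw hi
      have h1 := hs2 (ii w) i w hw (hii w) hi
      have h2 : s i w = ((s i w).1, 1) := Prod.ext rfl (hs3 i w hw hi)
      have h3 : s (ii w) w = (τ (ii w) i (y, w) (s i w).1, 1) := by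
        rw [h1, h2]
        exact hone (ii w) i (y, w) (hii w) hi _
      simp only [S]
      rw [h3]
      exact hpt_eq (ii w) i (y, w) _ (hii w) hi
    have hSB : ∀ w ∈ AA, S w = B (y, w) := by
      intro w hw
      have hw' : w ∈ ball (0 : ℂ) (37 / 20) := by rw [mem_ball_zero_iff]; exact hw.2
      rw [hSeq (ii w) w hw' (hii w), hs4 (ii w) w hw (hii w)]
      exact (hB (ii w) (y, w) ⟨hyr, hw⟩ (hii w)).symm
    have hSd : ∀ f : E → ℂ, MDifferentiable 𝓘(ℂ, VE) 𝓘(ℂ, ℂ) f →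
        DifferentiableOn ℂ (fun w => f (S w)) (ball 0 (37 / 20)) := by
      intro f hf w hw
      set T : Set ℂ := {w' | w' ∈ ball (0 : ℂ) (37 / 20) ∧ (y, w') ∈ UU (ii w)} with hT
      have hTo : IsOpen T :=
        isOpen_ball.inter ((hUUo (ii w)).preimage (by fun_prop : Continuous fun w : ℂ => (y, w)))
      have h1 := hpt (ii w) (W := ℂ) (fun w' => (y, w')) (fun w' => (s (ii w) w').1) T
        (by fun_prop) (hs1 (ii w)).fst (fun w' hw' => hw'.2)
      have h2 : MDifferentiableOn 𝓘(ℂ, ℂ) 𝓘(ℂ, ℂ)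
          (fun w' => f (pt (ii w) (y, w') (s (ii w) w').1)) T :=
        (hf.mdifferentiableOn (s := univ)).comp h1 (fun _ _ => mem_univ _)
      have h3 : DifferentiableOn ℂ (fun w' => f (S w')) T := by
        refine (mdifferentiableOn_iff_differentiableOn.1 h2).congr (fun w' hw' => ?_)
        rw [hSeq (ii w) w' hw'.1 hw'.2]
      exact (h3.differentiableAt (hTo.mem_nhds ⟨hw, hii w⟩)).differentiableWithinAt
    refine ⟨S 0, ?_, ?_⟩
    · intro f hf C hC
      have hd : DiffContOnCl ℂ (fun w => f (S w)) (ball 0 (7 / 4)) := by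
        refine DifferentiableOn.diffContOnCl ((hSd f hf).mono ?_)
        rw [closure_ball _ (by norm_num)]
        exact closedBall_subset_ball (by norm_num)
      refine Complex.norm_le_of_forall_mem_frontier_norm_le isBounded_ball hd (C := C) ?_
        (subset_closure (mem_ball_self (by norm_num)))
      intro w hw
      rw [frontier_ball _ (by norm_num)] at hw
      rw [hSB w (sphere_AA hw)]
      exact hC _ ⟨(y, w), ⟨hy, hw⟩, rfl⟩
    · show ((proj (pt (ii 0) (y, 0) (s (ii 0) 0).1) : extO (m + 3)) : EV m) = _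
      have h1 : proj (pt (ii 0) (y, 0) (s (ii 0) 0).1) = iX m (y, 0) :=
        (ii 0).1.proj_symm_apply' (hii 0).2
      rw [h1, iX_coe (hOm 0)]
  -- limit
  set Cc : Set (EV m) := (fun p => ((proj p : extO (m + 3)) : EV m)) '' H with hCc
  have hCcc : IsCompact Cc := hHc.image (continuous_subtype_val.comp hcont)
  have hqn : ‖q‖ ≤ 1 := by
    rw [Prod.norm_def, max_le_iff]
    constructor <;> nlinarith [norm_nonneg q.1, norm_nonneg q.2, sq_nonneg ‖q.1‖, sq_nonneg ‖q.2‖]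
  have hseq : ∀ n : ℕ, sl m ((((1 + (r / 4) / (n + 1) : ℝ) : ℂ) • q), 0) ∈ Cc := by
    intro n
    set t : ℝ := (r / 4) / (n + 1) with ht
    have ht0 : 0 < t := by positivity
    have htr : t ≤ r / 4 := div_le_self (by positivity) (by linarith [n.cast_nonneg (α := ℝ)])
    obtain ⟨p, hp, hp2⟩ := hcentre (((1 + t : ℝ) : ℂ) • q) (by
      rw [mem_closedBall, dist_eq_norm]
      have : ((1 + t : ℝ) : ℂ) • q - q = (t : ℂ) • q := by
        push_cast; rw [add_smul, one_smul]; abel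
      rw [this, norm_smul, Complex.norm_real, Real.norm_eq_abs, abs_of_pos ht0]
      nlinarith) (by
      simp only [Prod.smul_fst, Prod.smul_snd, norm_smul, Complex.norm_real, Real.norm_eq_abs,
        abs_of_pos (show 0 < 1 + t by positivity)]
      have : ((1 + t) * ‖q.1‖) ^ 2 + ((1 + t) * ‖q.2‖) ^ 2 = (1 + t) ^ 2 := by
        rw [mul_pow, mul_pow, ← mul_add, hq, mul_one]
      rw [this]
      nlinarith)
    exact ⟨p, hp, hp2⟩
  have hlim : Tendsto (fun n : ℕ => sl m ((((1 + (r / 4) / (n + 1) : ℝ) : ℂ) • q), 0)) atTop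
      (𝓝 (sl m (q, 0))) := by
    have h1 : Tendsto (fun n : ℕ => (r / 4) / ((n : ℝ) + 1)) atTop (𝓝 0) :=
      (tendsto_const_div_atTop_nhds_zero_nat (r / 4)).comp (tendsto_add_atTop_nat 1)
        |>.congr (fun n => by simp)
    have h2 : Continuous (fun t : ℝ => sl m ((((1 + t : ℝ) : ℂ) • q), 0)) :=
      (differentiable_sl m).continuous.comp (by fun_prop)
    have h3 := (h2.tendsto 0).comp h1
    have h4 : sl m ((((1 + (0 : ℝ) : ℝ) : ℂ) • q), 0) = sl m (q, 0) := by simp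
    rw [h4] at h3
    exact h3
  have hmem : sl m (q, 0) ∈ Cc := hCcc.isClosed.mem_of_tendsto hlim (Eventually.of_forall hseq)
  obtain ⟨p, -, hp⟩ := hmem
  have h1 : sl m (q, 0) ∈ extO (m + 3) := by
    rw [← hp]; exact (proj p).2
  rw [mem_ext_iff] at h1
  simp only [norm_zero, ne_eq, OfNat.ofNat_ne_zero, not_false_eq_true, zero_pow, add_zero] at h1
  linarith

end Pool.Agent.Work.MP_77a596_an
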