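import Pool.Agent.Work.MP_77a596_an.Mero

set_option autoImplicit false
set_option linter.unusedVariables false
set_option linter.unusedSectionVars false

open Set Metric Filter Topology MeasureTheory Complex

namespace Pool.Agent.Work.MP_77a596_an

universe v

variable {P : Type v} [NormedAddCommGroup P] [NormedSpace ℂ P] {k : ℕ}

theorem unique_near_one {G : P × ℂ → MM k} {y0 : P} {r : ℝ} (hr : 0 < r)
    (hG : NC G (ball y0 r ×ˢ ann (3 / 2) 2))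
    (hGu : ∀ x ∈ ball y0 r ×ˢ ann (3 / 2) 2, IsUnit (G x) ∧ eE k * G x = eE k)
    (h1 : ∀ w ∈ ann (3 / 2) 2, G (y0, w) = 1) :
    ∃ ρ > 0, ρ ≤ r ∧ ∀ y ∈ ball y0 ρ, ∃ β, USol G y β := by
  obtain ⟨κ, hκ, hκ2, hcore⟩ := nf_core (P := P) (M' := MM k) (e := eE k)
  have hKann : cann (31 / 20) (39 / 20) ⊆ ann (3 / 2) 2 := fun w hw =>
    ⟨by have := hw.1; linarith, by have := hw.2; linarith⟩
  obtain ⟨ρ, hρ, hρr, a, b, ha, hb, ha2, hb2, hab⟩ := hcore G y0 r hr hG (fun x hx => (hGu x hx).2)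
    (fun _ => 1) (differentiableOn_const _) (fun w _ => mul_one _) (by
      intro w hw
      refine ⟨isUnit_one, ?_⟩
      rw [h1 w (hKann hw), Ring.inverse_one, mul_one, sub_self, norm_zero]
      exact hκ)
  have hnfd := nfd_of_core (M := 0) (C := 1) hG hGu (L := fun _ => 1) (differentiableOn_const _)
    (fun w _ => mul_one _) (by intro w _; simp) (fun w _ => isUnit_one) hρr ha hb ha2 hb2 hab
  simp only [Ring.inverse_one, one_mul] at hnfd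
  refine ⟨ρ, hρ, hρr, fun y hy => ?_⟩
  have had : DifferentiableOn ℂ (fun w => a (y, w)) (outer (33 / 20)) :=
    ha.2 (fun w => (y, w)) _ (isOpen_outer _) (by fun_prop) (fun w hw => ⟨hy, hw⟩)
  have hso : sphere (0 : ℂ) (7 / 4) ⊆ outer (33 / 20) := fun w hw => by
    rw [mem_sphere_zero_iff_norm] at hw
    show (33 / 20 : ℝ) < ‖w‖
    rw [hw]; norm_num
  have hAo : AA ⊆ outer (33 / 20) := fun w hw => hw.1
  have hne : ∀ ζ ∈ sphere (0 : ℂ) (7 / 4), ζ ≠ 0 := by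
    rintro ζ hζ rfl
    simp at hζ
    norm_num at hζ
  have hinvc : ContinuousOn (fun ζ : ℂ => ζ⁻¹) (sphere (0 : ℂ) (7 / 4)) :=
    ContinuousOn.inv₀ continuousOn_id hne
  set kk : ℂ := (2 * Real.pi * I : ℂ)⁻¹ with hk
  have hk0 : kk ≠ 0 := by rw [hk]; simp [Real.pi_ne_zero]
  have hk2 : kk * (2 * Real.pi * I : ℂ) = 1 := by
    rw [hk, inv_mul_cancel₀]; simp [Real.pi_ne_zero]
  have hkone : ∀ {E : Type} [NormedAddCommGroup E] [NormedSpace ℂ E] [CompleteSpace E] (v : E),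
      kk • (∮ ζ in C((0 : ℂ), 7 / 4), ζ⁻¹ • v) = v := by
    intro E _ _ _ v
    have h2 : (∮ ζ in C((0 : ℂ), 7 / 4), ζ⁻¹) = 2 * Real.pi * I := by
      have := circleIntegral.integral_sub_center_inv (0 : ℂ) (R := 7 / 4) (by norm_num)
      simpa using this
    rw [circleIntegral.integral_smul_const, h2, smul_smul, hk2, one_smul]
  set ai : MM k := kk • ∮ ζ in C(0, 7 / 4), ζ⁻¹ • a (y, ζ) with hai
  have hac : ContinuousOn (fun ζ => a (y, ζ)) (sphere (0 : ℂ) (7 / 4)) := had.continuousOn.mono hso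
  have hai1 : ‖ai - 1‖ ≤ 1 / 2 := by
    have e1 : ai - 1 = kk • ∮ ζ in C(0, 7 / 4), ζ⁻¹ • (a (y, ζ) - 1) := by
      have e2 : (∮ ζ in C(0, 7 / 4), ζ⁻¹ • (a (y, ζ) - 1)) =
          (∮ ζ in C(0, 7 / 4), ζ⁻¹ • a (y, ζ)) - ∮ ζ in C(0, 7 / 4), ζ⁻¹ • (1 : MM k) := by
        rw [← circleIntegral.integral_sub (f := fun ζ : ℂ => ζ⁻¹ • a (y, ζ))
          (g := fun ζ : ℂ => ζ⁻¹ • (1 : MM k)) ((hinvc.smul hac).circleIntegrable (by norm_num))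
          ((hinvc.smul continuousOn_const).circleIntegrable (by norm_num))]
        simp only [smul_sub]
      have e3 : kk • (∮ ζ in C((0 : ℂ), 7 / 4), ζ⁻¹ • (1 : MM k)) = 1 := by
        have h2 : (∮ ζ in C((0 : ℂ), 7 / 4), ζ⁻¹) = 2 * Real.pi * I := by
          have := circleIntegral.integral_sub_center_inv (0 : ℂ) (R := 7 / 4) (by norm_num)
          simpa using this
        rw [circleIntegral.integral_smul_const, h2, smul_smul, hk2, one_smul]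
      rw [e2, smul_sub, e3]
    rw [e1]
    refine (circleIntegral.norm_two_pi_i_inv_smul_integral_le_of_norm_le_const (by norm_num)
      (C := (7 / 4)⁻¹ * (1 / 2)) (fun ζ hζ => ?_)).trans (by norm_num)
    have h3 := (ha2 (y, ζ) ⟨hy, hso hζ⟩).1
    rw [mem_sphere_zero_iff_norm] at hζ
    rw [norm_smul, norm_inv, hζ]
    gcongr
  have haiu : IsUnit ai := isUnit_of_near_one hai1
  have happly : ∀ v : VV k, kk • (∮ ζ in C(0, 7 / 4), ζ⁻¹ • a (y, ζ) v) = ai v := by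
    intro v
    have e1 := map_ci (ContinuousLinearMap.apply ℂ (VV k) v : MM k →L[ℂ] VV k) (r := 7 / 4)
      (by norm_num) (hinvc.smul hac)
    have e2 : ai v = kk • ((∮ ζ in C(0, 7 / 4), ζ⁻¹ • a (y, ζ)) v) := rfl
    rw [e2]
    congr 1
    exact e1.symm
  have haie : ∀ v : VV k, (ai v).2 = v.2 := by
    intro v
    have e1 := map_ci (ContinuousLinearMap.snd ℂ (Fin k → ℂ) ℂ) (r := 7 / 4)
      (by norm_num) (f := fun ζ : ℂ => ζ⁻¹ • a (y, ζ) v) (hinvc.smul (hac.clm_apply continuousOn_const))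
    have e2 : (∮ ζ in C(0, 7 / 4), (ContinuousLinearMap.snd ℂ (Fin k → ℂ) ℂ) (ζ⁻¹ • a (y, ζ) v)) =
        ∮ ζ in C((0 : ℂ), 7 / 4), ζ⁻¹ • v.2 := by
      refine circleIntegral.integral_congr (by norm_num) (fun ζ hζ => ?_)
      have h3 := eE_mul_iff.1 (ha2 (y, ζ) ⟨hy, hso hζ⟩).2 v
      show ζ⁻¹ • (a (y, ζ) v).2 = ζ⁻¹ • v.2
      rw [h3]
    rw [← happly v, Prod.smul_snd]
    rw [e2] at e1
    have e3 : (∮ ζ in C(0, 7 / 4), ζ⁻¹ • a (y, ζ) v).2 = ∮ ζ in C((0 : ℂ), 7 / 4), ζ⁻¹ • v.2 := e1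
    rw [e3]
    exact hkone v.2
  have hfst : ∀ q : Fin k → ℂ, kk • (∮ ζ in C(0, 7 / 4), (ζ ^ (0 + 1))⁻¹ • (a (y, ζ) (q, 1)).1) =
      (ai (q, 1)).1 := by
    intro q
    have e1 := map_ci (ContinuousLinearMap.fst ℂ (Fin k → ℂ) ℂ) (r := 7 / 4)
      (by norm_num) (f := fun ζ : ℂ => ζ⁻¹ • a (y, ζ) (q, 1))
      (hinvc.smul (hac.clm_apply continuousOn_const))
    rw [← happly, Prod.smul_fst]
    congr 1
    have e2 : (∮ ζ in C(0, 7 / 4), ζ⁻¹ • a (y, ζ) (q, 1)).1 =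
        ∮ ζ in C(0, 7 / 4), (ContinuousLinearMap.fst ℂ (Fin k → ℂ) ℂ) (ζ⁻¹ • a (y, ζ) (q, 1)) := e1
    rw [e2]
    refine circleIntegral.integral_congr (by norm_num) (fun ζ hζ => ?_)
    simp
  have hpol : ∀ (q : Fin (0 + 1) → Fin k → ℂ) (w : ℂ), pol q w = q 0 := by
    intro q w
    simp [pol]
  set q0 : Fin k → ℂ := (Ring.inverse ai (0, 1)).1 with hq0
  have hq01 : Ring.inverse ai ((0 : Fin k → ℂ), (1 : ℂ)) = (q0, 1) := by
    apply Prod.ext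
    · rfl
    · have h2 := haie (Ring.inverse ai ((0 : Fin k → ℂ), (1 : ℂ)))
      rw [apply_inv_of_unit haiu] at h2
      exact h2.symm
  have haiq0 : ai (q0, 1) = (0, 1) := by
    rw [← hq01, apply_inv_of_unit haiu]
  have hβd : DifferentiableOn ℂ (fun w => (a (y, w) (q0, 1)).1) (outer (33 / 20)) :=
    (had.clm_apply (differentiableOn_const _)).fst
  refine ⟨fun w => (a (y, w) (q0, 1)).1, hβd.mono hAo, ?_, ?_, ?_⟩
  · intro n
    rcases n with _ | n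
    · have h2 := hfst q0
      rw [haiq0] at h2
      simpa [hk0] using h2
    · refine moment_out_bounded (a := 33 / 20) (by norm_num) (by norm_num) hβd
        (C := 3 / 2 * ‖((q0, 1) : VV k)‖) (fun w hw => ?_) n
      have h3 := (ha2 (y, w) ⟨hy, hw⟩).1
      have h4 : ‖a (y, w)‖ ≤ 3 / 2 := by
        calc ‖a (y, w)‖ = ‖(a (y, w) - 1) + 1‖ := by simp
          _ ≤ ‖a (y, w) - 1‖ + ‖(1 : MM k)‖ := norm_add_le _ _
          _ ≤ 3 / 2 := by rw [norm_one]; linarith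
      calc ‖(a (y, w) (q0, 1)).1‖ ≤ ‖a (y, w) (q0, 1)‖ := norm_fst_le _
        _ ≤ ‖a (y, w)‖ * ‖((q0, 1) : VV k)‖ := ContinuousLinearMap.le_opNorm _ _
        _ ≤ _ := by gcongr
  · have := hnfd.bwd y hy (fun _ => q0) 1
    simpa only [hpol] using this
  · intro β' h1' h2' h3' w hw
    obtain ⟨q', hq'⟩ := hnfd.fwd y hy β' 1 h1' h2' h3'
    simp only [hpol] at hq'
    have h4 := h2' 0
    have h5 : (∮ ζ in C(0, 7 / 4), (ζ ^ (0 + 1))⁻¹ • (a (y, ζ) (q' 0, 1)).1) = 0 := by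
      rw [← h4]
      refine circleIntegral.integral_congr (by norm_num) (fun ζ hζ => ?_)
      rw [← hq' ζ (sphere_AA hζ)]
    have h6 := hfst (q' 0)
    rw [h5, smul_zero] at h6
    have h7 : ai (q' 0, 1) = (0, 1) := Prod.ext h6.symm (haie _)
    have h8 : ((q' 0, 1) : VV k) = (q0, 1) := by
      rw [← hq01, ← h7, inv_apply_of_unit haiu]
    have h9 := hq' w hw
    rw [h8] at h9
    show β' w = (a (y, w) (q0, 1)).1
    rw [← h9]

structure AD (k : ℕ) (Y : Set P) where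
  G : P → P × ℂ → MM k
  r : P → ℝ
  hr : ∀ y ∈ Y, 0 < r y
  hsub : ∀ y ∈ Y, ball y (r y) ⊆ Y
  nc : ∀ y ∈ Y, NC (G y) (ball y (r y) ×ˢ ann (3 / 2) 2)
  unit : ∀ y ∈ Y, ∀ x ∈ ball y (r y) ×ˢ ann (3 / 2) 2, IsUnit (G y x) ∧ eE k * G y x = eE k
  comp : ∀ y1 ∈ Y, ∀ y2 ∈ Y, ∀ y, y ∈ ball y1 (r y1) → y ∈ ball y2 (r y2) →
    ∃ κ : ℂ → MM k, DifferentiableOn ℂ κ (ball 0 2) ∧
      ∀ w ∈ ann (3 / 2) 2, G y1 (y, w) = κ w * G y2 (y, w)

theorem sol_transfer {G1 G2 : P × ℂ → MM k} {y : P} {κ : ℂ → MM k}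
    (hκ : DifferentiableOn ℂ κ (ball 0 2)) (h : ∀ w ∈ ann (3 / 2) 2, G1 (y, w) = κ w * G2 (y, w))
    (hG2 : DifferentiableOn ℂ (fun w => G2 (y, w)) (ann (3 / 2) 2)) {β : ℂ → Fin k → ℂ} {l : ℂ}
    (hβ : DifferentiableOn ℂ β AA) (hs : SolAt G2 y β l) : SolAt G1 y β l := by
  have hAann : AA ⊆ ann (3 / 2) 2 := ann_mono (by norm_num) (by norm_num)
  have hu : DifferentiableOn ℂ (fun w => G2 (y, w) (β w, l)) AA :=
    (hG2.mono hAann).clm_apply (hβ.prodMk (differentiableOn_const l))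
  obtain ⟨U, hU1, hU2⟩ := extend_in (a := 33 / 20) (b := 37 / 20) (R := 7 / 4)
    (by norm_num) (by norm_num) (by norm_num) hu hs
  intro n
  refine moments_of_ext (a := 33 / 20) (b := 37 / 20) (R := 7 / 4) (by norm_num) (by norm_num)
    (by norm_num) (F := fun w => κ w (U w))
    ((hκ.mono (ball_subset_ball (by norm_num))).clm_apply hU1) (fun w hw => ?_) n
  rw [hU2 w hw, h w (hAann hw)]
  rfl

variable {Y : Set P} (A : AD k Y)

theorem AD.solAt_iff {y1 y2 y : P} (h1 : y1 ∈ Y) (h2 : y2 ∈ Y) (hy1 : y ∈ ball y1 (A.r y1))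
    (hy2 : y ∈ ball y2 (A.r y2)) {β : ℂ → Fin k → ℂ} {l : ℂ} (hβ : DifferentiableOn ℂ β AA) :
    SolAt (A.G y1) y β l ↔ SolAt (A.G y2) y β l := by
  have hd : ∀ y3 ∈ Y, y ∈ ball y3 (A.r y3) →
      DifferentiableOn ℂ (fun w => A.G y3 (y, w)) (ann (3 / 2) 2) := fun y3 h3 hy3 =>
    (A.nc y3 h3).2 (fun w => (y, w)) _ (isOpen_ann _ _) (by fun_prop) (fun w hw => ⟨hy3, hw⟩)
  constructor
  · intro h
    obtain ⟨κ, hκ, hκ2⟩ := A.comp y2 h2 y1 h1 y hy2 hy1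
    exact sol_transfer hκ hκ2 (hd y1 h1 hy1) hβ h
  · intro h
    obtain ⟨κ, hκ, hκ2⟩ := A.comp y1 h1 y2 h2 y hy1 hy2
    exact sol_transfer hκ hκ2 (hd y2 h2 hy2) hβ h

theorem AD.uSol_iff {y1 y2 y : P} (h1 : y1 ∈ Y) (h2 : y2 ∈ Y) (hy1 : y ∈ ball y1 (A.r y1))
    (hy2 : y ∈ ball y2 (A.r y2)) {β : ℂ → Fin k → ℂ} : USol (A.G y1) y β ↔ USol (A.G y2) y β := by
  constructor
  · rintro ⟨g1, g2, g3, g4⟩
    exact ⟨g1, g2, (A.solAt_iff h1 h2 hy1 hy2 g1).1 g3, fun β' k1 k2 k3 =>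
      g4 β' k1 k2 ((A.solAt_iff h1 h2 hy1 hy2 k1).2 k3)⟩
  · rintro ⟨g1, g2, g3, g4⟩
    exact ⟨g1, g2, (A.solAt_iff h1 h2 hy1 hy2 g1).2 g3, fun β' k1 k2 k3 =>
      g4 β' k1 k2 ((A.solAt_iff h1 h2 hy1 hy2 k1).1 k3)⟩

theorem AD.nfd {y1 : P} (h1 : y1 ∈ Y) : ∃ ρ > 0, ρ ≤ A.r y1 ∧ ∃ M N, NFD (A.G y1) (ball y1 ρ) M N := by
  obtain ⟨κ, hκ, hκ2, hcore⟩ := nf_core (P := P) (M' := MM k) (e := eE k)
  have hd : DifferentiableOn ℂ (fun w => A.G y1 (y1, w)) (ann (3 / 2) 2) :=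
    (A.nc y1 h1).2 (fun w => (y1, w)) _ (isOpen_ann _ _) (by fun_prop)
      (fun w hw => ⟨mem_ball_self (A.hr y1 h1), hw⟩)
  obtain ⟨L, C, M, hL1, hL2, hL3, hL4⟩ := exists_L eE_eE hd
    (fun w hw => A.unit y1 h1 (y1, w) ⟨mem_ball_self (A.hr y1 h1), hw⟩) hκ
  obtain ⟨ρ, hρ, hρr, a, b, ha, hb, ha2, hb2, hab⟩ := hcore (A.G y1) y1 (A.r y1) (A.hr y1 h1)
    (A.nc y1 h1) (fun x hx => (A.unit y1 h1 x hx).2) L hL1 hL2 hL4
  exact ⟨ρ, hρ, hρr, M, _, nfd_of_core (A.nc y1 h1) (A.unit y1 h1) hL1 hL2 hL3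
    (fun w hw => (hL4 w hw).1) hρr ha hb ha2 hb2 hab⟩

theorem AD.gen (hpre : IsPreconnected Y) {y0 : P} (h0 : y0 ∈ Y)
    (h00 : ∀ w ∈ ann (3 / 2) 2, A.G y0 (y0, w) = 1) :
    ∀ y1 ∈ Y, ∃ ρ > 0, ρ ≤ A.r y1 ∧ Gen (A.G y1) (ball y1 ρ) := by
  have hnfd : ∀ y1 : P, ∃ ρ : ℝ, y1 ∈ Y → 0 < ρ ∧ ρ ≤ A.r y1 ∧
      ∃ M N, NFD (A.G y1) (ball y1 ρ) M N := by
    intro y1
    by_cases h : y1 ∈ Y
    · obtain ⟨ρ, h1, h2, h3⟩ := A.nfd h
      exact ⟨ρ, fun _ => ⟨h1, h2, h3⟩⟩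
    · exact ⟨0, fun h' => absurd h' h⟩
  choose ρ hρ using hnfd
  set S : Set P := {y1 | y1 ∈ Y ∧ ∃ O : Set P, IsOpen O ∧ O.Nonempty ∧ O ⊆ ball y1 (ρ y1) ∧
    ∀ y ∈ O, ∃ β, USol (A.G y1) y β} with hS
  have hSgen : ∀ y1 ∈ S, Gen (A.G y1) (ball y1 (ρ y1)) := by
    rintro y1 ⟨h1, O, hO, hOne, hOB, hUS⟩
    obtain ⟨-, -, M, N, hN⟩ := hρ y1 h1
    exact gen_of_open hN hO hOne hOB hUS
  -- propagation
  have hprop : ∀ y1 ∈ S, ∀ y2 ∈ Y, (ball y1 (ρ y1) ∩ ball y2 (ρ y2)).Nonempty → y2 ∈ S := by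
    intro y1 hy1 y2 hy2 hne
    obtain ⟨d, bh, hd, -, ⟨ys, hys, hdys⟩, hUS⟩ := hSgen y1 hy1
    obtain ⟨-, hρ1, -⟩ := hρ y1 hy1.1
    obtain ⟨-, hρ2, -⟩ := hρ y2 hy2
    set O : Set P := (ball y1 (ρ y1) ∩ ball y2 (ρ y2)) ∩ d ⁻¹' {0}ᶜ with hO
    have hOo : IsOpen O := (hd.1.mono inter_subset_left).isOpen_inter_preimage
      (isOpen_ball.inter isOpen_ball) isOpen_compl_singleton
    refine ⟨hy2, O, hOo, ?_, fun y hy => hy.1.2, ?_⟩
    · by_contra hcon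
      rw [not_nonempty_iff_eq_empty] at hcon
      refine hdys (NC.identity isOpen_ball (convex_ball _ _) hd (isOpen_ball.inter isOpen_ball)
        hne inter_subset_left ?_ ys hys)
      intro x hx
      by_contra hdx
      have : x ∈ O := ⟨hx, hdx⟩
      rw [hcon] at this
      exact this
    · rintro y ⟨⟨g1, g2⟩, g3⟩
      refine ⟨_, (A.uSol_iff hy1.1 hy2 (ball_subset_ball hρ1 g1) (ball_subset_ball hρ2 g2)).1
        (hUS y g1 g3)⟩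
  have h0S : y0 ∈ S := by
    obtain ⟨ρ', hρ', -, hUS⟩ := unique_near_one (A.hr y0 h0) (A.nc y0 h0) (A.unit y0 h0) h00
    obtain ⟨hρ0, -, -⟩ := hρ y0 h0
    refine ⟨h0, ball y0 (min ρ' (ρ y0)), isOpen_ball, ⟨y0, mem_ball_self (by positivity)⟩,
      ball_subset_ball (min_le_right _ _), fun y hy => hUS y (ball_subset_ball (min_le_left _ _) hy)⟩
  have hsub : Y ⊆ ⋃ y1 ∈ S, ball y1 (ρ y1) := by
    refine IsPreconnected.subset_left_of_subset_union (v := ⋃ y1 ∈ Y \ S, ball y1 (ρ y1))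
      (isOpen_biUnion fun _ _ => isOpen_ball) (isOpen_biUnion fun _ _ => isOpen_ball) ?_ ?_ ?_ hpre
    · rw [Set.disjoint_left]
      intro z hz1 hz2
      simp only [mem_iUnion, exists_prop] at hz1 hz2
      obtain ⟨y1, hy1, hz1⟩ := hz1
      obtain ⟨y2, hy2, hz2⟩ := hz2
      exact hy2.2 (hprop y1 hy1 y2 hy2.1 ⟨z, hz1, hz2⟩)
    · intro y hy
      by_cases h : y ∈ S
      · left
        simp only [mem_iUnion, exists_prop]
        exact ⟨y, h, mem_ball_self (hρ y hy).1⟩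
      · right
        simp only [mem_iUnion, exists_prop]
        exact ⟨y, ⟨hy, h⟩, mem_ball_self (hρ y hy).1⟩
    · refine ⟨y0, h0, ?_⟩
      simp only [mem_iUnion, exists_prop]
      exact ⟨y0, h0S, mem_ball_self (hρ y0 h0).1⟩
  intro y1 hy1
  have h1 := hsub hy1
  simp only [mem_iUnion, exists_prop] at h1
  obtain ⟨y2, hy2, hy12⟩ := h1
  have hS1 : y1 ∈ S := hprop y2 hy2 y1 hy1 ⟨y1, hy12, mem_ball_self (hρ y1 hy1).1⟩
  exact ⟨ρ y1, (hρ y1 hy1).1, (hρ y1 hy1).2.1, hSgen y1 hS1⟩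

end Pool.Agent.Work.MP_77a596_an
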