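import Pool.Agent.Work.MP_77a596_an.Coc

set_option autoImplicit false
set_option linter.unusedVariables false
set_option linter.unusedSectionVars false

open Set Metric Filter Topology MeasureTheory Complex

namespace Pool.Agent.Work.MP_77a596_an

universe u v

def Rc (a b c d : ℝ) : Set ℂ := {w | a ≤ w.re ∧ w.re ≤ b ∧ c ≤ w.im ∧ w.im ≤ d}

theorem edge_re_im (a b c d : ℝ) (j : Fin 4) (t : ℝ) :
    (j = 0 ∧ (edgePt a b c d j t).re = t ∧ (edgePt a b c d j t).im = c) ∨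
    (j = 1 ∧ (edgePt a b c d j t).re = t ∧ (edgePt a b c d j t).im = d) ∨
    (j = 2 ∧ (edgePt a b c d j t).re = b ∧ (edgePt a b c d j t).im = t) ∨
    (j = 3 ∧ (edgePt a b c d j t).re = a ∧ (edgePt a b c d j t).im = t) := by
  fin_cases j
  · left; simp [edgePt]
  · right; left; simp [edgePt]
  · right; right; left; simp [edgePt]
  · right; right; right; simp [edgePt]

theorem clamp_lem {x a b θ : ℝ} (hab : a ≤ b) (hθ : 0 < θ) (h1 : a - θ < x) (h2 : x < b + θ) :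
    ∃ x', a ≤ x' ∧ x' ≤ b ∧ |x - x'| < θ := by
  refine ⟨max a (min x b), le_max_left _ _, max_le hab (min_le_right _ _), ?_⟩
  rw [abs_lt]
  rcases le_total x b with h | h
  · rw [min_eq_left h]
    rcases le_total a x with h' | h'
    · rw [max_eq_right h']; constructor <;> linarith
    · rw [max_eq_left h']; constructor <;> linarith
  · rw [min_eq_right h, max_eq_right hab]; constructor <;> linarith

theorem geo_vert {QA : Set ℂ} {a b c m θ0 : ℝ} (hθ0 : 0 < θ0) (hab : a ≤ b) (hcm : c ≤ m)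
    (h1 : ∀ x, a ≤ x → x ≤ b → (⟨x, m⟩ : ℂ) ∈ QA)
    (h2 : ∀ q ∈ QA, a - 2 * θ0 < q.re → q.re < b + 2 * θ0 → c - 2 * θ0 < q.im → m ≤ q.im) :
    Geo QA (Rc a b c m) (L := Unit) (fun _ => a) (fun _ => b) (fun _ => m) (fun _ => m) θ0 where
  pos := hθ0
  hab _ := hab
  hcd _ := le_rfl
  inter θ hθ hθ' := by
    ext w
    simp only [mem_iUnion, exists_const]
    constructor
    · rintro ⟨⟨q, hq, hq1, hq2⟩, q', ⟨ha1, ha2, ha3, ha4⟩, hq3, hq4⟩
      rw [abs_lt] at hq1 hq2 hq3 hq4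
      have := h2 q hq (by linarith) (by linarith) (by linarith)
      exact ⟨by linarith, by linarith, by linarith, by linarith⟩
    · rintro ⟨g1, g2, g3, g4⟩
      obtain ⟨x, hx1, hx2, hx3⟩ := clamp_lem hab hθ g1 g2
      have him : |w.im - m| < θ := by rw [abs_lt]; constructor <;> linarith
      exact ⟨⟨⟨x, m⟩, h1 x hx1 hx2, hx3, him⟩, ⟨x, m⟩, ⟨hx1, hx2, hcm, le_rfl⟩, hx3, him⟩
  side _ j := by
    by_cases hj : j = 0
    · left
      rintro θ hθ hθ' z ⟨t, ht, rfl⟩ q hq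
      rcases edge_re_im (a - θ) (b + θ) (m - θ) (m + θ) j t with ⟨_, e1, e2⟩ | ⟨h, _⟩ | ⟨h, _⟩ | ⟨h, _⟩
      · subst hj
        simp only [elo, ehi, Matrix.cons_val_zero, mem_Icc] at ht
        by_contra hcon
        push Not at hcon
        obtain ⟨g1, g2⟩ := hcon
        rw [e1, abs_lt] at g1
        rw [e2, abs_lt] at g2
        have := h2 q hq (by linarith) (by linarith) (by linarith)
        linarith
      all_goals exact absurd (hj.symm.trans h) (by decide)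
    · right
      rintro θ hθ hθ' z ⟨t, ht, rfl⟩ q ⟨k1, k2, k3, k4⟩
      rcases edge_re_im (a - θ) (b + θ) (m - θ) (m + θ) j t with ⟨h, _⟩ | ⟨_, e1, e2⟩ | ⟨_, e1, e2⟩ | ⟨_, e1, e2⟩
      · exact absurd h hj
      · right; rw [e2, le_abs]; left; linarith
      · left; rw [e1, le_abs]; left; linarith
      · left; rw [e1, le_abs]; right; linarith
  disj l l' h := absurd (Subsingleton.elim l l') h

theorem geo_horiz {a m b c d θ0 : ℝ} (hθ0 : 0 < θ0) (ham : a ≤ m) (hmb : m ≤ b) (hcd : c ≤ d) :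
    Geo (Rc a m c d) (Rc m b c d) (L := Unit) (fun _ => m) (fun _ => m) (fun _ => c) (fun _ => d) θ0 where
  pos := hθ0
  hab _ := le_rfl
  hcd _ := hcd
  inter θ hθ hθ' := by
    ext w
    simp only [mem_iUnion, exists_const]
    constructor
    · rintro ⟨⟨q, ⟨hb1, hb2, hb3, hb4⟩, hq1, hq2⟩, q', ⟨ha1, ha2, ha3, ha4⟩, hq3, hq4⟩
      rw [abs_lt] at hq1 hq2 hq3 hq4
      exact ⟨by linarith, by linarith, by linarith, by linarith⟩
    · rintro ⟨g1, g2, g3, g4⟩
      obtain ⟨x, hx1, hx2, hx3⟩ := clamp_lem hcd hθ g3 g4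
      have him : |w.re - m| < θ := by rw [abs_lt]; constructor <;> linarith
      exact ⟨⟨⟨m, x⟩, ⟨ham, le_rfl, hx1, hx2⟩, him, hx3⟩, ⟨m, x⟩, ⟨le_rfl, hmb, hx1, hx2⟩, him, hx3⟩
  side _ j := by
    by_cases hj : j = 2
    · left
      rintro θ hθ hθ' z ⟨t, ht, rfl⟩ q ⟨k1, k2, k3, k4⟩
      rcases edge_re_im (m - θ) (m + θ) (c - θ) (d + θ) j t with ⟨h, _⟩ | ⟨h, _⟩ | ⟨_, e1, e2⟩ | ⟨h, _⟩
      on_goal 3 => left; rw [e1, le_abs]; left; linarith
      all_goals exact absurd (hj.symm.trans h) (by decide)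
    · right
      rintro θ hθ hθ' z ⟨t, ht, rfl⟩ q ⟨k1, k2, k3, k4⟩
      rcases edge_re_im (m - θ) (m + θ) (c - θ) (d + θ) j t with ⟨_, e1, e2⟩ | ⟨_, e1, e2⟩ | ⟨h, _⟩ | ⟨_, e1, e2⟩
      · right; rw [e2, le_abs]; right; linarith
      · right; rw [e2, le_abs]; left; linarith
      · exact absurd h hj
      · left; rw [e1, le_abs]; right; linarith
  disj l l' h := absurd (Subsingleton.elim l l') h

def sgn (l : Bool) : ℝ := if l then 1 else -1

def QU : Set ℂ := (Rc (-2) 2 1 2 ∪ Rc (-2) (-1) (-2) 1) ∪ Rc 1 2 (-2) 1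

theorem geo_close : Geo QU (Rc (-1) 1 (-2) (-1)) (L := Bool) sgn sgn (fun _ => -2) (fun _ => -1)
    (1 / 100) where
  pos := by norm_num
  hab _ := le_rfl
  hcd _ := by norm_num
  inter θ hθ hθ' := by
    ext w
    simp only [mem_iUnion, Bool.exists_bool]
    constructor
    · rintro ⟨⟨q, hq, hq1, hq2⟩, q', ⟨ha1, ha2, ha3, ha4⟩, hq3, hq4⟩
      rw [abs_lt] at hq1 hq2 hq3 hq4
      rcases hq with (⟨k1, k2, k3, k4⟩ | ⟨k1, k2, k3, k4⟩) | ⟨k1, k2, k3, k4⟩
      · exfalso; linarith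
      · left; refine ⟨?_, ?_, ?_, ?_⟩ <;> (try simp only [sgn, Bool.false_eq_true, if_false]) <;>
          linarith
      · right; refine ⟨?_, ?_, ?_, ?_⟩ <;> (try simp only [sgn, if_true]) <;> linarith
    · rintro (⟨g1, g2, g3, g4⟩ | ⟨g1, g2, g3, g4⟩)
      · simp only [sgn, Bool.false_eq_true, if_false] at g1 g2
        obtain ⟨x, hx1, hx2, hx3⟩ := clamp_lem (by norm_num) hθ g3 g4
        have him : |w.re - (-1)| < θ := by rw [abs_lt]; constructor <;> linarith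
        refine ⟨⟨⟨-1, x⟩, Or.inl (Or.inr ⟨?_, ?_, ?_, ?_⟩), him, hx3⟩, ⟨-1, x⟩, ⟨?_, ?_, ?_, ?_⟩, him, hx3⟩ <;>
          simp only <;> linarith
      · simp only [sgn, if_true] at g1 g2
        obtain ⟨x, hx1, hx2, hx3⟩ := clamp_lem (by norm_num) hθ g3 g4
        have him : |w.re - 1| < θ := by rw [abs_lt]; constructor <;> linarith
        refine ⟨⟨⟨1, x⟩, Or.inr ⟨?_, ?_, ?_, ?_⟩, him, hx3⟩, ⟨1, x⟩, ⟨?_, ?_, ?_, ?_⟩, him, hx3⟩ <;>
          simp only <;> linarith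
  side l j := by
    cases l with
    | false =>
      by_cases hj : j = 2
      · left
        rintro θ hθ hθ' z ⟨t, ht, rfl⟩ q hq
        rcases edge_re_im (sgn false - θ) (sgn false + θ) (-2 - θ) (-1 + θ) j t with ⟨h, _⟩ | ⟨h, _⟩ | ⟨_, e1, e2⟩ | ⟨h, _⟩
        on_goal 3 =>
          subst hj
          simp only [elo, ehi, Matrix.cons_val, mem_Icc] at ht
          simp only [sgn, Bool.false_eq_true, if_false] at e1 e2 ⊢
          rcases hq with (⟨k1, k2, k3, k4⟩ | ⟨k1, k2, k3, k4⟩) | ⟨k1, k2, k3, k4⟩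
          · right; rw [e2, le_abs]; right; linarith
          · left; rw [e1, le_abs]; left; linarith
          · left; rw [e1, le_abs]; right; linarith
        all_goals exact absurd (hj.symm.trans h) (by decide)
      · right
        rintro θ hθ hθ' z ⟨t, ht, rfl⟩ q ⟨k1, k2, k3, k4⟩
        rcases edge_re_im (sgn false - θ) (sgn false + θ) (-2 - θ) (-1 + θ) j t with ⟨_, e1, e2⟩ | ⟨_, e1, e2⟩ | ⟨h, _⟩ | ⟨_, e1, e2⟩
        · right; rw [e2, le_abs]; right; linarith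
        · right; rw [e2, le_abs]; left; linarith
        · exact absurd h hj
        · left; rw [e1, le_abs]; right; simp only [sgn, Bool.false_eq_true, if_false]; linarith
    | true =>
      by_cases hj : j = 3
      · left
        rintro θ hθ hθ' z ⟨t, ht, rfl⟩ q hq
        rcases edge_re_im (sgn true - θ) (sgn true + θ) (-2 - θ) (-1 + θ) j t with ⟨h, _⟩ | ⟨h, _⟩ | ⟨h, _⟩ | ⟨_, e1, e2⟩
        on_goal 4 =>
          subst hj
          simp only [elo, ehi, Matrix.cons_val, mem_Icc] at ht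
          simp only [sgn, if_true] at e1 e2 ⊢
          rcases hq with (⟨k1, k2, k3, k4⟩ | ⟨k1, k2, k3, k4⟩) | ⟨k1, k2, k3, k4⟩
          · right; rw [e2, le_abs]; right; linarith
          · left; rw [e1, le_abs]; left; linarith
          · left; rw [e1, le_abs]; right; linarith
        all_goals exact absurd (hj.symm.trans h) (by decide)
      · right
        rintro θ hθ hθ' z ⟨t, ht, rfl⟩ q ⟨k1, k2, k3, k4⟩
        rcases edge_re_im (sgn true - θ) (sgn true + θ) (-2 - θ) (-1 + θ) j t with ⟨_, e1, e2⟩ | ⟨_, e1, e2⟩ | ⟨_, e1, e2⟩ | ⟨h, _⟩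
        · right; rw [e2, le_abs]; right; linarith
        · right; rw [e2, le_abs]; left; linarith
        · left; rw [e1, le_abs]; left; simp only [sgn, if_true]; linarith
        · exact absurd h hj
  disj l l' h w hw hw' := by
    rw [mem_reProdIm, mem_Icc, mem_Icc] at hw hw'
    obtain ⟨⟨h1, h2⟩, -, -⟩ := hw
    obtain ⟨⟨h3, h4⟩, -, -⟩ := hw'
    cases l <;> cases l' <;> simp only [sgn, Bool.false_eq_true, if_false, if_true] at h1 h2 h3 h4
    · exact absurd rfl h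
    · linarith
    · linarith
    · exact absurd rfl h

theorem interval_ind {Pr : ℝ → ℝ → Prop} {A B : ℝ} (hAB : A ≤ B)
    (hglue : ∀ a m b, A ≤ a → a ≤ m → m ≤ b → b ≤ B → Pr a m → Pr m b → Pr a b)
    (hloc : ∀ x ∈ Icc A B, ∃ δ > 0, ∀ a b, a ≤ b → A ≤ a → b ≤ B → x - δ < a → b < x + δ → Pr a b) :
    Pr A B := by
  set S : Set ℝ := {x | A ≤ x ∧ x ≤ B ∧ Pr A x} with hS
  have hA : A ∈ S := by
    obtain ⟨δ, hδ, h⟩ := hloc A ⟨le_rfl, hAB⟩
    exact ⟨le_rfl, hAB, h A A le_rfl le_rfl hAB (by linarith) (by linarith)⟩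
  have hbdd : BddAbove S := ⟨B, fun x hx => hx.2.1⟩
  set s := sSup S with hs
  have hs1 : A ≤ s := le_csSup hbdd hA
  have hs2 : s ≤ B := csSup_le ⟨A, hA⟩ (fun x hx => hx.2.1)
  obtain ⟨δ, hδ, h⟩ := hloc s ⟨hs1, hs2⟩
  obtain ⟨x, hx, hx2⟩ := exists_lt_of_lt_csSup ⟨A, hA⟩ (show s - δ < sSup S by linarith)
  have hxs : x ≤ s := le_csSup hbdd hx
  have h1 : Pr x (min (s + δ / 2) B) := h x _ (le_min (by linarith) hx.2.1) hx.1
    (min_le_right _ _) hx2 ((min_le_left _ _).trans_lt (by linarith))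
  have h2 : Pr A (min (s + δ / 2) B) := hglue A x _ le_rfl hx.1
    (le_min (by linarith) hx.2.1) (min_le_right _ _) hx.2.2 h1
  have h3 : min (s + δ / 2) B ∈ S := ⟨le_min (by linarith) (by linarith), min_le_right _ _, h2⟩
  have h4 : min (s + δ / 2) B ≤ s := le_csSup hbdd h3
  rcases le_total (s + δ / 2) B with h5 | h5
  · rw [min_eq_left h5] at h4; linarith
  · rwa [min_eq_right h5] at h2

variable {P : Type v} [NormedAddCommGroup P] [NormedSpace ℂ P]
variable {M' : Type v} [NormedRing M'] [NormedAlgebra ℂ M'] {e : M'} [CompleteSpace M']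
  [NormOneClass M'] [ProperSpace M'] {D : Coc.{u, v} P M' e}

theorem app_unit (hee : e * e = e) {a b c d θ1 θ2 : ℝ} (hab : a ≤ b) (hcd : c ≤ d)
    (h0 : 0 < θ1) (h12 : θ1 < θ2) {G : ℂ → M'}
    (hG : DifferentiableOn ℂ G (⋃ _ : Unit, oRect a b c d θ2))
    (hu : ∀ w ∈ ⋃ _ : Unit, oRect a b c d θ2, IsUnit (G w) ∧ e * G w = e) :
    App e (⋃ _ : Unit, oRect a b c d θ1) G := by
  rw [iUnion_const] at hG hu ⊢
  exact app_rect hee hab hcd h0 h12 hG hu

theorem union_vert {a b c m d : ℝ} (hcm : c ≤ m) (hmd : m ≤ d) :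
    Rc a b m d ∪ Rc a b c m = Rc a b c d := by
  ext w
  constructor
  · rintro (⟨h1, h2, h3, h4⟩ | ⟨h1, h2, h3, h4⟩)
    · exact ⟨h1, h2, hcm.trans h3, h4⟩
    · exact ⟨h1, h2, h3, h4.trans hmd⟩
  · rintro ⟨h1, h2, h3, h4⟩
    rcases le_total m w.im with h | h
    · exact Or.inl ⟨h1, h2, h, h4⟩
    · exact Or.inr ⟨h1, h2, h3, h⟩

theorem union_horiz {a b c m d : ℝ} (ham : a ≤ m) (hmb : m ≤ b) :
    Rc a m c d ∪ Rc m b c d = Rc a b c d := by
  ext w
  constructor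
  · rintro (⟨h1, h2, h3, h4⟩ | ⟨h1, h2, h3, h4⟩)
    · exact ⟨h1, h2.trans hmb, h3, h4⟩
    · exact ⟨ham.trans h1, h2, h3, h4⟩
  · rintro ⟨h1, h2, h3, h4⟩
    rcases le_total m w.re with h | h
    · exact Or.inr ⟨h, h2, h3, h4⟩
    · exact Or.inl ⟨h1, h, h3, h4⟩

theorem good_point {y : P} {w : ℂ} (h : ∃ i, (y, w) ∈ D.U i) :
    ∃ δ > 0, D.Good y {w' | |w'.re - w.re| < δ ∧ |w'.im - w.im| < δ} := by
  obtain ⟨i, hi⟩ := h
  obtain ⟨r, hr, hri⟩ := Metric.isOpen_iff.1 (D.hU i) _ hi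
  refine ⟨r / 8, by positivity, r / 2, by positivity, r / 8, by positivity, fun j => D.g j i,
    (D.frame_self i).mono ?_⟩
  rintro ⟨y', w'⟩ ⟨hy', q, ⟨hq1, hq2⟩, hq3, hq4⟩
  apply hri
  simp only at hy' hq3 hq4
  rw [mem_ball] at hy'
  rw [mem_ball, Prod.dist_eq, max_lt_iff]
  refine ⟨by simp only; linarith, ?_⟩
  simp only
  rw [dist_eq_norm]
  have h1 := Complex.norm_le_abs_re_add_abs_im (w' - w)
  have h2 : |(w' - w).re| ≤ |w'.re - q.re| + |q.re - w.re| := by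
    rw [sub_re]; exact abs_sub_le _ _ _
  have h3 : |(w' - w).im| ≤ |w'.im - q.im| + |q.im - w.im| := by
    rw [sub_im]; exact abs_sub_le _ _ _
  linarith

theorem good_seg (hee : e * e = e) {y : P} {x c d : ℝ} (hcd : c ≤ d)
    (h : ∀ w ∈ Rc x x c d, ∃ i, (y, w) ∈ D.U i) : D.Good y (Rc x x c d) := by
  refine interval_ind (Pr := fun c d => D.Good y (Rc x x c d)) hcd ?_ ?_
  · intro c' m d' h1 h2 h3 h4 h5 h6
    rw [← union_vert h2 h3]
    exact Coc.Good.union hee (geo_vert (θ0 := 1) one_pos le_rfl h2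
      (fun x' h1 h2 => ⟨h1, h2, le_rfl, h3⟩) (fun q hq _ _ _ => hq.2.2.1))
      (fun θ1 θ2 h0 h12 _ G hG hu => app_unit hee le_rfl le_rfl h0 h12 hG hu) h6 h5
  · intro y' hy'
    obtain ⟨δ, hδ, hg⟩ := good_point (D := D) (h ⟨x, y'⟩ ⟨le_rfl, le_rfl, hy'.1, hy'.2⟩)
    refine ⟨δ, hδ, fun a b hab _ _ h1 h2 => hg.mono ?_⟩
    rintro w ⟨k1, k2, k3, k4⟩
    have : w.re = x := le_antisymm k2 k1
    constructor
    · simp only [this, sub_self, abs_zero]; exact hδ
    · simp only; rw [abs_lt]; constructor <;> linarith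

theorem good_rect (hee : e * e = e) {y : P} {a b c d : ℝ} (hab : a ≤ b) (hcd : c ≤ d)
    (h : ∀ w ∈ Rc a b c d, ∃ i, (y, w) ∈ D.U i) : D.Good y (Rc a b c d) := by
  refine interval_ind (Pr := fun a b => D.Good y (Rc a b c d)) hab ?_ ?_
  · intro a' m b' h1 h2 h3 h4 h5 h6
    rw [← union_horiz h2 h3]
    exact Coc.Good.union hee (geo_horiz (θ0 := 1) one_pos h2 h3 hcd)
      (fun θ1 θ2 h0 h12 _ G hG hu => app_unit hee le_rfl hcd h0 h12 hG hu) h5 h6
  · intro x hx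
    obtain ⟨r, hr, θ, hθ, m, hm⟩ := good_seg (D := D) hee hcd (x := x) (fun w hw =>
      h w ⟨hx.1.trans hw.1, hw.2.1.trans hx.2, hw.2.2.1, hw.2.2.2⟩)
    refine ⟨θ / 2, by positivity, fun a' b' hab' _ _ h1 h2 => ⟨r, hr, θ / 2, by positivity, m,
      hm.mono (prod_mono le_rfl ?_)⟩⟩
    rintro w ⟨q, ⟨k1, k2, k3, k4⟩, hq1, hq2⟩
    refine ⟨⟨x, q.im⟩, ⟨le_rfl, le_rfl, k3, k4⟩, ?_, ?_⟩
    · simp only
      rw [abs_lt] at hq1 ⊢
      constructor <;> linarith
    · simp only; linarith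

theorem good_annulus (hee : e * e = e) (hspec : ∀ x : M', (spectrum ℂ x).Finite) {y : P}
    (h : ∀ w : ℂ, w ≠ 0 → ∃ i, (y, w) ∈ D.U i) : D.Good y (QU ∪ Rc (-1) 1 (-2) (-1)) := by
  have hne1 : ∀ w : ℂ, w.re ≠ 0 → w ≠ 0 := by rintro w hw rfl; simp at hw
  have hne2 : ∀ w : ℂ, w.im ≠ 0 → w ≠ 0 := by rintro w hw rfl; simp at hw
  have g1 : D.Good y (Rc (-2) 2 1 2) := good_rect hee (by norm_num) (by norm_num)
    (fun w hw => h w (hne2 w (by have := hw.2.2.1; intro h0; linarith)))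
  have g2 : D.Good y (Rc (-2) (-1) (-2) 1) := good_rect hee (by norm_num) (by norm_num)
    (fun w hw => h w (hne1 w (by have := hw.2.1; intro h0; linarith)))
  have g3 : D.Good y (Rc 1 2 (-2) 1) := good_rect hee (by norm_num) (by norm_num)
    (fun w hw => h w (hne1 w (by have := hw.1; intro h0; linarith)))
  have g4 : D.Good y (Rc (-1) 1 (-2) (-1)) := good_rect hee (by norm_num) (by norm_num)
    (fun w hw => h w (hne2 w (by have := hw.2.2.2; intro h0; linarith)))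
  have g12 : D.Good y (Rc (-2) 2 1 2 ∪ Rc (-2) (-1) (-2) 1) := by
    refine Coc.Good.union hee (geo_vert (θ0 := 1 / 100) (by norm_num) (by norm_num) (by norm_num)
      ?_ ?_) (fun θ1 θ2 h0 h12 _ G hG hu => app_unit hee (by norm_num) le_rfl h0 h12 hG hu) g1 g2
    · intro x h1 h2
      exact ⟨h1, by simp only; linarith, le_rfl, by simp⟩
    · intro q hq _ _ _
      exact hq.2.2.1
  have g123 : D.Good y QU := by
    refine Coc.Good.union hee (geo_vert (θ0 := 1 / 100) (by norm_num) (by norm_num) (by norm_num)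
      ?_ ?_) (fun θ1 θ2 h0 h12 _ G hG hu => app_unit hee (by norm_num) le_rfl h0 h12 hG hu) g12 g3
    · intro x h1 h2
      exact Or.inl ⟨by simp only; linarith, h2, le_rfl, by simp⟩
    · rintro q (hq | hq) k1 _ _
      · exact hq.2.2.1
      · have := hq.2.1; linarith
  refine Coc.Good.union hee geo_close ?_ g123 g4
  intro θ1 θ2 h0 h12 h2 G hG hu
  have hU : ∀ θ, (⋃ l : Bool, oRect (sgn l) (sgn l) (-2) (-1) θ) =
      oRect 1 1 (-2) (-1) θ ∪ oRect (-1) (-1) (-2) (-1) θ := by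
    intro θ
    ext w
    simp only [mem_iUnion, Bool.exists_bool, mem_union, sgn, if_true, Bool.false_eq_true, if_false]
    tauto
  rw [hU] at hG hu ⊢
  refine app_two hee hspec le_rfl le_rfl (by norm_num) (by norm_num) h0 h12 (by linarith)
    (by linarith) ?_ hG hu
  intro ε hε
  obtain ⟨χ, hχ1, hχ2, hχ3⟩ := exists_chi ε hε
  have hb : ∀ z : ℂ, |z.re| < 1 / 100 → |z.im| < 51 / 100 → ‖(1 / 2 : ℂ) * z‖ ≤ 0.26 := by
    intro z h1 h2
    rw [norm_mul]
    have h3 : ‖z‖ ≤ 0.52 := by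
      have := Complex.norm_le_abs_re_add_abs_im z
      linarith
    have h4 : ‖(1 / 2 : ℂ)‖ = 1 / 2 := by norm_num
    rw [h4]; linarith
  refine ⟨fun w => χ (1 / 2 + (1 / 2) * (w + (3 / 2) * I)), hχ1.comp (by fun_prop), ?_, ?_⟩
  · rintro w ⟨k1, k2, k3, k4⟩
    apply hχ2
    have : (1 / 2 + (1 / 2) * (w + (3 / 2) * I) - 1 : ℂ) = (1 / 2) * (w + (3 / 2) * I - 1) := by ring
    rw [this]
    apply hb
    · simp; rw [abs_lt]; constructor <;> linarith
    · simp; rw [abs_lt]; constructor <;> linarith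
  · rintro w ⟨k1, k2, k3, k4⟩
    apply hχ3
    have : (1 / 2 + (1 / 2) * (w + (3 / 2) * I) : ℂ) = (1 / 2) * (w + (3 / 2) * I + 1) := by ring
    rw [this]
    apply hb
    · simp; rw [abs_lt]; constructor <;> linarith
    · simp; rw [abs_lt]; constructor <;> linarith

theorem annulus_subset {w : ℂ} (h1 : 3 / 2 < ‖w‖) (h2 : ‖w‖ < 2) :
    w ∈ QU ∪ Rc (-1) 1 (-2) (-1) := by
  have h3 := (abs_lt.1 ((Complex.abs_re_le_norm w).trans_lt h2))
  have h4 := (abs_lt.1 ((Complex.abs_im_le_norm w).trans_lt h2))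
  have h5 : (3 / 2) ^ 2 < w.re ^ 2 + w.im ^ 2 := by
    have : ‖w‖ ^ 2 = w.re ^ 2 + w.im ^ 2 := by
      rw [← Complex.normSq_eq_norm_sq, Complex.normSq_apply]; ring
    rw [← this]; gcongr
  by_cases h6 : 1 ≤ w.im
  · exact Or.inl (Or.inl (Or.inl ⟨by linarith, by linarith, h6, by linarith⟩))
  · push Not at h6
    by_cases h7 : 1 ≤ w.re
    · exact Or.inl (Or.inr ⟨h7, by linarith, by linarith, by linarith⟩)
    · push Not at h7
      by_cases h8 : w.re ≤ -1
      · exact Or.inl (Or.inl (Or.inr ⟨by linarith, h8, by linarith, by linarith⟩))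
      · push Not at h8
        refine Or.inr ⟨by linarith, by linarith, by linarith, ?_⟩
        by_contra h9
        push Not at h9
        nlinarith

theorem disc_subset {w : ℂ} (h2 : ‖w‖ ≤ 2) : w ∈ Rc (-2) 2 (-2) 2 := by
  have h3 := (abs_le.1 ((Complex.abs_re_le_norm w).trans h2))
  have h4 := (abs_le.1 ((Complex.abs_im_le_norm w).trans h2))
  exact ⟨h3.1, h3.2, h4.1, h4.2⟩

end Pool.Agent.Work.MP_77a596_an
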