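import Pool.Agent.Work.MP_77a596_an.Glob

set_option autoImplicit false
set_option linter.unusedVariables false
set_option linter.unusedSectionVars false

open Set Metric Filter Topology MeasureTheory Complex

namespace Pool.Agent.Work.MP_77a596_an

variable {E : Type*} [NormedAddCommGroup E] [NormedSpace ℂ E] [CompleteSpace E]

theorem exists_not_mem {Z U : Set ℂ} (hZ : Z.Countable) (hU : IsOpen U) (hne : U.Nonempty) :
    ∃ x ∈ U, x ∉ Z := (hZ.dense_compl ℝ).inter_open_nonempty U hU hne |>.imp fun x hx => hx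

theorem eq_of_countable {T : Type*} [TopologicalSpace T] [T2Space T] {U Z : Set ℂ} (hU : IsOpen U)
    (hZ : Z.Countable) {f g : ℂ → T} (hf : ContinuousOn f U) (hg : ContinuousOn g U)
    (h : ∀ x ∈ U, x ∉ Z → f x = g x) : ∀ x ∈ U, f x = g x := by
  intro x hx
  by_contra hne
  have h1 : IsOpen (U ∩ (fun x => (f x, g x)) ⁻¹' {p : T × T | p.1 ≠ p.2}) :=
    (hf.prodMk hg).isOpen_inter_preimage hU (isOpen_ne_fun continuous_fst continuous_snd)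
  obtain ⟨y, ⟨hyU, hy⟩, hyZ⟩ := exists_not_mem hZ h1 ⟨x, hx, hne⟩
  exact hy (h y hyU hyZ)

theorem zeros_countable {U : Set ℂ} (hU : IsOpen U) (hpre : IsPreconnected U) {f : ℂ → E}
    (hf : DifferentiableOn ℂ f U) {c : ℂ} (hc : c ∈ U) (hfc : f c ≠ 0) :
    {z | z ∈ U ∧ f z = 0}.Countable := by
  set Z : Set ℂ := {z | z ∈ U ∧ f z = 0} with hZ
  have ha : AnalyticOnNhd ℂ f U := hf.analyticOnNhd hU
  have hiso : ∀ z : ℂ, ∃ O : Set ℂ, z ∈ Z → (O ∈ 𝓝 z ∧ O ∩ Z ⊆ {z}) := by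
    intro z
    by_cases hz : z ∈ Z
    · rcases (ha z hz.1).eventually_eq_zero_or_eventually_ne_zero with h | h
      · exact absurd (ha.eqOn_zero_of_preconnected_of_eventuallyEq_zero hpre hz.1 h hc) hfc
      · rw [eventually_nhdsWithin_iff] at h
        refine ⟨{z' | z' ∈ ({z}ᶜ : Set ℂ) → f z' ≠ 0}, fun _ => ⟨h, ?_⟩⟩
        rintro z' ⟨h1, h2⟩
        by_contra h3
        exact h1 h3 h2.2
    · exact ⟨∅, fun h => absurd h hz⟩
  choose O hO using hiso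
  obtain ⟨t, htZ, htc, ht⟩ := TopologicalSpace.countable_cover_nhdsWithin (s := Z) (f := O)
    (fun z hz => mem_nhdsWithin_of_mem_nhds (hO z hz).1)
  refine htc.mono (fun z hz => ?_)
  have h1 := ht hz
  simp only [mem_iUnion, exists_prop] at h1
  obtain ⟨x, hx, hzx⟩ := h1
  have h2 : z ∈ ({x} : Set ℂ) := (hO x (htZ hx)).2 ⟨hzx, hz⟩
  rw [mem_singleton_iff] at h2
  rwa [h2]

theorem propagate {X : Type*} [PseudoMetricSpace X] {Y : Set X} (hpre : IsPreconnected Y)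
    {ρ : X → ℝ} (hρ : ∀ y ∈ Y, 0 < ρ y) {S : Set X} (hSY : S ⊆ Y) (hS : S.Nonempty)
    (hprop : ∀ y1 ∈ S, ∀ y2 ∈ Y, (ball y1 (ρ y1) ∩ ball y2 (ρ y2)).Nonempty → y2 ∈ S) : Y ⊆ S := by
  obtain ⟨y0, h0⟩ := hS
  have hsub : Y ⊆ ⋃ y1 ∈ S, ball y1 (ρ y1) := by
    refine IsPreconnected.subset_left_of_subset_union (v := ⋃ y1 ∈ Y \ S, ball y1 (ρ y1))
      (isOpen_biUnion fun _ _ => isOpen_ball) (isOpen_biUnion fun _ _ => isOpen_ball) ?_ ?_ ?_ hpre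
    · rw [Set.disjoint_left]
      intro z hz1 hz2
      simp only [mem_iUnion, exists_prop] at hz1 hz2
      obtain ⟨y1, hy1, hz1⟩ := hz1
      obtain ⟨y2, hy2, hz2⟩ := hz2
      exact hy2.2 (hprop y1 hy1 y2 hy2.1 ⟨z, hz1, hz2⟩)
    · intro y hy
      by_cases h : y ∈ S
      · left
        simp only [mem_iUnion, exists_prop]
        exact ⟨y, h, mem_ball_self (hρ y hy)⟩
      · right
        simp only [mem_iUnion, exists_prop]
        exact ⟨y, ⟨hy, h⟩, mem_ball_self (hρ y hy)⟩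
    · refine ⟨y0, hSY h0, ?_⟩
      simp only [mem_iUnion, exists_prop]
      exact ⟨y0, h0, mem_ball_self (hρ y0 (hSY h0))⟩
  intro y1 hy1
  have h1 := hsub hy1
  simp only [mem_iUnion, exists_prop] at h1
  obtain ⟨y2, hy2, hy12⟩ := h1
  exact hprop y2 hy2 y1 hy1 ⟨y1, hy12, mem_ball_self (hρ y1 hy1)⟩

def Yset (ε : ℝ) (D : Set ℂ) : Set (ℂ × ℂ) := {y | ‖y.1‖ < ε ∧ y.2 ∈ D ∧ 1 < ‖y.1‖ ^ 2 + ‖y.2‖ ^ 2}

theorem isOpen_Yset {ε : ℝ} {D : Set ℂ} (hD : IsOpen D) : IsOpen (Yset ε D) := by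
  have : Yset ε D = {y : ℂ × ℂ | ‖y.1‖ < ε} ∩ (Prod.snd ⁻¹' D) ∩
      {y : ℂ × ℂ | 1 < ‖y.1‖ ^ 2 + ‖y.2‖ ^ 2} := by
    ext y; simp only [Yset, mem_ofPred_eq, mem_inter_iff, mem_preimage]; tauto
  rw [this]
  exact ((isOpen_lt (by fun_prop) (by fun_prop)).inter (hD.preimage continuous_snd)).inter
    (isOpen_lt (by fun_prop) (by fun_prop))

theorem isPreconnected_Yset {ε ε1 : ℝ} {D : Set ℂ} (hε1 : 0 ≤ ε1) (hε : ε1 < ε)
    (hD : IsPreconnected D) (h : ∀ c ∈ D, 1 < ε1 ^ 2 + ‖c‖ ^ 2) : IsPreconnected (Yset ε D) := by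
  rcases D.eq_empty_or_nonempty with rfl | ⟨c0, hc0⟩
  · have : Yset ε (∅ : Set ℂ) = ∅ := by
      ext y; simp [Yset]
    rw [this]; exact isPreconnected_empty
  set Φ : ℝ × ℝ × ℂ → ℂ × ℂ := fun p => ((p.1 : ℂ) * exp (p.2.1 * I), p.2.2) with hΦ
  set A : Set (ℂ × ℂ) := Φ '' (Ioo ε1 ε ×ˢ (univ : Set ℝ) ×ˢ D) with hA
  have hApre : IsPreconnected A := by
    refine IsPreconnected.image (isPreconnected_Ioo.prod (isPreconnected_univ.prod hD)) _ ?_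
    exact Continuous.continuousOn (by rw [hΦ]; fun_prop)
  have hnorm : ∀ (r θ : ℝ), 0 ≤ r → ‖(r : ℂ) * exp (θ * I)‖ = r := by
    intro r θ hr
    rw [norm_mul, norm_exp_ofReal_mul_I, mul_one, Complex.norm_real, Real.norm_eq_abs, abs_of_nonneg hr]
  have hAY : A ⊆ Yset ε D := by
    rintro _ ⟨⟨r, θ, c⟩, ⟨hr, -, hc⟩, rfl⟩
    have hr' : ε1 < r ∧ r < ε := hr
    have h0 : 0 ≤ r := by linarith
    have hc' : c ∈ D := hc
    refine ⟨?_, hc, ?_⟩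
    · simp only [hΦ]; rw [hnorm r θ h0]; exact hr'.2
    · simp only [hΦ]; rw [hnorm r θ h0]
      have := h c hc'
      have : ε1 ^ 2 ≤ r ^ 2 := by gcongr; exact hr'.1.le
      linarith
  obtain ⟨r0, hr0⟩ := exists_between hε
  set x0 : ℂ × ℂ := Φ (r0, 0, c0) with hx0
  have hx0A : x0 ∈ A := ⟨(r0, 0, c0), ⟨hr0, mem_univ _, hc0⟩, rfl⟩
  refine isPreconnected_of_forall x0 (fun y hy => ?_)
  obtain ⟨s, c⟩ := y
  obtain ⟨hs, hc, hsc⟩ := hy
  simp only at hs hc hsc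
  obtain ⟨θ, hθ⟩ : ∃ θ : ℝ, (‖s‖ : ℂ) * exp (θ * I) = s := ⟨arg s, norm_mul_exp_arg_mul_I s⟩
  set seg : Set (ℂ × ℂ) := (fun r : ℝ => Φ (r, θ, c)) '' (Ico ‖s‖ ε) with hseg
  have hsegpre : IsPreconnected seg := by
    refine isPreconnected_Ico.image _ ?_
    exact Continuous.continuousOn (by rw [hΦ]; fun_prop)
  have hsegY : seg ⊆ Yset ε D := by
    rintro _ ⟨r, hr, rfl⟩
    have h0 : 0 ≤ r := (norm_nonneg s).trans hr.1
    refine ⟨?_, hc, ?_⟩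
    · simp only [hΦ]; rw [hnorm r θ h0]; exact hr.2
    · simp only [hΦ]; rw [hnorm r θ h0]
      have : ‖s‖ ^ 2 ≤ r ^ 2 := by gcongr; exact hr.1
      linarith
  have hyseg : (s, c) ∈ seg := ⟨‖s‖, ⟨le_rfl, hs⟩, by simp only [hΦ]; rw [hθ]⟩
  obtain ⟨r1, hr1, hr1'⟩ := exists_between (show max ε1 ‖s‖ < ε from max_lt hε hs)
  rw [max_lt_iff] at hr1
  have hz1 : Φ (r1, θ, c) ∈ A := ⟨(r1, θ, c), ⟨⟨hr1.1, hr1'⟩, mem_univ _, hc⟩, rfl⟩
  have hz2 : Φ (r1, θ, c) ∈ seg := ⟨r1, ⟨hr1.2.le, hr1'⟩, rfl⟩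
  exact ⟨A ∪ seg, union_subset hAY hsegY, Or.inl hx0A, Or.inr hyseg,
    IsPreconnected.union _ hz1 hz2 hApre hsegpre⟩

/-- the ring of holomorphic functions on `U` -/
def HR (U : Set ℂ) : Subring (U → ℂ) where
  carrier := {f | ∃ F : ℂ → ℂ, DifferentiableOn ℂ F U ∧ ∀ x : U, f x = F x}
  mul_mem' := by
    rintro f g ⟨F, hF, hF2⟩ ⟨G, hG, hG2⟩
    exact ⟨fun z => F z * G z, hF.mul hG, fun x => by simp [hF2, hG2]⟩
  one_mem' := ⟨fun _ => 1, differentiableOn_const _, fun x => rfl⟩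
  add_mem' := by
    rintro f g ⟨F, hF, hF2⟩ ⟨G, hG, hG2⟩
    exact ⟨fun z => F z + G z, hF.add hG, fun x => by simp [hF2, hG2]⟩
  zero_mem' := ⟨fun _ => 0, differentiableOn_const _, fun x => rfl⟩
  neg_mem' := by
    rintro f ⟨F, hF, hF2⟩
    exact ⟨fun z => - F z, hF.neg, fun x => by simp [hF2]⟩

theorem hol_dependence {U : Set ℂ} (hU : IsOpen U) (hpre : IsPreconnected U) (hne : U.Nonempty)
    {J : Type*} (p : ℕ) (V : Fin p → J → ℂ → ℂ) (hV : ∀ i j, DifferentiableOn ℂ (V i j) U)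
    {X : Set ℂ} (hXU : X ⊆ U) (hX : ¬ X.Countable)
    (hdep : ∀ c ∈ X, ∃ q : Fin p → ℂ, q ≠ 0 ∧ ∀ j, ∑ i, q i * V i j c = 0) :
    ∃ q : Fin p → ℂ → ℂ, (∀ i, DifferentiableOn ℂ (q i) U) ∧ (∃ i, ∃ c ∈ U, q i c ≠ 0) ∧
      ∀ j, ∀ c ∈ U, ∑ i, q i c * V i j c = 0 := by
  classical
  obtain ⟨c0, hc0⟩ := hne
  have : Nonempty U := ⟨⟨c0, hc0⟩⟩
  let ev : U → (HR U →+* ℂ) := fun c => (Pi.evalRingHom (fun _ : U => ℂ) c).comp (HR U).subtype
  let W : Fin p → J → HR U := fun i j => ⟨fun c => V i j c, V i j, hV i j, fun x => rfl⟩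
  have hevW : ∀ c i j, ev c (W i j) = V i j c := fun c i j => rfl
  rcases elim_fin p W with ⟨q, hq, hq2⟩ | ⟨rows, hrows⟩
  · choose F hF hF2 using fun i => (q i).2
    refine ⟨F, hF, ?_, ?_⟩
    · by_contra hcon
      push Not at hcon
      apply hq
      funext i
      apply Subtype.ext
      funext c
      rw [hF2 i c, hcon i c c.2]
      rfl
    · intro j c hc
      have h1 := congrArg (ev ⟨c, hc⟩) (hq2 j)
      rw [map_sum, map_zero] at h1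
      rw [← h1]
      refine Finset.sum_congr rfl (fun i _ => ?_)
      rw [map_mul, hevW]
      congr 1
      exact (hF2 i ⟨c, hc⟩).symm
  · exfalso
    set Δ : HR U := (Matrix.of (fun a b => W b (rows a))).det with hΔ
    obtain ⟨F, hF, hF2⟩ := Δ.2
    have hne' : ∃ c : U, F c ≠ 0 := by
      by_contra hcon
      push Not at hcon
      apply hrows
      apply Subtype.ext
      funext c
      show (Δ : U → ℂ) c = 0
      rw [hF2 c, hcon c]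
    obtain ⟨c1, hc1⟩ := hne'
    have hcount := zeros_countable hU hpre hF c1.2 hc1
    apply hX
    refine hcount.mono ?_
    intro c hc
    refine ⟨hXU hc, ?_⟩
    have h1 : F c = ev ⟨c, hXU hc⟩ Δ := (hF2 ⟨c, hXU hc⟩).symm
    rw [h1, hΔ, RingHom.map_det]
    obtain ⟨q, hq, hq2⟩ := hdep c hc
    rw [← Matrix.exists_mulVec_eq_zero_iff]
    refine ⟨q, hq, ?_⟩
    funext a
    rw [Pi.zero_apply, ← hq2 (rows a)]
    simp only [Matrix.mulVec, dotProduct]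
    refine Finset.sum_congr rfl (fun b _ => ?_)
    rw [mul_comm]
    rfl

theorem cauchy_eq_of_moments {a b R : ℝ} (ha : 0 ≤ a) (haR : a < R) (hRb : R < b) {f : ℂ → E}
    (hf : DifferentiableOn ℂ f (ann a b)) (hm : ∀ n : ℕ, (∮ ζ in C(0, R), ζ ^ n • f ζ) = 0)
    {w : ℂ} (h1 : a < ‖w‖) (h2 : ‖w‖ < R) :
    (2 * Real.pi * I : ℂ)⁻¹ • (∮ ζ in C(0, R), (ζ - w)⁻¹ • f ζ) = f w := by
  have hk2 : (2 * Real.pi * I : ℂ)⁻¹ * (2 * Real.pi * I : ℂ) = 1 := by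
    rw [inv_mul_cancel₀]; simp [Real.pi_ne_zero]
  have hmom : ∀ r, a < r → r ≤ R → ∀ n : ℕ, (∮ ζ in C(0, r), ζ ^ n • f ζ) = 0 := by
    intro r har hrR n
    rw [← ci_annulus (ha.trans_lt har) har hrR hRb, hm n]
    exact ((by fun_prop : Differentiable ℂ fun ζ : ℂ => ζ ^ n).differentiableOn).smul hf
  obtain ⟨r, hr1, hr2⟩ := exists_between h1
  have h3 := cauchy_ann (ha.trans_lt hr1) hr1 hRb hr2 h2 hf
  rw [cauchy_out_zero (ha.trans_lt hr1)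
    (hf.continuousOn.mono (sphere_subset_ann hr1 (hr2.trans (h2.trans hRb))))
    (hmom r hr1 (hr2.trans h2).le) hr2, sub_zero] at h3
  rw [h3, smul_smul, hk2, one_smul]

end Pool.Agent.Work.MP_77a596_an
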