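import Pool.Agent.Work.MP_77a596_an.Levi1

set_option autoImplicit false
set_option linter.unusedVariables false
set_option linter.unusedSectionVars false

open Set Metric Filter Topology MeasureTheory Complex

namespace Pool.Agent.Work.MP_77a596_an

variable {k : ℕ} {Y : Set (ℂ × ℂ)} {A : AD k Y}

structure GD {k : ℕ} {Y : Set (ℂ × ℂ)} (A : AD k Y) where
  ρ : ℂ × ℂ → ℝ
  d : ℂ × ℂ → ℂ × ℂ → ℂ
  bh : ℂ × ℂ → (ℂ × ℂ) × ℂ → Fin k → ℂ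
  hρ : ∀ y ∈ Y, 0 < ρ y ∧ ρ y ≤ A.r y
  nd : ∀ y ∈ Y, NC (d y) (ball y (ρ y))
  nb : ∀ y ∈ Y, NC (bh y) (ball y (ρ y) ×ˢ AA)
  ne : ∀ y ∈ Y, ∃ z ∈ ball y (ρ y), d y z ≠ 0
  us : ∀ y ∈ Y, ∀ z ∈ ball y (ρ y), d y z ≠ 0 →
    USol (A.G y) z (fun w => (d y z)⁻¹ • bh y (z, w))

theorem exists_GD (h : ∀ y1 ∈ Y, ∃ ρ > 0, ρ ≤ A.r y1 ∧ Gen (A.G y1) (ball y1 ρ)) :
    Nonempty (GD A) := by
  have h' : ∀ y : ℂ × ℂ, ∃ (ρ : ℝ) (d : ℂ × ℂ → ℂ) (bh : (ℂ × ℂ) × ℂ → Fin k → ℂ), y ∈ Y →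
      (0 < ρ ∧ ρ ≤ A.r y) ∧ NC d (ball y ρ) ∧ NC bh (ball y ρ ×ˢ AA) ∧ (∃ z ∈ ball y ρ, d z ≠ 0) ∧
      ∀ z ∈ ball y ρ, d z ≠ 0 → USol (A.G y) z (fun w => (d z)⁻¹ • bh (z, w)) := by
    intro y
    by_cases hy : y ∈ Y
    · obtain ⟨ρ, h1, h2, d, bh, h3, h4, h5, h6⟩ := h y hy
      exact ⟨ρ, d, bh, fun _ => ⟨⟨h1, h2⟩, h3, h4, h5, h6⟩⟩
    · exact ⟨0, 0, 0, fun h => absurd h hy⟩
  choose ρ d bh hh using h'
  exact ⟨⟨ρ, d, bh, fun y hy => (hh y hy).1, fun y hy => (hh y hy).2.1, fun y hy => (hh y hy).2.2.1,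
    fun y hy => (hh y hy).2.2.2.1, fun y hy => (hh y hy).2.2.2.2⟩⟩

def GD.good (g : GD A) : Set (ℂ × ℂ) := {z | ∃ y, y ∈ Y ∧ z ∈ ball y (g.ρ y) ∧ g.d y z ≠ 0}

theorem GD.isOpen_good (g : GD A) : IsOpen g.good := by
  have : g.good = ⋃ y ∈ Y, (ball y (g.ρ y) ∩ g.d y ⁻¹' {0}ᶜ) := by
    ext z
    simp only [GD.good, mem_ofPred_eq, mem_iUnion, exists_prop, mem_inter_iff, mem_preimage,
      mem_compl_iff, mem_singleton_iff]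
  rw [this]
  exact isOpen_biUnion (fun y hy => (g.nd y hy).1.isOpen_inter_preimage isOpen_ball
    isOpen_compl_singleton)

theorem GD.sigma (g : GD A) : ∃ σ : (ℂ × ℂ) × ℂ → Fin k → ℂ, NC σ (g.good ×ˢ AA) ∧
    (∀ z ∈ g.good, z ∈ Y ∧ USol (A.G z) z (fun w => σ (z, w))) ∧
    ∀ y ∈ Y, ∀ z ∈ ball y (g.ρ y), g.d y z ≠ 0 → ∀ w ∈ AA,
      σ (z, w) = (g.d y z)⁻¹ • g.bh y (z, w) := by
  classical
  let σ : (ℂ × ℂ) × ℂ → Fin k → ℂ := fun x =>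
    if h : ∃ y, y ∈ Y ∧ x.1 ∈ ball y (g.ρ y) ∧ g.d y x.1 ≠ 0 then
      (g.d h.choose x.1)⁻¹ • g.bh h.choose x else 0
  have hch : ∀ z ∈ g.good, ∃ y ∈ Y, z ∈ ball y (g.ρ y) ∧ g.d y z ≠ 0 ∧
      ∀ w, σ (z, w) = (g.d y z)⁻¹ • g.bh y (z, w) := by
    intro z hz
    have hz' : ∃ y, y ∈ Y ∧ z ∈ ball y (g.ρ y) ∧ g.d y z ≠ 0 := hz
    refine ⟨hz'.choose, hz'.choose_spec.1, hz'.choose_spec.2.1, hz'.choose_spec.2.2, fun w => ?_⟩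
    exact dif_pos hz'
  have hloc : ∀ y ∈ Y, ∀ z ∈ ball y (g.ρ y), g.d y z ≠ 0 → ∀ w ∈ AA,
      σ (z, w) = (g.d y z)⁻¹ • g.bh y (z, w) := by
    intro y hy z hz hd w hw
    obtain ⟨y', hy', hz', hd', hσ⟩ := hch z ⟨y, hy, hz, hd⟩
    have h1 := g.us y' hy' z hz' hd'
    have h2 := g.us y hy z hz hd
    rw [A.uSol_iff hy' hy (ball_subset_ball (g.hρ y' hy').2 hz')
      (ball_subset_ball (g.hρ y hy).2 hz)] at h1
    rw [hσ w]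
    exact h2.2.2.2 _ h1.1 h1.2.1 h1.2.2.1 w hw
  refine ⟨σ, ?_, ?_, hloc⟩
  · refine NC.of_local ?_
    rintro ⟨z, w⟩ ⟨hz, hw⟩
    obtain ⟨y, hy, hzy, hd⟩ := hz
    have hO : IsOpen (ball y (g.ρ y) ∩ g.d y ⁻¹' {0}ᶜ) :=
      (g.nd y hy).1.isOpen_inter_preimage isOpen_ball isOpen_compl_singleton
    refine ⟨(ball y (g.ρ y) ∩ g.d y ⁻¹' {0}ᶜ) ×ˢ univ, hO.prod isOpen_univ, ⟨⟨hzy, hd⟩, mem_univ _⟩, ?_⟩
    have h1 : NC (fun x : (ℂ × ℂ) × ℂ => (g.d y x.1)⁻¹ • g.bh y x)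
        ((g.good ×ˢ AA) ∩ (ball y (g.ρ y) ∩ g.d y ⁻¹' {0}ᶜ) ×ˢ univ) := by
      refine NC.smul (NC.inv ((g.nd y hy).comp (h := fun x : (ℂ × ℂ) × ℂ => x.1)
        (NC.of_differentiableOn (by fun_prop)) (fun x hx => hx.2.1.1)) (fun x hx => hx.2.1.2)) ?_
      exact (g.nb y hy).mono (fun x hx => ⟨hx.2.1.1, hx.1.2⟩)
    exact h1.congr (fun x hx => hloc y hy x.1 hx.2.1.1 hx.2.1.2 x.2 hx.1.2)
  · intro z hz
    obtain ⟨y, hy, hzy, hd, hσ⟩ := hch z hz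
    have hzr : z ∈ ball y (A.r y) := ball_subset_ball (g.hρ y hy).2 hzy
    have hzY : z ∈ Y := A.hsub y hy hzr
    refine ⟨hzY, ?_⟩
    rw [← A.uSol_iff hy hzY hzr (mem_ball_self (A.hr z hzY))]
    have : (fun w => σ (z, w)) = fun w => (g.d y z)⁻¹ • g.bh y (z, w) := funext hσ
    rw [this]
    exact g.us y hy z hzy hd

theorem GD.d_slice (g : GD A) {y : ℂ × ℂ} (hy : y ∈ Y) {c : ℂ} (hc : c ∈ ball y.2 (g.ρ y)) :
    DifferentiableOn ℂ (fun s => g.d y (s, c)) (ball y.1 (g.ρ y)) := by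
  refine (g.nd y hy).2 (fun s => (s, c)) _ isOpen_ball (by fun_prop) (fun s hs => ?_)
  rw [← ball_prod_same]
  exact ⟨hs, hc⟩

theorem GD.d_slice' (g : GD A) {y : ℂ × ℂ} (hy : y ∈ Y) {s : ℂ} (hs : s ∈ ball y.1 (g.ρ y)) :
    DifferentiableOn ℂ (fun c => g.d y (s, c)) (ball y.2 (g.ρ y)) := by
  refine (g.nd y hy).2 (fun c => (s, c)) _ isOpen_ball (by fun_prop) (fun c hc => ?_)
  rw [← ball_prod_same]
  exact ⟨hs, hc⟩

def GD.badc (g : GD A) (y : ℂ × ℂ) : Set ℂ :=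
  {c | c ∈ ball y.2 (g.ρ y) ∧ ∀ s ∈ ball y.1 (g.ρ y), g.d y (s, c) = 0}

theorem GD.countable_badc (g : GD A) {y : ℂ × ℂ} (hy : y ∈ Y) : (g.badc y).Countable := by
  obtain ⟨⟨s, c⟩, hz, hd⟩ := g.ne y hy
  rw [← ball_prod_same] at hz
  have := zeros_countable isOpen_ball (convex_ball _ _).isPreconnected (g.d_slice' hy hz.1) hz.2 hd
  refine Set.Countable.mono ?_ this
  intro c' hc'
  exact ⟨hc'.1, hc'.2 s hz.1⟩

def GD.NB (g : GD A) (t : Set (ℂ × ℂ)) (c : ℂ) : Set ℂ :=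
  {s | ∃ y ∈ t, s ∈ ball y.1 (g.ρ y) ∧ c ∈ ball y.2 (g.ρ y) ∧ g.d y (s, c) = 0}

theorem GD.countable_NB (g : GD A) {t : Set (ℂ × ℂ)} (htY : t ⊆ Y) (ht : t.Countable) {c : ℂ}
    (hc : ∀ y ∈ t, c ∉ g.badc y) : (g.NB t c).Countable := by
  have : g.NB t c = ⋃ y ∈ t, {s | s ∈ ball y.1 (g.ρ y) ∧ c ∈ ball y.2 (g.ρ y) ∧ g.d y (s, c) = 0} := by
    ext s
    simp only [GD.NB, mem_ofPred_eq, mem_iUnion, exists_prop]
  rw [this]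
  refine ht.biUnion (fun y hy => ?_)
  by_cases hcy : c ∈ ball y.2 (g.ρ y)
  · have h1 := hc y hy
    simp only [GD.badc, mem_ofPred_eq, not_and, not_forall] at h1
    obtain ⟨s, hs, hd⟩ := h1 hcy
    have := zeros_countable isOpen_ball (convex_ball _ _).isPreconnected (g.d_slice (htY hy) hcy) hs hd
    refine Set.Countable.mono ?_ this
    intro s' hs'
    exact ⟨hs'.1, hs'.2.2⟩
  · refine Set.Countable.mono (s₂ := ∅) ?_ countable_empty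
    rintro s ⟨_, h, _⟩
    exact absurd h hcy

theorem GD.local_pole (g : GD A) {y : ℂ × ℂ} (hy : y ∈ Y) {c s1 : ℂ} (hs1 : s1 ∈ ball y.1 (g.ρ y))
    (hc : c ∈ ball y.2 (g.ρ y)) (hnb : c ∉ g.badc y) :
    ∃ U : Set ℂ, IsOpen U ∧ s1 ∈ U ∧ U ⊆ ball y.1 (g.ρ y) ∧ ∃ Q : Polynomial ℂ, Q ≠ 0 ∧
      ∃ τ : ℂ × ℂ → Fin k → ℂ, NC τ (U ×ˢ AA) ∧ ∀ s ∈ U, g.d y (s, c) ≠ 0 → ∀ w ∈ AA,
        τ (s, w) = Q.eval s • ((g.d y (s, c))⁻¹ • g.bh y ((s, c), w)) := by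
  have hf := g.d_slice hy hc
  have ha := hf.analyticOnNhd isOpen_ball
  have hnz : ¬ ∀ᶠ z in 𝓝 s1, g.d y (z, c) = 0 := by
    intro h
    simp only [GD.badc, mem_ofPred_eq, not_and, not_forall] at hnb
    obtain ⟨s, hs, hd⟩ := hnb hc
    exact hd (ha.eqOn_zero_of_preconnected_of_eventuallyEq_zero (convex_ball _ _).isPreconnected
      hs1 h hs)
  obtain ⟨n, q, hq1, hq2, hq3⟩ := ((ha s1 hs1).exists_eventuallyEq_pow_smul_nonzero_iff).2 hnz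
  have hev : ∀ᶠ z in 𝓝 s1, (g.d y (z, c) = (z - s1) ^ n • q z ∧ q z ≠ 0) ∧ DifferentiableAt ℂ q z ∧
      z ∈ ball y.1 (g.ρ y) := by
    refine (hq3.and (hq1.continuousAt.eventually_ne hq2)).and
      ((hq1.eventually_analyticAt.mono (fun z hz => hz.differentiableAt)).and
      (isOpen_ball.mem_nhds hs1))
  obtain ⟨U, hU, hUo, hsU⟩ := _root_.eventually_nhds_iff.1 hev
  refine ⟨U, hUo, hsU, fun z hz => (hU z hz).2.2, (Polynomial.X - Polynomial.C s1) ^ n,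
    pow_ne_zero _ (Polynomial.X_sub_C_ne_zero s1),
    fun x => (q x.1)⁻¹ • g.bh y ((x.1, c), x.2), ?_, ?_⟩
  · refine NC.smul (NC.inv (NC.of_differentiableOn ?_) (fun x hx => (hU x.1 hx.1).1.2)) ?_
    · intro x hx
      exact ((hU x.1 hx.1).2.1.comp x differentiableAt_fst).differentiableWithinAt
    · refine (g.nb y hy).comp (h := fun x : ℂ × ℂ => ((x.1, c), x.2))
        (NC.of_differentiableOn (by fun_prop)) (fun x hx => ⟨?_, hx.2⟩)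
      rw [← ball_prod_same]
      exact ⟨(hU x.1 hx.1).2.2, hc⟩
  · intro s hs hd w hw
    have h1 := (hU s hs).1.1
    rw [h1, smul_eq_mul] at hd
    have h2 : (s - s1) ^ n ≠ 0 := left_ne_zero_of_mul hd
    simp only [Polynomial.eval_pow, Polynomial.eval_sub, Polynomial.eval_X, Polynomial.eval_C]
    rw [h1, smul_smul, smul_eq_mul, mul_inv, ← mul_assoc, mul_inv_cancel₀ h2, one_mul]

theorem GD.pole (g : GD A) {σ : (ℂ × ℂ) × ℂ → Fin k → ℂ}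
    (hσ : ∀ y ∈ Y, ∀ z ∈ ball y (g.ρ y), g.d y z ≠ 0 → ∀ w ∈ AA,
      σ (z, w) = (g.d y z)⁻¹ • g.bh y (z, w))
    {t : Set (ℂ × ℂ)} (htY : t ⊆ Y) (ht : t.Countable) {c : ℂ} (hc : ∀ y ∈ t, c ∉ g.badc y)
    {K : Set ℂ} (hK : IsCompact K)
    (hcov : ∀ s ∈ K, ∃ y ∈ t, s ∈ ball y.1 (g.ρ y) ∧ c ∈ ball y.2 (g.ρ y)) :
    ∃ U : Set ℂ, IsOpen U ∧ K ⊆ U ∧ ∃ Q : Polynomial ℂ, Q ≠ 0 ∧
      ∃ τ : ℂ × ℂ → Fin k → ℂ, NC τ (U ×ˢ AA) ∧ ∀ s ∈ U, s ∉ g.NB t c → ∀ w ∈ AA,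
        τ (s, w) = Q.eval s • σ ((s, c), w) := by
  classical
  have hNB := g.countable_NB htY ht hc
  refine hK.induction_on (p := fun K => ∃ U : Set ℂ, IsOpen U ∧ K ⊆ U ∧ ∃ Q : Polynomial ℂ, Q ≠ 0 ∧
      ∃ τ : ℂ × ℂ → Fin k → ℂ, NC τ (U ×ˢ AA) ∧ ∀ s ∈ U, s ∉ g.NB t c → ∀ w ∈ AA,
        τ (s, w) = Q.eval s • σ ((s, c), w)) ?_ ?_ ?_ ?_
  · exact ⟨∅, isOpen_empty, Subset.rfl, 1, one_ne_zero, fun _ => 0, NC.const 0,
      fun s hs => absurd hs (notMem_empty s)⟩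
  · rintro s t' hst ⟨U, h1, h2, h3⟩
    exact ⟨U, h1, hst.trans h2, h3⟩
  · rintro K1 K2 ⟨U1, hU1, hK1, Q1, hQ1, τ1, hτ1, h1⟩ ⟨U2, hU2, hK2, Q2, hQ2, τ2, hτ2, h2⟩
    have hag : ∀ w ∈ AA, ∀ s ∈ U1 ∩ U2, Q2.eval s • τ1 (s, w) = Q1.eval s • τ2 (s, w) := by
      intro w hw
      refine eq_of_countable (hU1.inter hU2) hNB ?_ ?_ ?_
      · refine ContinuousOn.smul (Polynomial.continuous _).continuousOn ?_
        exact hτ1.1.comp (f := fun s => (s, w)) (by fun_prop) (fun s hs => ⟨hs.1, hw⟩)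
      · refine ContinuousOn.smul (Polynomial.continuous _).continuousOn ?_
        exact hτ2.1.comp (f := fun s => (s, w)) (by fun_prop) (fun s hs => ⟨hs.2, hw⟩)
      · intro s hs hsN
        rw [h1 s hs.1 hsN w hw, h2 s hs.2 hsN w hw, smul_smul, smul_smul, mul_comm]
    have hQnc : ∀ (Q : Polynomial ℂ) (S : Set (ℂ × ℂ)), NC (fun x : ℂ × ℂ => Q.eval x.1) S :=
      fun Q S => NC.of_differentiableOn
        ((Polynomial.differentiable Q).comp differentiable_fst).differentiableOn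
    refine ⟨U1 ∪ U2, hU1.union hU2, union_subset_union hK1 hK2, Q1 * Q2, mul_ne_zero hQ1 hQ2,
      fun x => if x.1 ∈ U1 then Q2.eval x.1 • τ1 x else Q1.eval x.1 • τ2 x, ?_, ?_⟩
    · rw [union_prod]
      refine NC.of_local ?_
      rintro ⟨s, w⟩ hx
      rcases hx with hx | hx
      · refine ⟨U1 ×ˢ univ, hU1.prod isOpen_univ, ⟨hx.1, mem_univ _⟩, ?_⟩
        refine (((hQnc Q2 _).smul hτ1).mono (T := (U1 ×ˢ AA ∪ U2 ×ˢ AA) ∩ U1 ×ˢ univ) ?_).congr ?_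
        · rintro x ⟨hx1, hx2⟩
          exact ⟨hx2.1, hx1.elim (fun h => h.2) (fun h => h.2)⟩
        · intro x hx
          rw [if_pos hx.2.1]
      · refine ⟨U2 ×ˢ univ, hU2.prod isOpen_univ, ⟨hx.1, mem_univ _⟩, ?_⟩
        refine (((hQnc Q1 _).smul hτ2).mono (T := (U1 ×ˢ AA ∪ U2 ×ˢ AA) ∩ U2 ×ˢ univ) ?_).congr ?_
        · rintro x ⟨hx1, hx2⟩
          exact ⟨hx2.1, hx1.elim (fun h => h.2) (fun h => h.2)⟩
        · intro x hx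
          by_cases h : x.1 ∈ U1
          · rw [if_pos h]
            exact hag x.2 (hx.1.elim (fun h => h.2) (fun h => h.2)) x.1 ⟨h, hx.2.1⟩
          · rw [if_neg h]
    · intro s hs hsN w hw
      simp only
      by_cases h : s ∈ U1
      · rw [if_pos h, h1 s h hsN w hw, Polynomial.eval_mul, smul_smul, mul_comm]
      · rw [if_neg h, h2 s (hs.resolve_left h) hsN w hw, Polynomial.eval_mul, smul_smul]
  · intro s hs
    obtain ⟨y, hy, hsy, hcy⟩ := hcov s hs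
    obtain ⟨U, hU, hsU, hUb, Q, hQ, τ, hτ, hτ2⟩ := g.local_pole (htY hy) hsy hcy (hc y hy)
    refine ⟨U, mem_nhdsWithin_of_mem_nhds (hU.mem_nhds hsU), U, hU, Subset.rfl, Q, hQ, τ, hτ, ?_⟩
    intro s' hs' hsN w hw
    have hd : g.d y (s', c) ≠ 0 := fun h => hsN ⟨y, hy, hUb hs', hcy, h⟩
    rw [hτ2 s' hs' hd w hw, hσ y (htY hy) (s', c) (by
      rw [← ball_prod_same]; exact ⟨hUb hs', hcy⟩) hd w hw]

theorem exists_c0 {δ : ℝ} (hδ : 0 < δ) {Z : Set ℂ} (hZ : Z.Countable) :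
    ∃ c ∈ ball (1 : ℂ) δ, ‖c‖ = 1 ∧ c ∉ Z := by
  set f : ℝ → ℂ := fun θ => exp (θ * I) with hf
  have hfc : Continuous f := by rw [hf]; fun_prop
  have h0 : f 0 ∈ ball (1 : ℂ) δ := by simp [hf, hδ]
  obtain ⟨η, hη, hη2⟩ := Metric.isOpen_iff.1 (isOpen_ball.preimage hfc) 0 h0
  have hinj : InjOn f (Ioo 0 1) := by
    intro x hx y hy hxy
    have hx' : arg (f x) = x := by
      rw [hf]
      simp only
      rw [Complex.exp_mul_I]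
      exact Complex.arg_cos_add_sin_mul_I ⟨by linarith [hx.1, Real.pi_pos],
        by linarith [hx.2, Real.pi_gt_three]⟩
    have hy' : arg (f y) = y := by
      rw [hf]
      simp only
      rw [Complex.exp_mul_I]
      exact Complex.arg_cos_add_sin_mul_I ⟨by linarith [hy.1, Real.pi_pos],
        by linarith [hy.2, Real.pi_gt_three]⟩
    rw [← hx', ← hy', hxy]
  have hZ' : (Ioo 0 1 ∩ f ⁻¹' Z).Countable := by
    refine Set.MapsTo.countable_of_injOn (t := Z) (f := f) (fun x hx => hx.2)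
      (hinj.mono inter_subset_left) hZ
  obtain ⟨θ, hθ, hθ2⟩ := (hZ'.dense_compl ℝ).inter_open_nonempty (Ioo 0 (min η 1)) isOpen_Ioo
    (nonempty_Ioo.2 (by positivity))
  have h1 : θ < η := hθ.2.trans_le (min_le_left _ _)
  have h2 : θ < 1 := hθ.2.trans_le (min_le_right _ _)
  refine ⟨f θ, hη2 ?_, ?_, fun h => hθ2 ⟨⟨hθ.1, h2⟩, h⟩⟩
  · rw [mem_ball, dist_zero_right, Real.norm_eq_abs, abs_of_pos hθ.1]; exact h1
  · rw [hf]; exact norm_exp_ofReal_mul_I θ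

end Pool.Agent.Work.MP_77a596_an
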