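import Pool.Agent.Work.MP_77a596_an.Levi2

set_option autoImplicit false
set_option linter.unusedVariables false
set_option linter.unusedSectionVars false

open Set Metric Filter Topology MeasureTheory Complex

namespace Pool.Agent.Work.MP_77a596_an

variable {k : ℕ}

theorem solAt_smul {G : (ℂ × ℂ) × ℂ → MM k} {y : ℂ × ℂ} {β : ℂ → Fin k → ℂ} {l : ℂ} (c : ℂ)
    (h : SolAt G y β l) : SolAt G y (fun w => c • β w) (c * l) := by
  intro n
  have h1 := h n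
  have : (∮ ζ in C(0, 7 / 4), ζ ^ n • G (y, ζ) (c • β ζ, c * l)) =
      c • ∮ ζ in C(0, 7 / 4), ζ ^ n • G (y, ζ) (β ζ, l) := by
    rw [← circleIntegral.integral_smul]
    refine circleIntegral.integral_congr (by norm_num) (fun ζ hζ => ?_)
    have h2 : ((c • β ζ, c * l) : VV k) = c • (β ζ, l) := rfl
    rw [h2, map_smul, smul_comm]
  rw [this, h1, smul_zero]

theorem solAt_congr {G : (ℂ × ℂ) × ℂ → MM k} {y : ℂ × ℂ} {β β' : ℂ → Fin k → ℂ} {l : ℂ}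
    (hb : ∀ w ∈ AA, β w = β' w) (h : SolAt G y β l) : SolAt G y β' l := by
  intro n
  rw [← h n]
  refine circleIntegral.integral_congr (by norm_num) (fun ζ hζ => ?_)
  rw [hb ζ (sphere_AA hζ)]

theorem ring_subset_thickening {ρ η : ℝ} (hρ : 0 < ρ) (hη : η ≤ ρ) :
    ann (ρ - η) (ρ + η) ⊆ thickening η (sphere (0 : ℂ) ρ) := by
  intro s hs
  obtain ⟨h1, h2⟩ := hs
  have hs0 : 0 < ‖s‖ := by linarith
  rw [mem_thickening_iff]
  refine ⟨((ρ / ‖s‖ : ℝ) : ℂ) * s, ?_, ?_⟩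
  · rw [mem_sphere_zero_iff_norm, norm_mul, Complex.norm_real, Real.norm_eq_abs,
      abs_of_pos (by positivity)]
    field_simp
  · rw [dist_eq_norm]
    have : s - ((ρ / ‖s‖ : ℝ) : ℂ) * s = ((1 - ρ / ‖s‖ : ℝ) : ℂ) * s := by push_cast; ring
    rw [this, norm_mul, Complex.norm_real, Real.norm_eq_abs]
    have h3 : |1 - ρ / ‖s‖| * ‖s‖ = |‖s‖ - ρ| := by
      have h5 : (1 - ρ / ‖s‖) * ‖s‖ = ‖s‖ - ρ := by field_simp
      rw [← h5, abs_mul, abs_of_pos hs0]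
    rw [h3, abs_lt]
    constructor <;> linarith

theorem scale_mem {c0 : ℂ} {r t : ℝ} (hc0 : ‖c0‖ = 1) (ht : |t| < r) :
    ((1 + t : ℝ) : ℂ) * c0 ∈ ball c0 r := by
  rw [mem_ball, dist_eq_norm]
  have : ((1 + t : ℝ) : ℂ) * c0 - c0 = (t : ℂ) * c0 := by push_cast; ring
  rw [this, norm_mul, hc0, mul_one, Complex.norm_real, Real.norm_eq_abs]
  exact ht

theorem levi {ε ε1 δ : ℝ} (hε1 : 0 < ε1) (hε : ε1 < ε) (hδ : 0 < δ) {D : Set ℂ}
    (hDdef : D = ball (1 : ℂ) δ) (hD : ∀ c ∈ D, 1 < ε1 ^ 2 + ‖c‖ ^ 2)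
    (A : AD k (Yset ε D)) (g : GD A) :
    ∃ q : ℂ × ℂ, ‖q.1‖ < ε ∧ q.2 ∈ D ∧ ‖q.1‖ ^ 2 + ‖q.2‖ ^ 2 = 1 ∧ ∃ r > 0,
      (∀ y ∈ ball q r, ‖y.1‖ < ε ∧ y.2 ∈ D) ∧
      ∃ bt : (ℂ × ℂ) × ℂ → Fin k → ℂ, ContinuousOn bt (ball q r ×ˢ AA) ∧
        (∀ y ∈ ball q r, DifferentiableOn ℂ (fun w => bt (y, w)) AA) ∧
        ∀ y ∈ ball q r, 1 < ‖y.1‖ ^ 2 + ‖y.2‖ ^ 2 → SolAt (A.G y) y (fun w => bt (y, w)) 1 := by
  classical
  have hDo : IsOpen D := by rw [hDdef]; exact isOpen_ball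
  obtain ⟨σ, hσnc, hσgood, hσloc⟩ := g.sigma
  obtain ⟨t, htY, htc, ht⟩ := TopologicalSpace.countable_cover_nhdsWithin (s := Yset ε D)
    (f := fun y => ball y (g.ρ y))
    (fun y hy => mem_nhdsWithin_of_mem_nhds (ball_mem_nhds y (g.hρ y hy).1))
  have hcover : ∀ y ∈ Yset ε D, ∃ y' ∈ t, y.1 ∈ ball y'.1 (g.ρ y') ∧ y.2 ∈ ball y'.2 (g.ρ y') := by
    intro y hy
    have h1 := ht hy
    simp only [mem_iUnion, exists_prop] at h1
    obtain ⟨y', hy', h2⟩ := h1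
    rw [← ball_prod_same] at h2
    exact ⟨y', hy', h2.1, h2.2⟩
  set Bad : Set ℂ := ⋃ y ∈ t, g.badc y with hBad
  have hBadc : Bad.Countable := htc.biUnion (fun y hy => g.countable_badc (htY hy))
  have hnotBad : ∀ c, c ∉ Bad → ∀ y ∈ t, c ∉ g.badc y := by
    intro c hc y hy h
    exact hc (mem_biUnion hy h)
  obtain ⟨c0, hc0D, hc0n, hc0B⟩ := exists_c0 hδ hBadc
  rw [← hDdef] at hc0D
  have hNB0 := g.countable_NB htY htc (hnotBad c0 hc0B)
  obtain ⟨ρ, ⟨hρ1, hρ2⟩, hρ3⟩ := ((hNB0.image (fun s : ℂ => ‖s‖)).dense_compl ℝ).inter_open_nonempty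
    (Ioo ε1 ε) isOpen_Ioo (nonempty_Ioo.2 hε)
  have hρ0 : 0 < ρ := hε1.trans hρ1
  have hcircle : sphere (0 : ℂ) ρ ×ˢ ({c0} : Set ℂ) ⊆ g.good := by
    rintro ⟨s, c⟩ ⟨hs, hc⟩
    simp only [mem_singleton_iff] at hc
    subst hc
    simp only [mem_sphere_zero_iff_norm] at hs
    have hsY : (s, c) ∈ Yset ε D := ⟨by rw [hs]; exact hρ2, hc0D, by
      simp only; rw [hs, hc0n]; nlinarith⟩
    obtain ⟨y', hy', h1, h2⟩ := hcover _ hsY
    refine ⟨y', htY hy', by rw [← ball_prod_same]; exact ⟨h1, h2⟩, fun h => hρ3 ?_⟩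
    exact ⟨s, ⟨y', hy', h1, h2, h⟩, hs⟩
  obtain ⟨O1, O2, hO1, hO2, hsO1, hcO2, hO12⟩ := generalized_tube_lemma (isCompact_sphere (0 : ℂ) ρ)
    isCompact_singleton g.isOpen_good hcircle
  obtain ⟨η', hη', hη'2⟩ := (isCompact_sphere (0 : ℂ) ρ).exists_thickening_subset_open hO1 hsO1
  set η := min η' (min (ρ - ε1) (ε - ρ)) with hη
  have hη0 : 0 < η := by
    have h1 : 0 < ρ - ε1 := by linarith
    have h2 : 0 < ε - ρ := by linarith
    positivity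
  have hηη' : η ≤ η' := min_le_left _ _
  have hηε1 : η ≤ ρ - ε1 := (min_le_right _ _).trans (min_le_left _ _)
  have hηε : η ≤ ε - ρ := (min_le_right _ _).trans (min_le_right _ _)
  have hring : ann (ρ - η) (ρ + η) ⊆ O1 :=
    (ring_subset_thickening hρ0 (by linarith)).trans ((thickening_mono hηη' _).trans hη'2)
  obtain ⟨δ0, hδ0, hδ0'⟩ := Metric.isOpen_iff.1 (hO2.inter hDo) c0
    ⟨hcO2 rfl, hc0D⟩
  set D0 : Set ℂ := ball c0 δ0 with hD0
  have hD0D : D0 ⊆ D := fun c hc => (hδ0' hc).2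
  have hD0o : IsOpen D0 := isOpen_ball
  have hD0pre : IsPreconnected D0 := (convex_ball _ _).isPreconnected
  have hc0D0 : c0 ∈ D0 := mem_ball_self hδ0
  have hgood : ∀ s ∈ ann (ρ - η) (ρ + η), ∀ c ∈ D0, (s, c) ∈ g.good := fun s hs c hc =>
    hO12 ⟨hring hs, (hδ0' hc).1⟩
  have hsph : sphere (0 : ℂ) ρ ⊆ ann (ρ - η) (ρ + η) := sphere_subset_ann (by linarith) (by linarith)
  have hρη0 : 0 ≤ ρ - η := by linarith
  -- moments in s
  let a : ℕ → ℂ → ℂ → Fin k → ℂ := fun j w c => ∮ s in C(0, ρ), s ^ j • σ ((s, c), w)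
  have hσs : ∀ c ∈ D0, ∀ w ∈ AA, DifferentiableOn ℂ (fun s => σ ((s, c), w)) (ann (ρ - η) (ρ + η)) :=
    fun c hc w hw => hσnc.2 (fun s => ((s, c), w)) _ (isOpen_ann _ _) (by fun_prop)
      (fun s hs => ⟨hgood s hs c hc, hw⟩)
  have had : ∀ j, ∀ w ∈ AA, DifferentiableOn ℂ (a j w) D0 := by
    intro j w hw
    refine NC.differentiableOn_line hD0o (NC.circleIntegral hρ0.le ?_ ?_)
    · have e1 : ContinuousOn (fun p : ℂ × ℂ => p.2 ^ j) (D0 ×ˢ sphere (0 : ℂ) ρ) := by fun_prop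
      have e2 : ContinuousOn (fun p : ℂ × ℂ => σ ((p.2, p.1), w)) (D0 ×ˢ sphere (0 : ℂ) ρ) :=
        hσnc.1.comp (f := fun p : ℂ × ℂ => ((p.2, p.1), w)) (by fun_prop)
          (fun p hp => ⟨hgood p.2 (hsph hp.2) p.1 hp.1, hw⟩)
      exact e1.smul e2
    · intro s hs
      refine NC.const_smul _ ?_
      exact hσnc.comp (h := fun c : ℂ => ((s, c), w)) (NC.of_differentiableOn (by fun_prop))
        (fun c hc => ⟨hgood s (hsph hs) c hc, hw⟩)
  have hdep : ∀ c ∈ D0, 1 < ‖c‖ → c ∉ Bad → ∃ Q : Polynomial ℂ, Q ≠ 0 ∧ ∀ n, Q.natDegree < n →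
      ∀ j, ∀ w ∈ AA, ∑ i ∈ Finset.range n, Q.coeff i • a (i + j) w c = 0 := by
    intro c hc hc1 hcB
    have hcov : ∀ s ∈ closedBall (0 : ℂ) ρ, ∃ y ∈ t, s ∈ ball y.1 (g.ρ y) ∧ c ∈ ball y.2 (g.ρ y) := by
      intro s hs
      rw [mem_closedBall_zero_iff] at hs
      exact hcover (s, c) ⟨hs.trans_lt hρ2, hD0D hc, by simp only; nlinarith [norm_nonneg s]⟩
    obtain ⟨U, hUo, hKU, Q, hQ, τ, hτ, hτ2⟩ := g.pole hσloc htY htc (hnotBad c hcB)
      (isCompact_closedBall (0 : ℂ) ρ) hcov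
    refine ⟨Q, hQ, fun n hn j w hw => ?_⟩
    have hτd : DifferentiableOn ℂ (fun s => τ (s, w)) U :=
      hτ.2 (fun s => (s, w)) U hUo (by fun_prop) (fun s hs => ⟨hs, hw⟩)
    have h1 : (∮ s in C(0, ρ), s ^ j • τ (s, w)) = 0 := by
      have hd : DifferentiableOn ℂ (fun s : ℂ => s ^ j • τ (s, w)) U :=
        (by fun_prop : Differentiable ℂ fun s : ℂ => s ^ j).differentiableOn.smul hτd
      refine Complex.circleIntegral_eq_zero_of_differentiable_on_off_countable hρ0.le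
        countable_empty (hd.continuousOn.mono hKU) ?_
      rintro s ⟨hs, -⟩
      exact hd.differentiableAt (hUo.mem_nhds (hKU (ball_subset_closedBall hs)))
    have h2 : ∀ s ∈ U ∩ ann (ρ - η) (ρ + η), τ (s, w) = Q.eval s • σ ((s, c), w) := by
      refine eq_of_countable (hUo.inter (isOpen_ann _ _)) (g.countable_NB htY htc (hnotBad c hcB))
        (hτd.continuousOn.mono inter_subset_left) ?_ (fun s hs hsN => hτ2 s hs.1 hsN w hw)
      exact ContinuousOn.smul (Polynomial.continuous _).continuousOn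
        ((hσs c hc w hw).continuousOn.mono inter_subset_right)
    have h3 : (∮ s in C(0, ρ), ∑ i ∈ Finset.range n, Q.coeff i • (s ^ (i + j) • σ ((s, c), w))) = 0 := by
      rw [← h1]
      refine circleIntegral.integral_congr hρ0.le (fun s hs => ?_)
      rw [h2 s ⟨hKU (sphere_subset_closedBall hs), hsph hs⟩, Polynomial.eval_eq_sum_range' hn,
        smul_smul, Finset.mul_sum, Finset.sum_smul]
      refine Finset.sum_congr rfl (fun i _ => ?_)
      rw [smul_smul]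
      congr 1
      ring
    rw [← h3, circleIntegral.integral_fun_sum]
    · refine Finset.sum_congr rfl (fun i _ => ?_)
      rw [circleIntegral.integral_smul]
    · intro i _
      refine ContinuousOn.circleIntegrable hρ0.le ?_
      have e1 : ContinuousOn (fun s : ℂ => s ^ (i + j)) (sphere (0 : ℂ) ρ) := by fun_prop
      exact (e1.smul ((hσs c hc w hw).continuousOn.mono hsph)).const_smul (Q.coeff i)
  -- uncountably many c with bounded degree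
  obtain ⟨p, hp⟩ : ∃ p : ℕ, ¬ {c | c ∈ D0 ∧ ∃ Q : Polynomial ℂ, Q ≠ 0 ∧ Q.natDegree < p ∧
      ∀ j, ∀ w ∈ AA, ∑ i ∈ Finset.range p, Q.coeff i • a (i + j) w c = 0}.Countable := by
    by_contra hcon
    push Not at hcon
    have hun := (countable_iUnion hcon).union hBadc
    have hVo : IsOpen (D0 ∩ {c : ℂ | 1 < ‖c‖}) :=
      hD0o.inter (isOpen_lt continuous_const continuous_norm)
    obtain ⟨c, ⟨hc1, hc2⟩, hc3⟩ := exists_not_mem hun hVo ⟨((1 + δ0 / 2 : ℝ) : ℂ) * c0, by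
      refine ⟨scale_mem hc0n (by rw [abs_of_pos (by positivity)]; linarith), ?_⟩
      show 1 < ‖((1 + δ0 / 2 : ℝ) : ℂ) * c0‖
      rw [norm_mul, hc0n, mul_one, Complex.norm_real, Real.norm_eq_abs, abs_of_pos (by positivity)]
      linarith⟩
    rw [mem_union, not_or] at hc3
    obtain ⟨Q, hQ, hQ2⟩ := hdep c hc1 hc2 hc3.2
    apply hc3.1
    rw [mem_iUnion]
    exact ⟨Q.natDegree + 1, hc1, Q, hQ, Nat.lt_succ_self _, fun j w hw =>
      hQ2 _ (Nat.lt_succ_self _) j w hw⟩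
  obtain ⟨q, hq1, ⟨i0, c1, hc1D0, hq2⟩, hq3⟩ := hol_dependence hD0o hD0pre ⟨c0, hc0D0⟩ p
    (J := ℕ × AA × Fin k) (fun i j c => a ((i : ℕ) + j.1) j.2.1 c j.2.2)
    (fun i j => (differentiableOn_pi.1 (had ((i : ℕ) + j.1) j.2.1 j.2.1.2)) j.2.2)
    (X := {c | c ∈ D0 ∧ ∃ Q : Polynomial ℂ, Q ≠ 0 ∧ Q.natDegree < p ∧
      ∀ j, ∀ w ∈ AA, ∑ i ∈ Finset.range p, Q.coeff i • a (i + j) w c = 0})
    (fun c hc => hc.1) hp (by
      rintro c ⟨hc, Q, hQ, hQp, hQ2⟩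
      refine ⟨fun i => Q.coeff i, ?_, ?_⟩
      · intro h
        apply hQ
        have h1 := congrFun h ⟨Q.natDegree, hQp⟩
        simp only [Polynomial.coeff_natDegree, Pi.zero_apply, Polynomial.leadingCoeff_eq_zero] at h1
        exact h1
      · rintro ⟨j, w, l⟩
        have h1 := congrFun (hQ2 j w w.2) l
        rw [Finset.sum_apply, Pi.zero_apply, Finset.sum_range] at h1
        exact h1)
  -- the multiplier
  set lam : ℂ × ℂ → ℂ := fun y => ∑ i : Fin p, q i y.2 * y.1 ^ (i : ℕ) with hlam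
  have hlamnc : NC lam (univ ×ˢ D0) := by
    refine NC.sum _ (fun i _ => ?_)
    refine NC.mul ((NC.of_differentiableOn (hq1 i)).comp (h := fun y : ℂ × ℂ => y.2)
      (NC.of_differentiableOn (by fun_prop)) (fun y hy => hy.2)) (NC.of_differentiableOn (by fun_prop))
  have hlams : ∀ c, Differentiable ℂ (fun s => lam (s, c)) := by
    intro c
    show Differentiable ℂ (fun s : ℂ => ∑ i : Fin p, q i c * s ^ (i : ℕ))
    fun_prop
  have hmom : ∀ c ∈ D0, ∀ w ∈ AA, ∀ n : ℕ,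
      (∮ s in C(0, ρ), s ^ n • (lam (s, c) • σ ((s, c), w))) = 0 := by
    intro c hc w hw n
    have h3 : (∮ s in C(0, ρ), ∑ i : Fin p, q i c • (s ^ ((i : ℕ) + n) • σ ((s, c), w))) = 0 := by
      rw [circleIntegral.integral_fun_sum]
      · funext l
        rw [Finset.sum_apply, Pi.zero_apply]
        refine Eq.trans ?_ (hq3 (n, ⟨w, hw⟩, l) c hc)
        refine Finset.sum_congr rfl (fun i _ => ?_)
        rw [circleIntegral.integral_smul]
        rfl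
      · intro i _
        refine ContinuousOn.circleIntegrable hρ0.le ?_
        have e1 : ContinuousOn (fun s : ℂ => s ^ ((i : ℕ) + n)) (sphere (0 : ℂ) ρ) := by fun_prop
        exact (e1.smul ((hσs c hc w hw).continuousOn.mono hsph)).const_smul (q i c)
    rw [← h3]
    refine circleIntegral.integral_congr hρ0.le (fun s hs => ?_)
    simp only [hlam]
    rw [smul_smul, Finset.mul_sum, Finset.sum_smul]
    refine Finset.sum_congr rfl (fun i _ => ?_)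
    rw [smul_smul]
    congr 1
    ring
  set Sg : (ℂ × ℂ) × ℂ → Fin k → ℂ := fun x => (2 * Real.pi * I : ℂ)⁻¹ •
    ∮ s' in C(0, ρ), (s' - x.1.1)⁻¹ • (lam (s', x.1.2) • σ ((s', x.1.2), x.2)) with hSg
  have hSgnc : NC Sg ((ball (0 : ℂ) ρ ×ˢ D0) ×ˢ AA) := by
    have hne : ∀ s ∈ ball (0 : ℂ) ρ, ∀ s' ∈ sphere (0 : ℂ) ρ, s' - s ≠ 0 := by
      intro s hs s' hs' h
      rw [sub_eq_zero] at h
      rw [mem_sphere_zero_iff_norm, h] at hs'
      rw [mem_ball_zero_iff, hs'] at hs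
      exact lt_irrefl _ hs
    refine NC.const_smul _ (NC.circleIntegral hρ0.le ?_ ?_)
    · have e1 : ContinuousOn (fun p : ((ℂ × ℂ) × ℂ) × ℂ => (p.2 - p.1.1.1)⁻¹)
          (((ball (0 : ℂ) ρ ×ˢ D0) ×ˢ AA) ×ˢ sphere (0 : ℂ) ρ) := by
        refine ContinuousOn.inv₀ (by fun_prop) ?_
        rintro ⟨⟨⟨s, c⟩, w⟩, s'⟩ ⟨⟨⟨hs, hc⟩, hw⟩, hs'⟩
        exact hne s hs s' hs'
      have e2 : ContinuousOn (fun p : ((ℂ × ℂ) × ℂ) × ℂ => lam (p.2, p.1.1.2))
          (((ball (0 : ℂ) ρ ×ˢ D0) ×ˢ AA) ×ˢ sphere (0 : ℂ) ρ) :=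
        hlamnc.1.comp (f := fun p : ((ℂ × ℂ) × ℂ) × ℂ => (p.2, p.1.1.2)) (by fun_prop)
          (fun p hp => ⟨mem_univ _, hp.1.1.2⟩)
      have e3 : ContinuousOn (fun p : ((ℂ × ℂ) × ℂ) × ℂ => σ ((p.2, p.1.1.2), p.1.2))
          (((ball (0 : ℂ) ρ ×ˢ D0) ×ˢ AA) ×ˢ sphere (0 : ℂ) ρ) :=
        hσnc.1.comp (f := fun p : ((ℂ × ℂ) × ℂ) × ℂ => ((p.2, p.1.1.2), p.1.2)) (by fun_prop)
          (fun p hp => ⟨hgood p.2 (hsph hp.2) p.1.1.2 hp.1.1.2, hp.1.2⟩)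
      exact e1.smul (e2.smul e3)
    · intro s' hs'
      refine NC.smul (NC.inv (NC.of_differentiableOn (by fun_prop)) ?_) (NC.smul ?_ ?_)
      · rintro ⟨⟨s, c⟩, w⟩ ⟨⟨hs, hc⟩, hw⟩
        exact hne s hs s' hs'
      · exact hlamnc.comp (h := fun x : (ℂ × ℂ) × ℂ => (s', x.1.2))
          (NC.of_differentiableOn (by fun_prop)) (fun x hx => ⟨mem_univ _, hx.1.2⟩)
      · exact hσnc.comp (h := fun x : (ℂ × ℂ) × ℂ => ((s', x.1.2), x.2))
          (NC.of_differentiableOn (by fun_prop)) (fun x hx => ⟨hgood s' (hsph hs') x.1.2 hx.1.2, hx.2⟩)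
  have hSgeq : ∀ s, ρ - η < ‖s‖ → ‖s‖ < ρ → ∀ c ∈ D0, ∀ w ∈ AA,
      Sg ((s, c), w) = lam (s, c) • σ ((s, c), w) := by
    intro s hs1 hs2 c hc w hw
    exact cauchy_eq_of_moments (a := ρ - η) (b := ρ + η) (R := ρ) hρη0 (by linarith) (by linarith)
      (f := fun s => lam (s, c) • σ ((s, c), w))
      ((hlams c).differentiableOn.smul (hσs c hc w hw)) (hmom c hc w hw) hs1 hs2
  -- solutions everywhere
  set Y0 := Yset ρ D0 with hY0
  have hY0Y : Y0 ⊆ Yset ε D := fun y hy => ⟨hy.1.trans hρ2, hD0D hy.2.1, hy.2.2⟩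
  have hY0o : IsOpen Y0 := isOpen_Yset hD0o
  have hY0pre : IsPreconnected Y0 := isPreconnected_Yset hε1.le hρ1 hD0pre
    (fun c hc => hD c (hD0D hc))
  have hY0b : ∀ y ∈ Y0, y ∈ ball (0 : ℂ) ρ ×ˢ D0 := fun y hy =>
    ⟨by rw [mem_ball_zero_iff]; exact hy.1, hy.2.1⟩
  have hrad : ∀ y : ℂ × ℂ, ∃ r : ℝ, y ∈ Y0 → 0 < r ∧ r ≤ A.r y ∧ ball y r ⊆ Y0 := by
    intro y
    by_cases hy : y ∈ Y0
    · obtain ⟨r, hr, hr2⟩ := Metric.isOpen_iff.1 hY0o y hy
      refine ⟨min r (A.r y), fun _ => ⟨?_, min_le_right _ _,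
        (ball_subset_ball (min_le_left _ _)).trans hr2⟩⟩
      have := A.hr y (hY0Y hy)
      positivity
    · exact ⟨0, fun h => absurd h hy⟩
  choose r' hr' using hrad
  have hSgd : ∀ y ∈ Y0, DifferentiableOn ℂ (fun w => Sg (y, w)) AA := fun y hy =>
    hSgnc.2 (fun w => (y, w)) _ (isOpen_ann _ _) (by fun_prop) (fun w hw => ⟨hY0b y hy, hw⟩)
  have hid : ∀ y2 ∈ Y0, ∀ O : Set (ℂ × ℂ), IsOpen O → O.Nonempty → O ⊆ ball y2 (r' y2) →
      (∀ y ∈ O, SolAt (A.G y) y (fun w => Sg (y, w)) (lam y)) →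
      ∀ y ∈ ball y2 (r' y2), SolAt (A.G y) y (fun w => Sg (y, w)) (lam y) := by
    intro y2 hy2 O hO hOne hOb hsol y hy
    obtain ⟨h1, h2, h3⟩ := hr' y2 hy2
    have hy2Y := hY0Y hy2
    have htr : ∀ z ∈ ball y2 (r' y2), (SolAt (A.G y2) z (fun w => Sg (z, w)) (lam z) ↔
        SolAt (A.G z) z (fun w => Sg (z, w)) (lam z)) := by
      intro z hz
      have hzY0 := h3 hz
      exact A.solAt_iff hy2Y (hY0Y hzY0) (ball_subset_ball h2 hz)
        (mem_ball_self (A.hr z (hY0Y hzY0))) (hSgd z hzY0)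
    rw [← htr y hy]
    intro n
    have hnc : NC (fun z : ℂ × ℂ => ∮ ζ in C(0, 7 / 4), ζ ^ n • A.G y2 (z, ζ) (Sg (z, ζ), lam z))
        (ball y2 (r' y2)) := by
      have hann : ∀ {ζ : ℂ}, ζ ∈ sphere (0 : ℂ) (7 / 4) → ζ ∈ ann (3 / 2) 2 := fun hζ =>
        ann_mono (by norm_num) (by norm_num) (sphere_AA hζ)
      refine NC.circleIntegral (by norm_num) ?_ ?_
      · have e0 : ContinuousOn (fun x : (ℂ × ℂ) × ℂ => x.2 ^ n)
            (ball y2 (r' y2) ×ˢ sphere (0 : ℂ) (7 / 4)) := by fun_prop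
        have e1 : ContinuousOn (A.G y2) (ball y2 (r' y2) ×ˢ sphere (0 : ℂ) (7 / 4)) :=
          (A.nc y2 hy2Y).1.mono (fun x hx => ⟨ball_subset_ball h2 hx.1, hann hx.2⟩)
        have e2 : ContinuousOn Sg (ball y2 (r' y2) ×ˢ sphere (0 : ℂ) (7 / 4)) :=
          hSgnc.1.mono (fun x hx => ⟨hY0b _ (h3 hx.1), sphere_AA hx.2⟩)
        have e3 : ContinuousOn (fun x : (ℂ × ℂ) × ℂ => lam x.1)
            (ball y2 (r' y2) ×ˢ sphere (0 : ℂ) (7 / 4)) :=
          hlamnc.1.comp (f := fun x : (ℂ × ℂ) × ℂ => x.1) (by fun_prop)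
            (fun x hx => ⟨mem_univ _, (h3 hx.1).2.1⟩)
        exact e0.smul (e1.clm_apply (e2.prodMk e3))
      · intro ζ hζ
        refine NC.const_smul _ (NC.clm_apply ?_ (NC.prodMk ?_ ?_))
        · exact (A.nc y2 hy2Y).comp (h := fun z : ℂ × ℂ => (z, ζ)) (NC.of_differentiableOn (by fun_prop))
            (fun z hz => ⟨ball_subset_ball h2 hz, hann hζ⟩)
        · exact hSgnc.comp (h := fun z : ℂ × ℂ => (z, ζ)) (NC.of_differentiableOn (by fun_prop))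
            (fun z hz => ⟨hY0b _ (h3 hz), sphere_AA hζ⟩)
        · exact hlamnc.mono (fun z hz => ⟨mem_univ _, (h3 hz).2.1⟩)
    exact NC.identity isOpen_ball (convex_ball _ _) hnc hO hOne hOb
      (fun z hz => (htr z (hOb hz)).2 (hsol z hz) n) y hy
  have hnear : ∀ y ∈ Y0, ρ - η < ‖y.1‖ → SolAt (A.G y) y (fun w => Sg (y, w)) (lam y) := by
    rintro ⟨s, c⟩ hy hs
    have hs2 : ‖s‖ < ρ := hy.1
    have hyg : (s, c) ∈ g.good := hgood s ⟨hs, by linarith⟩ c hy.2.1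
    obtain ⟨hyY, hus⟩ := hσgood _ hyg
    have h1 := solAt_smul (lam (s, c)) hus.2.2.1
    rw [mul_one] at h1
    exact solAt_congr (fun w hw => (hSgeq s hs hs2 c hy.2.1 w hw).symm) h1
  have hall : ∀ y ∈ Y0, SolAt (A.G y) y (fun w => Sg (y, w)) (lam y) := by
    set S : Set (ℂ × ℂ) := {y1 | y1 ∈ Y0 ∧ ∀ y ∈ ball y1 (r' y1),
      SolAt (A.G y) y (fun w => Sg (y, w)) (lam y)} with hS
    have hsub : Y0 ⊆ S := by
      refine propagate hY0pre (ρ := r') (fun y hy => (hr' y hy).1) (fun y hy => hy.1) ?_ ?_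
      · obtain ⟨x, hx1, hx2⟩ := exists_between (show ρ - η < ρ by linarith)
        have hx0 : 0 ≤ x := by linarith
        have hnx : ‖(x : ℂ)‖ = x := by rw [Complex.norm_real, Real.norm_eq_abs, abs_of_nonneg hx0]
        have hy1 : ((x : ℂ), c0) ∈ Y0 := ⟨by simp only; rw [hnx]; exact hx2, hc0D0, by
          simp only; rw [hnx, hc0n]; nlinarith⟩
        refine ⟨((x : ℂ), c0), hy1, ?_⟩
        have hOo : IsOpen (ball ((x : ℂ), c0) (r' ((x : ℂ), c0)) ∩ {y : ℂ × ℂ | ρ - η < ‖y.1‖}) :=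
          isOpen_ball.inter (isOpen_lt (by fun_prop) (by fun_prop))
        refine hid _ hy1 _ hOo ⟨((x : ℂ), c0), mem_ball_self (hr' _ hy1).1, ?_⟩ inter_subset_left ?_
        · show ρ - η < ‖(x : ℂ)‖
          rw [hnx]; exact hx1
        · rintro y ⟨h1, h2⟩
          exact hnear y ((hr' _ hy1).2.2 h1) h2
      · intro y1 hy1 y2 hy2 hne
        exact ⟨hy2, hid y2 hy2 _ (isOpen_ball.inter isOpen_ball) hne inter_subset_right
          (fun y hy => hy1.2 y hy.1)⟩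
    intro y hy
    exact (hsub hy).2 y (mem_ball_self (hr' y hy).1)
  -- choice of the boundary point
  obtain ⟨c2, ⟨hc2D, hc2n⟩, hc2q⟩ := exists_not_mem (zeros_countable hD0o hD0pre (hq1 i0) hc1D0 hq2)
    (hD0o.inter (isOpen_lt continuous_norm continuous_const : IsOpen {c : ℂ | ‖c‖ < 1}))
    ⟨((1 + (-(min δ0 1 / 2)) : ℝ) : ℂ) * c0, by
      have hm1 : 0 < min δ0 1 := by positivity
      have hm2 : min δ0 1 ≤ δ0 := min_le_left _ _
      have hm3 : min δ0 1 ≤ 1 := min_le_right _ _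
      refine ⟨scale_mem hc0n (by rw [abs_neg, abs_of_pos (by positivity)]; linarith), ?_⟩
      show ‖((1 + (-(min δ0 1 / 2)) : ℝ) : ℂ) * c0‖ < 1
      rw [norm_mul, hc0n, mul_one, Complex.norm_real, Real.norm_eq_abs, abs_of_pos (by linarith)]
      linarith⟩
  have hc2n' : ‖c2‖ < 1 := hc2n
  have hq0 : q i0 c2 ≠ 0 := fun h => hc2q ⟨hc2D, h⟩
  set r0 : ℝ := Real.sqrt (1 - ‖c2‖ ^ 2) with hr0
  have h1c2 : 0 < 1 - ‖c2‖ ^ 2 := by nlinarith [norm_nonneg c2]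
  have hr0pos : 0 < r0 := Real.sqrt_pos.2 h1c2
  have hr0sq : r0 ^ 2 = 1 - ‖c2‖ ^ 2 := Real.sq_sqrt h1c2.le
  obtain ⟨s3, hs3⟩ : ∃ s, lam (s, c2) ≠ 0 := by
    by_contra hcon
    push Not at hcon
    set pp : Polynomial ℂ := ∑ i : Fin p, Polynomial.monomial (i : ℕ) (q i c2) with hpp
    have hpp0 : pp = 0 := by
      apply Polynomial.funext
      intro s
      rw [hpp, Polynomial.eval_finsetSum, Polynomial.eval_zero, ← hcon s]
      simp only [Polynomial.eval_monomial, hlam]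
    have h2 : pp.coeff (i0 : ℕ) = q i0 c2 := by
      rw [hpp, Polynomial.finsetSum_coeff]
      simp only [Polynomial.coeff_monomial]
      rw [Finset.sum_eq_single i0]
      · simp
      · intro b _ hb
        rw [if_neg]
        intro h
        exact hb (Fin.ext h)
      · simp
    rw [hpp0] at h2
    exact hq0 (by simpa using h2.symm)
  have hZ := zeros_countable isOpen_univ isPreconnected_univ ((hlams c2).differentiableOn) (mem_univ s3) hs3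
  obtain ⟨u, -, hu1, hu2⟩ := exists_c0 (δ := 1) one_pos
    (Z := (fun u : ℂ => (r0 : ℂ) * u) ⁻¹' {z | z ∈ univ ∧ lam (z, c2) = 0})
    (hZ.preimage_of_injOn (fun x _ y _ h => by
      have : (r0 : ℂ) ≠ 0 := by exact_mod_cast hr0pos.ne'
      exact mul_left_cancel₀ this h))
  set s2 : ℂ := (r0 : ℂ) * u with hs2
  have hs2n : ‖s2‖ = r0 := by
    rw [hs2, norm_mul, hu1, mul_one, Complex.norm_real, Real.norm_eq_abs, abs_of_pos hr0pos]
  have hlam2 : lam (s2, c2) ≠ 0 := fun h => hu2 ⟨mem_univ _, h⟩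
  have hr0ρ : r0 < ρ := by
    have h2 := hD c2 (hD0D hc2D)
    have : r0 ^ 2 < ε1 ^ 2 := by rw [hr0sq]; linarith
    have := abs_lt_of_sq_lt_sq this hε1.le
    rw [abs_of_pos hr0pos] at this
    linarith
  have hOo : IsOpen ((ball (0 : ℂ) ρ ×ˢ D0) ∩ lam ⁻¹' {0}ᶜ) :=
    (hlamnc.1.mono (prod_mono (subset_univ _) le_rfl)).isOpen_inter_preimage
      (isOpen_ball.prod hD0o) isOpen_compl_singleton
  obtain ⟨r, hr, hr2⟩ := Metric.isOpen_iff.1 hOo (s2, c2) ⟨⟨by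
    simp only [mem_ball_zero_iff]; rw [hs2n]; exact hr0ρ, hc2D⟩, hlam2⟩
  refine ⟨(s2, c2), by simp only; rw [hs2n]; linarith, hD0D hc2D, by
    simp only; rw [hs2n, hr0sq]; ring, r, hr, ?_, fun x => (lam x.1)⁻¹ • Sg x, ?_, ?_, ?_⟩
  · intro y hy
    have h1 := (hr2 hy).1
    exact ⟨by have := h1.1; rw [mem_ball_zero_iff] at this; linarith, hD0D h1.2⟩
  · have e1 : ContinuousOn (fun x : (ℂ × ℂ) × ℂ => lam x.1) (ball (s2, c2) r ×ˢ AA) :=
      hlamnc.1.comp (f := fun x : (ℂ × ℂ) × ℂ => x.1) (by fun_prop)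
        (fun x hx => ⟨mem_univ _, (hr2 hx.1).1.2⟩)
    have e2 : ContinuousOn Sg (ball (s2, c2) r ×ˢ AA) :=
      hSgnc.1.mono (fun x hx => ⟨(hr2 hx.1).1, hx.2⟩)
    exact (e1.inv₀ (fun x hx => (hr2 hx.1).2)).smul e2
  · intro y hy
    show DifferentiableOn ℂ (fun w => (lam y)⁻¹ • Sg (y, w)) AA
    refine DifferentiableOn.fun_const_smul ?_ _
    exact hSgnc.2 (fun w => (y, w)) _ (isOpen_ann _ _) (by fun_prop) (fun w hw => ⟨(hr2 hy).1, hw⟩)
  · intro y hy hy1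
    have h1 := (hr2 hy).1
    have h2 : lam y ≠ 0 := (hr2 hy).2
    have hyY0 : y ∈ Y0 := ⟨by have := h1.1; rwa [mem_ball_zero_iff] at this, h1.2, hy1⟩
    have h3 := solAt_smul (lam y)⁻¹ (hall y hyY0)
    rw [inv_mul_cancel₀ h2] at h3
    exact h3

end Pool.Agent.Work.MP_77a596_an
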