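import Pool.Agent.Work.MP_77a596_an.NC

set_option autoImplicit false
set_option linter.unusedVariables false
set_option linter.unusedSectionVars false

open Set Metric Filter Topology MeasureTheory

namespace Pool.Agent.Work.MP_77a596_an

variable {P : Type*} [NormedAddCommGroup P] [NormedSpace ℂ P]
variable {M' : Type*} [NormedRing M'] [NormedAlgebra ℂ M'] [CompleteSpace M'] [NormOneClass M']

theorem isUnit_of_near_one {x : M'} (h : ‖x - 1‖ ≤ 1 / 2) : IsUnit x := by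
  have h1 : ‖1 - x‖ < 1 := by rw [norm_sub_rev]; linarith
  have := isUnit_one_sub_of_norm_lt_one h1
  simpa using this

theorem norm_inverse_le {x : M'} (h : ‖x - 1‖ ≤ 1 / 2) : ‖Ring.inverse x‖ ≤ 2 := by
  have hu := isUnit_of_near_one h
  have h1 : Ring.inverse x = 1 - (x - 1) * Ring.inverse x := by
    rw [sub_mul, Ring.mul_inverse_cancel x hu]; simp
  have h2 : ‖Ring.inverse x‖ ≤ 1 + 1 / 2 * ‖Ring.inverse x‖ := by
    calc ‖Ring.inverse x‖ = ‖1 - (x - 1) * Ring.inverse x‖ := by rw [← h1]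
      _ ≤ ‖(1 : M')‖ + ‖(x - 1) * Ring.inverse x‖ := norm_sub_le _ _
      _ ≤ 1 + 1 / 2 * ‖Ring.inverse x‖ := by
          rw [norm_one]
          gcongr
          exact (norm_mul_le _ _).trans (by gcongr)
  linarith

theorem norm_inverse_sub_le {x : M'} (h : ‖x - 1‖ ≤ 1 / 2) :
    ‖Ring.inverse x - 1‖ ≤ 2 * ‖x - 1‖ := by
  have hu := isUnit_of_near_one h
  have h1 : Ring.inverse x - 1 = - ((x - 1) * Ring.inverse x) := by
    rw [sub_mul, Ring.mul_inverse_cancel x hu]; simp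
  rw [h1, norm_neg]
  calc ‖(x - 1) * Ring.inverse x‖ ≤ ‖x - 1‖ * ‖Ring.inverse x‖ := norm_mul_le _ _
    _ ≤ ‖x - 1‖ * 2 := by gcongr; exact norm_inverse_le h
    _ = 2 * ‖x - 1‖ := mul_comm _ _

/-- Additive splitting with loss of domain. -/
def ASL (N : Submodule ℂ M') (C : ℝ) (P0 : Set P) (A B : ℝ → Set ℂ) : Prop :=
  ∀ r t, 0 ≤ r → r < t → t ≤ 1 → ∀ (f : P × ℂ → M') (M : ℝ), 0 ≤ M → NC f (P0 ×ˢ (A t ∩ B t)) →
    (∀ x ∈ P0 ×ˢ (A t ∩ B t), ‖f x‖ ≤ M) → (∀ x ∈ P0 ×ˢ (A t ∩ B t), f x ∈ N) →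
    ∃ α β : P × ℂ → M', NC α (P0 ×ˢ A r) ∧ NC β (P0 ×ˢ B r) ∧
      (∀ x ∈ P0 ×ˢ A r, ‖α x‖ ≤ C * M / (t - r) ∧ α x ∈ N) ∧
      (∀ x ∈ P0 ×ˢ B r, ‖β x‖ ≤ C * M / (t - r) ∧ β x ∈ N) ∧
      ∀ x ∈ P0 ×ˢ (A r ∩ B r), f x = β x - α x

theorem prod_limit {S : Set (P × ℂ)} {N : Submodule ℂ M'} (hN : IsClosed (N : Set M'))
    (hmul : ∀ x ∈ N, ∀ y, x * y ∈ N) {α : ℕ → P × ℂ → M'} {δ : ℝ} (hδ0 : 0 ≤ δ) (hδ : δ ≤ 1 / 8)
    (hα : ∀ n, NC (α n) S) (hb : ∀ n, ∀ x ∈ S, ‖α n x‖ ≤ δ * (1 / 2) ^ n)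
    (hm : ∀ n, ∀ x ∈ S, α n x ∈ N) (a : ℕ → P × ℂ → M') (ha0 : ∀ x, a 0 x = 1)
    (ha : ∀ n x, a (n + 1) x = a n x * (1 + α n x)) :
    ∃ a' : P × ℂ → M', NC a' S ∧ (∀ x ∈ S, ‖a' x - 1‖ ≤ 1 / 2 ∧ a' x - 1 ∈ N) ∧
      ∀ x ∈ S, Tendsto (fun n => a n x) atTop (𝓝 (a' x)) := by
  have hnc : ∀ n, NC (a n) S := by
    intro n
    induction n with
    | zero => exact (NC.const (1 : M')).congr (fun x _ => ha0 x)
    | succ n ih => exact (ih.mul ((NC.const 1).add (hα n))).congr (fun x _ => ha n x)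
  have hbd : ∀ n, ∀ x ∈ S, ‖a n x - 1‖ ≤ 4 * δ * (1 - (1 / 2) ^ n) := by
    intro n
    induction n with
    | zero => intro x _; simp [ha0]
    | succ n ih =>
      intro x hx
      have h1 := ih x hx
      have hp : (0 : ℝ) ≤ (1 / 2) ^ n := by positivity
      have h2 : ‖a n x‖ ≤ 2 := by
        calc ‖a n x‖ = ‖(a n x - 1) + 1‖ := by simp
          _ ≤ ‖a n x - 1‖ + ‖(1 : M')‖ := norm_add_le _ _
          _ ≤ 2 := by rw [norm_one]; nlinarith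
      have h3 : a (n + 1) x - 1 = (a n x - 1) + a n x * α n x := by rw [ha]; noncomm_ring
      calc ‖a (n + 1) x - 1‖ ≤ ‖a n x - 1‖ + ‖a n x * α n x‖ := by rw [h3]; exact norm_add_le _ _
        _ ≤ 4 * δ * (1 - (1 / 2) ^ n) + 2 * (δ * (1 / 2) ^ n) := by
            gcongr
            exact (norm_mul_le _ _).trans (by gcongr; exact hb n x hx)
        _ = 4 * δ * (1 - (1 / 2) ^ (n + 1)) := by ring
  have hbd2 : ∀ n, ∀ x ∈ S, ‖a n x - 1‖ ≤ 1 / 2 := by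
    intro n x hx
    have hp : (0 : ℝ) ≤ (1 / 2) ^ n := by positivity
    have := hbd n x hx
    nlinarith
  have hdist : ∀ x ∈ S, ∀ n, dist (a n x) (a (n + 1) x) ≤ 2 * δ * (1 / 2) ^ n := by
    intro x hx n
    have h2 : ‖a n x‖ ≤ 2 := by
      calc ‖a n x‖ = ‖(a n x - 1) + 1‖ := by simp
        _ ≤ ‖a n x - 1‖ + ‖(1 : M')‖ := norm_add_le _ _
        _ ≤ 2 := by rw [norm_one]; linarith [hbd2 n x hx]
    rw [dist_comm, dist_eq_norm]
    have h3 : a (n + 1) x - a n x = a n x * α n x := by rw [ha]; noncomm_ring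
    rw [h3]
    calc ‖a n x * α n x‖ ≤ ‖a n x‖ * ‖α n x‖ := norm_mul_le _ _
      _ ≤ 2 * (δ * (1 / 2) ^ n) := by gcongr; exact hb n x hx
      _ = 2 * δ * (1 / 2) ^ n := by ring
  have hmem : ∀ n, ∀ x ∈ S, a n x - 1 ∈ N := by
    intro n
    induction n with
    | zero => intro x _; simp [ha0]
    | succ n ih =>
      intro x hx
      have h3 : a (n + 1) x - 1 = (a n x - 1) + ((a n x - 1) * α n x + α n x) := by
        rw [ha]; noncomm_ring
      rw [h3]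
      exact N.add_mem (ih x hx) (N.add_mem (hmul _ (ih x hx) _) (hm n x hx))
  have hlim : ∀ x ∈ S, ∃ l, Tendsto (fun n => a n x) atTop (𝓝 l) := fun x hx =>
    cauchySeq_tendsto_of_complete (cauchySeq_of_le_geometric (1 / 2) (2 * δ) (by norm_num)
      (hdist x hx))
  classical
  choose! a' ha' using hlim
  refine ⟨a', ?_, ?_, ha'⟩
  · refine NC.of_tendstoUniformlyOn hnc ?_ (l := atTop)
    rw [Metric.tendstoUniformlyOn_iff]
    intro ε hε
    have h0 : Tendsto (fun n : ℕ => 2 * δ * (1 / 2 : ℝ) ^ n / (1 - 1 / 2)) atTop (𝓝 0) := by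
      have := (tendsto_pow_atTop_nhds_zero_of_lt_one (r := (1 / 2 : ℝ)) (by norm_num)
        (by norm_num)).const_mul (2 * δ)
      simpa using this.div_const (1 - 1 / 2)
    filter_upwards [h0.eventually (gt_mem_nhds hε)] with n hn x hx
    rw [dist_comm]
    exact (dist_le_of_le_geometric_of_tendsto (1 / 2) (2 * δ) (by norm_num) (hdist x hx)
      (ha' x hx) n).trans_lt hn
  · intro x hx
    have ht : Tendsto (fun n => a n x - 1) atTop (𝓝 (a' x - 1)) := (ha' x hx).sub_const 1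
    exact ⟨le_of_tendsto ht.norm (Eventually.of_forall fun n => hbd2 n x hx),
      hN.mem_of_tendsto ht (Eventually.of_forall fun n => hmem n x hx)⟩

theorem msl {C : ℝ} (hC : 0 < C) : ∃ κ > 0, κ ≤ 1 / 2 ∧ ∀ (N : Submodule ℂ M'),
    IsClosed (N : Set M') → (∀ x ∈ N, ∀ y, x * y ∈ N) → ∀ (P0 : Set P) (A B : ℝ → Set ℂ),
    (∀ r t, 0 ≤ r → r ≤ t → t ≤ 1 → A r ⊆ A t) → (∀ r t, 0 ≤ r → r ≤ t → t ≤ 1 → B r ⊆ B t) →
    ASL N C P0 A B → ∀ G : P × ℂ → M', NC G (P0 ×ˢ (A 1 ∩ B 1)) →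
    (∀ x ∈ P0 ×ˢ (A 1 ∩ B 1), ‖G x - 1‖ ≤ κ ∧ G x - 1 ∈ N) →
    ∃ a b : P × ℂ → M', NC a (P0 ×ˢ A 0) ∧ NC b (P0 ×ˢ B 0) ∧
      (∀ x ∈ P0 ×ˢ A 0, ‖a x - 1‖ ≤ 1 / 2 ∧ a x - 1 ∈ N) ∧
      (∀ x ∈ P0 ×ˢ B 0, ‖b x - 1‖ ≤ 1 / 2 ∧ b x - 1 ∈ N) ∧
      ∀ x ∈ P0 ×ˢ (A 0 ∩ B 0), G x * a x = b x := by
  obtain ⟨κ, hκ, hκ1, hκ2, hκ3⟩ : ∃ κ : ℝ, 0 < κ ∧ κ ≤ 1 / 2 ∧ 64 * C ^ 2 * κ ≤ 1 ∧
      2 * C * κ ≤ 1 / 8 := by
    refine ⟨min (1 / 2) (min (1 / (64 * C ^ 2)) (1 / (16 * C))), by positivity, min_le_left _ _,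
      ?_, ?_⟩
    · have : min (1 / 2) (min (1 / (64 * C ^ 2)) (1 / (16 * C))) ≤ 1 / (64 * C ^ 2) :=
        (min_le_right _ _).trans (min_le_left _ _)
      calc 64 * C ^ 2 * min (1 / 2) (min (1 / (64 * C ^ 2)) (1 / (16 * C)))
          ≤ 64 * C ^ 2 * (1 / (64 * C ^ 2)) := by gcongr
        _ = 1 := by field_simp
    · have : min (1 / 2) (min (1 / (64 * C ^ 2)) (1 / (16 * C))) ≤ 1 / (16 * C) :=
        (min_le_right _ _).trans (min_le_right _ _)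
      calc 2 * C * min (1 / 2) (min (1 / (64 * C ^ 2)) (1 / (16 * C)))
          ≤ 2 * C * (1 / (16 * C)) := by gcongr
        _ = 1 / 8 := by field_simp; norm_num
  refine ⟨κ, hκ, hκ1, ?_⟩
  intro N hN hmul P0 A B hA hB hasl G hG hG1
  set t : ℕ → ℝ := fun n => (1 / 2) ^ n with ht
  have ht0 : ∀ n, 0 ≤ t n := fun n => by positivity
  have ht1 : ∀ n, t n ≤ 1 := fun n => pow_le_one₀ (by norm_num) (by norm_num)
  have htlt : ∀ n, t (n + 1) < t n := fun n => by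
    simp only [ht, pow_succ]
    have : (0 : ℝ) < (1 / 2) ^ n := by positivity
    linarith
  have htd : ∀ n, t n - t (n + 1) = (1 / 2) ^ (n + 1) := fun n => by simp only [ht]; ring
  let Stage : ℕ → (P × ℂ → M') → Prop := fun n G =>
    NC G (P0 ×ˢ (A (t n) ∩ B (t n))) ∧
      ∀ x ∈ P0 ×ˢ (A (t n) ∩ B (t n)), ‖G x - 1‖ ≤ κ * (1 / 4) ^ n ∧ G x - 1 ∈ N
  set δ : ℝ := 2 * C * κ with hδ
  have hδ0 : 0 ≤ δ := by positivity
  have hsubA : ∀ n, A (t (n + 1)) ⊆ A (t n) := fun n => hA _ _ (ht0 _) (htlt n).le (ht1 n)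
  have hsubB : ∀ n, B (t (n + 1)) ⊆ B (t n) := fun n => hB _ _ (ht0 _) (htlt n).le (ht1 n)
  have step : ∀ (n : ℕ) (G : {G // Stage n G}), ∃ (G' : {G // Stage (n + 1) G})
      (α β : P × ℂ → M'), NC α (P0 ×ˢ A (t (n + 1))) ∧ NC β (P0 ×ˢ B (t (n + 1))) ∧
      (∀ x ∈ P0 ×ˢ A (t (n + 1)), ‖α x‖ ≤ δ * (1 / 2) ^ n ∧ α x ∈ N) ∧
      (∀ x ∈ P0 ×ˢ B (t (n + 1)), ‖β x‖ ≤ δ * (1 / 2) ^ n ∧ β x ∈ N) ∧
      (∀ x ∈ P0 ×ˢ (A (t (n + 1)) ∩ B (t (n + 1))), (1 + β x) * G'.1 x = G.1 x * (1 + α x)) := by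
    rintro n ⟨G, hGn⟩
    obtain ⟨α, β, hα, hβ, hαb, hβb, hsplit⟩ := hasl (t (n + 1)) (t n) (ht0 _) (htlt n) (ht1 n)
      (fun x => G x - 1) (κ * (1 / 4) ^ n) (by positivity) (hGn.1.sub (NC.const 1)) (fun x hx => (hGn.2 x hx).1)
      (fun x hx => (hGn.2 x hx).2)
    have hconst : C * (κ * (1 / 4) ^ n) / (t n - t (n + 1)) = δ * (1 / 2) ^ n := by
      rw [htd, hδ]
      have h4 : ((1 : ℝ) / 4) ^ n = (1 / 2) ^ n * (1 / 2) ^ n := by
        rw [← mul_pow]; norm_num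
      rw [h4, pow_succ]
      field_simp
    rw [hconst] at hαb hβb
    have hδn : δ * (1 / 2) ^ n ≤ 1 / 8 := by
      calc δ * (1 / 2) ^ n ≤ δ * 1 := by gcongr; exact pow_le_one₀ (by norm_num) (by norm_num)
        _ ≤ 1 / 8 := by linarith
    have hβu : ∀ x ∈ P0 ×ˢ B (t (n + 1)), ‖(1 + β x) - 1‖ ≤ 1 / 2 := by
      intro x hx
      rw [add_sub_cancel_left]
      exact (hβb x hx).1.trans (by linarith)
    refine ⟨⟨fun x => Ring.inverse (1 + β x) * (G x * (1 + α x)), ?_, ?_⟩, α, β, hα, hβ, hαb,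
      hβb, ?_⟩
    · refine NC.mul (NC.ringInverse (((NC.const 1).add hβ).mono
        (prod_mono le_rfl inter_subset_right)) ?_) (NC.mul (hGn.1.mono
        (prod_mono le_rfl (inter_subset_inter (hsubA n) (hsubB n))))
        (((NC.const 1).add hα).mono (prod_mono le_rfl inter_subset_left)))
      intro x hx
      exact isUnit_of_near_one (hβu x ⟨hx.1, hx.2.2⟩)
    · intro x hx
      have hxA : x ∈ P0 ×ˢ A (t (n + 1)) := ⟨hx.1, hx.2.1⟩
      have hxB : x ∈ P0 ×ˢ B (t (n + 1)) := ⟨hx.1, hx.2.2⟩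
      have hu := isUnit_of_near_one (hβu x hxB)
      have hGx : G x = 1 + (β x - α x) := by rw [← hsplit x hx]; simp
      have hkey : Ring.inverse (1 + β x) * (G x * (1 + α x)) - 1
          = Ring.inverse (1 + β x) * (β x * α x - α x * α x) := by
        have h1 : G x * (1 + α x) = (1 + β x) + (β x * α x - α x * α x) := by
          rw [hGx]; noncomm_ring
        rw [h1, mul_add, Ring.inverse_mul_cancel _ hu]
        simp
      simp only
      rw [hkey]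
      constructor
      · have hp : (0 : ℝ) < (1 / 2) ^ n := by positivity
        have h4 : ((1 : ℝ) / 4) ^ (n + 1) = (1 / 2) ^ n * (1 / 2) ^ n * (1 / 4) := by
          rw [pow_succ, ← mul_pow]; norm_num
        calc ‖Ring.inverse (1 + β x) * (β x * α x - α x * α x)‖
            ≤ ‖Ring.inverse (1 + β x)‖ * ‖β x * α x - α x * α x‖ := norm_mul_le _ _
          _ ≤ 2 * (‖β x * α x‖ + ‖α x * α x‖) := by
              gcongr
              · exact norm_inverse_le (hβu x hxB)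
              · exact norm_sub_le _ _
          _ ≤ 2 * ((δ * (1 / 2) ^ n) * (δ * (1 / 2) ^ n) + (δ * (1 / 2) ^ n) * (δ * (1 / 2) ^ n)) := by
              gcongr
              · exact (norm_mul_le _ _).trans (by gcongr; exacts [(hβb x hxB).1, (hαb x hxA).1])
              · exact (norm_mul_le _ _).trans (by gcongr; exacts [(hαb x hxA).1, (hαb x hxA).1])
          _ = (64 * C ^ 2 * κ) * (κ * (1 / 4) ^ (n + 1)) := by rw [h4, hδ]; ring
          _ ≤ 1 * (κ * (1 / 4) ^ (n + 1)) := by gcongr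
          _ = κ * (1 / 4) ^ (n + 1) := one_mul _
      · -- membership in N
        set u := Ring.inverse (1 + β x) * (β x * α x - α x * α x) with hu'
        have h2 : u = (β x * α x - α x * α x) - β x * u := by
          have : (1 + β x) * u = β x * α x - α x * α x := by
            rw [hu', ← mul_assoc, Ring.mul_inverse_cancel _ hu, one_mul]
          rw [← this]; noncomm_ring
        rw [h2]
        exact N.sub_mem (N.sub_mem (hmul _ (hβb x hxB).2 _) (hmul _ (hαb x hxA).2 _))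
          (hmul _ (hβb x hxB).2 _)
    · intro x hx
      have hxB : x ∈ P0 ×ˢ B (t (n + 1)) := ⟨hx.1, hx.2.2⟩
      have hu := isUnit_of_near_one (hβu x hxB)
      simp only
      rw [← mul_assoc, Ring.mul_inverse_cancel _ hu, one_mul]
  choose next α β hα hβ hαb hβb hrec using step
  have h0 : Stage 0 G := by
    refine ⟨?_, ?_⟩
    · simpa [ht] using hG
    · simpa [ht] using hG1
  let seq : ∀ n, {G // Stage n G} := fun n => Nat.rec ⟨G, h0⟩ (fun n g => next n g) n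
  have hseq : ∀ n, seq (n + 1) = next n (seq n) := fun n => rfl
  have hA0 : ∀ n, A 0 ⊆ A (t n) := fun n => hA _ _ le_rfl (ht0 n) (ht1 n)
  have hB0 : ∀ n, B 0 ⊆ B (t n) := fun n => hB _ _ le_rfl (ht0 n) (ht1 n)
  let a : ℕ → P × ℂ → M' := fun n => Nat.rec (fun _ => 1) (fun n an x => an x * (1 + α n (seq n) x)) n
  let b : ℕ → P × ℂ → M' := fun n => Nat.rec (fun _ => 1) (fun n bn x => bn x * (1 + β n (seq n) x)) n
  have ha0 : ∀ x, a 0 x = 1 := fun x => rfl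
  have hb0 : ∀ x, b 0 x = 1 := fun x => rfl
  have ha : ∀ n x, a (n + 1) x = a n x * (1 + α n (seq n) x) := fun n x => rfl
  have hb : ∀ n x, b (n + 1) x = b n x * (1 + β n (seq n) x) := fun n x => rfl
  have hδ8 : δ ≤ 1 / 8 := hκ3
  obtain ⟨a', ha'1, ha'2, ha'3⟩ := prod_limit (S := P0 ×ˢ A 0) hN hmul hδ0 hδ8
    (α := fun n => α n (seq n))
    (fun n => (hα n (seq n)).mono (prod_mono le_rfl (hA0 (n + 1))))
    (fun n x hx => (hαb n (seq n) x ⟨hx.1, hA0 (n + 1) hx.2⟩).1)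
    (fun n x hx => (hαb n (seq n) x ⟨hx.1, hA0 (n + 1) hx.2⟩).2) a ha0 ha
  obtain ⟨b', hb'1, hb'2, hb'3⟩ := prod_limit (S := P0 ×ˢ B 0) hN hmul hδ0 hδ8
    (α := fun n => β n (seq n))
    (fun n => (hβ n (seq n)).mono (prod_mono le_rfl (hB0 (n + 1))))
    (fun n x hx => (hβb n (seq n) x ⟨hx.1, hB0 (n + 1) hx.2⟩).1)
    (fun n x hx => (hβb n (seq n) x ⟨hx.1, hB0 (n + 1) hx.2⟩).2) b hb0 hb
  refine ⟨a', b', ha'1, hb'1, ha'2, hb'2, ?_⟩
  intro x hx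
  have hxn : ∀ n, x ∈ P0 ×ˢ (A (t n) ∩ B (t n)) := fun n => ⟨hx.1, hA0 n hx.2.1, hB0 n hx.2.2⟩
  have hrel : ∀ n, G x * a n x = b n x * (seq n).1 x := by
    intro n
    induction n with
    | zero =>
      rw [ha0, hb0, mul_one, one_mul]
      rfl
    | succ n ih =>
      rw [ha, hb, ← mul_assoc, ih, mul_assoc, ← hrec n (seq n) x (hxn (n + 1)), mul_assoc]
  have h1 : Tendsto (fun n => G x * a n x) atTop (𝓝 (G x * a' x)) :=
    (ha'3 x ⟨hx.1, hx.2.1⟩).const_mul _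
  have h2 : Tendsto (fun n => (seq n).1 x) atTop (𝓝 1) := by
    rw [tendsto_iff_norm_sub_tendsto_zero]
    refine squeeze_zero (fun n => norm_nonneg _) (fun n => ((seq n).2.2 x (hxn n)).1) ?_
    have := (tendsto_pow_atTop_nhds_zero_of_lt_one (r := (1 / 4 : ℝ)) (by norm_num)
      (by norm_num)).const_mul κ
    simpa using this
  have h3 : Tendsto (fun n => b n x * (seq n).1 x) atTop (𝓝 (b' x * 1)) :=
    (hb'3 x ⟨hx.1, hx.2.2⟩).mul h2
  rw [mul_one] at h3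
  exact tendsto_nhds_unique h1 (h3.congr (fun n => (hrel n).symm))

end Pool.Agent.Work.MP_77a596_an
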