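import Pool.Agent.Work.MP_77a596_an.NF

set_option autoImplicit false
set_option linter.unusedVariables false
set_option linter.unusedSectionVars false

open Set Metric Filter Topology MeasureTheory Complex

namespace Pool.Agent.Work.MP_77a596_an

universe v

theorem elim_fin {R : Type*} [CommRing R] [Nontrivial R] {J : Type*} : ∀ (p : ℕ) (V : Fin p → J → R),
    (∃ q : Fin p → R, q ≠ 0 ∧ ∀ j, ∑ i, q i * V i j = 0) ∨
    ∃ rows : Fin p → J, (Matrix.of (fun a b => V b (rows a))).det ≠ 0 := by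
  intro p
  induction p with
  | zero =>
    intro V
    right
    exact ⟨Fin.elim0, by simp⟩
  | succ p ih =>
    intro V
    rcases ih (fun i => V i.castSucc) with ⟨q, hq, hq2⟩ | ⟨rows, hrows⟩
    · left
      refine ⟨Fin.snoc q 0, ?_, fun j => ?_⟩
      · intro h
        apply hq
        funext i
        have := congrFun h i.castSucc
        simpa using this
      · rw [Fin.sum_univ_castSucc]
        simp only [Fin.snoc_castSucc, Fin.snoc_last, zero_mul, add_zero]
        exact hq2 j
    · by_cases hex : ∃ j, (Matrix.of (fun a b => V b ((Fin.snoc rows j : Fin (p + 1) → J) a))).det ≠ 0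
      · right
        obtain ⟨j, hj⟩ := hex
        exact ⟨Fin.snoc rows j, hj⟩
      · left
        push Not at hex
        refine ⟨fun i => (-1) ^ (p + (i : ℕ)) *
          (Matrix.of (fun a b => V (i.succAbove b) (rows a))).det, ?_, fun j => ?_⟩
        · intro h
          have := congrFun h (Fin.last p)
          simp only [Fin.val_last, Fin.succAbove_last, Pi.zero_apply] at this
          apply hrows
          have h2 : ((-1 : R) ^ (p + p)) * ((-1 : R) ^ (p + p)) = 1 := by
            rw [← mul_pow]; simp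
          calc _ = ((-1 : R) ^ (p + p)) * (((-1 : R) ^ (p + p)) *
                (Matrix.of (fun a b => V (Fin.castSucc b) (rows a))).det) := by
                rw [← mul_assoc, h2, one_mul]
            _ = 0 := by rw [this, mul_zero]
        · have h1 := hex j
          rw [Matrix.det_succ_row _ (Fin.last p)] at h1
          rw [← h1]
          refine Finset.sum_congr rfl (fun i _ => ?_)
          simp only [Fin.val_last, Matrix.of_apply, Fin.snoc_last]
          have h2 : (Matrix.of (fun a b => V b ((Fin.snoc rows j : Fin (p + 1) → J) a))).submatrix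
              (Fin.last p).succAbove i.succAbove =
              Matrix.of (fun a b => V (i.succAbove b) (rows a)) := by
            ext a b
            simp [Matrix.submatrix_apply, Fin.succAbove_last]
          rw [h2]
          ring

theorem elim {R : Type*} [CommRing R] [Nontrivial R] {J κ : Type*} [Fintype κ] [DecidableEq κ]
    (V : κ → J → R) :
    (∃ q : κ → R, q ≠ 0 ∧ ∀ j, ∑ i, q i * V i j = 0) ∨
    ∃ rows : κ → J, (Matrix.of (fun a b => V b (rows a))).det ≠ 0 := by
  set e := Fintype.equivFin κ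
  rcases elim_fin (Fintype.card κ) (fun i => V (e.symm i)) with ⟨q, hq, hq2⟩ | ⟨rows, hrows⟩
  · left
    refine ⟨fun i => q (e i), ?_, fun j => ?_⟩
    · intro h
      apply hq
      funext i
      have := congrFun h (e.symm i)
      simpa using this
    · rw [← hq2 j]
      refine Fintype.sum_equiv e _ _ (fun i => ?_)
      simp
  · right
    refine ⟨fun i => rows (e i), ?_⟩
    rw [← Matrix.det_submatrix_equiv_self e] at hrows
    convert hrows using 2
    ext a b
    simp

variable {P : Type v} [NormedAddCommGroup P] [NormedSpace ℂ P] {k : ℕ}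
variable {V E : Type*} [NormedAddCommGroup V] [NormedSpace ℂ V] [NormedAddCommGroup E]
  [NormedSpace ℂ E]

theorem NC.identity [CompleteSpace E] {S : Set V} (hS : IsOpen S) (hconv : Convex ℝ S) {f : V → E}
    (hf : NC f S) {O : Set V} (hO : IsOpen O) (hne : O.Nonempty) (hOS : O ⊆ S)
    (h : ∀ x ∈ O, f x = 0) : ∀ x ∈ S, f x = 0 := by
  intro x hx
  obtain ⟨v, hv⟩ := hne
  set γ : ℂ → V := fun z => v + z • (x - v) with hγ
  have hγd : Differentiable ℂ γ := by rw [hγ]; fun_prop
  set Δ : Set ℂ := γ ⁻¹' S with hΔ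
  have hΔo : IsOpen Δ := hS.preimage hγd.continuous
  have hΔc : Convex ℝ Δ := by
    intro z1 h1 z2 h2 a b ha hb hab
    show γ (a • z1 + b • z2) ∈ S
    have : γ (a • z1 + b • z2) = a • γ z1 + b • γ z2 := by
      simp only [hγ, smul_add, Complex.real_smul, add_smul, mul_smul, Complex.coe_smul]
      rw [add_add_add_comm, ← add_smul a b v, hab, one_smul]
    rw [this]
    exact hconv h1 h2 ha hb hab
  have hd : DifferentiableOn ℂ (fun z => f (γ z)) Δ := hf.2 γ Δ hΔo hγd.differentiableOn (fun z hz => hz)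
  have h0 : (0 : ℂ) ∈ Δ := by
    show γ 0 ∈ S
    simp only [hγ, zero_smul, add_zero]
    exact hOS hv
  have h1 : (1 : ℂ) ∈ Δ := by
    show γ 1 ∈ S
    simp only [hγ, one_smul, add_sub_cancel]
    exact hx
  have hev : (fun z => f (γ z)) =ᶠ[𝓝 0] 0 := by
    have hO' : IsOpen (γ ⁻¹' O) := hO.preimage hγd.continuous
    have h0O : (0 : ℂ) ∈ γ ⁻¹' O := by
      show γ 0 ∈ O
      simpa [hγ] using hv
    filter_upwards [hO'.mem_nhds h0O] with z hz using h _ hz
  have := (hd.analyticOnNhd hΔo).eqOn_zero_of_preconnected_of_eventuallyEq_zero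
    hΔc.isPreconnected h0 hev h1
  simpa [hγ] using this

theorem NC.det {κ : Type*} [Fintype κ] [DecidableEq κ] {S : Set V} {T : κ → κ → V → ℂ}
    (h : ∀ a b, NC (T a b) S) : NC (fun y => (Matrix.of (fun a b => T a b y)).det) S := by
  have h1 : ∀ y, (Matrix.of (fun a b => T a b y)).det =
      ∑ σ : Equiv.Perm κ, ((Equiv.Perm.sign σ : ℤ) : ℂ) * ∏ i, T (σ i) i y := by
    intro y
    rw [Matrix.det_apply']
    rfl
  refine NC.congr ?_ (fun y _ => h1 y)
  exact NC.sum _ (fun σ _ => (NC.const _).mul (NC.prod _ (fun i _ => h _ _)))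

def USol (G : P × ℂ → MM k) (y : P) (β : ℂ → Fin k → ℂ) : Prop :=
  DifferentiableOn ℂ β AA ∧ HM β ∧ SolAt G y β 1 ∧
    ∀ β' : ℂ → Fin k → ℂ, DifferentiableOn ℂ β' AA → HM β' → SolAt G y β' 1 → ∀ w ∈ AA, β' w = β w

def Gen (G : P × ℂ → MM k) (B : Set P) : Prop :=
  ∃ (d : P → ℂ) (bh : P × ℂ → Fin k → ℂ), NC d B ∧ NC bh (B ×ˢ AA) ∧ (∃ y ∈ B, d y ≠ 0) ∧
    ∀ y ∈ B, d y ≠ 0 → USol G y (fun w => (d y)⁻¹ • bh (y, w))

theorem sphere_AA : sphere (0 : ℂ) (7 / 4) ⊆ AA := sphere_subset_ann (by norm_num) (by norm_num)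

theorem pol_zero {M : ℕ} {q : Fin (M + 1) → Fin k → ℂ} (h : ∀ w ∈ AA, pol q w = 0) : q = 0 := by
  funext j i
  set p : Polynomial ℂ := ∑ j : Fin (M + 1), Polynomial.monomial (j : ℕ) (q j i) with hp
  have hp0 : p = 0 := by
    apply Polynomial.eq_zero_of_infinite_isRoot
    have hinf : (Ioo (33 / 20 : ℝ) (37 / 20)).Infinite := Ioo_infinite (by norm_num)
    refine (hinf.image (f := fun x : ℝ => (x : ℂ)) (fun x _ y _ hxy => Complex.ofReal_injective hxy)).mono ?_
    rintro _ ⟨x, hx, rfl⟩
    have hxA : (x : ℂ) ∈ AA := by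
      have : ‖(x : ℂ)‖ = x := by
        rw [Complex.norm_real, Real.norm_eq_abs, abs_of_pos (by linarith [hx.1])]
      exact ⟨by rw [this]; exact hx.1, by rw [this]; exact hx.2⟩
    have h1 := congrFun (h _ hxA) i
    show Polynomial.IsRoot p (x : ℂ)
    rw [Polynomial.IsRoot, hp, Polynomial.eval_finsetSum]
    simp only [Polynomial.eval_monomial]
    simp only [pol, Finset.sum_apply, Pi.smul_apply, smul_eq_mul, Pi.zero_apply] at h1
    rw [← h1]
    exact Finset.sum_congr rfl (fun j _ => mul_comm _ _)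
  have h2 : p.coeff (j : ℕ) = q j i := by
    rw [hp, Polynomial.finsetSum_coeff]
    simp only [Polynomial.coeff_monomial]
    rw [Finset.sum_eq_single j]
    · simp
    · intro b _ hb
      rw [if_neg]
      intro h
      exact hb (Fin.ext h)
    · simp
  rw [← h2, hp0]
  simp

theorem gen_of_open {G : P × ℂ → MM k} {y1 : P} {r : ℝ} {M : ℕ} {N : P × ℂ → MM k}
    (h : NFD G (ball y1 r) M N) {O : Set P} (hO : IsOpen O) (hOne : O.Nonempty)
    (hOB : O ⊆ ball y1 r) (hUS : ∀ y ∈ O, ∃ β, USol G y β) : Gen G (ball y1 r) := by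
  classical
  set B := ball y1 r with hB
  let κ := Fin (M + 1) × Fin k
  let J := ℕ × Fin k
  let un : (κ → ℂ) → Fin (M + 1) → Fin k → ℂ := fun z j i => z (j, i)
  have hpol_add : ∀ (z z' : κ → ℂ) (w : ℂ), pol (un (z + z')) w = pol (un z) w + pol (un z') w := by
    intro z z' w
    simp only [pol, ← Finset.sum_add_distrib]
    refine Finset.sum_congr rfl (fun j _ => ?_)
    rw [← smul_add]; rfl
  have hpol_smul : ∀ (c : ℂ) (z : κ → ℂ) (w : ℂ), pol (un (c • z)) w = c • pol (un z) w := by
    intro c z w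
    simp only [pol, Finset.smul_sum]
    refine Finset.sum_congr rfl (fun j _ => ?_)
    rw [smul_comm]; rfl
  have hpold : ∀ z : κ → ℂ, Differentiable ℂ (fun w : ℂ => pol (un z) w) := by
    intro z; unfold pol; fun_prop
  have hN0 : ∀ ζ ∈ sphere (0 : ℂ) (7 / 4), ζ ≠ 0 := by
    rintro ζ hζ rfl
    simp at hζ
    norm_num at hζ
  -- the integrand
  let g : ℕ → (κ → ℂ) × ℂ → P → ℂ → (Fin k → ℂ) := fun n x y ζ =>
    (ζ ^ (n + 1))⁻¹ • (N (y, ζ) (pol (un x.1) ζ, x.2)).1
  have hgc : ∀ n x, ContinuousOn (Function.uncurry (g n x)) (B ×ˢ sphere (0 : ℂ) (7 / 4)) := by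
    intro n x
    have h1 : ContinuousOn (fun p : P × ℂ => (p.2 ^ (n + 1))⁻¹) (B ×ˢ sphere (0 : ℂ) (7 / 4)) :=
      ContinuousOn.inv₀ (by fun_prop) (fun p hp => pow_ne_zero _ (hN0 _ hp.2))
    have h2 : ContinuousOn N (B ×ˢ sphere (0 : ℂ) (7 / 4)) := h.nc.1.mono (prod_mono le_rfl sphere_AA)
    have h3 : ContinuousOn (fun p : P × ℂ => ((pol (un x.1) p.2, x.2) : VV k))
        (B ×ˢ sphere (0 : ℂ) (7 / 4)) :=
      (((hpold x.1).continuous.comp continuous_snd).prodMk continuous_const).continuousOn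
    exact h1.smul (continuous_fst.comp_continuousOn (h2.clm_apply h3))
  have hgc' : ∀ n x, ∀ y ∈ B, ContinuousOn (g n x y) (sphere (0 : ℂ) (7 / 4)) := fun n x y hy =>
    (hgc n x).comp (f := fun ζ => (y, ζ)) (by fun_prop) (fun ζ hζ => ⟨hy, hζ⟩)
  let Ξ : ℕ → (κ → ℂ) × ℂ → P → (Fin k → ℂ) := fun n x y => ∮ ζ in C(0, 7 / 4), g n x y ζ
  have hΞnc : ∀ n x, NC (Ξ n x) B := by
    intro n x
    refine NC.circleIntegral (by norm_num) (hgc n x) (fun ζ hζ => ?_)
    refine NC.const_smul _ (NC.fst (NC.clm_apply ?_ (NC.const _)))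
    exact h.nc.comp (h := fun y : P => (y, ζ)) (NC.of_differentiableOn (by fun_prop))
      (fun y hy => ⟨hy, sphere_AA hζ⟩)
  have hΞadd : ∀ n x x', ∀ y ∈ B, Ξ n (x + x') y = Ξ n x y + Ξ n x' y := by
    intro n x x' y hy
    simp only [Ξ]
    rw [← circleIntegral.integral_add ((hgc' n x y hy).circleIntegrable (by norm_num))
      ((hgc' n x' y hy).circleIntegrable (by norm_num))]
    refine circleIntegral.integral_congr (by norm_num) (fun ζ hζ => ?_)
    have hx1 : ((pol (un (x + x').1) ζ, (x + x').2) : VV k) =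
        (pol (un x.1) ζ, x.2) + (pol (un x'.1) ζ, x'.2) :=
      Prod.ext (hpol_add x.1 x'.1 ζ) rfl
    simp only [g]
    rw [hx1, map_add, Prod.fst_add, smul_add]
  have hΞsmul : ∀ n (c : ℂ) x, ∀ y ∈ B, Ξ n (c • x) y = c • Ξ n x y := by
    intro n c x y hy
    simp only [Ξ]
    rw [← circleIntegral.integral_smul]
    refine circleIntegral.integral_congr (by norm_num) (fun ζ hζ => ?_)
    have hx1 : ((pol (un (c • x).1) ζ, (c • x).2) : VV k) = c • (pol (un x.1) ζ, x.2) :=
      Prod.ext (hpol_smul c x.1 ζ) rfl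
    simp only [g]
    rw [hx1, map_smul, Prod.smul_fst, smul_comm]
  let T : J → κ → P → ℂ := fun j b y => Ξ j.1 ((fun b' => if b = b' then 1 else 0), 0) y j.2
  let rr : J → P → ℂ := fun j y => Ξ j.1 (0, 1) y j.2
  have hTnc : ∀ j b, NC (T j b) B := fun j b => (hΞnc _ _).apply j.2
  have hrnc : ∀ j, NC (rr j) B := fun j => (hΞnc _ _).apply j.2
  have hexp : ∀ n z l, ∀ y ∈ B, ∀ i, Ξ n (z, l) y i = ∑ b, z b * T (n, i) b y + l * rr (n, i) y := by
    intro n z l y hy i
    have h1 : ((z, l) : (κ → ℂ) × ℂ) = (z, 0) + l • (0, 1) := by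
      simp
    rw [h1, hΞadd n _ _ y hy, hΞsmul n l _ y hy, Pi.add_apply, Pi.smul_apply, smul_eq_mul]
    congr 1
    let Lz : (κ → ℂ) →ₗ[ℂ] (Fin k → ℂ) :=
      { toFun := fun z => Ξ n (z, 0) y
        map_add' := fun a b => by rw [← hΞadd n _ _ y hy]; simp
        map_smul' := fun c a => by
          have := hΞsmul n c (a, 0) y hy
          simpa using this }
    have h2 := LinearMap.pi_apply_eq_sum_univ Lz z
    have h3 := congrFun h2 i
    rw [Finset.sum_apply] at h3
    exact h3
  -- vanishing of moments means solution of the linear system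
  have hsys : ∀ z l, ∀ y ∈ B, HM (fun w => (N (y, w) (pol (un z) w, l)).1) ↔
      ∀ j : J, ∑ b, z b * T j b y + l * rr j y = 0 := by
    intro z l y hy
    constructor
    · rintro hm ⟨n, i⟩
      rw [← hexp n z l y hy i]
      exact congrFun (hm n) i
    · intro hm n
      funext i
      have := hm (n, i)
      rw [← hexp n z l y hy i] at this
      exact this
  have hHMcongr : ∀ {β β' : ℂ → Fin k → ℂ}, (∀ w ∈ AA, β w = β' w) → HM β → HM β' := by
    intro β β' hb hm n
    rw [← hm n]
    refine circleIntegral.integral_congr (by norm_num) (fun ζ hζ => ?_)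
    rw [hb ζ (sphere_AA hζ)]
  have hβd : ∀ z l, ∀ y ∈ B, DifferentiableOn ℂ (fun w => (N (y, w) (pol (un z) w, l)).1) AA := by
    intro z l y hy
    have h1 : DifferentiableOn ℂ (fun w => N (y, w)) AA :=
      h.nc.2 (fun w => (y, w)) AA (isOpen_ann _ _) (by fun_prop) (fun w hw => ⟨hy, hw⟩)
    exact (h1.clm_apply (((hpold z).differentiableOn).prodMk (differentiableOn_const l))).fst
  have hA : ∀ y ∈ O, (∀ z : κ → ℂ, (∀ j, ∑ b, z b * T j b y = 0) → z = 0) ∧
      ∃ z : κ → ℂ, ∀ j, ∑ b, z b * T j b y + rr j y = 0 := by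
    intro y hyO
    have hy := hOB hyO
    obtain ⟨β, hβ1, hβ2, hβ3, hβ4⟩ := hUS y hyO
    obtain ⟨q, hq⟩ := h.fwd y hy β 1 hβ1 hβ2 hβ3
    set z : κ → ℂ := fun b => q b.1 b.2 with hz
    have hunz : un z = q := rfl
    have hm : ∀ j : J, ∑ b, z b * T j b y + 1 * rr j y = 0 := by
      rw [← hsys z 1 y hy]
      refine hHMcongr (fun w hw => ?_) hβ2
      rw [hunz, ← hq w hw]
    refine ⟨fun z0 hz0 => ?_, z, fun j => by simpa using hm j⟩
    have hm2 : HM (fun w => (N (y, w) (pol (un (z + z0)) w, 1)).1) := by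
      rw [hsys (z + z0) 1 y hy]
      intro j
      have : ∑ b, (z + z0) b * T j b y = ∑ b, z b * T j b y + ∑ b, z0 b * T j b y := by
        rw [← Finset.sum_add_distrib]
        exact Finset.sum_congr rfl (fun b _ => by rw [Pi.add_apply]; ring)
      rw [this, hz0 j, add_zero]
      exact hm j
    have hu := hβ4 _ (hβd (z + z0) 1 y hy) hm2 (h.bwd y hy (un (z + z0)) 1)
    have h5 : ∀ w ∈ AA, pol (un z0) w = 0 := by
      intro w hw
      have h6 := hu w hw
      have hun := h.unit (y, w) ⟨hy, hw⟩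
      have h7 : N (y, w) (pol (un (z + z0)) w, 1) = N (y, w) (pol (un z) w, 1) := by
        rw [← hq w hw]
        apply Prod.ext
        · exact h6
        · exact eE_mul_iff.1 hun.2 _
      have h8 := congrArg (fun v => (Ring.inverse (N (y, w)) : MM k) v) h7
      rw [inv_apply_of_unit hun.1, inv_apply_of_unit hun.1, Prod.mk.injEq, hpol_add] at h8
      simpa using h8.1
    have h9 := pol_zero h5
    funext b
    exact congrFun (congrFun h9 b.1) b.2
  obtain ⟨ys, hys⟩ := hOne
  have hysB := hOB hys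
  obtain ⟨hinj, hsol⟩ := hA ys hys
  rcases elim (fun (b : κ) (j : J) => T j b ys) with ⟨q, hq, hq2⟩ | ⟨rows, hrows⟩
  · exact absurd (hinj q hq2) hq
  set Am : P → Matrix κ κ ℂ := fun y => Matrix.of (fun a b => T (rows a) b y) with hAm
  set d : P → ℂ := fun y => (Am y).det with hd
  have hdnc : NC d B := NC.det (fun a b => hTnc _ _)
  set qh : P → κ → ℂ := fun y b => -(Matrix.of (fun a b' => if b' = b then rr (rows a) y
    else T (rows a) b' y)).det with hqh
  have hqhnc : ∀ b, NC (fun y => qh y b) B := by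
    intro b
    refine NC.neg (NC.det (T := fun a b' y => if b' = b then rr (rows a) y else T (rows a) b' y)
      (fun a b' => ?_))
    by_cases hb : b' = b
    · simp only [if_pos hb]; exact hrnc _
    · simp only [if_neg hb]; exact hTnc _ _
  have hcr : ∀ y, qh y = -(Matrix.cramer (Am y) (fun a => rr (rows a) y)) := by
    intro y
    funext b
    rw [Pi.neg_apply, Matrix.cramer_apply]
    simp only [hqh]
    congr 2
    ext a b'
    rw [Matrix.updateCol_apply]
    rfl
  have hrowseq : ∀ y a, ∑ b, qh y b * T (rows a) b y + d y * rr (rows a) y = 0 := by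
    intro y a
    have h1 := congrFun (Matrix.mulVec_cramer (Am y) (fun a => rr (rows a) y)) a
    rw [hcr y]
    simp only [Matrix.mulVec, dotProduct, Pi.smul_apply, smul_eq_mul] at h1
    rw [hd]
    simp only
    rw [← h1, ← Finset.sum_add_distrib]
    refine Finset.sum_eq_zero (fun b _ => ?_)
    rw [Pi.neg_apply]
    simp only [hAm, Matrix.of_apply]
    ring
  have hdinj : ∀ y, d y ≠ 0 → ∀ z : κ → ℂ, (∀ a, ∑ b, z b * T (rows a) b y = 0) → z = 0 := by
    intro y hy z hz
    refine Matrix.eq_zero_of_mulVec_eq_zero (M := Am y) hy ?_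
    funext a
    rw [Pi.zero_apply, ← hz a]
    simp only [Matrix.mulVec, dotProduct, hAm, Matrix.of_apply]
    exact Finset.sum_congr rfl (fun b _ => mul_comm _ _)
  have hall : ∀ j, ∀ y ∈ B, ∑ b, qh y b * T j b y + d y * rr j y = 0 := by
    intro j
    have hnc : NC (fun y => ∑ b, qh y b * T j b y + d y * rr j y) B :=
      (NC.sum _ (fun b _ => (hqhnc b).mul (hTnc j b))).add (hdnc.mul (hrnc j))
    have hO' : IsOpen (O ∩ d ⁻¹' {0}ᶜ) :=
      (hdnc.1.mono hOB).isOpen_inter_preimage hO isOpen_compl_singleton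
    refine NC.identity isOpen_ball (convex_ball _ _) hnc hO' ⟨ys, hys, hrows⟩
      (fun y hy => hOB hy.1) ?_
    rintro y ⟨hy, hdy⟩
    obtain ⟨-, z, hz⟩ := hA y hy
    have h1 : qh y - d y • z = 0 := by
      refine hdinj y hdy _ (fun a => ?_)
      have : ∑ b, (qh y - d y • z) b * T (rows a) b y =
          (∑ b, qh y b * T (rows a) b y + d y * rr (rows a) y) -
          d y * (∑ b, z b * T (rows a) b y + rr (rows a) y) := by
        rw [mul_add, Finset.mul_sum, add_sub_add_right_eq_sub, ← Finset.sum_sub_distrib]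
        refine Finset.sum_congr rfl (fun b _ => ?_)
        rw [Pi.sub_apply, Pi.smul_apply, smul_eq_mul]; ring
      rw [this, hrowseq, hz, mul_zero, sub_zero]
    have h2 : qh y = d y • z := sub_eq_zero.1 h1
    simp only [h2]
    have : ∑ b, (d y • z) b * T j b y + d y * rr j y = d y * (∑ b, z b * T j b y + rr j y) := by
      rw [mul_add, Finset.mul_sum]
      congr 1
      refine Finset.sum_congr rfl (fun b _ => ?_)
      rw [Pi.smul_apply, smul_eq_mul]; ring
    rw [this, hz, mul_zero]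
  refine ⟨d, fun x => (N x (pol (un (qh x.1)) x.2, d x.1)).1, hdnc, ?_, ⟨ys, hysB, hrows⟩, ?_⟩
  · refine NC.fst (NC.clm_apply h.nc (NC.prodMk ?_ ?_))
    · refine NC.congr (f := fun x : P × ℂ => ∑ j : Fin (M + 1), (x.2 ^ (j : ℕ)) •
        (fun i => qh x.1 (j, i))) ?_ (fun x _ => rfl)
      refine NC.sum _ (fun j _ => NC.smul (NC.of_differentiableOn (by fun_prop)) (NC.pi (fun i => ?_)))
      exact (hqhnc (j, i)).comp (h := fun x : P × ℂ => x.1) (NC.of_differentiableOn (by fun_prop))
        (fun x hx => hx.1)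
    · exact hdnc.comp (h := fun x : P × ℂ => x.1) (NC.of_differentiableOn (by fun_prop))
        (fun x hx => hx.1)
  · intro y hy hdy
    set z : κ → ℂ := (d y)⁻¹ • qh y with hz
    have hfun : (fun w => (d y)⁻¹ • (N (y, w) (pol (un (qh y)) w, d y)).1) =
        fun w => (N (y, w) (pol (un z) w, 1)).1 := by
      funext w
      rw [← Prod.smul_fst, ← map_smul, Prod.smul_mk, hz, hpol_smul, smul_eq_mul, inv_mul_cancel₀ hdy]
    have hzsys : ∀ j : J, ∑ b, z b * T j b y + 1 * rr j y = 0 := by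
      intro j
      have h1 := hall j y hy
      have : ∑ b, z b * T j b y + 1 * rr j y = (d y)⁻¹ * (∑ b, qh y b * T j b y + d y * rr j y) := by
        rw [mul_add, Finset.mul_sum, ← mul_assoc, inv_mul_cancel₀ hdy]
        congr 1
        refine Finset.sum_congr rfl (fun b _ => ?_)
        rw [hz, Pi.smul_apply, smul_eq_mul]; ring
      rw [this, h1, mul_zero]
    show USol G y (fun w => (d y)⁻¹ • (N (y, w) (pol (un (qh y)) w, d y)).1)
    rw [hfun]
    refine ⟨hβd z 1 y hy, (hsys z 1 y hy).2 hzsys, h.bwd y hy (un z) 1, ?_⟩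
    intro β' hβ'1 hβ'2 hβ'3 w hw
    obtain ⟨q', hq'⟩ := h.fwd y hy β' 1 hβ'1 hβ'2 hβ'3
    set z' : κ → ℂ := fun b => q' b.1 b.2 with hz'
    have hunz : un z' = q' := rfl
    have hz'sys : ∀ j : J, ∑ b, z' b * T j b y + 1 * rr j y = 0 := by
      rw [← hsys z' 1 y hy]
      refine hHMcongr (fun w hw => ?_) hβ'2
      rw [hunz, ← hq' w hw]
    have h1 : z' - z = 0 := by
      refine hdinj y hdy _ (fun a => ?_)
      have : ∑ b, (z' - z) b * T (rows a) b y =
          (∑ b, z' b * T (rows a) b y + 1 * rr (rows a) y) -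
          (∑ b, z b * T (rows a) b y + 1 * rr (rows a) y) := by
        rw [add_sub_add_right_eq_sub, ← Finset.sum_sub_distrib]
        refine Finset.sum_congr rfl (fun b _ => ?_)
        rw [Pi.sub_apply]; ring
      rw [this, hz'sys, hzsys, sub_zero]
    have h2 : z' = z := sub_eq_zero.1 h1
    have h3 := hq' w hw
    rw [← hunz, h2] at h3
    show β' w = (N (y, w) (pol (un z) w, 1)).1
    rw [← h3]

end Pool.Agent.Work.MP_77a596_an
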