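import Mathlib

set_option autoImplicit false
set_option linter.unusedVariables false

open Set Metric Filter Topology MeasureTheory

namespace Pool.Agent.Work.MP_77a596_an

variable {V W : Type*} [NormedAddCommGroup V] [NormedSpace ℂ V] [NormedAddCommGroup W]
  [NormedSpace ℂ W]
variable {E F G : Type*} [NormedAddCommGroup E] [NormedSpace ℂ E] [NormedAddCommGroup F]
  [NormedSpace ℂ F] [NormedAddCommGroup G] [NormedSpace ℂ G]

/-- continuous on `S` and holomorphic along every holomorphic disc inside `S`. -/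
def NC (f : V → E) (S : Set V) : Prop :=
  ContinuousOn f S ∧ ∀ (γ : ℂ → V) (Δ : Set ℂ), IsOpen Δ → DifferentiableOn ℂ γ Δ →
    MapsTo γ Δ S → DifferentiableOn ℂ (fun z => f (γ z)) Δ

namespace NC

variable {f g : V → E} {S T : Set V}

theorem of_differentiableOn (h : DifferentiableOn ℂ f S) : NC f S :=
  ⟨h.continuousOn, fun γ Δ _ hγ hm => h.comp hγ hm⟩

theorem const (c : E) : NC (fun _ : V => c) S := of_differentiableOn (by fun_prop)

theorem mono (h : NC f S) (hT : T ⊆ S) : NC f T :=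
  ⟨h.1.mono hT, fun γ Δ hΔ hγ hm => h.2 γ Δ hΔ hγ (fun x hx => hT (hm hx))⟩

theorem congr (h : NC f S) (hg : ∀ x ∈ S, g x = f x) : NC g S :=
  ⟨h.1.congr hg, fun γ Δ hΔ hγ hm => (h.2 γ Δ hΔ hγ hm).congr (fun x hx => hg _ (hm hx))⟩

theorem prodMk {g : V → F} (hf : NC f S) (hg : NC g S) : NC (fun x => (f x, g x)) S :=
  ⟨hf.1.prodMk hg.1, fun γ Δ hΔ hγ hm => (hf.2 γ Δ hΔ hγ hm).prodMk (hg.2 γ Δ hΔ hγ hm)⟩

theorem comp_diffOn {Φ : E → F} {U : Set E} (hΦ : DifferentiableOn ℂ Φ U) (hf : NC f S)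
    (hm : MapsTo f S U) : NC (fun x => Φ (f x)) S :=
  ⟨hΦ.continuousOn.comp hf.1 hm, fun γ Δ hΔ hγ hmγ =>
    hΦ.comp (hf.2 γ Δ hΔ hγ hmγ) (fun x hx => hm (hmγ hx))⟩

theorem comp_diff {Φ : E → F} (hΦ : Differentiable ℂ Φ) (hf : NC f S) : NC (fun x => Φ (f x)) S :=
  comp_diffOn (hΦ.differentiableOn (s := univ)) hf (mapsTo_univ _ _)

theorem comp {h : W → V} {S' : Set W} (hf : NC f S) (hh : NC h S') (hm : MapsTo h S' S) :
    NC (fun x => f (h x)) S' :=
  ⟨hf.1.comp hh.1 hm, fun γ Δ hΔ hγ hmγ =>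
    hf.2 (fun z => h (γ z)) Δ hΔ (hh.2 γ Δ hΔ hγ hmγ) (fun x hx => hm (hmγ hx))⟩

theorem add (hf : NC f S) (hg : NC g S) : NC (fun x => f x + g x) S :=
  comp_diff (Φ := fun p : E × E => p.1 + p.2) (by fun_prop) (hf.prodMk hg)

theorem sub (hf : NC f S) (hg : NC g S) : NC (fun x => f x - g x) S :=
  comp_diff (Φ := fun p : E × E => p.1 - p.2) (by fun_prop) (hf.prodMk hg)

theorem neg (hf : NC f S) : NC (fun x => - f x) S :=
  comp_diff (Φ := fun p : E => -p) (by fun_prop) hf

theorem smul {c : V → ℂ} (hc : NC c S) (hf : NC f S) : NC (fun x => c x • f x) S :=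
  comp_diff (Φ := fun p : ℂ × E => p.1 • p.2) (by fun_prop) (hc.prodMk hf)

theorem const_smul (c : ℂ) (hf : NC f S) : NC (fun x => c • f x) S :=
  comp_diff (Φ := fun p : E => c • p) (by fun_prop) hf

theorem mul {A : Type*} [NormedRing A] [NormedAlgebra ℂ A] {f g : V → A} (hf : NC f S)
    (hg : NC g S) : NC (fun x => f x * g x) S :=
  comp_diff (Φ := fun p : A × A => p.1 * p.2) (by fun_prop) (hf.prodMk hg)

theorem clm_apply {L : V → E →L[ℂ] F} {v : V → E} (hL : NC L S) (hv : NC v S) :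
    NC (fun x => L x (v x)) S :=
  comp_diff (Φ := fun p : (E →L[ℂ] F) × E => p.1 p.2) (by fun_prop) (hL.prodMk hv)

theorem fst {f : V → E × F} (hf : NC f S) : NC (fun x => (f x).1) S :=
  comp_diff (Φ := fun p : E × F => p.1) (by fun_prop) hf

theorem snd {f : V → E × F} (hf : NC f S) : NC (fun x => (f x).2) S :=
  comp_diff (Φ := fun p : E × F => p.2) (by fun_prop) hf

theorem ringInverse {A : Type*} [NormedRing A] [NormedAlgebra ℂ A] [CompleteSpace A] {f : V → A}
    (hf : NC f S) (hu : ∀ x ∈ S, IsUnit (f x)) : NC (fun x => Ring.inverse (f x)) S := by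
  refine comp_diffOn (Φ := Ring.inverse) (U := {a | IsUnit a}) ?_ hf hu
  rintro a ⟨u, rfl⟩
  exact (differentiableAt_inverse (𝕜 := ℂ) u.isUnit).differentiableWithinAt

theorem inv {f : V → ℂ} (hf : NC f S) (hu : ∀ x ∈ S, f x ≠ 0) : NC (fun x => (f x)⁻¹) S := by
  refine comp_diffOn (Φ := fun z : ℂ => z⁻¹) (U := {a | a ≠ 0}) ?_ hf hu
  intro a ha
  exact (differentiableAt_inv ha).differentiableWithinAt

theorem sum {ι : Type*} (s : Finset ι) {f : ι → V → E} (h : ∀ i ∈ s, NC (f i) S) :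
    NC (fun x => ∑ i ∈ s, f i x) S :=
  ⟨continuousOn_finsetSum _ (fun i hi => (h i hi).1), fun γ Δ hΔ hγ hm =>
    DifferentiableOn.fun_sum (fun i hi => (h i hi).2 γ Δ hΔ hγ hm)⟩

theorem prod {ι : Type*} (s : Finset ι) {f : ι → V → ℂ} (h : ∀ i ∈ s, NC (f i) S) :
    NC (fun x => ∏ i ∈ s, f i x) S :=
  ⟨continuousOn_finsetProd _ (fun i hi => (h i hi).1), fun γ Δ hΔ hγ hm =>
    DifferentiableOn.fun_finsetProd (fun i hi => (h i hi).2 γ Δ hΔ hγ hm)⟩

theorem pi {ι : Type*} [Fintype ι] {E : ι → Type*} [∀ i, NormedAddCommGroup (E i)]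
    [∀ i, NormedSpace ℂ (E i)] {f : V → ∀ i, E i} (h : ∀ i, NC (fun x => f x i) S) : NC f S :=
  ⟨continuousOn_pi.2 (fun i => (h i).1), fun γ Δ hΔ hγ hm =>
    differentiableOn_pi.2 (fun i => (h i).2 γ Δ hΔ hγ hm)⟩

theorem apply {ι : Type*} [Fintype ι] {E : ι → Type*} [∀ i, NormedAddCommGroup (E i)]
    [∀ i, NormedSpace ℂ (E i)] {f : V → ∀ i, E i} (h : NC f S) (i : ι) : NC (fun x => f x i) S :=
  comp_diff (Φ := fun p : ∀ i, E i => p i) (by fun_prop) h

/-- `NC` is a local property. -/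
theorem of_local (h : ∀ x ∈ S, ∃ O, IsOpen O ∧ x ∈ O ∧ NC f (S ∩ O)) : NC f S := by
  refine ⟨fun x hx => ?_, fun γ Δ hΔ hγ hm z hz => ?_⟩
  · obtain ⟨O, hO, hxO, hf⟩ := h x hx
    exact (hf.1 x ⟨hx, hxO⟩).mono_of_mem_nhdsWithin (inter_mem_nhdsWithin S (hO.mem_nhds hxO))
  · obtain ⟨O, hO, hxO, hf⟩ := h _ (hm hz)
    have hopen : IsOpen (Δ ∩ γ ⁻¹' O) := hγ.continuousOn.isOpen_inter_preimage hΔ hO
    have := hf.2 γ (Δ ∩ γ ⁻¹' O) hopen (hγ.mono inter_subset_left)
      (fun w hw => ⟨hm hw.1, hw.2⟩)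
    exact (this.differentiableAt (hopen.mem_nhds ⟨hz, hxO⟩)).differentiableWithinAt

theorem union (hS : IsOpen S) (hT : IsOpen T) (h1 : NC f S) (h2 : NC f T) : NC f (S ∪ T) := by
  refine of_local ?_
  rintro x (hx | hx)
  · exact ⟨S, hS, hx, h1.mono inter_subset_right⟩
  · exact ⟨T, hT, hx, h2.mono inter_subset_right⟩

theorem of_tendstoUniformlyOn [CompleteSpace E] {ι : Type*} {l : Filter ι} [l.NeBot]
    {F : ι → V → E} (hF : ∀ i, NC (F i) S) (h : TendstoUniformlyOn F f l S) : NC f S := by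
  refine ⟨h.continuousOn (Eventually.of_forall fun i => (hF i).1).frequently,
    fun γ Δ hΔ hγ hm => ?_⟩
  have h2 : TendstoUniformlyOn (fun i z => F i (γ z)) (fun z => f (γ z)) l Δ := by
    intro u hu
    filter_upwards [h u hu] with i hi z hz using hi _ (hm hz)
  exact h2.tendstoLocallyUniformlyOn.differentiableOn
    (Eventually.of_forall fun i => (hF i).2 γ Δ hΔ hγ hm) hΔ

theorem differentiableOn_line {f : ℂ → E} {Δ : Set ℂ} (hΔ : IsOpen Δ) (h : NC f Δ) :
    DifferentiableOn ℂ f Δ := h.2 id Δ hΔ differentiableOn_id (mapsTo_id _)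

end NC

/-- holomorphic dependence of an interval integral on a complex parameter. -/
theorem differentiableOn_intervalIntegral [CompleteSpace E] {F : ℂ → ℝ → E} {Δ : Set ℂ}
    (hΔ : IsOpen Δ) {a b : ℝ} (hab : a ≤ b)
    (hc : ContinuousOn (Function.uncurry F) (Δ ×ˢ Icc a b))
    (hd : ∀ t ∈ Icc a b, DifferentiableOn ℂ (fun z => F z t) Δ) :
    DifferentiableOn ℂ (fun z => ∫ t in a..b, F z t) Δ := by
  intro z₀ hz₀
  obtain ⟨r, hr, hrΔ⟩ := Metric.isOpen_iff.1 hΔ z₀ hz₀
  have hcl : closedBall z₀ (r / 2) ⊆ Δ := fun x hx => hrΔ (by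
    rw [mem_closedBall] at hx; rw [mem_ball]; linarith)
  have hK : IsCompact (closedBall z₀ (r / 2) ×ˢ Icc a b) :=
    (isCompact_closedBall _ _).prod isCompact_Icc
  obtain ⟨M, hM⟩ := hK.exists_bound_of_continuousOn (hc.mono (prod_mono hcl le_rfl))
  have hcs : ∀ z ∈ Δ, ContinuousOn (F z) (Icc a b) := fun z hz =>
    hc.comp (f := fun t => (z, t)) (by fun_prop) (fun t ht => ⟨hz, ht⟩)
  have hmeas : ∀ z ∈ Δ, AEStronglyMeasurable (F z) (volume.restrict (uIoc a b)) := by
    intro z hz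
    rw [uIoc_of_le hab]
    exact ((hcs z hz).mono Ioc_subset_Icc_self).aestronglyMeasurable measurableSet_Ioc
  have hint : IntervalIntegrable (F z₀) volume a b := by
    apply ContinuousOn.intervalIntegrable
    rw [uIcc_of_le hab]
    exact hcs z₀ hz₀
  have hsub : ∀ x ∈ ball z₀ (r / 4), closedBall x (r / 4) ⊆ closedBall z₀ (r / 2) := by
    intro x hx y hy
    rw [mem_ball] at hx
    rw [mem_closedBall] at hy ⊢
    calc dist y z₀ ≤ dist y x + dist x z₀ := dist_triangle _ _ _
      _ ≤ r / 2 := by linarith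
  have hr4 : (0 : ℝ) < r / 4 := by linarith
  have hderiv : ∀ t ∈ Icc a b, ∀ x ∈ ball z₀ (r / 4),
      HasDerivAt (fun z => F z t) (deriv (fun z => F z t) x) x := by
    intro t ht x hx
    have hxΔ : x ∈ Δ := hcl (hsub x hx (mem_closedBall_self hr4.le))
    exact ((hd t ht).differentiableAt (hΔ.mem_nhds hxΔ)).hasDerivAt
  have hF' : AEStronglyMeasurable (fun t => deriv (fun z => F z t) z₀)
      (volume.restrict (uIoc a b)) := by
    have hseq : ∀ n : ℕ, z₀ + ((r / 8 / (n + 1) : ℝ) : ℂ) ∈ Δ := by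
      intro n
      apply hrΔ
      rw [mem_ball, dist_eq_norm, add_sub_cancel_left, Complex.norm_real, Real.norm_eq_abs,
        abs_of_pos (by positivity)]
      have : r / 8 / (n + 1) ≤ r / 8 := div_le_self (by linarith) (by linarith [n.cast_nonneg (α := ℝ)])
      linarith
    refine aestronglyMeasurable_of_tendsto_ae (u := atTop)
      (f := fun (n : ℕ) t => (((r / 8 / (n + 1) : ℝ) : ℂ))⁻¹ • (F (z₀ + ((r / 8 / (n + 1) : ℝ) : ℂ)) t - F z₀ t))
      (fun n => ((hmeas _ (hseq n)).sub (hmeas _ hz₀)).const_smul _) ?_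
    rw [ae_restrict_iff' measurableSet_uIoc]
    refine Eventually.of_forall (fun t ht => ?_)
    have ht' : t ∈ Icc a b := by
      rw [uIoc_of_le hab] at ht; exact Ioc_subset_Icc_self ht
    have h1 := (hasDerivAt_iff_tendsto_slope_zero.1 (hderiv t ht' z₀ (mem_ball_self hr4)))
    refine h1.comp ?_
    rw [tendsto_nhdsWithin_iff]
    constructor
    · have : Tendsto (fun n : ℕ => ((r / 8 / (n + 1) : ℝ) : ℂ)) atTop (𝓝 ((0 : ℝ) : ℂ)) := by
        refine (Complex.continuous_ofReal.tendsto _).comp ?_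
        exact tendsto_const_div_atTop_nhds_zero_nat (r / 8) |>.comp (tendsto_add_atTop_nat 1)
          |>.congr (fun n => by simp)
      simpa using this
    · refine Eventually.of_forall (fun n => ?_)
      simp only [mem_compl_iff, mem_singleton_iff]
      rw [Complex.ofReal_eq_zero]
      positivity
  have := intervalIntegral.hasDerivAt_integral_of_dominated_loc_of_deriv_le (μ := volume)
    (F := F) (F' := fun z t => deriv (fun z => F z t) z) (x₀ := z₀) (a := a) (b := b)
    (s := ball z₀ (r / 4)) (bound := fun _ => M / (r / 4)) (ball_mem_nhds _ hr4)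
    (by
      filter_upwards [hΔ.mem_nhds hz₀] with z hz using hmeas z hz)
    hint hF'
    (by
      refine Eventually.of_forall (fun t ht x hx => ?_)
      have ht' : t ∈ Icc a b := by
        rw [uIoc_of_le hab] at ht; exact Ioc_subset_Icc_self ht
      refine Complex.norm_deriv_le_of_forall_mem_sphere_norm_le hr4 ?_ (fun z hz => ?_)
      · refine DifferentiableOn.diffContOnCl ?_
        refine (hd t ht').mono ?_
        rw [closure_ball _ hr4.ne']
        exact (hsub x hx).trans hcl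
      · exact hM (z, t) ⟨hsub x hx (sphere_subset_closedBall hz), ht'⟩)
    intervalIntegrable_const
    (by
      refine Eventually.of_forall (fun t ht x hx => ?_)
      have ht' : t ∈ Icc a b := by
        rw [uIoc_of_le hab] at ht; exact Ioc_subset_Icc_self ht
      exact hderiv t ht' x hx)
  exact this.2.differentiableAt.differentiableWithinAt

namespace NC

variable {S : Set V}

theorem intervalIntegral [CompleteSpace E] {f : V → ℝ → E} {a b : ℝ} (hab : a ≤ b)
    (hc : ContinuousOn (Function.uncurry f) (S ×ˢ Icc a b))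
    (hd : ∀ t ∈ Icc a b, NC (fun x => f x t) S) : NC (fun x => ∫ t in a..b, f x t) S := by
  refine ⟨?_, fun γ Δ hΔ hγ hm => ?_⟩
  · rw [continuousOn_iff_continuous_domRestrict]
    have h1 : Continuous (fun p : S × ℝ => f p.1 (projIcc a b hab p.2)) := by
      have := continuousOn_iff_continuous_domRestrict.1 hc
      have h2 : Continuous (fun p : S × ℝ =>
          (⟨((p.1 : V), ((projIcc a b hab p.2 : Icc a b) : ℝ)), ⟨p.1.2, (projIcc a b hab p.2).2⟩⟩ :
            (S ×ˢ Icc a b : Set (V × ℝ)))) := by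
        refine Continuous.subtype_mk ?_ _
        refine (continuous_subtype_val.comp continuous_fst).prodMk
          (continuous_subtype_val.comp (continuous_projIcc.comp continuous_snd))
      exact this.comp h2
    have h3 := intervalIntegral.continuous_parametric_intervalIntegral_of_continuous'
      (μ := volume) (f := fun (x : S) (t : ℝ) => f x (projIcc a b hab t)) h1 a b
    refine h3.congr (fun x => ?_)
    simp only [domRestrict_apply]
    apply intervalIntegral.integral_congr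
    intro t ht
    rw [uIcc_of_le hab] at ht
    simp [projIcc_of_mem hab ht]
  · refine differentiableOn_intervalIntegral hΔ hab ?_ (fun t ht => (hd t ht).2 γ Δ hΔ hγ hm)
    have h1 : ContinuousOn (fun p : ℂ × ℝ => (γ p.1, p.2)) (Δ ×ˢ Icc a b) := by
      refine ContinuousOn.prodMk ?_ continuous_snd.continuousOn
      exact hγ.continuousOn.comp continuous_fst.continuousOn (fun p hp => hp.1)
    exact hc.comp h1 (fun p hp => ⟨hm hp.1, hp.2⟩)

theorem circleIntegral [CompleteSpace E] {f : V → ℂ → E} {c : ℂ} {R : ℝ} (hR : 0 ≤ R)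
    (hc : ContinuousOn (Function.uncurry f) (S ×ˢ sphere c R))
    (hd : ∀ ζ ∈ sphere c R, NC (fun x => f x ζ) S) : NC (fun x => ∮ ζ in C(c, R), f x ζ) S := by
  unfold _root_.circleIntegral
  refine NC.intervalIntegral (by positivity) ?_ (fun t _ => ?_)
  · have h1 : ContinuousOn (fun p : V × ℝ => f p.1 (circleMap c R p.2)) (S ×ˢ Icc 0 (2 * Real.pi)) := by
      refine hc.comp (f := fun p : V × ℝ => (p.1, circleMap c R p.2)) ?_
        (fun p hp => ⟨hp.1, circleMap_mem_sphere c hR p.2⟩)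
      exact (continuous_fst.prodMk ((continuous_circleMap c R).comp continuous_snd)).continuousOn
    have h2 : ContinuousOn (fun p : V × ℝ => deriv (circleMap c R) p.2)
        (S ×ˢ Icc 0 (2 * Real.pi)) := by
      simp only [deriv_circleMap]
      have : Continuous (fun p : V × ℝ => circleMap 0 R p.2 * Complex.I) :=
        ((continuous_circleMap 0 R).comp continuous_snd).mul continuous_const
      exact this.continuousOn
    exact h2.smul h1
  · exact const_smul _ (hd _ (circleMap_mem_sphere c hR t))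

end NC

end Pool.Agent.Work.MP_77a596_an
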