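import Pool.Agent.Work.MP_77a596_an.Ann

set_option autoImplicit false
set_option linter.unusedVariables false
set_option linter.unusedSectionVars false

open Set Metric Filter Topology MeasureTheory Complex

namespace Pool.Agent.Work.MP_77a596_an

universe v

abbrev VV (k : ℕ) := (Fin k → ℂ) × ℂ
noncomputable abbrev MM (k : ℕ) := VV k →L[ℂ] VV k

noncomputable def eE (k : ℕ) : MM k :=
  (ContinuousLinearMap.inr ℂ (Fin k → ℂ) ℂ).comp (ContinuousLinearMap.snd ℂ (Fin k → ℂ) ℂ)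

variable {k : ℕ}

theorem eE_apply (v : VV k) : eE k v = (0, v.2) := rfl

theorem eE_mul_iff {x : MM k} : eE k * x = eE k ↔ ∀ v, (x v).2 = v.2 := by
  constructor
  · intro h v
    have := congrArg (fun T : MM k => (T v).2) h
    simpa [eE_apply] using this
  · intro h
    ext v
    · simp [eE_apply]
    · simp [eE_apply, h]
    · simp [eE_apply]
    · simp [eE_apply, h]

theorem eE_eE : eE k * eE k = eE k := eE_mul_iff.2 (fun v => rfl)

variable {P : Type v} [NormedAddCommGroup P] [NormedSpace ℂ P]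
variable {E : Type*} [NormedAddCommGroup E] [NormedSpace ℂ E] [CompleteSpace E]
variable {M' : Type*} [NormedRing M'] [NormedAlgebra ℂ M'] {e : M'} [CompleteSpace M']
  [NormOneClass M']

theorem aff_inv {x : M'} (hx : IsUnit x) (h : e * x = e) : e * Ring.inverse x = e := by
  calc e * Ring.inverse x = (e * x) * Ring.inverse x := by rw [h]
    _ = e := by rw [mul_assoc, Ring.mul_inverse_cancel _ hx, mul_one]

theorem disc_poly {f : ℂ → E} {r R' : ℝ} (hr0 : 0 ≤ r) (hr : r < R')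
    (hf : DifferentiableOn ℂ f (ball 0 R')) :
    ∀ ε > 0, ∃ (n : ℕ) (c : ℕ → E), ∀ w ∈ ball (0 : ℂ) r,
      ‖∑ j ∈ Finset.range n, w ^ j • c j - f w‖ ≤ ε := by
  intro ε hε
  set R : ℝ := (r + R') / 2 with hR
  have hR0 : 0 < R := by rw [hR]; linarith
  have hrR : r < R := by rw [hR]; linarith
  have hRR : R < R' := by rw [hR]; linarith
  lift R to NNReal using hR0.le with R1
  lift r to NNReal using hr0 with r1
  have h1 := (hf.mono (closedBall_subset_ball hRR)).hasFPowerSeriesOnBall (R := R1) (by exact_mod_cast hR0)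
  have h2 := h1.tendstoUniformlyOn' (r' := r1) (by exact_mod_cast hrR)
  rw [Metric.tendstoUniformlyOn_iff] at h2
  obtain ⟨n, hn⟩ := (h2 ε hε).exists
  refine ⟨n, fun j => (cauchyPowerSeries f 0 R1).coeff j, fun w hw => ?_⟩
  have := (hn w hw).le
  simp only [FormalMultilinearSeries.partialSum, FormalMultilinearSeries.apply_eq_pow_smul_coeff,
    sub_zero] at this
  rw [← dist_eq_norm, dist_comm]
  exact this

theorem exists_kappa : ∃ κ > 0, κ ≤ 1 / 2 ∧ ∀ (P0 : Set P) (Φ : P × ℂ → M'),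
    NC Φ (P0 ×ˢ ann (31 / 20) (39 / 20)) →
    (∀ x ∈ P0 ×ˢ ann (31 / 20) (39 / 20), ‖Φ x - 1‖ ≤ κ ∧ e * Φ x = e) →
    ∃ a b : P × ℂ → M', NC a (P0 ×ˢ outer (33 / 20)) ∧ NC b (P0 ×ˢ ball (0 : ℂ) (37 / 20)) ∧
      (∀ x ∈ P0 ×ˢ outer (33 / 20), ‖a x - 1‖ ≤ 1 / 2 ∧ e * a x = e) ∧
      (∀ x ∈ P0 ×ˢ ball (0 : ℂ) (37 / 20), ‖b x - 1‖ ≤ 1 / 2 ∧ e * b x = e) ∧
      ∀ x ∈ P0 ×ˢ ann (33 / 20) (37 / 20), Φ x * a x = b x := by
  obtain ⟨C, hC, hasl⟩ := asl_annulus (P := P) (ContinuousLinearMap.mul ℂ M' e)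
    (R := 7 / 4) (s0 := 1 / 10) (s1 := 1 / 5) (by norm_num) (by norm_num) (by norm_num)
  obtain ⟨κ, hκ, hκ2, hmsl⟩ := msl (P := P) (M' := M') hC
  refine ⟨κ, hκ, hκ2, fun P0 Φ hΦ hΦ2 => ?_⟩
  have hmem : ∀ {z : M'}, z - 1 ∈ LinearMap.ker ((ContinuousLinearMap.mul ℂ M' e : M' →L[ℂ] M') :
      M' →ₗ[ℂ] M') ↔ e * z = e := by
    intro z
    rw [LinearMap.mem_ker]
    constructor
    · intro hz
      have hz' : e * (z - 1) = 0 := hz
      rw [mul_sub, mul_one, sub_eq_zero] at hz'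
      exact hz'
    · intro hz
      show e * (z - 1) = 0
      rw [mul_sub, mul_one, hz, sub_self]
  have e1 : (7 / 4 - (1 / 10 + (1 / 5 - 1 / 10) * 1) : ℝ) = 31 / 20 := by norm_num
  have e2 : (7 / 4 + (1 / 10 + (1 / 5 - 1 / 10) * 1) : ℝ) = 39 / 20 := by norm_num
  have e3 : (7 / 4 - (1 / 10 + (1 / 5 - 1 / 10) * 0) : ℝ) = 33 / 20 := by norm_num
  have e4 : (7 / 4 + (1 / 10 + (1 / 5 - 1 / 10) * 0) : ℝ) = 37 / 20 := by norm_num
  obtain ⟨α, β, hα1, hβ1, hα2, hβ2, hαβ⟩ := hmsl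
    (LinearMap.ker ((ContinuousLinearMap.mul ℂ M' e : M' →L[ℂ] M') : M' →ₗ[ℂ] M'))
    (ContinuousLinearMap.isClosed_ker _) (by
      intro x hx z
      rw [LinearMap.mem_ker] at hx ⊢
      have hx' : e * x = 0 := hx
      show e * (x * z) = 0
      rw [← mul_assoc, hx', zero_mul]) P0
    (fun t => outer (7 / 4 - (1 / 10 + (1 / 5 - 1 / 10) * t)))
    (fun t => ball 0 (7 / 4 + (1 / 10 + (1 / 5 - 1 / 10) * t)))
    (fun s t hs hst ht w hw => by
      have : 7 / 4 - (1 / 10 + (1 / 5 - 1 / 10) * s) < ‖w‖ := hw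
      show 7 / 4 - (1 / 10 + (1 / 5 - 1 / 10) * t) < ‖w‖
      linarith)
    (fun s t hs hst ht => ball_subset_ball (by linarith)) (hasl P0) Φ
    (by simp only [e1, e2]; rw [← ann_eq]; exact hΦ)
    (by
      simp only [e1, e2]; rw [← ann_eq]
      intro x hx
      exact ⟨(hΦ2 x hx).1, hmem.2 (hΦ2 x hx).2⟩)
  simp only [e3, e4] at hα1 hβ1 hα2 hβ2 hαβ
  rw [← ann_eq] at hαβ
  exact ⟨α, β, hα1, hβ1, fun x hx => ⟨(hα2 x hx).1, hmem.1 (hα2 x hx).2⟩,
    fun x hx => ⟨(hβ2 x hx).1, hmem.1 (hβ2 x hx).2⟩, hαβ⟩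

/-- closed annulus -/
def cann (a b : ℝ) : Set ℂ := {w | a ≤ ‖w‖ ∧ ‖w‖ ≤ b}

theorem isCompact_cann (a b : ℝ) : IsCompact (cann a b) := by
  refine (isCompact_closedBall (0 : ℂ) b).of_isClosed_subset ?_ (fun w hw => by simpa using hw.2)
  exact (isClosed_le continuous_const continuous_norm).inter (isClosed_le continuous_norm continuous_const)

theorem diffOn_ringInverse {f : ℂ → M'} {S : Set ℂ} (hf : DifferentiableOn ℂ f S)
    (hu : ∀ w ∈ S, IsUnit (f w)) : DifferentiableOn ℂ (fun w => Ring.inverse (f w)) S := by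
  intro w hw
  obtain ⟨u, hu⟩ := hu w hw
  have h2 : DifferentiableAt ℂ Ring.inverse (f w) := by
    rw [← hu]; exact differentiableAt_inverse (𝕜 := ℂ) u.isUnit
  exact h2.comp_differentiableWithinAt w (hf w hw)

theorem nf_core : ∃ κ > 0, κ ≤ 1 / 2 ∧ ∀ (G : P × ℂ → M') (y1 : P) (r : ℝ), 0 < r →
    NC G (ball y1 r ×ˢ ann (3 / 2) 2) →
    (∀ x ∈ ball y1 r ×ˢ ann (3 / 2) 2, e * G x = e) → ∀ L : ℂ → M',
    DifferentiableOn ℂ L (outer (61 / 40)) → (∀ w ∈ outer (61 / 40), e * L w = e) →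
    (∀ w ∈ cann (31 / 20) (39 / 20), IsUnit (L w) ∧ ‖G (y1, w) * Ring.inverse (L w) - 1‖ < κ) →
    ∃ r' > 0, r' ≤ r ∧ ∃ a b : P × ℂ → M', NC a (ball y1 r' ×ˢ outer (33 / 20)) ∧
      NC b (ball y1 r' ×ˢ ball (0 : ℂ) (37 / 20)) ∧
      (∀ x ∈ ball y1 r' ×ˢ outer (33 / 20), ‖a x - 1‖ ≤ 1 / 2 ∧ e * a x = e) ∧
      (∀ x ∈ ball y1 r' ×ˢ ball (0 : ℂ) (37 / 20), ‖b x - 1‖ ≤ 1 / 2 ∧ e * b x = e) ∧
      ∀ x ∈ ball y1 r' ×ˢ ann (33 / 20) (37 / 20), G x * Ring.inverse (L x.2) * a x = b x := by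
  obtain ⟨κ, hκ, hκ2, hk⟩ := exists_kappa (P := P) (M' := M') (e := e)
  refine ⟨κ, hκ, hκ2, fun G y1 r hr hG hGe L hL hLe hLu => ?_⟩
  set K := cann (31 / 20) (39 / 20) with hK
  -- units of L on a slightly larger open set
  set O : Set ℂ := outer (61 / 40) ∩ ann (3 / 2) 2 ∩ {w | IsUnit (L w)} with hO
  have hOopen : IsOpen O := by
    have h1 : IsOpen (outer (61 / 40) ∩ ann (3 / 2) 2) := (isOpen_outer _).inter (isOpen_ann _ _)
    exact (hL.continuousOn.mono inter_subset_left).isOpen_inter_preimage h1 Units.isOpen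
  have hKO : K ⊆ O := by
    rintro w ⟨h1, h2⟩
    refine ⟨⟨?_, ?_, ?_⟩, (hLu w ⟨h1, h2⟩).1⟩
    · show (61 / 40 : ℝ) < ‖w‖; linarith
    · show (3 / 2 : ℝ) < ‖w‖; linarith
    · show ‖w‖ < (2 : ℝ); linarith
  have hLinv : DifferentiableOn ℂ (fun w => Ring.inverse (L w)) O :=
    diffOn_ringInverse (hL.mono (fun w hw => hw.1.1)) (fun w hw => hw.2)
  set Φ : P × ℂ → M' := fun x => G x * Ring.inverse (L x.2) with hΦ
  have hΦnc : NC Φ (ball y1 r ×ˢ O) :=
    NC.mul (hG.mono (prod_mono le_rfl (fun w hw => hw.1.2)))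
      (NC.of_differentiableOn (hLinv.comp differentiable_snd.differentiableOn (fun x hx => hx.2)))
  have hopen : IsOpen ((ball y1 r ×ˢ O) ∩ Φ ⁻¹' (ball 1 κ)) :=
    hΦnc.1.isOpen_inter_preimage (isOpen_ball.prod hOopen) isOpen_ball
  obtain ⟨O1, O2, hO1, hO2, hyO1, hKO2, hO12⟩ := generalized_tube_lemma (isCompact_singleton (x := y1))
    (isCompact_cann (31 / 20) (39 / 20)) hopen (by
      rintro ⟨y', w⟩ ⟨hy', hw⟩
      rw [mem_singleton_iff] at hy'
      simp only at hy' hw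
      subst hy'
      refine ⟨⟨mem_ball_self hr, hKO hw⟩, ?_⟩
      rw [mem_preimage, mem_ball, dist_eq_norm]
      exact (hLu w hw).2)
  obtain ⟨r', hr', hr'O⟩ := Metric.isOpen_iff.1 hO1 y1 (hyO1 rfl)
  set r'' := min r r' with hr''
  have hr''pos : 0 < r'' := by positivity
  have hannK : ann (31 / 20) (39 / 20) ⊆ K := fun w hw => ⟨hw.1.le, hw.2.le⟩
  have hsub2 : ball y1 r'' ×ˢ ann (31 / 20) (39 / 20) ⊆ (ball y1 r ×ˢ O) ∩ Φ ⁻¹' (ball 1 κ) := by
    rintro ⟨y', w⟩ ⟨hy', hw⟩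
    exact hO12 ⟨hr'O (ball_subset_ball (min_le_right _ _) hy'), hKO2 (hannK hw)⟩
  obtain ⟨a, b, ha, hb, ha2, hb2, hab⟩ := hk (ball y1 r'') Φ
    (hΦnc.mono (fun x hx => (hsub2 hx).1)) (by
      intro x hx
      have hx2 := hsub2 hx
      have h1 : dist (Φ x) 1 < κ := hx2.2
      rw [dist_eq_norm] at h1
      refine ⟨h1.le, ?_⟩
      simp only [hΦ]
      rw [← mul_assoc, hGe x ⟨hx2.1.1, hx2.1.2.1.2⟩, aff_inv hx2.1.2.2 (hLe x.2 hx2.1.2.1.1)])
  exact ⟨r'', hr''pos, min_le_left _ _, a, b, ha, hb, ha2, hb2, hab⟩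

/-- existence of the middle factor -/
theorem exists_L (hee : e * e = e) {G1 : ℂ → M'} (hG : DifferentiableOn ℂ G1 (ann (3 / 2) 2))
    (hGu : ∀ w ∈ ann (3 / 2) 2, IsUnit (G1 w) ∧ e * G1 w = e) {κ : ℝ} (hκ : 0 < κ) :
    ∃ (L : ℂ → M') (C : ℝ) (M : ℕ), DifferentiableOn ℂ L (outer (61 / 40)) ∧
      (∀ w ∈ outer (61 / 40), e * L w = e) ∧ (∀ w, 31 / 20 ≤ ‖w‖ → ‖L w‖ ≤ C * ‖w‖ ^ M) ∧
      (∀ w ∈ cann (31 / 20) (39 / 20), IsUnit (L w) ∧ ‖G1 w * Ring.inverse (L w) - 1‖ < κ) := by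
  set kk : ℂ := (2 * Real.pi * I : ℂ)⁻¹ with hk
  have hk2 : kk * (2 * Real.pi * I : ℂ) = 1 := by
    rw [hk, inv_mul_cancel₀]; simp [Real.pi_ne_zero]
  set Jo : ℂ → M' := fun w => kk • ∮ ζ in C(0, 61 / 40), (ζ - w)⁻¹ • G1 ζ with hJo
  set Ji : ℂ → M' := fun w => kk • ∮ ζ in C(0, 79 / 40), (ζ - w)⁻¹ • G1 ζ with hJi
  have hso : sphere (0 : ℂ) (61 / 40) ⊆ ann (3 / 2) 2 := sphere_subset_ann (by norm_num) (by norm_num)
  have hsi : sphere (0 : ℂ) (79 / 40) ⊆ ann (3 / 2) 2 := sphere_subset_ann (by norm_num) (by norm_num)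
  have hJod : DifferentiableOn ℂ Jo (outer (61 / 40)) :=
    DifferentiableOn.const_smul (diff_cauchy (by norm_num) (isOpen_ann _ _) hG hso (isOpen_outer _)
      (fun w hw => (show (61 / 40 : ℝ) < ‖w‖ from hw).ne')) kk
  have hJid : DifferentiableOn ℂ Ji (ball 0 (79 / 40)) :=
    DifferentiableOn.const_smul (diff_cauchy (by norm_num) (isOpen_ann _ _) hG hsi isOpen_ball
      (fun w hw => by rw [mem_ball_zero_iff] at hw; exact hw.ne)) kk
  have hsplit : ∀ w, 61 / 40 < ‖w‖ → ‖w‖ < 79 / 40 → G1 w = Ji w - Jo w := by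
    intro w h1 h2
    have h3 := cauchy_ann (r := 61 / 40) (r' := 79 / 40) (by norm_num) (by norm_num) (by norm_num)
      h1 h2 hG
    rw [hJi, hJo]
    simp only
    rw [← smul_sub, h3, smul_smul, hk2, one_smul]
  obtain ⟨Bo, hBo⟩ := (isCompact_sphere (0 : ℂ) (61 / 40)).exists_bound_of_continuousOn
    (hG.continuousOn.mono hso)
  have hJob : ∀ w, 31 / 20 ≤ ‖w‖ → ‖Jo w‖ ≤ 61 / 40 * (40 * max Bo 0) := by
    intro w hw
    refine (circleIntegral.norm_two_pi_i_inv_smul_integral_le_of_norm_le_const (by norm_num)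
      (C := 40 * max Bo 0) (fun ζ hζ => ?_))
    rw [norm_smul, norm_inv]
    have hB := hBo ζ (by simpa using hζ)
    rw [mem_sphere_zero_iff_norm] at hζ
    have h1 : (1 / 40 : ℝ) ≤ ‖ζ - w‖ := by
      have := norm_sub_norm_le w ζ
      rw [hζ, norm_sub_rev] at this
      linarith
    have h2 : ‖ζ - w‖⁻¹ ≤ 40 := by
      rw [inv_le_comm₀ (by linarith) (by norm_num)]
      linarith
    gcongr
    exact hB.trans (le_max_left _ _)
  have hKann : cann (31 / 20) (39 / 20) ⊆ ann (3 / 2) 2 := fun w hw =>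
    ⟨by have := hw.1; linarith, by have := hw.2; linarith⟩
  have hinv : ContinuousOn (fun w => Ring.inverse (G1 w)) (cann (31 / 20) (39 / 20)) :=
    ((diffOn_ringInverse hG (fun w hw => (hGu w hw).1)).continuousOn).mono hKann
  obtain ⟨B0, hB0⟩ := (isCompact_cann (31 / 20) (39 / 20)).exists_bound_of_continuousOn hinv
  set B := max B0 0 + 1 with hB
  have hBpos : 0 < B := by positivity
  obtain ⟨n, c, hc⟩ := disc_poly (r := 157 / 80) (by norm_num) (by norm_num) hJid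
    (min κ 1 / (4 * B * (1 + ‖e‖))) (by positivity)
  set p : ℂ → M' := fun w => ∑ j ∈ Finset.range n, w ^ j • c j with hp
  have hpd : Differentiable ℂ p := by
    rw [hp]; fun_prop
  set L0 : ℂ → M' := fun w => p w - Jo w with hL0
  set L : ℂ → M' := fun w => e + (L0 w - e * L0 w) with hL
  have hL0d : DifferentiableOn ℂ L0 (outer (61 / 40)) := hpd.differentiableOn.sub hJod
  refine ⟨L, ‖e‖ + (1 + ‖e‖) * ((∑ j ∈ Finset.range n, ‖c j‖) + 61 / 40 * (40 * max Bo 0)), n,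
    ?_, ?_, ?_, ?_⟩
  · exact (differentiableOn_const e).add (hL0d.sub ((differentiableOn_const e).mul hL0d))
  · intro w _
    rw [hL]
    simp only
    rw [mul_add, mul_sub, ← mul_assoc, hee, sub_self, add_zero]
  · intro w hw
    have hw1 : 1 ≤ ‖w‖ := by linarith
    have hpn : ‖p w‖ ≤ (∑ j ∈ Finset.range n, ‖c j‖) * ‖w‖ ^ n := by
      rw [hp, Finset.sum_mul]
      refine norm_sum_le_of_le _ (fun j hj => ?_)
      rw [norm_smul, norm_pow, mul_comm]
      gcongr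
      exact (Finset.mem_range.1 hj).le
    have hJn : ‖Jo w‖ ≤ 61 / 40 * (40 * max Bo 0) * ‖w‖ ^ n :=
      (hJob w hw).trans (le_mul_of_one_le_right (by positivity) (one_le_pow₀ hw1))
    have hL0n : ‖L0 w‖ ≤ ((∑ j ∈ Finset.range n, ‖c j‖) + 61 / 40 * (40 * max Bo 0)) * ‖w‖ ^ n := by
      calc ‖L0 w‖ ≤ ‖p w‖ + ‖Jo w‖ := norm_sub_le _ _
        _ ≤ _ := by rw [add_mul]; exact add_le_add hpn hJn
    calc ‖L w‖ ≤ ‖e‖ + (‖L0 w‖ + ‖e‖ * ‖L0 w‖) := by
          refine (norm_add_le _ _).trans ?_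
          gcongr
          refine (norm_sub_le _ _).trans ?_
          gcongr
          exact norm_mul_le _ _
      _ = ‖e‖ + (1 + ‖e‖) * ‖L0 w‖ := by ring
      _ ≤ ‖e‖ * ‖w‖ ^ n + (1 + ‖e‖) * (((∑ j ∈ Finset.range n, ‖c j‖) +
          61 / 40 * (40 * max Bo 0)) * ‖w‖ ^ n) := by
          gcongr
          exact le_mul_of_one_le_right (norm_nonneg _) (one_le_pow₀ hw1)
      _ = _ := by ring
  · rintro w ⟨hw1, hw2⟩
    have hwann : w ∈ ann (3 / 2) 2 := hKann ⟨hw1, hw2⟩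
    have hu := hGu w hwann
    have h1 : L w - G1 w = (L0 w - G1 w) - e * (L0 w - G1 w) := by
      have hL' : L w = e + (L0 w - e * L0 w) := rfl
      rw [hL', mul_sub e (L0 w), hu.2]; abel
    have h2 : ‖L0 w - G1 w‖ ≤ min κ 1 / (4 * B * (1 + ‖e‖)) := by
      have : L0 w - G1 w = p w - Ji w := by
        rw [hsplit w (by linarith) (by linarith), hL0]; simp
      rw [this]
      exact hc w (by rw [mem_ball_zero_iff]; linarith)
    have h3 : ‖L w - G1 w‖ ≤ min κ 1 / (4 * B) := by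
      rw [h1]
      calc ‖(L0 w - G1 w) - e * (L0 w - G1 w)‖ ≤ ‖L0 w - G1 w‖ + ‖e‖ * ‖L0 w - G1 w‖ := by
            refine (norm_sub_le _ _).trans ?_
            gcongr
            exact norm_mul_le _ _
        _ = (1 + ‖e‖) * ‖L0 w - G1 w‖ := by ring
        _ ≤ (1 + ‖e‖) * (min κ 1 / (4 * B * (1 + ‖e‖))) := by gcongr
        _ = min κ 1 / (4 * B) := by field_simp
    have h4 : ‖L w * Ring.inverse (G1 w) - 1‖ ≤ min κ 1 / 4 := by
      have : L w * Ring.inverse (G1 w) - 1 = (L w - G1 w) * Ring.inverse (G1 w) := by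
        rw [sub_mul, Ring.mul_inverse_cancel _ hu.1]
      rw [this]
      calc ‖(L w - G1 w) * Ring.inverse (G1 w)‖ ≤ ‖L w - G1 w‖ * ‖Ring.inverse (G1 w)‖ :=
            norm_mul_le _ _
        _ ≤ min κ 1 / (4 * B) * B := by
            gcongr
            exact (hB0 w ⟨hw1, hw2⟩).trans (by rw [hB]; linarith [le_max_left B0 0])
        _ = min κ 1 / 4 := by field_simp
    have hm1 : min κ 1 ≤ 1 := min_le_right _ _
    have hm2 : min κ 1 ≤ κ := min_le_left _ _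
    have h5 : IsUnit (L w * Ring.inverse (G1 w)) := isUnit_of_near_one (by linarith)
    have h6 : IsUnit (L w) := by
      have : L w = (L w * Ring.inverse (G1 w)) * G1 w := by
        rw [mul_assoc, Ring.inverse_mul_cancel _ hu.1, mul_one]
      rw [this]
      exact h5.mul hu.1
    refine ⟨h6, ?_⟩
    have h7 := norm_inverse_sub_le (x := L w * Ring.inverse (G1 w)) (by linarith)
    have h8 : Ring.inverse (L w * Ring.inverse (G1 w)) = G1 w * Ring.inverse (L w) := by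
      obtain ⟨u, hu'⟩ := hu.1
      obtain ⟨v, hv⟩ := h6
      rw [← hu', ← hv, Ring.inverse_unit, ← Units.val_mul, Ring.inverse_unit, Ring.inverse_unit,
        ← Units.val_mul, mul_inv_rev, inv_inv]
    rw [h8] at h7
    have : 0 < min κ 1 := by positivity
    linarith

abbrev AA : Set ℂ := ann (33 / 20) (37 / 20)

def HM (β : ℂ → Fin k → ℂ) : Prop := ∀ n : ℕ, (∮ ζ in C(0, 7 / 4), (ζ ^ (n + 1))⁻¹ • β ζ) = 0

def SolAt (G : P × ℂ → MM k) (y : P) (β : ℂ → Fin k → ℂ) (l : ℂ) : Prop :=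
  ∀ n : ℕ, (∮ ζ in C(0, 7 / 4), ζ ^ n • G (y, ζ) (β ζ, l)) = 0

noncomputable def pol {M : ℕ} (q : Fin (M + 1) → Fin k → ℂ) (w : ℂ) : Fin k → ℂ :=
  ∑ j : Fin (M + 1), w ^ (j : ℕ) • q j

structure NFD (G : P × ℂ → MM k) (B : Set P) (M : ℕ) (N : P × ℂ → MM k) : Prop where
  nc : NC N (B ×ˢ AA)
  unit : ∀ x ∈ B ×ˢ AA, IsUnit (N x) ∧ eE k * N x = eE k
  fwd : ∀ y ∈ B, ∀ (β : ℂ → Fin k → ℂ) (l : ℂ), DifferentiableOn ℂ β AA → HM β → SolAt G y β l →
    ∃ q : Fin (M + 1) → Fin k → ℂ, ∀ w ∈ AA, (β w, l) = N (y, w) (pol q w, l)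
  bwd : ∀ y ∈ B, ∀ (q : Fin (M + 1) → Fin k → ℂ) (l : ℂ),
    SolAt G y (fun w => (N (y, w) (pol q w, l)).1) l

theorem inv_apply_of_unit {x : MM k} (hx : IsUnit x) (v : VV k) : Ring.inverse x (x v) = v := by
  have : (Ring.inverse x * x) v = v := by rw [Ring.inverse_mul_cancel _ hx]; rfl
  exact this

theorem apply_inv_of_unit {x : MM k} (hx : IsUnit x) (v : VV k) : x (Ring.inverse x v) = v := by
  have : (x * Ring.inverse x) v = v := by rw [Ring.mul_inverse_cancel _ hx]; rfl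
  exact this

theorem nfd_of_core {G : P × ℂ → MM k} {y1 : P} {r : ℝ}
    (hG : NC G (ball y1 r ×ˢ ann (3 / 2) 2))
    (hGu : ∀ x ∈ ball y1 r ×ˢ ann (3 / 2) 2, IsUnit (G x) ∧ eE k * G x = eE k)
    {L : ℂ → MM k} (hL : DifferentiableOn ℂ L (outer (61 / 40)))
    (hLe : ∀ w ∈ outer (61 / 40), eE k * L w = eE k) {C : ℝ} {M : ℕ}
    (hLg : ∀ w, 31 / 20 ≤ ‖w‖ → ‖L w‖ ≤ C * ‖w‖ ^ M)
    (hLu : ∀ w ∈ cann (31 / 20) (39 / 20), IsUnit (L w))
    {r' : ℝ} (hr' : r' ≤ r) {a b : P × ℂ → MM k}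
    (ha : NC a (ball y1 r' ×ˢ outer (33 / 20))) (hb : NC b (ball y1 r' ×ˢ ball (0 : ℂ) (37 / 20)))
    (ha2 : ∀ x ∈ ball y1 r' ×ˢ outer (33 / 20), ‖a x - 1‖ ≤ 1 / 2 ∧ eE k * a x = eE k)
    (hb2 : ∀ x ∈ ball y1 r' ×ˢ ball (0 : ℂ) (37 / 20), ‖b x - 1‖ ≤ 1 / 2 ∧ eE k * b x = eE k)
    (hab : ∀ x ∈ ball y1 r' ×ˢ ann (33 / 20) (37 / 20), G x * Ring.inverse (L x.2) * a x = b x) :
    NFD G (ball y1 r') M (fun x => Ring.inverse (L x.2) * a x) := by
  have hAK : AA ⊆ cann (31 / 20) (39 / 20) := fun w hw =>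
    ⟨by have := hw.1; linarith, by have := hw.2; linarith⟩
  have hAo : AA ⊆ outer (61 / 40) := fun w hw => by
    have := hw.1; show (61 / 40 : ℝ) < ‖w‖; linarith
  have hAo' : AA ⊆ outer (33 / 20) := fun w hw => hw.1
  have hAb : AA ⊆ ball 0 (37 / 20) := fun w hw => by rw [mem_ball_zero_iff]; exact hw.2
  have hAann : AA ⊆ ann (3 / 2) 2 := ann_mono (by norm_num) (by norm_num)
  have hLinv : DifferentiableOn ℂ (fun w => Ring.inverse (L w)) AA :=
    diffOn_ringInverse (hL.mono hAo) (fun w hw => hLu w (hAK hw))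
  have hau : ∀ x ∈ ball y1 r' ×ˢ outer (33 / 20), IsUnit (a x) := fun x hx =>
    isUnit_of_near_one (ha2 x hx).1
  have hbu : ∀ x ∈ ball y1 r' ×ˢ ball (0 : ℂ) (37 / 20), IsUnit (b x) := fun x hx =>
    isUnit_of_near_one (hb2 x hx).1
  have hslice : ∀ y ∈ ball y1 r', DifferentiableOn ℂ (fun w => G (y, w)) AA := by
    intro y hy
    exact hG.2 (fun w => (y, w)) AA (isOpen_ann _ _) (by fun_prop)
      (fun w hw => ⟨ball_subset_ball hr' hy, hAann hw⟩)
  constructor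
  · exact NC.mul (NC.of_differentiableOn (hLinv.comp differentiable_snd.differentiableOn
      (fun x hx => hx.2))) (ha.mono (prod_mono le_rfl hAo'))
  · intro x hx
    have h1 := hLu x.2 (hAK hx.2)
    refine ⟨h1.ringInverse.mul (hau x ⟨hx.1, hAo' hx.2⟩), ?_⟩
    rw [← mul_assoc, aff_inv h1 (hLe x.2 (hAo hx.2)), (ha2 x ⟨hx.1, hAo' hx.2⟩).2]
  · intro y hy β l hβ hHM hSol
    obtain ⟨βo, hβo1, hβo2, Cβ, hβo3⟩ := extend_out (a := 33 / 20) (b := 37 / 20) (R := 7 / 4)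
      (by norm_num) (by norm_num) (by norm_num) hβ hHM
    have hu : DifferentiableOn ℂ (fun w => G (y, w) (β w, l)) AA :=
      (hslice y hy).clm_apply (hβ.prodMk (differentiableOn_const l))
    obtain ⟨U, hU1, hU2⟩ := extend_in (a := 33 / 20) (b := 37 / 20) (R := 7 / 4)
      (by norm_num) (by norm_num) (by norm_num) hu hSol
    have had : DifferentiableOn ℂ (fun w => a (y, w)) (outer (33 / 20)) :=
      ha.2 (fun w => (y, w)) _ (isOpen_outer _) (by fun_prop) (fun w hw => ⟨hy, hw⟩)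
    have hbd : DifferentiableOn ℂ (fun w => b (y, w)) (ball 0 (37 / 20)) :=
      hb.2 (fun w => (y, w)) _ isOpen_ball (by fun_prop) (fun w hw => ⟨hy, hw⟩)
    set vo : ℂ → VV k := fun w => Ring.inverse (a (y, w)) (L w (βo w, l)) with hvo
    set vi : ℂ → VV k := fun w => Ring.inverse (b (y, w)) (U w) with hvi
    have hoo : outer (33 / 20) ⊆ outer (61 / 40) := fun w hw => by
      have : (33 / 20 : ℝ) < ‖w‖ := hw
      show (61 / 40 : ℝ) < ‖w‖; linarith
    have hvod : DifferentiableOn ℂ vo (outer (33 / 20)) :=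
      (diffOn_ringInverse had (fun w hw => hau (y, w) ⟨hy, hw⟩)).clm_apply
        ((hL.mono hoo).clm_apply (hβo1.prodMk (differentiableOn_const l)))
    have hvid : DifferentiableOn ℂ vi (ball 0 (37 / 20)) :=
      (diffOn_ringInverse hbd (fun w hw => hbu (y, w) ⟨hy, hw⟩)).clm_apply hU1
    have hagree : ∀ w ∈ AA, vi w = vo w := by
      intro w hw
      simp only [hvi, hvo]
      rw [hU2 w hw, hβo2 w hw]
      have h1 := hab (y, w) ⟨hy, hw⟩
      have hau' := hau (y, w) ⟨hy, hAo' hw⟩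
      have hbu' := hbu (y, w) ⟨hy, hAb hw⟩
      have hLu' := hLu w (hAK hw)
      have h2 : Ring.inverse (b (y, w)) * G (y, w) = Ring.inverse (a (y, w)) * L w := by
        have h3 : G (y, w) = b (y, w) * (Ring.inverse (a (y, w)) * L w) := by
          rw [← h1, mul_assoc, mul_assoc, ← mul_assoc (a (y, w)), Ring.mul_inverse_cancel _ hau', one_mul,
            Ring.inverse_mul_cancel _ hLu', mul_one]
        rw [h3, ← mul_assoc, Ring.inverse_mul_cancel _ hbu', one_mul]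
      exact congrArg (fun T : MM k => T (β w, l)) h2
    classical
    set v : ℂ → VV k := fun w => if ‖w‖ < 7 / 4 then vi w else vo w with hv
    have hvin : ∀ w ∈ ball (0 : ℂ) (37 / 20), v w = vi w := by
      intro w hw
      rw [mem_ball_zero_iff] at hw
      simp only [hv]
      by_cases h : ‖w‖ < 7 / 4
      · rw [if_pos h]
      · rw [if_neg h]
        exact (hagree w ⟨by linarith, hw⟩).symm
    have hvout : ∀ w ∈ outer (33 / 20), v w = vo w := by
      intro w hw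
      simp only [hv]
      by_cases h : ‖w‖ < 7 / 4
      · rw [if_pos h]
        exact hagree w ⟨hw, by linarith⟩
      · rw [if_neg h]
    have hvd : Differentiable ℂ v := by
      intro w
      by_cases h : ‖w‖ < 37 / 20
      · have hw : w ∈ ball (0 : ℂ) (37 / 20) := by simpa using h
        refine (hvid.differentiableAt (isOpen_ball.mem_nhds hw)).congr_of_eventuallyEq ?_
        filter_upwards [isOpen_ball.mem_nhds hw] with z hz using hvin z hz
      · have hw : w ∈ outer (33 / 20) := by show (33 / 20 : ℝ) < ‖w‖; linarith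
        refine (hvod.differentiableAt ((isOpen_outer _).mem_nhds hw)).congr_of_eventuallyEq ?_
        filter_upwards [(isOpen_outer _).mem_nhds hw] with z hz using hvout z hz
    obtain ⟨p, hp⟩ := poly_of_growth (M := M) hvd (C := 2 * (C * (max Cβ ‖l‖))) (R1 := 7 / 2) (by
      intro w hw
      have hw' : w ∈ outer (33 / 20) := by show (33 / 20 : ℝ) < ‖w‖; linarith
      rw [hvout w hw']
      simp only [hvo]
      have h1 : ‖Ring.inverse (a (y, w))‖ ≤ 2 := norm_inverse_le (ha2 (y, w) ⟨hy, hw'⟩).1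
      have h2 : ‖L w (βo w, l)‖ ≤ C * ‖w‖ ^ M * max Cβ ‖l‖ := by
        refine (ContinuousLinearMap.le_opNorm _ _).trans ?_
        have h3 : ‖((βo w, l) : VV k)‖ ≤ max Cβ ‖l‖ := by
          rw [Prod.norm_mk]
          exact max_le_max (hβo3 w (by linarith)) le_rfl
        have h4 := hLg w (by linarith)
        exact mul_le_mul h4 h3 (norm_nonneg _) ((norm_nonneg _).trans h4)
      calc ‖Ring.inverse (a (y, w)) (L w (βo w, l))‖ ≤ ‖Ring.inverse (a (y, w))‖ * ‖L w (βo w, l)‖ :=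
            ContinuousLinearMap.le_opNorm _ _
        _ ≤ 2 * (C * ‖w‖ ^ M * max Cβ ‖l‖) := by gcongr
        _ = 2 * (C * (max Cβ ‖l‖)) * ‖w‖ ^ M := by ring)
    refine ⟨fun j => (p j).1, fun w hw => ?_⟩
    have hvw : v w = (pol (fun j => (p j).1) w, l) := by
      apply Prod.ext
      · rw [hp w, pol, Prod.fst_sum]
        rfl
      · rw [hvout w (hAo' hw)]
        simp only [hvo]
        have h1 := eE_mul_iff.1 (aff_inv (hau (y, w) ⟨hy, hAo' hw⟩) (ha2 (y, w) ⟨hy, hAo' hw⟩).2)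
        rw [h1, eE_mul_iff.1 (hLe w (hAo hw))]
    have h2 := hvout w (hAo' hw)
    rw [hvw] at h2
    simp only [hvo] at h2
    show (β w, l) = (Ring.inverse (L w)) (a (y, w) (pol (fun j => (p j).1) w, l))
    rw [h2, apply_inv_of_unit (hau (y, w) ⟨hy, hAo' hw⟩), inv_apply_of_unit (hLu w (hAK hw)),
      hβo2 w hw]
  · intro y hy q l
    have hbd : DifferentiableOn ℂ (fun w => b (y, w)) (ball 0 (37 / 20)) :=
      hb.2 (fun w => (y, w)) _ isOpen_ball (by fun_prop) (fun w hw => ⟨hy, hw⟩)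
    have hpd : Differentiable ℂ (fun w : ℂ => (pol q w, l)) := by
      unfold pol
      fun_prop
    have hext : DifferentiableOn ℂ (fun w => b (y, w) (pol q w, l)) (ball 0 (37 / 20)) :=
      hbd.clm_apply hpd.differentiableOn
    intro n
    refine moments_of_ext (a := 33 / 20) (b := 37 / 20) (R := 7 / 4) (by norm_num) (by norm_num)
      (by norm_num) hext (fun w hw => ?_) n
    have h1 := hab (y, w) ⟨hy, hw⟩
    have haff : (Ring.inverse (L w) * a (y, w)) (pol q w, l) =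
        (((Ring.inverse (L w) * a (y, w)) (pol q w, l)).1, l) := by
      apply Prod.ext
      · rfl
      · have h2 : eE k * (Ring.inverse (L w) * a (y, w)) = eE k := by
          rw [← mul_assoc, aff_inv (hLu w (hAK hw)) (hLe w (hAo hw)), (ha2 (y, w) ⟨hy, hAo' hw⟩).2]
        exact eE_mul_iff.1 h2 _
    rw [← haff, ← h1]
    simp only [mul_apply_eq_comp, mul_assoc]

end Pool.Agent.Work.MP_77a596_an
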