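import Pool.Agent.Work.MP_77a596_an.MSL

set_option autoImplicit false
set_option linter.unusedVariables false
set_option linter.unusedSectionVars false

open Set Metric Filter Topology MeasureTheory Complex

namespace Pool.Agent.Work.MP_77a596_an

variable {E : Type*} [NormedAddCommGroup E] [NormedSpace ℂ E] [CompleteSpace E]

/-- boundary integral over a rectangle -/
noncomputable def rInt (a b c d : ℝ) (f : ℂ → E) : E :=
  (∫ x in a..b, f (x + c * I)) - (∫ x in a..b, f (x + d * I)) +
    I • (∫ y in c..d, f (b + y * I)) - I • ∫ y in c..d, f (a + y * I)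

theorem rInt_zero {a b c d : ℝ} (hab : a ≤ b) (hcd : c ≤ d) {f : ℂ → E}
    (hf : DifferentiableOn ℂ f (Icc a b ×ℂ Icc c d)) : rInt a b c d f = 0 := by
  have := integral_boundary_rect_eq_zero_of_differentiableOn f ⟨a, c⟩ ⟨b, d⟩
    (by simpa only [uIcc_of_le hab, uIcc_of_le hcd] using hf)
  simpa [rInt] using this

theorem int_log_of_slit {p q : ℝ} {e : ℝ → ℂ} {μ : ℂ} (he : ∀ t, HasDerivAt e μ t)
    (h : ∀ t ∈ uIcc p q, e t ∈ slitPlane) :
    ∫ t in p..q, μ * (e t)⁻¹ = log (e q) - log (e p) := by
  have hd : ∀ t ∈ uIcc p q, HasDerivAt (fun t => log (e t)) (μ * (e t)⁻¹) t := by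
    intro t ht
    have := (he t).clog_real (h t ht)
    rwa [div_eq_mul_inv] at this
  refine intervalIntegral.integral_eq_sub_of_hasDerivAt hd ?_
  apply ContinuousOn.intervalIntegrable
  have hec : Continuous e := continuous_iff_continuousAt.2 (fun t => (he t).continuousAt)
  exact continuousOn_const.mul (hec.continuousOn.inv₀ (fun t ht => slitPlane_ne_zero (h t ht)))

theorem rInt_kernel {a b c d : ℝ} {w : ℂ} (h1 : a < w.re) (h2 : w.re < b) (h3 : c < w.im)
    (h4 : w.im < d) : rInt a b c d (fun ζ => (ζ - w)⁻¹) = 2 * Real.pi * I := by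
  have hbot : ∫ x in a..b, ((x : ℂ) + c * I - w)⁻¹ = log (b + c * I - w) - log (a + c * I - w) := by
    have := int_log_of_slit (p := a) (q := b) (e := fun t : ℝ => (t : ℂ) + c * I - w) (μ := 1)
      (fun t => by
        have := (hasDerivAt_id (t : ℂ)).comp_ofReal
        exact (this.add_const (c * I)).sub_const w)
      (fun t _ => by
        rw [mem_slitPlane_iff]; right; simp; linarith)
    simpa using this
  have htop : ∫ x in a..b, ((x : ℂ) + d * I - w)⁻¹ = log (b + d * I - w) - log (a + d * I - w) := by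
    have := int_log_of_slit (p := a) (q := b) (e := fun t : ℝ => (t : ℂ) + d * I - w) (μ := 1)
      (fun t => by
        have := (hasDerivAt_id (t : ℂ)).comp_ofReal
        exact (this.add_const (d * I)).sub_const w)
      (fun t _ => by
        rw [mem_slitPlane_iff]; right; simp; linarith)
    simpa using this
  have hright : I * ∫ y in c..d, ((b : ℂ) + y * I - w)⁻¹
      = log (b + d * I - w) - log (b + c * I - w) := by
    have := int_log_of_slit (p := c) (q := d) (e := fun t : ℝ => (b : ℂ) + t * I - w) (μ := I)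
      (fun t => by
        have := (((hasDerivAt_id (t : ℂ)).comp_ofReal).mul_const I)
        simpa using (this.const_add (b : ℂ)).sub_const w)
      (fun t _ => by
        rw [mem_slitPlane_iff]; left; simp; linarith)
    rw [intervalIntegral.integral_const_mul] at this
    simpa using this
  have hleft : I * ∫ y in c..d, ((a : ℂ) + y * I - w)⁻¹
      = log (-(a + d * I - w)) - log (-(a + c * I - w)) := by
    have := int_log_of_slit (p := c) (q := d) (e := fun t : ℝ => -((a : ℂ) + t * I - w)) (μ := -I)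
      (fun t => by
        have := (((hasDerivAt_id (t : ℂ)).comp_ofReal).mul_const I)
        have h2 := ((this.const_add (a : ℂ)).sub_const w).fun_neg
        simpa only [id, one_mul, mul_one] using h2)
      (fun t _ => by
        rw [mem_slitPlane_iff]; left; simp; linarith)
    rw [intervalIntegral.integral_const_mul] at this
    rw [← this, neg_mul, ← mul_neg, ← intervalIntegral.integral_neg]
    congr 1
    apply intervalIntegral.integral_congr
    intro t _
    simp only
    rw [inv_neg, neg_neg]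
  have hbl : log (-(a + c * I - w)) = log (a + c * I - w) + Real.pi * I := by
    rw [log, log, arg_neg_eq_arg_add_pi_of_im_neg (by simp; linarith), norm_neg]
    push_cast; ring
  have htl : log (-(a + d * I - w)) = log (a + d * I - w) - Real.pi * I := by
    rw [log, log, arg_neg_eq_arg_sub_pi_of_im_pos (by simp; linarith), norm_neg]
    push_cast; ring
  simp only [rInt, smul_eq_mul]
  rw [hbot, htop, hright, hleft, hbl, htl]
  ring

theorem rInt_congr {a b c d : ℝ} (hab : a ≤ b) (hcd : c ≤ d) {f g : ℂ → E}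
    (h : ∀ ζ : ℂ, ζ.re ∈ Icc a b → ζ.im ∈ Icc c d → (ζ.re = a ∨ ζ.re = b ∨ ζ.im = c ∨ ζ.im = d) →
      f ζ = g ζ) : rInt a b c d f = rInt a b c d g := by
  have e1 : ∫ x in a..b, f (x + c * I) = ∫ x in a..b, g (x + c * I) := by
    apply intervalIntegral.integral_congr
    intro t ht
    rw [uIcc_of_le hab] at ht
    exact h _ (by simpa using ht) (by simpa using hcd) (by simp)
  have e2 : ∫ x in a..b, f (x + d * I) = ∫ x in a..b, g (x + d * I) := by
    apply intervalIntegral.integral_congr
    intro t ht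
    rw [uIcc_of_le hab] at ht
    exact h _ (by simpa using ht) (by simpa using hcd) (by simp)
  have e3 : ∫ y in c..d, f (b + y * I) = ∫ y in c..d, g (b + y * I) := by
    apply intervalIntegral.integral_congr
    intro t ht
    rw [uIcc_of_le hcd] at ht
    exact h _ (by simpa using hab) (by simpa using ht) (by simp)
  have e4 : ∫ y in c..d, f (a + y * I) = ∫ y in c..d, g (a + y * I) := by
    apply intervalIntegral.integral_congr
    intro t ht
    rw [uIcc_of_le hcd] at ht
    exact h _ (by simpa using hab) (by simpa using ht) (by simp)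
  simp only [rInt, e1, e2, e3, e4]

theorem rInt_sub {a b c d : ℝ} (hab : a ≤ b) (hcd : c ≤ d) {f g : ℂ → E}
    {S : Set ℂ} (hS : ∀ ζ : ℂ, ζ.re ∈ Icc a b → ζ.im ∈ Icc c d →
      (ζ.re = a ∨ ζ.re = b ∨ ζ.im = c ∨ ζ.im = d) → ζ ∈ S)
    (hf : ContinuousOn f S) (hg : ContinuousOn g S) :
    rInt a b c d (fun ζ => f ζ - g ζ) = rInt a b c d f - rInt a b c d g := by
  have i1 : ∀ {f : ℂ → E}, ContinuousOn f S → ∀ e ∈ ({c, d} : Set ℝ),
      IntervalIntegrable (fun x : ℝ => f (x + e * I)) volume a b := by
    intro f hf e he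
    apply ContinuousOn.intervalIntegrable
    rw [uIcc_of_le hab]
    refine hf.comp (by fun_prop) (fun t ht => ?_)
    rcases he with rfl | he
    · exact hS _ (by simpa using ht) (by simpa using hcd) (by simp)
    · rw [mem_singleton_iff] at he; subst he
      exact hS _ (by simpa using ht) (by simpa using hcd) (by simp)
  have i2 : ∀ {f : ℂ → E}, ContinuousOn f S → ∀ e ∈ ({a, b} : Set ℝ),
      IntervalIntegrable (fun y : ℝ => f (e + y * I)) volume c d := by
    intro f hf e he
    apply ContinuousOn.intervalIntegrable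
    rw [uIcc_of_le hcd]
    refine hf.comp (by fun_prop) (fun t ht => ?_)
    rcases he with rfl | he
    · exact hS _ (by simpa using hab) (by simpa using ht) (by simp)
    · rw [mem_singleton_iff] at he; subst he
      exact hS _ (by simpa using hab) (by simpa using ht) (by simp)
  simp only [rInt]
  rw [intervalIntegral.integral_sub (i1 hf c (by simp)) (i1 hg c (by simp)),
    intervalIntegral.integral_sub (i1 hf d (by simp)) (i1 hg d (by simp)),
    intervalIntegral.integral_sub (i2 hf b (by simp)) (i2 hg b (by simp)),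
    intervalIntegral.integral_sub (i2 hf a (by simp)) (i2 hg a (by simp))]
  simp only [smul_sub]
  abel

theorem rInt_smul_const {a b c d : ℝ} (k : ℂ → ℂ) (v : E) :
    rInt a b c d (fun ζ => k ζ • v) = rInt a b c d k • v := by
  simp only [rInt, intervalIntegral.integral_smul_const, smul_eq_mul, sub_smul, add_smul, mul_smul]

/-- Cauchy integral formula for rectangles. -/
theorem rInt_cauchy {a b c d : ℝ} {w : ℂ} (h1 : a < w.re) (h2 : w.re < b) (h3 : c < w.im)
    (h4 : w.im < d) {f : ℂ → E} {U : Set ℂ} (hU : IsOpen U) (hf : DifferentiableOn ℂ f U)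
    (hR : Icc a b ×ℂ Icc c d ⊆ U) :
    rInt a b c d (fun ζ => (ζ - w)⁻¹ • f ζ) = (2 * Real.pi * I : ℂ) • f w := by
  have hab : a ≤ b := (h1.trans h2).le
  have hcd : c ≤ d := (h3.trans h4).le
  have hwU : w ∈ U := hR ⟨⟨h1.le, h2.le⟩, ⟨h3.le, h4.le⟩⟩
  have hne : ∀ ζ : ℂ, (ζ.re = a ∨ ζ.re = b ∨ ζ.im = c ∨ ζ.im = d) → ζ ≠ w := by
    rintro ζ h rfl
    rcases h with h | h | h | h <;> linarith
  have hz : rInt a b c d (dslope f w) = 0 := by
    refine rInt_zero hab hcd (DifferentiableOn.mono ?_ hR)
    rw [Complex.differentiableOn_dslope (hU.mem_nhds hwU)]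
    exact hf
  have hds : rInt a b c d (dslope f w) =
      rInt a b c d (fun ζ => (ζ - w)⁻¹ • f ζ - (ζ - w)⁻¹ • f w) := by
    refine rInt_congr hab hcd (fun ζ _ _ h => ?_)
    rw [dslope_of_ne _ (hne ζ h), slope_def_module, smul_sub]
  have hcont : ContinuousOn (fun ζ : ℂ => (ζ - w)⁻¹) (U \ {w}) := by
    refine ContinuousOn.inv₀ (by fun_prop) (fun ζ hζ => sub_ne_zero.2 hζ.2)
  have hc1 : ContinuousOn (fun ζ : ℂ => (ζ - w)⁻¹ • f ζ) (U \ {w}) :=
    hcont.smul (hf.continuousOn.mono sdiff_subset)
  have hc2 : ContinuousOn (fun ζ : ℂ => (ζ - w)⁻¹ • f w) (U \ {w}) :=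
    hcont.smul continuousOn_const
  rw [hds, rInt_sub hab hcd (S := U \ {w})
    (fun ζ h1 h2 h => ⟨hR ⟨h1, h2⟩, hne ζ h⟩) hc1 hc2,
    rInt_smul_const, rInt_kernel h1 h2 h3 h4, sub_eq_zero] at hz
  exact hz

/-- Goursat for a point outside. -/
theorem rInt_cauchy_outside {a b c d : ℝ} {w : ℂ} (hab : a ≤ b) (hcd : c ≤ d)
    (hw : w ∉ Icc a b ×ℂ Icc c d) {f : ℂ → E} {U : Set ℂ} (hf : DifferentiableOn ℂ f U)
    (hR : Icc a b ×ℂ Icc c d ⊆ U) :
    rInt a b c d (fun ζ => (ζ - w)⁻¹ • f ζ) = 0 := by
  refine rInt_zero hab hcd ?_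
  refine DifferentiableOn.smul ?_ (hf.mono hR)
  refine DifferentiableOn.inv (by fun_prop) (fun ζ hζ h => hw ?_)
  rw [sub_eq_zero] at h
  rwa [← h]

end Pool.Agent.Work.MP_77a596_an
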