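import Pool.Agent.Work.MP_77a596_an.App

set_option autoImplicit false
set_option linter.unusedVariables false
set_option linter.unusedSectionVars false

open Set Metric Filter Topology MeasureTheory Complex
open scoped ComplexConjugate NNReal

namespace Pool.Agent.Work.MP_77a596_an

variable {E : Type*} [NormedAddCommGroup E] [NormedSpace ℂ E] [CompleteSpace E]
variable {M' : Type*} [NormedRing M'] [NormedAlgebra ℂ M'] [CompleteSpace M'] [NormOneClass M']

theorem disc_runge {f : ℂ → E} {z0 : ℂ} {r R' : ℝ} (hr0 : 0 ≤ r) (hr : r < R')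
    (hf : DifferentiableOn ℂ f (ball z0 R')) :
    ∀ ε > 0, ∃ p : ℂ → E, Differentiable ℂ p ∧ ∀ w ∈ ball z0 r, ‖p w - f w‖ ≤ ε := by
  intro ε hε
  set R : ℝ := (r + R') / 2 with hR
  have hR0 : 0 < R := by rw [hR]; linarith
  have hrR : r < R := by rw [hR]; linarith
  have hRR : R < R' := by rw [hR]; linarith
  lift R to ℝ≥0 using hR0.le with R1
  lift r to ℝ≥0 using hr0 with r1
  have h1 := (hf.mono (closedBall_subset_ball hRR)).hasFPowerSeriesOnBall (R := R1) (by exact_mod_cast hR0)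
  have h2 := h1.tendstoUniformlyOn' (r' := r1) (by exact_mod_cast hrR)
  rw [Metric.tendstoUniformlyOn_iff] at h2
  obtain ⟨n, hn⟩ := (h2 ε hε).exists
  refine ⟨fun w => (cauchyPowerSeries f z0 R1).partialSum n (w - z0), ?_, fun w hw => ?_⟩
  · intro w
    simp only [FormalMultilinearSeries.partialSum, FormalMultilinearSeries.apply_eq_pow_smul_coeff]
    fun_prop
  · rw [← dist_eq_norm, dist_comm]
    exact (hn w hw).le

theorem edge_runge {a b c d : ℝ} (hab : a ≤ b) (hcd : c ≤ d) (j : Fin 4) {T U : Set ℂ} {B : ℝ}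
    (hT : ∀ w ∈ T, ‖w‖ ≤ B) {u : ℂ} (hu : ‖u‖ = 1) {m δ : ℝ} (hδ : 0 < δ)
    (hTm : ∀ w ∈ T, (conj u * w).re ≤ m)
    (hE : ∀ t ∈ Icc (elo a b c d j) (ehi a b c d j), m + δ ≤ (conj u * edgePt a b c d j t).re)
    {h : ℂ → E} (hU : Icc a b ×ℂ Icc c d ⊆ U) (hUo : IsOpen U) (hh : DifferentiableOn ℂ h U)
    {M : ℝ} (hM0 : 0 ≤ M) (hM : ∀ w ∈ U, ‖h w‖ ≤ M) :
    ∀ ε > 0, ∃ p : ℂ → E, Differentiable ℂ p ∧ ∀ w ∈ T, ‖p w -
      ewt j • ∫ t in elo a b c d j..ehi a b c d j,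
      (edgePt a b c d j t - w)⁻¹ • h (edgePt a b c d j t)‖ ≤ ε := by
  obtain ⟨R, hR1, hR2⟩ : ∃ R : ℝ, B ^ 2 ≤ R * δ ∧ 1 + |m| ≤ R := by
    refine ⟨max (B ^ 2 / δ) (1 + |m|), ?_, le_max_right _ _⟩
    calc B ^ 2 = B ^ 2 / δ * δ := by field_simp
      _ ≤ max (B ^ 2 / δ) (1 + |m|) * δ := by gcongr; exact le_max_left _ _
  have hm := neg_abs_le m
  have hR0 : 0 < R := by have := abs_nonneg m; linarith
  set z0 : ℂ := -(R : ℂ) * u with hz0
  have huu : conj u * u = 1 := by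
    rw [mul_comm, Complex.mul_conj, Complex.normSq_eq_norm_sq, hu]; norm_num
  have hnorm : ∀ w ∈ T, ‖w - z0‖ ≤ R + m + δ / 2 := by
    intro w hw
    have h1 : ‖w - z0‖ = ‖conj u * w + R‖ := by
      have : conj u * (w - z0) = conj u * w + R := by
        rw [hz0, neg_mul, sub_neg_eq_add, mul_add, mul_left_comm, huu, mul_one]
      rw [← this, norm_mul, Complex.norm_conj, hu, one_mul]
    have h2 : ‖conj u * w‖ ≤ B := by
      rw [norm_mul, Complex.norm_conj, hu, one_mul]; exact hT w hw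
    have h3 : ‖conj u * w + R‖ ^ 2 ≤ (R + m + δ / 2) ^ 2 := by
      have e1 : ‖conj u * w + R‖ ^ 2 = ‖conj u * w‖ ^ 2 + 2 * R * (conj u * w).re + R ^ 2 := by
        rw [← Complex.normSq_eq_norm_sq, ← Complex.normSq_eq_norm_sq, Complex.normSq_add]
        simp
        ring
      have e2 : ‖conj u * w‖ ^ 2 ≤ B ^ 2 := by gcongr
      have e3 := hTm w hw
      have e4 : 0 ≤ (m + δ / 2) ^ 2 := sq_nonneg _
      rw [e1]
      nlinarith
    rw [h1]
    have h4 : 0 ≤ R + m + δ / 2 := by linarith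
    exact abs_le_of_sq_le_sq' h3 h4 |>.2
  have hE' : ∀ t ∈ Icc (elo a b c d j) (ehi a b c d j), R + m + δ ≤ ‖edgePt a b c d j t - z0‖ := by
    intro t ht
    have h1 : ‖edgePt a b c d j t - z0‖ = ‖conj u * edgePt a b c d j t + R‖ := by
      have : conj u * (edgePt a b c d j t - z0) = conj u * edgePt a b c d j t + R := by
        rw [hz0, neg_mul, sub_neg_eq_add, mul_add, mul_left_comm, huu, mul_one]
      rw [← this, norm_mul, Complex.norm_conj, hu, one_mul]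
    rw [h1]
    have h2 := Complex.re_le_norm (conj u * edgePt a b c d j t + R)
    have h3 := hE t ht
    rw [Complex.add_re, Complex.ofReal_re] at h2
    linarith
  have hedge := edge_integral hab hcd j (P0 := ({0} : Set ℂ)) (T := ball z0 (R + m + 5 * δ / 6))
    (U := U) (σ := δ / 6) (by linarith) (f := fun x : ℂ × ℂ => h x.2)
    (NC.of_differentiableOn (hh.comp (by fun_prop) (fun x hx => hx.2))) hU hM0
    (fun x hx => hM _ hx.2) (by
      intro t ht w hw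
      have h1 := hE' t ht
      rw [mem_ball, dist_eq_norm] at hw
      have h2 : ‖edgePt a b c d j t - z0‖ ≤ ‖edgePt a b c d j t - w‖ + ‖w - z0‖ :=
        norm_sub_le_norm_sub_add_norm_sub _ _ _
      linarith)
  have hdiff : DifferentiableOn ℂ (fun w => ewt j • ∫ t in elo a b c d j..ehi a b c d j,
      (edgePt a b c d j t - w)⁻¹ • h (edgePt a b c d j t)) (ball z0 (R + m + 5 * δ / 6)) :=
    hedge.1.2 (fun w => ((0 : ℂ), w)) _ isOpen_ball (by fun_prop) (fun w hw => ⟨rfl, hw⟩)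
  intro ε hε
  obtain ⟨p, hp1, hp2⟩ := disc_runge (r := R + m + 4 * δ / 6) (by linarith) (by linarith) hdiff ε hε
  refine ⟨p, hp1, fun w hw => hp2 w ?_⟩
  rw [mem_ball, dist_eq_norm]
  have := hnorm w hw
  linarith

theorem isOpen_oRect (a b c d θ : ℝ) : IsOpen (oRect a b c d θ) := by
  have : oRect a b c d θ = {w : ℂ | a - θ < w.re} ∩ {w : ℂ | w.re < b + θ} ∩
      ({w : ℂ | c - θ < w.im} ∩ {w : ℂ | w.im < d + θ}) := by
    ext w; simp only [oRect, mem_ofPred_eq, mem_inter_iff]; tauto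
  rw [this]
  exact ((isOpen_lt continuous_const continuous_re).inter (isOpen_lt continuous_re continuous_const)).inter
    ((isOpen_lt continuous_const continuous_im).inter (isOpen_lt continuous_im continuous_const))

theorem runge_rect {a b c d θ1 θ2 : ℝ} (hab : a ≤ b) (hcd : c ≤ d) (h0 : 0 < θ1) (h12 : θ1 < θ2) :
    RK (oRect a b c d θ2) (oRect a b c d θ1) E := by
  intro h hh ε hε
  set θ := (θ1 + 2 * θ2) / 3 with hθ
  set θ' := (2 * θ1 + θ2) / 3 with hθ'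
  have hδ : 0 < θ' - θ1 := by rw [hθ']; linarith
  set U := oRect a b c d θ with hU
  have hUo : IsOpen U := isOpen_oRect _ _ _ _ _
  have hUK : U ⊆ Icc (a - θ) (b + θ) ×ℂ Icc (c - θ) (d + θ) := by
    intro w hw
    rw [mem_reProdIm]
    exact ⟨⟨hw.1.le, hw.2.1.le⟩, ⟨hw.2.2.1.le, hw.2.2.2.le⟩⟩
  have hKV : Icc (a - θ) (b + θ) ×ℂ Icc (c - θ) (d + θ) ⊆ oRect a b c d θ2 := by
    intro w hw
    rw [mem_reProdIm, mem_Icc, mem_Icc] at hw
    have : θ < θ2 := by rw [hθ]; linarith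
    exact ⟨by linarith [hw.1.1], by linarith [hw.1.2], by linarith [hw.2.1], by linarith [hw.2.2]⟩
  obtain ⟨M, hM⟩ := ((isCompact_Icc (a := a - θ) (b := b + θ)).reProdIm
    (isCompact_Icc (a := c - θ) (b := d + θ))).exists_bound_of_continuousOn
    (hh.continuousOn.mono hKV)
  have hM' : ∀ w ∈ U, ‖h w‖ ≤ max M 0 := fun w hw => (hM w (hUK hw)).trans (le_max_left _ _)
  have hRU : Icc (a - θ') (b + θ') ×ℂ Icc (c - θ') (d + θ') ⊆ U := by
    intro w hw
    rw [mem_reProdIm, mem_Icc, mem_Icc] at hw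
    have : θ' < θ := by rw [hθ, hθ']; linarith
    exact ⟨by linarith [hw.1.1], by linarith [hw.1.2], by linarith [hw.2.1], by linarith [hw.2.2]⟩
  have hab' : a - θ' ≤ b + θ' := by linarith
  have hcd' : c - θ' ≤ d + θ' := by linarith
  have hTB : ∀ w ∈ oRect a b c d θ1, ‖w‖ ≤ |a| + |b| + |c| + |d| + 2 * θ1 := by
    intro w hw
    have h1 : |w.re| ≤ |a| + |b| + θ1 := by
      rw [abs_le]
      constructor
      · linarith [neg_abs_le a, abs_nonneg b, hw.1]
      · linarith [le_abs_self b, abs_nonneg a, hw.2.1]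
    have h2 : |w.im| ≤ |c| + |d| + θ1 := by
      rw [abs_le]
      constructor
      · linarith [neg_abs_le c, abs_nonneg d, hw.2.2.1]
      · linarith [le_abs_self d, abs_nonneg c, hw.2.2.2]
    linarith [Complex.norm_le_abs_re_add_abs_im w]
  have hex : ∀ j : Fin 4, ∃ p : ℂ → E, Differentiable ℂ p ∧ ∀ w ∈ oRect a b c d θ1, ‖p w -
      ewt j • ∫ t in elo (a - θ') (b + θ') (c - θ') (d + θ') j..ehi (a - θ') (b + θ') (c - θ') (d + θ') j,
      (edgePt (a - θ') (b + θ') (c - θ') (d + θ') j t - w)⁻¹ •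
        h (edgePt (a - θ') (b + θ') (c - θ') (d + θ') j t)‖ ≤ ε / 4 := by
    have hgen : ∀ (j : Fin 4) (u : ℂ) (m : ℝ), ‖u‖ = 1 →
        (∀ w ∈ oRect a b c d θ1, (conj u * w).re ≤ m) →
        (∀ t ∈ Icc (elo (a - θ') (b + θ') (c - θ') (d + θ') j)
          (ehi (a - θ') (b + θ') (c - θ') (d + θ') j),
          m + (θ' - θ1) ≤ (conj u * edgePt (a - θ') (b + θ') (c - θ') (d + θ') j t).re) →
        ∃ p : ℂ → E, Differentiable ℂ p ∧ ∀ w ∈ oRect a b c d θ1, ‖p w -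
      ewt j • ∫ t in elo (a - θ') (b + θ') (c - θ') (d + θ') j..ehi (a - θ') (b + θ') (c - θ') (d + θ') j,
      (edgePt (a - θ') (b + θ') (c - θ') (d + θ') j t - w)⁻¹ •
        h (edgePt (a - θ') (b + θ') (c - θ') (d + θ') j t)‖ ≤ ε / 4 := by
      intro j u m hu h1 h2
      exact edge_runge hab' hcd' j hTB hu hδ h1 h2 hRU hUo (hh.mono (hUK.trans hKV))
        (le_max_right _ _) hM' (ε / 4) (by positivity)
    intro j
    fin_cases j
    · refine hgen 0 (-I) (-(c - θ1)) (by simp) (fun w hw => ?_) (fun t ht => ?_)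
      · simp; linarith [hw.2.2.1]
      · simp [edgePt]
    · refine hgen 1 I (d + θ1) (by simp) (fun w hw => ?_) (fun t ht => ?_)
      · simp; linarith [hw.2.2.2]
      · simp [edgePt]
    · refine hgen 2 1 (b + θ1) (by simp) (fun w hw => ?_) (fun t ht => ?_)
      · simp; linarith [hw.2.1]
      · simp [edgePt]
    · refine hgen 3 (-1) (-(a - θ1)) (by simp) (fun w hw => ?_) (fun t ht => ?_)
      · simp; linarith [hw.1]
      · simp [edgePt]
  choose p hp1 hp2 using hex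
  set k : ℂ := (2 * Real.pi * I : ℂ)⁻¹ with hk
  have hknorm : ‖k‖ ≤ 1 := by
    rw [hk, norm_inv]
    apply inv_le_one_of_one_le₀
    simp only [norm_mul, norm_real, norm_I, mul_one, Complex.norm_ofNat, Real.norm_eq_abs,
      abs_of_pos Real.pi_pos]
    linarith [Real.pi_gt_three]
  refine ⟨fun w => k • ∑ j, p j w, ?_, fun w hw => ?_⟩
  · intro w
    exact (DifferentiableAt.fun_sum (fun j _ => hp1 j w)).const_smul k
  · have hc := rInt_cauchy (a := a - θ') (b := b + θ') (c := c - θ') (d := d + θ') (w := w)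
      (by linarith [hw.1]) (by linarith [hw.2.1]) (by linarith [hw.2.2.1]) (by linarith [hw.2.2.2])
      hUo (hh.mono (hUK.trans hKV)) hRU
    rw [rInt_eq_sum] at hc
    have h1 : h w = k • ∑ j, ewt j • ∫ t in elo (a - θ') (b + θ') (c - θ') (d + θ') j..ehi (a - θ') (b + θ') (c - θ') (d + θ') j,
      (edgePt (a - θ') (b + θ') (c - θ') (d + θ') j t - w)⁻¹ •
        h (edgePt (a - θ') (b + θ') (c - θ') (d + θ') j t) := by
      rw [hc, hk, smul_smul, inv_mul_cancel₀, one_smul]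
      simp [Real.pi_ne_zero]
    have h2 : k • ∑ j, p j w - h w = k • ∑ j, (p j w - ewt j • ∫ t in elo (a - θ') (b + θ') (c - θ') (d + θ') j..ehi (a - θ') (b + θ') (c - θ') (d + θ') j,
      (edgePt (a - θ') (b + θ') (c - θ') (d + θ') j t - w)⁻¹ •
        h (edgePt (a - θ') (b + θ') (c - θ') (d + θ') j t)) := by
      rw [Finset.sum_sub_distrib, smul_sub, ← h1]
    show ‖k • ∑ j, p j w - h w‖ ≤ ε
    rw [h2, norm_smul]
    calc ‖k‖ * ‖∑ j, (p j w - ewt j • ∫ t in elo (a - θ') (b + θ') (c - θ') (d + θ') j..ehi (a - θ') (b + θ') (c - θ') (d + θ') j,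
      (edgePt (a - θ') (b + θ') (c - θ') (d + θ') j t - w)⁻¹ •
        h (edgePt (a - θ') (b + θ') (c - θ') (d + θ') j t))‖ ≤ 1 * ∑ j : Fin 4, ε / 4 := by
          gcongr
          exact norm_sum_le_of_le _ (fun j _ => hp2 j w hw)
      _ = ε := by simp; ring

theorem runge_union {V1 V2 K1 K2 : Set ℂ} (hb1 : Bornology.IsBounded K1)
    (hb2 : Bornology.IsBounded K2) (h1 : RK V1 K1 E) (h2 : RK V2 K2 E)
    (hχ : ∀ ε > 0, ∃ χ : ℂ → ℂ, Differentiable ℂ χ ∧ (∀ w ∈ K1, ‖χ w - 1‖ ≤ ε) ∧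
      ∀ w ∈ K2, ‖χ w‖ ≤ ε) : RK (V1 ∪ V2) (K1 ∪ K2) E := by
  intro h hh ε hε
  obtain ⟨p1, hp1, hp1'⟩ := h1 h (hh.mono subset_union_left) (ε / 2) (by positivity)
  obtain ⟨p2, hp2, hp2'⟩ := h2 h (hh.mono subset_union_right) (ε / 2) (by positivity)
  obtain ⟨B, hB0, hB⟩ := bound_on_bounded (hb1.union hb2) (hp1.sub hp2)
  obtain ⟨χ, hχ1, hχ2, hχ3⟩ := hχ (ε / (2 * B)) (by positivity)
  refine ⟨fun w => p2 w + χ w • (p1 w - p2 w), ?_, ?_⟩
  · exact hp2.add (hχ1.smul (hp1.sub hp2))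
  · rintro w (hw | hw)
    · have : p2 w + χ w • (p1 w - p2 w) - h w = (p1 w - h w) + (χ w - 1) • (p1 w - p2 w) := by
        rw [sub_smul, one_smul]; abel
      rw [this]
      calc ‖(p1 w - h w) + (χ w - 1) • (p1 w - p2 w)‖
          ≤ ‖p1 w - h w‖ + ‖(χ w - 1) • (p1 w - p2 w)‖ := norm_add_le _ _
        _ ≤ ε / 2 + ε / (2 * B) * B := by
            rw [norm_smul]
            exact add_le_add (hp1' w hw) (mul_le_mul (hχ2 w hw) (hB w (Or.inl hw))
              (norm_nonneg _) (by positivity))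
        _ = ε := by field_simp; norm_num
    · have : p2 w + χ w • (p1 w - p2 w) - h w = (p2 w - h w) + χ w • (p1 w - p2 w) := by
        abel
      rw [this]
      calc ‖(p2 w - h w) + χ w • (p1 w - p2 w)‖
          ≤ ‖p2 w - h w‖ + ‖χ w • (p1 w - p2 w)‖ := norm_add_le _ _
        _ ≤ ε / 2 + ε / (2 * B) * B := by
            rw [norm_smul]
            exact add_le_add (hp2' w hw) (mul_le_mul (hχ3 w hw) (hB w (Or.inr hw))
              (norm_nonneg _) (by positivity))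
        _ = ε := by field_simp; norm_num

/-- approximate characteristic functions by iterating `3 z ^ 2 - 2 z ^ 3` -/
theorem exists_chi : ∀ ε > 0, ∃ χ : ℂ → ℂ, Differentiable ℂ χ ∧
    (∀ z : ℂ, ‖z - 1‖ ≤ 0.26 → ‖χ z - 1‖ ≤ ε) ∧ ∀ z : ℂ, ‖z‖ ≤ 0.26 → ‖χ z‖ ≤ ε := by
  intro ε hε
  set f : ℂ → ℂ := fun z => 3 * z ^ 2 - 2 * z ^ 3 with hf
  have hfd : Differentiable ℂ f := by rw [hf]; fun_prop
  have h1 : ∀ z : ℂ, ‖z‖ ≤ 0.26 → ‖f z‖ ≤ 0.92 * ‖z‖ := by
    intro z hz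
    have : f z = z * (3 * z - 2 * z ^ 2) := by rw [hf]; ring
    rw [this, norm_mul, mul_comm]
    gcongr
    calc ‖3 * z - 2 * z ^ 2‖ ≤ ‖3 * z‖ + ‖2 * z ^ 2‖ := norm_sub_le _ _
      _ = 3 * ‖z‖ + 2 * ‖z‖ ^ 2 := by simp
      _ ≤ 3 * 0.26 + 2 * 0.26 ^ 2 := by gcongr
      _ ≤ 0.92 := by norm_num
  have h2 : ∀ z : ℂ, ‖z - 1‖ ≤ 0.26 → ‖f z - 1‖ ≤ 0.92 * ‖z - 1‖ := by
    intro z hz
    have : f z - 1 = - f (1 - z) := by rw [hf]; ring
    rw [this, norm_neg]
    have h := h1 (1 - z) (by rwa [norm_sub_rev])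
    rwa [norm_sub_rev 1 z] at h
  have hit : ∀ n : ℕ, Differentiable ℂ (f^[n]) ∧ (∀ z : ℂ, ‖z - 1‖ ≤ 0.26 → ‖f^[n] z - 1‖ ≤ 0.26 * 0.92 ^ n) ∧
      (∀ z : ℂ, ‖z‖ ≤ 0.26 → ‖f^[n] z‖ ≤ 0.26 * 0.92 ^ n) := by
    intro n
    induction n with
    | zero => exact ⟨differentiable_id, fun z hz => by simpa using hz, fun z hz => by simpa using hz⟩
    | succ n ih =>
      obtain ⟨i1, i2, i3⟩ := ih
      have hp : (0.92 : ℝ) ^ n ≤ 1 := pow_le_one₀ (by norm_num) (by norm_num)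
      refine ⟨?_, fun z hz => ?_, fun z hz => ?_⟩
      · rw [Function.iterate_succ']; exact hfd.comp i1
      · rw [Function.iterate_succ', Function.comp_apply]
        have := i2 z hz
        have h3 := h2 _ (this.trans (by nlinarith))
        rw [pow_succ]; nlinarith
      · rw [Function.iterate_succ', Function.comp_apply]
        have := i3 z hz
        have h3 := h1 _ (this.trans (by nlinarith))
        rw [pow_succ]; nlinarith
  obtain ⟨n, hn⟩ := exists_pow_lt_of_lt_one hε (show (0.92 : ℝ) < 1 by norm_num)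
  obtain ⟨i1, i2, i3⟩ := hit n
  have hp : (0 : ℝ) < 0.92 ^ n := by positivity
  exact ⟨f^[n], i1, fun z hz => (i2 z hz).trans (by nlinarith), fun z hz => (i3 z hz).trans (by nlinarith)⟩

variable {e : M'}

def cRect (a b c d θ : ℝ) : Set ℂ := Icc (a - θ) (b + θ) ×ℂ Icc (c - θ) (d + θ)

theorem isCompact_cRect (a b c d θ : ℝ) : IsCompact (cRect a b c d θ) :=
  isCompact_Icc.reProdIm isCompact_Icc

theorem oRect_subset_cRect (a b c d θ : ℝ) : oRect a b c d θ ⊆ cRect a b c d θ := by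
  intro w hw
  rw [cRect, mem_reProdIm]
  exact ⟨⟨hw.1.le, hw.2.1.le⟩, ⟨hw.2.2.1.le, hw.2.2.2.le⟩⟩

theorem cRect_subset_oRect {a b c d θ θ' : ℝ} (h : θ < θ') : cRect a b c d θ ⊆ oRect a b c d θ' := by
  intro w hw
  rw [cRect, mem_reProdIm, mem_Icc, mem_Icc] at hw
  exact ⟨by linarith [hw.1.1], by linarith [hw.1.2], by linarith [hw.2.1], by linarith [hw.2.2]⟩

theorem oRect_mono {a b c d θ θ' : ℝ} (h : θ ≤ θ') : oRect a b c d θ ⊆ oRect a b c d θ' := by
  intro w hw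
  exact ⟨by linarith [hw.1], by linarith [hw.2.1], by linarith [hw.2.2.1], by linarith [hw.2.2.2]⟩

theorem isBounded_oRect (a b c d θ : ℝ) : Bornology.IsBounded (oRect a b c d θ) :=
  (isCompact_cRect a b c d θ).isBounded.subset (oRect_subset_cRect a b c d θ)

theorem seg_mem_cRect {a b c d θ : ℝ} (hab : a ≤ b) (hcd : c ≤ d) (hθ : 0 ≤ θ) {w : ℂ}
    (hw : w ∈ cRect a b c d θ) {t : ℝ} (ht : t ∈ Icc (0 : ℝ) 1) :
    (⟨a, c⟩ + (t : ℂ) * (w - ⟨a, c⟩) : ℂ) ∈ cRect a b c d θ := by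
  rw [cRect, mem_reProdIm, mem_Icc, mem_Icc] at hw ⊢
  obtain ⟨⟨h1, h2⟩, h3, h4⟩ := hw
  simp only [add_re, mul_re, ofReal_re, sub_re, ofReal_im, sub_im, zero_mul, sub_zero, add_im,
    mul_im, add_zero]
  have := ht.1
  have := ht.2
  refine ⟨⟨?_, ?_⟩, ?_, ?_⟩ <;> nlinarith

theorem app_rect [ProperSpace M'] (hee : e * e = e) {a b c d θ1 θ2 : ℝ} (hab : a ≤ b) (hcd : c ≤ d)
    (h0 : 0 < θ1) (h12 : θ1 < θ2) {G : ℂ → M'} (hG : DifferentiableOn ℂ G (oRect a b c d θ2))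
    (hu : ∀ w ∈ oRect a b c d θ2, IsUnit (G w) ∧ e * G w = e) : App e (oRect a b c d θ1) G := by
  set θ := (θ1 + θ2) / 2 with hθ
  have h1 : θ1 < θ := by rw [hθ]; linarith
  have h2 : θ < θ2 := by rw [hθ]; linarith
  set w0 : ℂ := ⟨a, c⟩ with hw0
  set Γ : ℝ → ℂ → M' := fun t w => G (w0 + (t : ℂ) * (w - w0)) with hΓ
  have hmaps : ∀ t ∈ Icc (0 : ℝ) 1, ∀ w ∈ cRect a b c d θ,
      w0 + (t : ℂ) * (w - w0) ∈ oRect a b c d θ2 := fun t ht w hw =>
    cRect_subset_oRect h2 (seg_mem_cRect hab hcd (by linarith) hw ht)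
  have key : App e (oRect a b c d θ1) (Γ 1) := by
    refine app_homotopy (V := oRect a b c d θ) hee (isCompact_cRect a b c d θ) (oRect_mono h1.le)
      (oRect_subset_cRect a b c d θ) (runge_rect hab hcd h0 h1) (Γ := Γ) ?_ ?_ ?_ ?_
    · refine hG.continuousOn.comp (f := fun p : ℝ × ℂ => w0 + (p.1 : ℂ) * (p.2 - w0))
        (by fun_prop) ?_
      rintro ⟨t, w⟩ ⟨ht, hw⟩
      exact hmaps t ht w hw
    · intro t ht w hw
      exact hu _ (hmaps t ht w hw)
    · intro t ht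
      refine hG.comp (by fun_prop) (fun w hw => hmaps t ht w (oRect_subset_cRect _ _ _ _ _ hw))
    · have h3 : w0 ∈ oRect a b c d θ2 := by
        rw [hw0]; refine ⟨?_, ?_, ?_, ?_⟩ <;> simp <;> linarith
      refine (App.const (hu w0 h3).1 (hu w0 h3).2).congr (fun w _ => ?_)
      simp [hΓ]
  refine key.congr (fun w _ => ?_)
  simp [hΓ]

theorem ite_re_loc {α : Type*} (x y : α) (w : ℂ) (hw : w.re ≠ 0) : ∀ᶠ w' in 𝓝 w,
      (if 0 < w'.re then x else y) = (if 0 < w.re then x else y) := by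
  rcases lt_or_gt_of_ne hw with h | h
  · filter_upwards [(isOpen_lt continuous_re continuous_const).mem_nhds h] with w' hw'
    have : w'.re < 0 := hw'
    rw [if_neg (by linarith), if_neg (by linarith)]
  · filter_upwards [(isOpen_lt continuous_const continuous_re).mem_nhds h] with w' hw'
    have : 0 < w'.re := hw'
    rw [if_pos this, if_pos h]

theorem app_two [ProperSpace M'] (hee : e * e = e) (hspec : ∀ x : M', (spectrum ℂ x).Finite)
    {a1 b1 a2 b2 c1 d1 c2 d2 θ1 θ2 : ℝ} (hab1 : a1 ≤ b1) (hab2 : a2 ≤ b2) (hcd1 : c1 ≤ d1)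
    (hcd2 : c2 ≤ d2) (h0 : 0 < θ1) (h12 : θ1 < θ2) (hpos : 0 < a1 - θ2) (hneg : b2 + θ2 < 0)
    (hχ : ∀ ε > 0, ∃ χ : ℂ → ℂ, Differentiable ℂ χ ∧ (∀ w ∈ oRect a1 b1 c1 d1 θ1, ‖χ w - 1‖ ≤ ε) ∧
      ∀ w ∈ oRect a2 b2 c2 d2 θ1, ‖χ w‖ ≤ ε)
    {G : ℂ → M'} (hG : DifferentiableOn ℂ G (oRect a1 b1 c1 d1 θ2 ∪ oRect a2 b2 c2 d2 θ2))
    (hu : ∀ w ∈ oRect a1 b1 c1 d1 θ2 ∪ oRect a2 b2 c2 d2 θ2, IsUnit (G w) ∧ e * G w = e) :
    App e (oRect a1 b1 c1 d1 θ1 ∪ oRect a2 b2 c2 d2 θ1) G := by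
  classical
  set θ := (θ1 + θ2) / 2 with hθ
  have h1 : θ1 < θ := by rw [hθ]; linarith
  have h2 : θ < θ2 := by rw [hθ]; linarith
  set K := oRect a1 b1 c1 d1 θ1 ∪ oRect a2 b2 c2 d2 θ1 with hK
  set V := oRect a1 b1 c1 d1 θ ∪ oRect a2 b2 c2 d2 θ with hV
  set K' := cRect a1 b1 c1 d1 θ ∪ cRect a2 b2 c2 d2 θ with hK'
  have hK'c : IsCompact K' := (isCompact_cRect _ _ _ _ _).union (isCompact_cRect _ _ _ _ _)
  have hKV : K ⊆ V := union_subset_union (oRect_mono h1.le) (oRect_mono h1.le)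
  have hVK' : V ⊆ K' := union_subset_union (oRect_subset_cRect _ _ _ _ _) (oRect_subset_cRect _ _ _ _ _)
  have hKb : Bornology.IsBounded K := hK'c.isBounded.subset (hKV.trans hVK')
  have hRK : RK V K M' := runge_union (isBounded_oRect _ _ _ _ _) (isBounded_oRect _ _ _ _ _)
    (runge_rect hab1 hcd1 h0 h1) (runge_rect hab2 hcd2 h0 h1) hχ
  have hre : ∀ w ∈ K', w.re ≠ 0 ∧ (0 < w.re → w ∈ cRect a1 b1 c1 d1 θ) ∧
      (¬ 0 < w.re → w ∈ cRect a2 b2 c2 d2 θ) := by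
    rintro w (hw | hw)
    · have hw' := hw
      rw [cRect, mem_reProdIm, mem_Icc, mem_Icc] at hw'
      have : 0 < w.re := by linarith [hw'.1.1]
      exact ⟨this.ne', fun _ => hw, fun h => absurd this h⟩
    · have hw' := hw
      rw [cRect, mem_reProdIm, mem_Icc, mem_Icc] at hw'
      have : w.re < 0 := by linarith [hw'.1.2]
      exact ⟨this.ne, fun h => absurd h (by linarith), fun _ => hw⟩
  set w1 : ℂ := ⟨a1, c1⟩ with hw1
  set w2 : ℂ := ⟨a2, c2⟩ with hw2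
  set w0 : ℂ → ℂ := fun w => if 0 < w.re then w1 else w2 with hw0
  have hw0loc : ∀ w ∈ K', w0 =ᶠ[𝓝 w] fun _ => w0 w := fun w hw => ite_re_loc w1 w2 w (hre w hw).1
  have hw0c : ContinuousOn w0 K' := fun w hw =>
    (hw0loc w hw).continuousAt.continuousWithinAt
  have hw0d : DifferentiableOn ℂ w0 K' := fun w hw =>
    ((differentiableAt_const (w0 w)).congr_of_eventuallyEq (hw0loc w hw)).differentiableWithinAt
  set Γ : ℝ → ℂ → M' := fun t w => G (w0 w + (t : ℂ) * (w - w0 w)) with hΓ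
  have hmaps : ∀ t ∈ Icc (0 : ℝ) 1, ∀ w ∈ K', w0 w + (t : ℂ) * (w - w0 w) ∈
      oRect a1 b1 c1 d1 θ2 ∪ oRect a2 b2 c2 d2 θ2 := by
    intro t ht w hw
    by_cases h : 0 < w.re
    · left
      simp only [hw0, if_pos h]
      exact cRect_subset_oRect h2 (seg_mem_cRect hab1 hcd1 (by linarith) ((hre w hw).2.1 h) ht)
    · right
      simp only [hw0, if_neg h]
      exact cRect_subset_oRect h2 (seg_mem_cRect hab2 hcd2 (by linarith) ((hre w hw).2.2 h) ht)
  have hm1 : w1 ∈ oRect a1 b1 c1 d1 θ2 := by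
    rw [hw1]; refine ⟨?_, ?_, ?_, ?_⟩ <;> simp <;> linarith
  have hm2 : w2 ∈ oRect a2 b2 c2 d2 θ2 := by
    rw [hw2]; refine ⟨?_, ?_, ?_, ?_⟩ <;> simp <;> linarith
  obtain ⟨γ1, g11, g12, g13, g14⟩ := exists_path hee hspec (hu w1 (Or.inl hm1)).1 (hu w1 (Or.inl hm1)).2
  obtain ⟨γ2, g21, g22, g23, g24⟩ := exists_path hee hspec (hu w2 (Or.inr hm2)).1 (hu w2 (Or.inr hm2)).2
  set Γ' : ℝ → ℂ → M' := fun t w => if 0 < w.re then γ1 t else γ2 t with hΓ'
  have key1 : App e K (Γ' 1) := by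
    refine app_homotopy hee hK'c hKV hVK' hRK (Γ := Γ') ?_ ?_ ?_ ?_
    · rintro ⟨t, w⟩ ⟨ht, hw⟩
      have hc : (fun p : ℝ × ℂ => if 0 < p.2.re then γ1 p.1 else γ2 p.1) =ᶠ[𝓝 (t, w)]
          fun p : ℝ × ℂ => if 0 < w.re then γ1 p.1 else γ2 p.1 := by
        have := (continuous_snd.tendsto (t, w)).eventually (ite_re_loc True False w (hre w hw).1)
        filter_upwards [this] with p hp
        by_cases h : 0 < w.re
        · by_cases h' : 0 < p.2.re
          · rw [if_pos h, if_pos h']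
          · simp [h, h'] at hp
        · by_cases h' : 0 < p.2.re
          · simp [h, h'] at hp
          · rw [if_neg h, if_neg h']
      refine ContinuousAt.continuousWithinAt ?_
      refine ContinuousAt.congr ?_ hc.symm
      by_cases h : 0 < w.re
      · simp only [if_pos h]; exact (g11.comp continuous_fst).continuousAt
      · simp only [if_neg h]; exact (g21.comp continuous_fst).continuousAt
    · intro t ht w hw
      by_cases h : 0 < w.re
      · simp only [hΓ', if_pos h]; exact g14 t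
      · simp only [hΓ', if_neg h]; exact g24 t
    · intro t ht w hw
      have : Γ' t =ᶠ[𝓝 w] fun _ => Γ' t w := ite_re_loc (γ1 t) (γ2 t) w (hre w (hVK' hw)).1
      exact ((differentiableAt_const (Γ' t w)).congr_of_eventuallyEq this).differentiableWithinAt
    · refine (App.const isUnit_one (mul_one e)).congr (fun w _ => ?_)
      simp only [hΓ', g12, g22, ite_self]
  have key : App e K (Γ 1) := by
    refine app_homotopy hee hK'c hKV hVK' hRK (Γ := Γ) ?_ ?_ ?_ ?_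
    · refine hG.continuousOn.comp (f := fun p : ℝ × ℂ => w0 p.2 + (p.1 : ℂ) * (p.2 - w0 p.2)) ?_ ?_
      · have hw0c' : ContinuousOn (fun p : ℝ × ℂ => w0 p.2) (Icc 0 1 ×ˢ K') :=
          hw0c.comp continuous_snd.continuousOn (fun p hp => hp.2)
        exact hw0c'.add ((by fun_prop : Continuous fun p : ℝ × ℂ => (p.1 : ℂ)).continuousOn.mul
          (continuous_snd.continuousOn.sub hw0c'))
      · rintro ⟨t, w⟩ ⟨ht, hw⟩
        exact hmaps t ht w hw
    · intro t ht w hw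
      exact hu _ (hmaps t ht w hw)
    · intro t ht
      have hd := hw0d.mono hVK'
      refine hG.comp (hd.add ((differentiableOn_const (t : ℂ)).mul (differentiableOn_id.sub hd)))
        (fun w hw => hmaps t ht w (hVK' hw))
    · refine key1.congr (fun w hw => ?_)
      simp only [hΓ, hΓ', hw0, g13, g23]
      by_cases h : 0 < w.re
      · simp [h]
      · simp [h]
  refine key.congr (fun w _ => ?_)
  simp [hΓ]

end Pool.Agent.Work.MP_77a596_an
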