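import Pool.Agent.Work.MP_77a596_an.Levi3
import Pool.Agent.Work.MP_77a596_an.GoodR

set_option autoImplicit false
set_option linter.unusedVariables false
set_option linter.unusedSectionVars false

open Set Metric Filter Topology MeasureTheory Complex

namespace Pool.Agent.Work.MP_77a596_an

universe u

theorem spec_MM {k : ℕ} (x : MM k) : (spectrum ℂ x).Finite := by
  rw [← AlgEquiv.spectrum_eq (Module.End.toContinuousLinearMap (𝕜 := ℂ) (VV k)).symm x]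
  exact Module.End.finite_spectrum _

theorem frame_cancel {k : ℕ} {D : Coc.{u, 0} (ℂ × ℂ) (MM k) (eE k)} {W : Set ((ℂ × ℂ) × ℂ)}
    {m : D.ι → (ℂ × ℂ) × ℂ → MM k} (h : D.Frame W m) {x : (ℂ × ℂ) × ℂ} (hx : x ∈ W) {a b : MM k}
    (hab : ∀ i, x ∈ D.U i → m i x * a = m i x * b) : a = b := by
  obtain ⟨i, hi⟩ := h.cover x hx
  have h1 := (h.unit i x ⟨hx, hi⟩).1
  have h2 := hab i hi
  calc a = Ring.inverse (m i x) * (m i x * a) := by
        rw [← mul_assoc, Ring.inverse_mul_cancel _ h1, one_mul]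
    _ = b := by rw [h2, ← mul_assoc, Ring.inverse_mul_cancel _ h1, one_mul]

theorem main_section {k : ℕ} (D : Coc.{u, 0} (ℂ × ℂ) (MM k) (eE k))
    (hcov : ∀ x : (ℂ × ℂ) × ℂ, 1 < ‖x.1.1‖ ^ 2 + ‖x.1.2‖ ^ 2 + ‖x.2‖ ^ 2 → ∃ i, x ∈ D.U i) :
    ∃ q : ℂ × ℂ, ‖q.1‖ ^ 2 + ‖q.2‖ ^ 2 = 1 ∧ ∃ r > 0, ∃ F : D.ι → (ℂ × ℂ) × ℂ → VV k,
      (∀ i, ContinuousOn (F i) ((ball q r ×ˢ AA) ∩ D.U i)) ∧
      (∀ i j x, x ∈ ball q r ×ˢ AA → x ∈ D.U i → x ∈ D.U j → F i x = D.g i j x (F j x)) ∧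
      (∀ i x, x ∈ ball q r ×ˢ AA → x ∈ D.U i → (F i x).2 = 1) ∧
      (∀ x ∈ ball q r ×ˢ AA, ∃ i, x ∈ D.U i) ∧
      ∀ y ∈ ball q r, 1 < ‖y.1‖ ^ 2 + ‖y.2‖ ^ 2 → ∃ s : D.ι → ℂ → VV k,
        (∀ i, DifferentiableOn ℂ (s i) {w | w ∈ ball (0 : ℂ) (37 / 20) ∧ (y, w) ∈ D.U i}) ∧
        (∀ i j w, w ∈ ball (0 : ℂ) (37 / 20) → (y, w) ∈ D.U i → (y, w) ∈ D.U j →
          s i w = D.g i j (y, w) (s j w)) ∧
        (∀ i w, w ∈ ball (0 : ℂ) (37 / 20) → (y, w) ∈ D.U i → (s i w).2 = 1) ∧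
        ∀ i, ∀ w ∈ AA, (y, w) ∈ D.U i → s i w = F i (y, w) := by
  have hprop : ProperSpace (MM k) := FiniteDimensional.proper ℂ _
  obtain ⟨r2, hr2, θ2, hθ2, f2, hf2⟩ := good_annulus (D := D) eE_eE spec_MM (y := ((0, 1) : ℂ × ℂ))
    (fun w hw => hcov _ (by
      have : 0 < ‖w‖ := norm_pos_iff.2 hw
      simp only [norm_zero, norm_one]
      nlinarith))
  have hann2 : ann (3 / 2) 2 ⊆ thick (QU ∪ Rc (-1) 1 (-2) (-1)) θ2 := fun w hw =>
    subset_thick hθ2 (annulus_subset hw.1 hw.2)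
  set ε : ℝ := min r2 1 / 2 with hε
  have hε0 : 0 < ε := by positivity
  have hε1 : ε ≤ 1 / 2 := by rw [hε]; linarith [min_le_right r2 1]
  have hεr : ε < r2 := by
    have : min r2 1 ≤ r2 := min_le_left _ _
    rw [hε]; linarith
  set δ : ℝ := ε ^ 2 / 16 with hδ
  have hδ0 : 0 < δ := by positivity
  have hδε : δ ≤ ε := by rw [hδ]; nlinarith
  obtain ⟨DD, hDD⟩ : ∃ DD : Set ℂ, DD = ball (1 : ℂ) δ := ⟨_, rfl⟩
  have hDnorm : ∀ c ∈ DD, 1 < (ε / 2) ^ 2 + ‖c‖ ^ 2 := by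
    intro c hc
    rw [hDD, mem_ball, dist_eq_norm] at hc
    have h1 : 1 - δ ≤ ‖c‖ := by
      have := norm_sub_norm_le (1 : ℂ) c
      rw [norm_one, norm_sub_rev] at this
      linarith
    have h2 : (1 - δ) ^ 2 ≤ ‖c‖ ^ 2 := by
      gcongr
      rw [hδ]; nlinarith
    nlinarith
  have hbox : ∀ y : ℂ × ℂ, ‖y.1‖ < ε → y.2 ∈ DD → y ∈ ball ((0, 1) : ℂ × ℂ) r2 := by
    intro y h1 h2
    rw [hDD, mem_ball] at h2
    rw [mem_ball, Prod.dist_eq, max_lt_iff]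
    exact ⟨by rw [dist_zero_right]; linarith, by simp only; linarith⟩
  have hYo : IsOpen (Yset ε DD) := isOpen_Yset (by rw [hDD]; exact isOpen_ball)
  -- inside frames
  have hin : ∀ y : ℂ × ℂ, ∃ (ρ : ℝ) (m : D.ι → (ℂ × ℂ) × ℂ → MM k), y ∈ Yset ε DD →
      0 < ρ ∧ ball y ρ ⊆ Yset ε DD ∧ D.Frame (ball y ρ ×ˢ ball (0 : ℂ) 2) m := by
    intro y
    by_cases hy : y ∈ Yset ε DD
    · obtain ⟨r, hr, θ, hθ, m, hm⟩ := good_rect (D := D) eE_eE (y := y) (a := -2) (b := 2) (c := -2)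
        (d := 2) (by norm_num) (by norm_num) (fun w _ => hcov _ (by
          have := hy.2.2
          simp only
          nlinarith [sq_nonneg ‖w‖]))
      obtain ⟨r', hr', hr'2⟩ := Metric.isOpen_iff.1 hYo y hy
      refine ⟨min r r', m, fun _ => ⟨by positivity,
        (ball_subset_ball (min_le_right _ _)).trans hr'2, hm.mono (prod_mono
        (ball_subset_ball (min_le_left _ _)) ?_)⟩⟩
      intro w hw
      rw [mem_ball_zero_iff] at hw
      exact subset_thick hθ (disc_subset hw.le)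
    · exact ⟨0, 0, fun h => absurd h hy⟩
  choose ρ m hm using hin
  have hann : ∀ {w : ℂ}, w ∈ ann (3 / 2) 2 → w ∈ ball (0 : ℂ) 2 := fun hw => by
    rw [mem_ball_zero_iff]; exact hw.2
  -- transitions to the outer frame
  have htr : ∀ y : ℂ × ℂ, ∃ T : (ℂ × ℂ) × ℂ → MM k, y ∈ Yset ε DD →
      NC T (ball y (ρ y) ×ˢ ann (3 / 2) 2) ∧
      (∀ x ∈ ball y (ρ y) ×ˢ ann (3 / 2) 2, IsUnit (T x) ∧ eE k * T x = eE k) ∧
      ∀ i, ∀ x ∈ ball y (ρ y) ×ˢ ann (3 / 2) 2, x ∈ D.U i → f2 i x = m y i x * T x := by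
    intro y
    by_cases hy : y ∈ Yset ε DD
    · obtain ⟨h1, h2, h3⟩ := hm y hy
      obtain ⟨T, hT1, hT2, hT3⟩ := hf2.trans h3
      have hsub : ball y (ρ y) ×ˢ ann (3 / 2) 2 ⊆ (ball ((0, 1) : ℂ × ℂ) r2 ×ˢ
          thick (QU ∪ Rc (-1) 1 (-2) (-1)) θ2) ∩ (ball y (ρ y) ×ˢ ball (0 : ℂ) 2) := by
        rintro ⟨z, w⟩ ⟨hz, hw⟩
        have hzY := h2 hz
        exact ⟨⟨hbox z hzY.1 hzY.2.1, hann2 hw⟩, hz, hann hw⟩
      exact ⟨T, fun _ => ⟨hT1.mono hsub, fun x hx => hT2 x (hsub hx),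
        fun i x hx hi => hT3 i x (hsub hx).1 (hsub hx).2 hi⟩⟩
    · exact ⟨0, fun h => absurd h hy⟩
  choose T hT using htr
  set y0 : ℂ × ℂ := (((ε / 2 : ℝ) : ℂ), 1) with hy0
  have hy0Y : y0 ∈ Yset ε DD := by
    have hn : ‖((ε / 2 : ℝ) : ℂ)‖ = ε / 2 := by
      rw [Complex.norm_real, Real.norm_eq_abs, abs_of_pos (by positivity)]
    refine ⟨by simp only [hy0]; rw [hn]; linarith, by rw [hDD]; exact mem_ball_self hδ0, ?_⟩
    simp only [hy0]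
    rw [hn, norm_one]
    nlinarith
  have hT0 : ∀ w ∈ ann (3 / 2) 2, IsUnit (T y0 (y0, w)) ∧ eE k * T y0 (y0, w) = eE k := fun w hw =>
    (hT y0 hy0Y).2.1 (y0, w) ⟨mem_ball_self (hm y0 hy0Y).1, hw⟩
  have hT0d : DifferentiableOn ℂ (fun w => T y0 (y0, w)) (ann (3 / 2) 2) :=
    (hT y0 hy0Y).1.2 (fun w => (y0, w)) _ (isOpen_ann _ _) (by fun_prop)
      (fun w hw => ⟨mem_ball_self (hm y0 hy0Y).1, hw⟩)
  set G0 : ℂ → MM k := fun w => Ring.inverse (T y0 (y0, w)) with hG0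
  have hG0d : DifferentiableOn ℂ G0 (ann (3 / 2) 2) := diffOn_ringInverse hT0d (fun w hw => (hT0 w hw).1)
  have hG0u : ∀ w ∈ ann (3 / 2) 2, IsUnit (G0 w) ∧ eE k * G0 w = eE k := fun w hw =>
    ⟨(hT0 w hw).1.ringInverse, aff_inv (hT0 w hw).1 (hT0 w hw).2⟩
  let A : AD k (Yset ε DD) :=
    { G := fun y x => T y x * G0 x.2
      r := ρ
      hr := fun y hy => (hm y hy).1
      hsub := fun y hy => (hm y hy).2.1
      nc := fun y hy => (hT y hy).1.mul (NC.of_differentiableOn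
        (hG0d.comp differentiable_snd.differentiableOn (fun x hx => hx.2)))
      unit := fun y hy x hx => by
        have h1 := (hT y hy).2.1 x hx
        have h2 := hG0u x.2 hx.2
        exact ⟨h1.1.mul h2.1, by rw [← mul_assoc, h1.2, h2.2]⟩
      comp := by
        intro y1 h1 y2 h2 z hz1 hz2
        obtain ⟨κ, hκ1, hκ2, hκ3⟩ := (hm y2 h2).2.2.trans (hm y1 h1).2.2
        refine ⟨fun w => κ (z, w), ?_, ?_⟩
        · exact hκ1.2 (fun w => (z, w)) _ isOpen_ball (by fun_prop)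
            (fun w hw => ⟨⟨hz2, hw⟩, hz1, hw⟩)
        · intro w hw
          have h3 : T y1 (z, w) = κ (z, w) * T y2 (z, w) := by
            refine frame_cancel (hm y1 h1).2.2 (x := (z, w)) ⟨hz1, hann hw⟩ (fun i hi => ?_)
            rw [← (hT y1 h1).2.2 i (z, w) ⟨hz1, hw⟩ hi, (hT y2 h2).2.2 i (z, w) ⟨hz2, hw⟩ hi,
              hκ3 i (z, w) ⟨hz2, hann hw⟩ ⟨hz1, hann hw⟩ hi, mul_assoc]
          simp only
          rw [h3, mul_assoc] }
  have hA0 : ∀ w ∈ ann (3 / 2) 2, A.G y0 (y0, w) = 1 := by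
    intro w hw
    show T y0 (y0, w) * Ring.inverse (T y0 (y0, w)) = 1
    rw [Ring.mul_inverse_cancel _ (hT0 w hw).1]
  have hpre : IsPreconnected (Yset ε DD) := isPreconnected_Yset (ε1 := ε / 2) (by positivity)
    (by linarith) (by rw [hDD]; exact (convex_ball _ _).isPreconnected) hDnorm
  obtain ⟨gd⟩ := exists_GD (A.gen hpre hy0Y hA0)
  obtain ⟨q, hq1, hq2, hq3, r, hr, hrsub, bt, hbt1, hbt2, hbt3⟩ := levi (ε1 := ε / 2) (by positivity)
    (by linarith) hδ0 hDD hDnorm A gd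
  have hAann : AA ⊆ ann (3 / 2) 2 := ann_mono (by norm_num) (by norm_num)
  have hsub2 : ball q r ×ˢ AA ⊆ ball ((0, 1) : ℂ × ℂ) r2 ×ˢ thick (QU ∪ Rc (-1) 1 (-2) (-1)) θ2 := by
    rintro ⟨z, w⟩ ⟨hz, hw⟩
    exact ⟨hbox z (hrsub z hz).1 (hrsub z hz).2, hann2 (hAann hw)⟩
  have hG0c : ContinuousOn (fun x : (ℂ × ℂ) × ℂ => G0 x.2) (ball q r ×ˢ AA) :=
    hG0d.continuousOn.comp continuous_snd.continuousOn (fun x hx => hAann hx.2)
  refine ⟨q, hq3, r, hr, fun i x => (f2 i x * G0 x.2) (bt x, 1), ?_, ?_, ?_, ?_, ?_⟩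
  · intro i
    have e1 : ContinuousOn (f2 i) ((ball q r ×ˢ AA) ∩ D.U i) :=
      (hf2.nc i).1.mono (fun x hx => ⟨hsub2 hx.1, hx.2⟩)
    exact (e1.mul (hG0c.mono inter_subset_left)).clm_apply
      ((hbt1.mono inter_subset_left).prodMk continuousOn_const)
  · intro i j x hx hi hj
    simp only
    rw [hf2.comp i j x (hsub2 hx) hi hj]
    rfl
  · intro i x hx hi
    have h1 : eE k * (f2 i x * G0 x.2) = eE k := by
      rw [← mul_assoc, (hf2.unit i x ⟨hsub2 hx, hi⟩).2, (hG0u x.2 (hAann hx.2)).2]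
    exact eE_mul_iff.1 h1 _
  · intro x hx
    exact hf2.cover x (hsub2 hx)
  · intro y hy hy1
    have hyY : y ∈ Yset ε DD := ⟨(hrsub y hy).1, (hrsub y hy).2, hy1⟩
    have hsol := hbt3 y hy hy1
    obtain ⟨hρ, hρ2, hfr⟩ := hm y hyY
    have hyb : y ∈ ball y (ρ y) := mem_ball_self hρ
    have hu : DifferentiableOn ℂ (fun w => A.G y (y, w) (bt (y, w), 1)) AA := by
      have h1 : DifferentiableOn ℂ (fun w => A.G y (y, w)) AA :=
        (A.nc y hyY).2 (fun w => (y, w)) _ (isOpen_ann _ _) (by fun_prop)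
          (fun w hw => ⟨hyb, hAann hw⟩)
      exact h1.clm_apply ((hbt2 y hy).prodMk (differentiableOn_const 1))
    obtain ⟨U, hU1, hU2⟩ := extend_in (a := 33 / 20) (b := 37 / 20) (R := 7 / 4)
      (by norm_num) (by norm_num) (by norm_num) hu hsol
    have hbb : ball (0 : ℂ) (37 / 20) ⊆ ball 0 2 := ball_subset_ball (by norm_num)
    have hU3 : ∀ w ∈ ball (0 : ℂ) (37 / 20), (U w).2 = 1 := by
      have hd : DifferentiableOn ℂ (fun w => (U w).2 - 1) (ball 0 (37 / 20)) := hU1.snd.sub_const 1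
      intro w hw
      have h1 := NC.identity isOpen_ball (convex_ball _ _) (NC.of_differentiableOn hd)
        (O := AA) (isOpen_ann _ _) ⟨7 / 4, by
          have : ‖(7 / 4 : ℂ)‖ = 7 / 4 := by norm_num
          exact ⟨by rw [this]; norm_num, by rw [this]; norm_num⟩⟩
        (fun z hz => by rw [mem_ball_zero_iff]; exact hz.2) (fun z hz => by
          rw [hU2 z hz, sub_eq_zero]
          exact eE_mul_iff.1 (A.unit y hyY (y, z) ⟨hyb, hAann hz⟩).2 _) w hw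
      exact sub_eq_zero.1 h1
    refine ⟨fun i w => m y i (y, w) (U w), ?_, ?_, ?_, ?_⟩
    · intro i
      have hSo : IsOpen {w : ℂ | w ∈ ball (0 : ℂ) (37 / 20) ∧ (y, w) ∈ D.U i} :=
        isOpen_ball.inter ((D.hU i).preimage (by fun_prop : Continuous fun w : ℂ => (y, w)))
      have h1 : DifferentiableOn ℂ (fun w => m y i (y, w))
          {w | w ∈ ball (0 : ℂ) (37 / 20) ∧ (y, w) ∈ D.U i} :=
        (hfr.nc i).2 (fun w => (y, w)) _ hSo (by fun_prop) (fun w hw => ⟨⟨hyb, hbb hw.1⟩, hw.2⟩)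
      exact h1.clm_apply (hU1.mono (fun w hw => hw.1))
    · intro i j w hw hi hj
      simp only
      rw [hfr.comp i j (y, w) ⟨hyb, hbb hw⟩ hi hj]
      rfl
    · intro i w hw hi
      simp only
      rw [eE_mul_iff.1 (hfr.unit i (y, w) ⟨⟨hyb, hbb hw⟩, hi⟩).2, hU3 w hw]
    · intro i w hw hi
      simp only
      rw [hU2 w hw, (hT y hyY).2.2 i (y, w) ⟨hyb, hAann hw⟩ hi, mul_assoc]
      rfl

end Pool.Agent.Work.MP_77a596_an
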